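import Mathlib

set_option autoImplicit false

namespace Pool.Agent.Helper940.NoMean

/-- a left-invariant finitely additive probability measure on all subsets -/
structure IsMean {G : Type*} [Group G] (m : Set G → ℝ) : Prop where
  univ : m Set.univ = 1
  nonneg : ∀ A, 0 ≤ m A
  add : ∀ A B : Set G, Disjoint A B → m (A ∪ B) = m A + m B
  inv : ∀ (g : G) (A : Set G), m ((fun x => g * x) '' A) = m A

theorem IsMean.empty {G : Type*} [Group G] {m : Set G → ℝ} (hm : IsMean m) : m ∅ = 0 := by
  have := hm.add ∅ ∅ (by simp)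
  simp at this
  linarith

theorem IsMean.mono {G : Type*} [Group G] {m : Set G → ℝ} (hm : IsMean m) {A B : Set G}
    (h : A ⊆ B) : m A ≤ m B := by
  have h1 := hm.add A (B \ A) Set.disjoint_sdiff_right
  rw [Set.union_sdiff_cancel h] at h1
  have := hm.nonneg (B \ A)
  linarith

theorem IsMean.sum {G : Type*} [Group G] {m : Set G → ℝ} (hm : IsMean m) {ι : Type*}
    (s : Finset ι) (B : ι → Set G) (hB : ∀ i ∈ s, ∀ j ∈ s, i ≠ j → Disjoint (B i) (B j)) :
    m (⋃ i ∈ s, B i) = ∑ i ∈ s, m (B i) := by
  classical
  induction s using Finset.induction_on with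
  | empty => simp [hm.empty]
  | insert a s ha ih =>
    rw [Finset.set_biUnion_insert, Finset.sum_insert ha, hm.add, ih]
    · intro i hi j hj hij
      exact hB i (Finset.mem_insert_of_mem hi) j (Finset.mem_insert_of_mem hj) hij
    · rw [Set.disjoint_iUnion₂_right]
      intro i hi
      apply hB a (Finset.mem_insert_self a s) i (Finset.mem_insert_of_mem hi)
      rintro rfl
      exact ha hi

/-- A paradoxical map excludes invariant means. -/
theorem no_mean_of_injection {G : Type*} [Group G] (K : Finset G) (f : G × Bool → G)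
    (hf : Function.Injective f) (hK : ∀ x : G × Bool, ∃ k ∈ K, f x = k * x.1) {m : Set G → ℝ}
    (hm : IsMean m) : False := by
  classical
  let D : G → Bool → Set G := fun k j => {h | f (h, j) = k * h}
  have h1 : ∀ j : Bool, ∑ k ∈ K, m (D k j) = 1 := by
    intro j
    rw [← hm.sum K (fun k => D k j)]
    · rw [← hm.univ]
      congr 1
      apply Set.eq_univ_of_forall
      intro h
      obtain ⟨k, hk, e⟩ := hK (h, j)
      rw [Set.mem_iUnion₂]
      exact ⟨k, hk, e⟩
    · intro k _ k' _ hne
      rw [Set.disjoint_left]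
      intro h hh hh'
      apply hne
      have e1 : f (h, j) = k * h := hh
      have e2 : f (h, j) = k' * h := hh'
      exact mul_right_cancel (e1.symm.trans e2)
  have h2 : ∑ x ∈ K ×ˢ (Finset.univ : Finset Bool), m (D x.1 x.2) = 2 := by
    rw [Finset.sum_product_right]
    simp only [h1]
    simp
  have h3 : ∑ x ∈ K ×ˢ (Finset.univ : Finset Bool), m (D x.1 x.2) ≤ 1 := by
    calc ∑ x ∈ K ×ˢ (Finset.univ : Finset Bool), m (D x.1 x.2)
        = ∑ x ∈ K ×ˢ (Finset.univ : Finset Bool), m ((fun y => x.1 * y) '' D x.1 x.2) := by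
          refine Finset.sum_congr rfl (fun x _ => (hm.inv _ _).symm)
      _ = m (⋃ x ∈ K ×ˢ (Finset.univ : Finset Bool), (fun y => x.1 * y) '' D x.1 x.2) := by
          rw [hm.sum]
          rintro ⟨k, j⟩ _ ⟨k', j'⟩ _ hne
          rw [Set.disjoint_left]
          rintro z ⟨h, hh, rfl⟩ ⟨h', hh', e⟩
          apply hne
          have e1 : f (h, j) = k * h := hh
          have e2 : f (h', j') = k' * h' := hh'
          have e3 : f (h, j) = f (h', j') := by
            rw [e1, e2]; exact e.symm
          have e4 := hf e3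
          rw [Prod.mk.injEq] at e4
          obtain ⟨rfl, rfl⟩ := e4
          rw [e1] at e2
          rw [mul_right_cancel e2]
      _ ≤ m Set.univ := hm.mono (Set.subset_univ _)
      _ = 1 := hm.univ
  linarith

open Pointwise in
/-- Doubling excludes invariant means. -/
theorem no_mean_of_doubling {G : Type*} [Group G] [DecidableEq G] (K : Finset G)
    (hK : ∀ A : Finset G, 2 * A.card ≤ (A * K).card) {m : Set G → ℝ} (hm : IsMean m) : False := by
  classical
  let t : G × Bool → Finset G := fun x => K.image (fun k => x.1 * k)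
  have hall : ∀ s : Finset (G × Bool), s.card ≤ (s.biUnion t).card := by
    intro s
    let A : Finset G := s.image Prod.fst
    have h1 : s.card ≤ 2 * A.card := by
      have hsub : s ⊆ A ×ˢ (Finset.univ : Finset Bool) := by
        intro x hx
        rw [Finset.mem_product]
        exact ⟨Finset.mem_image_of_mem _ hx, Finset.mem_univ _⟩
      have := Finset.card_le_card hsub
      rw [Finset.card_product, Finset.card_univ, Fintype.card_bool] at this
      omega
    have h2 : A * K ⊆ s.biUnion t := by
      intro z hz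
      obtain ⟨a, ha, k, hk, rfl⟩ := Finset.mem_mul.1 hz
      obtain ⟨x, hx, rfl⟩ := Finset.mem_image.1 ha
      rw [Finset.mem_biUnion]
      exact ⟨x, hx, Finset.mem_image_of_mem _ hk⟩
    exact h1.trans ((hK A).trans (Finset.card_le_card h2))
  obtain ⟨f0, hf0, hf0t⟩ := (Finset.all_card_le_biUnion_card_iff_exists_injective t).1 hall
  refine no_mean_of_injection (K.image (fun k => k⁻¹)) (fun x => (f0 (x.1⁻¹, x.2))⁻¹) ?_ ?_ hm
  · intro x y hxy
    have h1 := hf0 (inv_injective hxy)
    rw [Prod.mk.injEq] at h1
    exact Prod.ext (inv_injective h1.1) h1.2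
  · intro x
    obtain ⟨k, hk, e⟩ := Finset.mem_image.1 (hf0t (x.1⁻¹, x.2))
    refine ⟨k⁻¹, Finset.mem_image_of_mem _ hk, ?_⟩
    rw [← e]
    simp

/-- A mean on a group induces a mean on every subgroup (given by an injective homomorphism). -/
theorem mean_restrict {G H : Type*} [Group G] [Group H] (ι : H →* G) (hι : Function.Injective ι)
    {m : Set G → ℝ} (hm : IsMean m) : ∃ m' : Set H → ℝ, IsMean m' := by
  classical
  -- an equivariant map from G to H
  have hπ : ∃ π : G → H, ∀ (h : H) (g : G), π (ι h * g) = h * π g := by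
    let q : G → Quotient (QuotientGroup.rightRel ι.range) := fun g => Quotient.mk _ g
    have hq : ∀ g, ∃ h : H, ι h = g * (Quotient.out (q g))⁻¹ := by
      intro g
      have h1 : (QuotientGroup.rightRel ι.range) (Quotient.out (q g)) g :=
        Quotient.exact (Quotient.out_eq (q g))
      rw [QuotientGroup.rightRel_apply] at h1
      exact h1
    choose π hπ using hq
    refine ⟨π, fun h g => hι ?_⟩
    have hqe : q (ι h * g) = q g := by
      apply Quotient.sound
      change (QuotientGroup.rightRel ι.range) (ι h * g) g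
      rw [QuotientGroup.rightRel_apply]
      have : g * (ι h * g)⁻¹ = ι h⁻¹ := by
        rw [map_inv]; group
      rw [this]
      exact ⟨h⁻¹, rfl⟩
    rw [hπ, hqe, map_mul, hπ, mul_assoc]
  obtain ⟨π, hπ⟩ := hπ
  refine ⟨fun B => m (π ⁻¹' B), ⟨?_, ?_, ?_, ?_⟩⟩
  · simp only [Set.preimage_univ]; exact hm.univ
  · intro A; exact hm.nonneg _
  · intro A B hAB
    simp only [Set.preimage_union]
    exact hm.add _ _ (hAB.preimage π)
  · intro h A
    have : π ⁻¹' ((fun x => h * x) '' A) = (fun x => ι h * x) '' (π ⁻¹' A) := by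
      ext g
      constructor
      · rintro ⟨a, ha, e⟩
        refine ⟨(ι h)⁻¹ * g, ?_, by simp⟩
        change π ((ι h)⁻¹ * g) ∈ A
        rw [← map_inv, hπ, ← e]
        simpa using ha
      · rintro ⟨g', hg', rfl⟩
        exact ⟨π g', hg', (hπ h g').symm⟩
    simp only [this]
    exact hm.inv _ _

end Pool.Agent.Helper940.NoMean
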