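import Mathlib

set_option autoImplicit false

/-!
A residually finite 2-group that is torsion and satisfies a strong isoperimetric inequality.
-/

namespace Pool.Agent.Helper940.NonAmen

open Multiplicative

abbrev F : Type := FreeGroup (Fin 2)

/-- enumeration of the free group -/
noncomputable def en : ℕ → F := (exists_surjective_nat F).choose

theorem en_surj : Function.Surjective en := (exists_surjective_nat F).choose_spec

/-- the homomorphisms satisfying all torsion relations -/
def Good {Q : Type} [Group Q] (ρ : F →* Q) : Prop := ∀ i, ρ (en i) ^ (2^(i+2)) = 1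

theorem Good.comp {Q Q' : Type} [Group Q] [Group Q'] {ρ : F →* Q} (h : Good ρ) (j : Q →* Q') :
    Good (j.comp ρ) := by
  intro i
  rw [MonoidHom.comp_apply, ← map_pow, h i, map_one]

/-- the intersection of the kernels of all good homomorphisms to finite 2-groups -/
def Rhat : Subgroup F where
  carrier := {w | ∀ (Q : Type) [Group Q] [Finite Q], IsPGroup 2 Q → ∀ ρ : F →* Q, Good ρ → ρ w = 1}
  one_mem' := by
    intro Q _ _ _ ρ _
    exact map_one ρ
  mul_mem' := by
    intro a b ha hb Q _ _ hQ ρ hρ
    rw [map_mul, ha Q hQ ρ hρ, hb Q hQ ρ hρ, one_mul]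
  inv_mem' := by
    intro a ha Q _ _ hQ ρ hρ
    rw [map_inv, ha Q hQ ρ hρ, inv_one]

theorem mem_Rhat {w : F} : w ∈ Rhat ↔ ∀ (Q : Type) [Group Q] [Finite Q], IsPGroup 2 Q →
    ∀ ρ : F →* Q, Good ρ → ρ w = 1 := Iff.rfl

instance : Rhat.Normal := by
  constructor
  intro n hn g Q _ _ hQ ρ hρ
  rw [map_mul, map_mul, hn Q hQ ρ hρ, mul_one, map_inv, mul_inv_cancel]

theorem isPGroup_prod {Q Q' : Type} [Group Q] [Group Q'] (h : IsPGroup 2 Q) (h' : IsPGroup 2 Q') :
    IsPGroup 2 (Q × Q') := by
  rintro ⟨a, b⟩
  obtain ⟨k, hk⟩ := h a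
  obtain ⟨l, hl⟩ := h' b
  refine ⟨k + l, ?_⟩
  ext
  · simp only [Prod.pow_mk, Prod.fst_one]
    rw [pow_add, pow_mul, hk, one_pow]
  · simp only [Prod.pow_mk, Prod.snd_one]
    rw [pow_add, mul_comm, pow_mul, hl, one_pow]

/-- Finitely many elements outside `Rhat` are detected by one good finite quotient. -/
theorem sep (T : Finset F) (hT : ∀ t ∈ T, t ∉ Rhat) :
    ∃ (Q : Type) (_ : Group Q) (_ : Finite Q) (ρ : F →* Q), IsPGroup 2 Q ∧ Good ρ ∧
      ∀ t ∈ T, ρ t ≠ 1 := by
  classical
  induction T using Finset.induction_on with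
  | empty =>
    refine ⟨Unit, inferInstance, inferInstance, 1, ?_, ?_, ?_⟩
    · intro g; exact ⟨0, rfl⟩
    · intro i; rfl
    · intro t ht; simp at ht
  | insert t T ht ih =>
    obtain ⟨Q, _, _, ρ, hQ, hρ, hne⟩ := ih (fun s hs => hT s (Finset.mem_insert_of_mem hs))
    have h1 := hT t (Finset.mem_insert_self t T)
    rw [mem_Rhat] at h1
    push Not at h1
    obtain ⟨Q', _, _, hQ', ρ', hρ', hne'⟩ := h1
    refine ⟨Q × Q', inferInstance, inferInstance, ρ.prod ρ', isPGroup_prod hQ hQ', ?_, ?_⟩
    · intro i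
      ext
      · simpa using hρ i
      · simpa using hρ' i
    · intro s hs h
      have h2 := Prod.ext_iff.1 h
      rcases Finset.mem_insert.1 hs with rfl | hs
      · exact hne' (by simpa using h2.2)
      · exact hne s hs (by simpa using h2.1)

section wreath

variable {D D' Q : Type} [Group D] [Group D'] [Group Q]

/-- functoriality of the wreath product in the base -/
def mapLeft (f : D →* D') : RegularWreathProduct D Q →* RegularWreathProduct D' Q where
  toFun a := ⟨fun q => f (a.left q), a.right⟩
  map_one' := by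
    ext
    · simp
    · simp
  map_mul' a b := by
    ext
    · simp
    · simp

end wreath

section linear

variable {Q : Type} [Group Q] [Finite Q] (ρ : F →* Q)

/-- the space with one coordinate for every edge -/
abbrev V (Q : Type) : Type := Q × Fin 2 → ZMod 2

open Classical in
/-- the universal cocycle -/
noncomputable def R0 : F →* RegularWreathProduct (Multiplicative (V Q)) Q :=
  FreeGroup.lift (fun i => ⟨fun q => ofAdd (Pi.single (q, i) 1), ρ (FreeGroup.of i)⟩)

theorem R0_right (w : F) : (R0 ρ w).right = ρ w := by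
  have : (RegularWreathProduct.rightHom).comp (R0 ρ) = ρ := by
    ext i
    simp [R0]
  exact DFunLike.congr_fun this w

/-- the sum of the edges along the path labelled by `w` -/
noncomputable def K (w : F) (q : Q) : V Q := toAdd ((R0 ρ w).left q)

theorem K_mul (w w' : F) (q : Q) : K ρ (w * w') q = K ρ w q + K ρ w' ((ρ w)⁻¹ * q) := by
  unfold K
  rw [map_mul, RegularWreathProduct.mul_left, R0_right]
  rfl

open Classical in
theorem K_of (i : Fin 2) (q : Q) : K ρ (FreeGroup.of i) q = Pi.single (q, i) 1 := by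
  unfold K R0
  rw [FreeGroup.lift_apply_of]
  rfl

theorem add_self_V (v : V Q) : v + v = 0 := by
  funext e
  exact CharTwo.add_self_eq_zero (v e)

/-- the values at relators -/
noncomputable def J (i : ℕ) (q : Q) : V Q := K ρ (en i ^ (2^(i+2))) q

theorem J_invariant (hρ : Good ρ) (i : ℕ) (q : Q) : J ρ i (ρ (en i) * q) = J ρ i q := by
  unfold J
  have h1 := K_mul ρ (en i) (en i ^ (2^(i+2))) (ρ (en i) * q)
  have h2 := K_mul ρ (en i ^ (2^(i+2))) (en i) (ρ (en i) * q)
  rw [← pow_succ'] at h1
  rw [← pow_succ] at h2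
  rw [h1] at h2
  have h3 : (ρ (en i ^ (2^(i+2))))⁻¹ = 1 := by rw [map_pow, hρ i, inv_one]
  rw [h3, one_mul, inv_mul_cancel_left, add_comm] at h2
  exact (add_right_cancel h2).symm

theorem J_zero (i : ℕ) (q : Q) (h : ρ (en i) ^ (2^(i+1)) = 1) : J ρ i q = 0 := by
  unfold J
  have e : (2:ℕ)^(i+2) = 2^(i+1) + 2^(i+1) := by ring
  rw [e, pow_add, K_mul, map_pow, h, inv_one, one_mul, add_self_V]

open Classical in
/-- the set of nonzero values at the relator `i` is small -/
theorem card_J [Fintype Q] (hρ : Good ρ) (i : ℕ) :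
    ((Finset.univ.image (J ρ i)).erase 0).card * 2^(i+2) ≤ Fintype.card Q := by
  by_cases h : ρ (en i) ^ (2^(i+1)) = 1
  · have : (Finset.univ.image (J ρ i)).erase 0 = ∅ := by
      apply Finset.eq_empty_of_forall_notMem
      intro v hv
      rw [Finset.mem_erase, Finset.mem_image] at hv
      obtain ⟨hv0, q, -, rfl⟩ := hv
      exact hv0 (J_zero ρ i q h)
    rw [this]; simp
  · have hord : orderOf (ρ (en i)) = 2^(i+2) := orderOf_eq_prime_pow h (hρ i)
    have hinv : ∀ (j : ℕ) (q : Q), J ρ i (ρ (en i) ^ j * q) = J ρ i q := by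
      intro j
      induction j with
      | zero => intro q; rw [pow_zero, one_mul]
      | succ j ih => intro q; rw [pow_succ, mul_assoc, ih, J_invariant ρ hρ]
    have hfib : ∀ v ∈ Finset.univ.image (J ρ i),
        2^(i+2) ≤ (Finset.univ.filter (fun q => J ρ i q = v)).card := by
      intro v hv
      obtain ⟨q, -, rfl⟩ := Finset.mem_image.1 hv
      calc 2^(i+2) = ((Finset.range (2^(i+2))).image (fun j => ρ (en i) ^ j * q)).card := by
            rw [Finset.card_image_of_injOn, Finset.card_range]
            intro a ha b hb hab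
            have hab' : ρ (en i) ^ a = ρ (en i) ^ b := mul_right_cancel hab
            apply pow_injOn_Iio_orderOf _ _ hab'
            · rw [hord]; simpa using ha
            · rw [hord]; simpa using hb
        _ ≤ _ := by
            apply Finset.card_le_card
            intro x hx
            obtain ⟨j, -, rfl⟩ := Finset.mem_image.1 hx
            rw [Finset.mem_filter]
            exact ⟨Finset.mem_univ _, hinv j q⟩
    have htot : Fintype.card Q =
        ∑ v ∈ Finset.univ.image (J ρ i), (Finset.univ.filter (fun q => J ρ i q = v)).card := by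
      have := Finset.card_eq_sum_card_image (J ρ i) (Finset.univ : Finset Q)
      simpa using this
    rw [htot]
    calc ((Finset.univ.image (J ρ i)).erase 0).card * 2^(i+2)
        ≤ (Finset.univ.image (J ρ i)).card * 2^(i+2) :=
          Nat.mul_le_mul_right _ (Finset.card_erase_le)
      _ = ∑ v ∈ Finset.univ.image (J ρ i), 2^(i+2) := by
          rw [Finset.sum_const, smul_eq_mul]
      _ ≤ _ := Finset.sum_le_sum hfib

/-- the span of the values at relators -/
noncomputable def U : Submodule (ZMod 2) (V Q) :=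
  Submodule.span (ZMod 2) {v | ∃ i q, v = J ρ i q}

open Classical in
theorem finrank_U [Fintype Q] (hρ : Good ρ) :
    2 * Module.finrank (ZMod 2) (U ρ) ≤ Fintype.card Q := by
  set n := Fintype.card Q with hn
  let T : ℕ → Finset (V Q) := fun i => (Finset.univ.image (J ρ i)).erase 0
  have hsub : U ρ ≤ Submodule.span (ZMod 2) (((Finset.range n).biUnion T : Finset (V Q)) :
      Set (V Q)) := by
    unfold U
    rw [Submodule.span_le]
    rintro v ⟨i, q, rfl⟩
    by_cases h0 : J ρ i q = 0
    · rw [h0]; exact Submodule.zero_mem _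
    · apply Submodule.subset_span
      rw [Finset.mem_coe, Finset.mem_biUnion]
      have hmem : J ρ i q ∈ T i := by
        rw [Finset.mem_erase]
        exact ⟨h0, Finset.mem_image_of_mem _ (Finset.mem_univ q)⟩
      refine ⟨i, ?_, hmem⟩
      rw [Finset.mem_range]
      have h1 : 1 ≤ (T i).card := Finset.card_pos.2 ⟨_, hmem⟩
      have h2 := card_J ρ hρ i
      have h3 : i < 2^(i+2) := (Nat.lt_two_pow_self).trans (Nat.pow_lt_pow_right (by norm_num) (by omega))
      calc i < 2^(i+2) := h3
        _ = 1 * 2^(i+2) := (one_mul _).symm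
        _ ≤ (T i).card * 2^(i+2) := Nat.mul_le_mul_right _ h1
        _ ≤ n := h2
  have h1 : Module.finrank (ZMod 2) (U ρ) ≤ ((Finset.range n).biUnion T).card :=
    (Submodule.finrank_mono hsub).trans (finrank_span_finset_le_card _)
  have h2 : ((Finset.range n).biUnion T).card ≤ ∑ i ∈ Finset.range n, (T i).card :=
    Finset.card_biUnion_le
  have h3 : ∀ m : ℕ, (2 : ℝ) * ∑ i ∈ Finset.range m, ((T i).card : ℝ) ≤ n * (1 - 1/2^m) := by
    intro m
    induction m with
    | zero => simp
    | succ m ih =>
      rw [Finset.sum_range_succ, mul_add]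
      have h4 : ((T m).card : ℝ) * 2^(m+2) ≤ n := by exact_mod_cast card_J ρ hρ m
      have h5 : ((T m).card : ℝ) ≤ n / 2^(m+2) := by
        rw [le_div_iff₀ (by positivity)]; exact h4
      have h6 : (n : ℝ) * (1 - 1/2^m) + 2 * (n / 2^(m+2)) = n * (1 - 1/2^(m+1)) := by
        rw [pow_succ, pow_add]
        field_simp
        ring
      linarith
  have h4 : (2 : ℝ) * ∑ i ∈ Finset.range n, ((T i).card : ℝ) ≤ n := by
    refine (h3 n).trans ?_
    have : (0:ℝ) ≤ n * (1/2^n) := by positivity
    linarith
  have h5 : 2 * ∑ i ∈ Finset.range n, (T i).card ≤ n := by exact_mod_cast h4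
  omega

/-- the quotient by the relator values -/
abbrev M : Type := V Q ⧸ U ρ

/-- the cocycle modulo relator values -/
noncomputable def R1 : F →* RegularWreathProduct (Multiplicative (M ρ)) Q :=
  (mapLeft (AddMonoidHom.toMultiplicative (U ρ).mkQ.toAddMonoidHom)).comp (R0 ρ)

theorem R1_right (w : F) : (R1 ρ w).right = ρ w := R0_right ρ w

theorem R1_left (w : F) (q : Q) : (R1 ρ w).left q = ofAdd ((U ρ).mkQ (K ρ w q)) := rfl

theorem R1_good (hρ : Good ρ) : Good (R1 ρ) := by
  intro i
  rw [← map_pow]
  ext q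
  · rw [R1_left]
    have : K ρ (en i ^ (2^(i+2))) q ∈ U ρ := Submodule.subset_span ⟨i, q, rfl⟩
    rw [Submodule.mkQ_apply, (Submodule.Quotient.mk_eq_zero _).2 this]
    rfl
  · rw [R1_right, map_pow, hρ i]
    rfl

theorem R1_pgroup (hQ : IsPGroup 2 Q) :
    IsPGroup 2 (RegularWreathProduct (Multiplicative (M ρ)) Q) := by
  classical
  letI : Fintype Q := Fintype.ofFinite Q
  have : Fact (Nat.Prime 2) := ⟨Nat.prime_two⟩
  obtain ⟨n, hn⟩ := IsPGroup.iff_card.1 hQ
  have : Finite (M ρ) := inferInstance
  letI : Fintype (M ρ) := Fintype.ofFinite _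
  have hM : Nat.card (Multiplicative (M ρ)) = 2 ^ Module.finrank (ZMod 2) (M ρ) := by
    rw [show Nat.card (Multiplicative (M ρ)) = Nat.card (M ρ) from rfl, Nat.card_eq_fintype_card,
      Module.card_eq_pow_finrank (K := ZMod 2), ZMod.card]
  apply IsPGroup.of_card (n := Module.finrank (ZMod 2) (M ρ) * Nat.card Q + n)
  rw [RegularWreathProduct.card, hM, pow_add, pow_mul]
  congr 1

end linear

end Pool.Agent.Helper940.NonAmen
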