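import Mathlib
import Pool.Agent.Helper940.NonAmen

set_option autoImplicit false

namespace Pool.Agent.Helper940.NonAmen

open Multiplicative

open Classical in
/-- the isoperimetric inequality: some generator moves at least a third of a finite set out of it -/
theorem iso_ineq (A : Finset (F ⧸ Rhat)) :
    ∃ i : Fin 2,
      3 * (A.filter (fun a => a * QuotientGroup.mk (FreeGroup.of i) ∈ A)).card ≤ 2 * A.card := by
  classical
  let T : Finset F := ((A ×ˢ A).image (fun p => (Quotient.out p.1)⁻¹ * Quotient.out p.2)).filter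
    (fun w => w ∉ Rhat)
  obtain ⟨Q, _, _, ρ, hQ, hρ, hsep⟩ := sep T (fun t ht => (Finset.mem_filter.1 ht).2)
  let _ : Fintype Q := Fintype.ofFinite Q
  let ρb : F ⧸ Rhat →* Q := QuotientGroup.lift Rhat ρ (fun w hw => hw Q hQ ρ hρ)
  have hρb : ∀ w : F, ρb (QuotientGroup.mk w) = ρ w := fun w => rfl
  have hinj : Set.InjOn ρb (A : Set (F ⧸ Rhat)) := by
    intro a ha b hb hab
    by_contra hne
    have h1 : (Quotient.out a)⁻¹ * Quotient.out b ∉ Rhat := by
      intro hmem
      apply hne
      have := QuotientGroup.eq.2 hmem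
      rwa [QuotientGroup.out_eq', QuotientGroup.out_eq'] at this
    have h2 : (Quotient.out a)⁻¹ * Quotient.out b ∈ T := by
      rw [Finset.mem_filter]
      exact ⟨Finset.mem_image_of_mem (fun p : (F ⧸ Rhat) × (F ⧸ Rhat) =>
        (Quotient.out p.1)⁻¹ * Quotient.out p.2) (Finset.mk_mem_product ha hb), h1⟩
    apply hsep _ h2
    rw [map_mul, map_inv, ← hρb, ← hρb, QuotientGroup.out_eq', QuotientGroup.out_eq', hab,
      inv_mul_cancel]
  let Rb : F ⧸ Rhat →* RegularWreathProduct (Multiplicative (M ρ)) Q :=
    QuotientGroup.lift Rhat (R1 ρ)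
      (fun w hw => hw _ (R1_pgroup ρ hQ) (R1 ρ) (R1_good ρ hρ))
  have hRb : ∀ w : F, Rb (QuotientGroup.mk w) = R1 ρ w := fun w => rfl
  have hRbr : ∀ a, (Rb a).right = ρb a := by
    intro a
    obtain ⟨w, rfl⟩ := QuotientGroup.mk_surjective a
    rw [hRb, hρb, R1_right]
  let kk : F ⧸ Rhat → Q → M ρ := fun a q => toAdd ((Rb a).left q)
  let v : Q × Fin 2 → M ρ := fun e => (U ρ).mkQ (Pi.single e 1)
  have hkk : ∀ (a : F ⧸ Rhat) (i : Fin 2) (q : Q),
      kk (a * QuotientGroup.mk (FreeGroup.of i)) q = kk a q + v ((ρb a)⁻¹ * q, i) := by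
    intro a i q
    simp only [kk, v]
    rw [map_mul, RegularWreathProduct.mul_left, hRbr, Pi.mul_apply, toAdd_mul]
    congr 1
    rw [hRb, R1_left, toAdd_ofAdd, K_of]
  -- a basis among the edge vectors
  obtain ⟨κ, α, hα, hspan, hli⟩ := exists_linearIndependent' (ZMod 2) v
  let _ : Fintype κ := Fintype.ofInjective α hα
  have hvtop : Submodule.span (ZMod 2) (Set.range v) = ⊤ := by
    have h1 : Set.range v = (U ρ).mkQ '' Set.range (fun e : Q × Fin 2 =>
        (Pi.single e 1 : V Q)) := by
      rw [← Set.range_comp]; rfl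
    have h2 : Submodule.span (ZMod 2) (Set.range (fun e : Q × Fin 2 =>
        (Pi.single e 1 : V Q))) = ⊤ := by
      have := (Pi.basisFun (ZMod 2) (Q × Fin 2)).span_eq
      rw [← this]
      congr 1
      ext x
      simp [Pi.basisFun_apply]
    rw [h1, Submodule.span_image, h2, Submodule.map_top, Submodule.range_mkQ]
  have hcard : Fintype.card κ = Module.finrank (ZMod 2) (M ρ) := by
    have hb := Module.finrank_eq_card_basis (Module.Basis.mk hli (by rw [hspan, hvtop]))
    exact hb.symm
  have hfr : Module.finrank (ZMod 2) (M ρ) + Module.finrank (ZMod 2) (U ρ) =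
      2 * Fintype.card Q := by
    rw [Submodule.finrank_quotient_add_finrank, Module.finrank_fintype_fun_eq_card,
      Fintype.card_prod, Fintype.card_fin, mul_comm]
  have hU := finrank_U ρ hρ
  have hκ : 3 * Fintype.card Q ≤ 2 * Fintype.card κ := by omega
  -- edges inside translates
  let cond : κ → Q → Prop := fun k q =>
    ∃ a ∈ A, a * QuotientGroup.mk (FreeGroup.of (α k).2) ∈ A ∧ (ρb a)⁻¹ * q = (α k).1
  have hBq : ∀ q : Q, (Finset.univ.filter (fun k : κ => cond k q)).card ≤ A.card := by
    intro q
    let B := Finset.univ.filter (fun k : κ => cond k q)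
    let w : Finset (M ρ) := A.image (fun a => kk a q)
    have hli' : LinearIndependent (ZMod 2) (fun k : B => (v ∘ α) k.1) :=
      hli.comp (fun k : B => k.1) Subtype.val_injective
    have hrange : Set.range (fun k : B => (v ∘ α) k.1) ≤
        (Submodule.span (ZMod 2) (w : Set (M ρ)) : Set (M ρ)) := by
      rintro x ⟨⟨k, hk⟩, rfl⟩
      obtain ⟨a, ha, hax, haq⟩ := (Finset.mem_filter.1 hk).2
      have h1 := hkk a (α k).2 q
      rw [haq] at h1
      have h2 : (v ∘ α) k = kk (a * QuotientGroup.mk (FreeGroup.of (α k).2)) q - kk a q := by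
        rw [h1]; simp
      simp only
      rw [h2]
      apply Submodule.sub_mem
      · exact Submodule.subset_span (Finset.mem_coe.2 (Finset.mem_image_of_mem _ hax))
      · exact Submodule.subset_span (Finset.mem_coe.2 (Finset.mem_image_of_mem _ ha))
    have h3 := linearIndependent_le_span_aux' (fun k : B => (v ∘ α) k.1) hli' (w : Set (M ρ)) hrange
    rw [Fintype.card_coe] at h3
    refine h3.trans ?_
    simp only [Finset.coe_sort_coe, Fintype.card_coe]
    exact Finset.card_image_le
  by_contra hcon
  push Not at hcon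
  have hcol : ∀ k : κ, 2 * A.card < 3 * (Finset.univ.filter (fun q : Q => cond k q)).card := by
    intro k
    have h1 := hcon (α k).2
    have h2 : (A.filter (fun a => a * QuotientGroup.mk (FreeGroup.of (α k).2) ∈ A)).card ≤
        (Finset.univ.filter (fun q : Q => cond k q)).card := by
      rw [← Finset.card_image_of_injOn (s := A.filter
        (fun a => a * QuotientGroup.mk (FreeGroup.of (α k).2) ∈ A))
        (f := fun a => ρb a * (α k).1)]
      · apply Finset.card_le_card
        intro q hq
        obtain ⟨a, ha, rfl⟩ := Finset.mem_image.1 hq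
        rw [Finset.mem_filter] at ha
        rw [Finset.mem_filter]
        exact ⟨Finset.mem_univ _, a, ha.1, ha.2, by group⟩
      · intro a ha b hb hab
        exact hinj (Finset.mem_filter.1 ha).1 (Finset.mem_filter.1 hb).1 (mul_right_cancel hab)
    omega
  have hdc : ∑ q : Q, (Finset.univ.filter (fun k : κ => cond k q)).card =
      ∑ k : κ, (Finset.univ.filter (fun q : Q => cond k q)).card := by
    simp only [Finset.card_filter]
    rw [Finset.sum_comm]
  have hup : ∑ q : Q, (Finset.univ.filter (fun k : κ => cond k q)).card ≤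
      Fintype.card Q * A.card := by
    calc _ ≤ ∑ q : Q, A.card := Finset.sum_le_sum (fun q _ => hBq q)
      _ = _ := by rw [Finset.sum_const, Finset.card_univ, smul_eq_mul]
  have hlow : Fintype.card κ * (2 * A.card + 1) ≤
      3 * ∑ k : κ, (Finset.univ.filter (fun q : Q => cond k q)).card := by
    rw [Finset.mul_sum]
    calc Fintype.card κ * (2 * A.card + 1) = ∑ k : κ, (2 * A.card + 1) := by
          rw [Finset.sum_const, Finset.card_univ, smul_eq_mul]
      _ ≤ _ := Finset.sum_le_sum (fun k _ => hcol k)
  rw [← hdc] at hlow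
  have hQpos : 0 < Fintype.card Q := Fintype.card_pos
  nlinarith [hlow, hup, hκ, hQpos, Nat.zero_le A.card]

end Pool.Agent.Helper940.NonAmen
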