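import Mathlib
import Pool.Agent.Helper940.NonAmen
import Pool.Agent.Helper940.NonAmen2
import Pool.Agent.Helper940.NoMean

set_option autoImplicit false

namespace Pool.Agent.Helper940.NonAmen

open Multiplicative
open scoped Pointwise

open Classical in
theorem doubling : ∃ K : Finset (F ⧸ Rhat), ∀ A : Finset (F ⧸ Rhat), 2 * A.card ≤ (A * K).card := by
  let S : Finset (F ⧸ Rhat) :=
    {1, QuotientGroup.mk (FreeGroup.of 0), QuotientGroup.mk (FreeGroup.of 1)}
  have hS : ∀ A : Finset (F ⧸ Rhat), 4 * A.card ≤ 3 * (A * S).card := by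
    intro A
    obtain ⟨i, hi⟩ := iso_ineq A
    set x : F ⧸ Rhat := QuotientGroup.mk (FreeGroup.of i) with hx
    have hxS : x ∈ S := by
      fin_cases i <;> simp [S, hx]
    have hsub : A ∪ A.image (fun a => a * x) ⊆ A * S := by
      intro z hz
      rcases Finset.mem_union.1 hz with h | h
      · exact Finset.mem_mul.2 ⟨z, h, 1, by simp [S], mul_one z⟩
      · obtain ⟨a, ha, rfl⟩ := Finset.mem_image.1 h
        exact Finset.mem_mul.2 ⟨a, ha, x, hxS, rfl⟩
    have h1 := Finset.card_le_card hsub
    have h2 : (A.image (fun a => a * x)).card = A.card :=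
      Finset.card_image_of_injective _ (mul_left_injective x)
    have h3 := Finset.card_union_add_card_inter A (A.image (fun a => a * x))
    have h4 : (A ∩ A.image (fun a => a * x)).card ≤ (A.filter (fun a => a * x ∈ A)).card := by
      have : A ∩ A.image (fun a => a * x) ⊆ (A.filter (fun a => a * x ∈ A)).image
          (fun a => a * x) := by
        intro z hz
        obtain ⟨hzA, hz2⟩ := Finset.mem_inter.1 hz
        obtain ⟨a, ha, rfl⟩ := Finset.mem_image.1 hz2
        exact Finset.mem_image.2 ⟨a, Finset.mem_filter.2 ⟨ha, hzA⟩, rfl⟩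
      exact (Finset.card_le_card this).trans Finset.card_image_le
    omega
  refine ⟨S * S * S, fun A => ?_⟩
  have h1 := hS A
  have h2 := hS (A * S)
  have h3 := hS (A * S * S)
  have e : A * (S * S * S) = A * S * S * S := by
    rw [← mul_assoc, ← mul_assoc]
  rw [e]
  omega

/-- There is no left-invariant mean on a group containing `F ⧸ Rhat`. -/
theorem no_mean {G : Type} [Group G] (ι : (F ⧸ Rhat) →* G) (hι : Function.Injective ι)
    {m : Set G → ℝ} (hm : NoMean.IsMean m) : False := by
  classical
  obtain ⟨m', hm'⟩ := NoMean.mean_restrict ι hι hm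
  obtain ⟨K, hK⟩ := doubling
  exact NoMean.no_mean_of_doubling K (by convert hK) hm'

end Pool.Agent.Helper940.NonAmen
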