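import Mathlib

set_option autoImplicit false
set_option linter.unusedSectionVars false
set_option linter.style.multiGoal false

/-!
A vector addition system all of whose runs terminate, with very long runs.
-/

namespace Pool.Agent.Helper940.GL

/-- configurations: input, w, x, y, z, and the three states -/
abbrev Cf := Fin 8 → ℕ

/-- consumed vectors -/
def iq : Fin 8 → Cf := ![
  ![1, 0, 0, 0, 0, 0, 0, 1],
  ![0, 0, 0, 0, 0, 0, 0, 1],
  ![0, 0, 0, 1, 0, 1, 0, 0],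
  ![0, 0, 1, 0, 0, 1, 0, 0],
  ![0, 0, 0, 0, 1, 0, 1, 0],
  ![0, 0, 1, 0, 0, 0, 1, 0],
  ![0, 1, 0, 0, 0, 1, 0, 0],
  ![0, 0, 0, 1, 0, 0, 0, 1]]

/-- produced vectors -/
def ip : Fin 8 → Cf := ![
  ![0, 1, 0, 0, 0, 0, 0, 1],
  ![0, 0, 0, 2, 0, 1, 0, 0],
  ![0, 0, 0, 0, 2, 1, 0, 0],
  ![0, 0, 0, 0, 0, 0, 1, 0],
  ![0, 0, 0, 2, 0, 0, 1, 0],
  ![0, 0, 0, 0, 0, 1, 0, 0],
  ![0, 0, 0, 0, 0, 0, 0, 1],
  ![0, 0, 1, 0, 0, 0, 0, 1]]

/-- the next configuration -/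
def nx (c : Cf) (i : Fin 8) : Cf := c - iq i + ip i

/-- enabled instructions -/
def en (c : Cf) (i : Fin 8) : Prop := iq i ≤ c ∧ (i = 1 → c 0 = 0)

/-- runs -/
def VRun : List (Fin 8) → Cf → Prop
  | [], _ => True
  | i :: τ, c => en c i ∧ VRun τ (nx c i)

theorem VRun.take {τ τ' : List (Fin 8)} : ∀ {c : Cf}, VRun (τ ++ τ') c → VRun τ c := by
  induction τ with
  | nil => intro c _; trivial
  | cons i τ ih =>
    intro c h
    exact ⟨h.1, ih h.2⟩

/-- there are long runs -/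
def Long (n : ℕ) (c : Cf) : Prop := ∃ τ, VRun τ c ∧ n ≤ τ.length

theorem Long.step {n : ℕ} {c : Cf} (i : Fin 8) (h : Long n (nx c i)) (he : en c i) : Long (n + 1) c := by
  obtain ⟨τ, h1, h2⟩ := h
  exact ⟨i :: τ, ⟨he, h1⟩, by rw [List.length_cons]; omega⟩

theorem Long.mono {n n' : ℕ} {c : Cf} (h : Long n c) (hn : n' ≤ n) : Long n' c := by
  obtain ⟨τ, h1, h2⟩ := h
  exact ⟨τ, h1, le_trans hn h2⟩

theorem Long.exact {n : ℕ} {c : Cf} (h : Long n c) {k : ℕ} (hk : k ≤ n) :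
    ∃ τ, VRun τ c ∧ τ.length = k := by
  obtain ⟨τ, h1, h2⟩ := h
  refine ⟨τ.take k, ?_, ?_⟩
  · apply VRun.take (τ' := τ.drop k)
    rwa [List.take_append_drop]
  · rw [List.length_take]; omega

/-- configurations in state P -/
def cP (w x y z : ℕ) : Cf := ![0, w, x, y, z, 1, 0, 0]
/-- configurations in state Q -/
def cQ (w x y z : ℕ) : Cf := ![0, w, x, y, z, 0, 1, 0]
/-- configurations in state R -/
def cR (w x y z : ℕ) : Cf := ![0, w, x, y, z, 0, 0, 1]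
/-- configurations while reading -/
def cI (a w : ℕ) : Cf := ![a, w, 0, 0, 0, 0, 0, 1]

theorem le_iff8 {c d : Cf} : c ≤ d ↔ c 0 ≤ d 0 ∧ c 1 ≤ d 1 ∧ c 2 ≤ d 2 ∧ c 3 ≤ d 3 ∧ c 4 ≤ d 4 ∧
    c 5 ≤ d 5 ∧ c 6 ≤ d 6 ∧ c 7 ≤ d 7 := by
  constructor
  · intro h
    exact ⟨h 0, h 1, h 2, h 3, h 4, h 5, h 6, h 7⟩
  · rintro ⟨h0, h1, h2, h3, h4, h5, h6, h7⟩ i
    fin_cases i <;> assumption

theorem eq_iff8 {c d : Cf} : c = d ↔ c 0 = d 0 ∧ c 1 = d 1 ∧ c 2 = d 2 ∧ c 3 = d 3 ∧ c 4 = d 4 ∧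
    c 5 = d 5 ∧ c 6 = d 6 ∧ c 7 = d 7 := by
  constructor
  · rintro rfl
    simp
  · rintro ⟨h0, h1, h2, h3, h4, h5, h6, h7⟩
    funext i
    fin_cases i <;> assumption

/-- components of the next configuration -/
theorem nx_apply (c : Cf) (i j : Fin 8) : nx c i j = c j - iq i j + ip i j := rfl

theorem en_P2 (w x y z : ℕ) : en (cP w x (y + 1) z) 2 ∧ nx (cP w x (y + 1) z) 2 = cP w x y (z + 2) := by
  refine ⟨⟨le_iff8.2 ?_, fun h => absurd h (by decide)⟩, eq_iff8.2 ?_⟩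
  · simp [iq, cP]
  · simp [nx_apply, iq, ip, cP]

theorem en_P3 (w x y z : ℕ) : en (cP w (x + 1) y z) 3 ∧ nx (cP w (x + 1) y z) 3 = cQ w x y z := by
  refine ⟨⟨le_iff8.2 ?_, fun h => absurd h (by decide)⟩, eq_iff8.2 ?_⟩
  · simp [iq, cP]
  · simp [nx_apply, iq, ip, cP, cQ]

theorem en_Q4 (w x y z : ℕ) : en (cQ w x y (z + 1)) 4 ∧ nx (cQ w x y (z + 1)) 4 = cQ w x (y + 2) z := by
  refine ⟨⟨le_iff8.2 ?_, fun h => absurd h (by decide)⟩, eq_iff8.2 ?_⟩
  · simp [iq, cQ]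
  · simp [nx_apply, iq, ip, cQ]

theorem en_Q5 (w x y z : ℕ) : en (cQ w (x + 1) y z) 5 ∧ nx (cQ w (x + 1) y z) 5 = cP w x y z := by
  refine ⟨⟨le_iff8.2 ?_, fun h => absurd h (by decide)⟩, eq_iff8.2 ?_⟩
  · simp [iq, cQ]
  · simp [nx_apply, iq, ip, cQ, cP]

theorem en_P6 (w x y z : ℕ) : en (cP (w + 1) x y z) 6 ∧ nx (cP (w + 1) x y z) 6 = cR w x y z := by
  refine ⟨⟨le_iff8.2 ?_, fun h => absurd h (by decide)⟩, eq_iff8.2 ?_⟩
  · simp [iq, cP]
  · simp [nx_apply, iq, ip, cR, cP]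

theorem en_R7 (w x y z : ℕ) : en (cR w x (y + 1) z) 7 ∧ nx (cR w x (y + 1) z) 7 = cR w (x + 1) y z := by
  refine ⟨⟨le_iff8.2 ?_, fun h => absurd h (by decide)⟩, eq_iff8.2 ?_⟩
  · simp [iq, cR]
  · simp [nx_apply, iq, ip, cR]

theorem en_R1 (w x y z : ℕ) : en (cR w x y z) 1 ∧ nx (cR w x y z) 1 = cP w x (y + 2) z := by
  refine ⟨⟨le_iff8.2 ?_, ?_⟩, eq_iff8.2 ?_⟩
  · simp [iq, cR]
  · intro _; simp [cR]
  · simp [nx_apply, iq, ip, cR, cP]

theorem long_of {n : ℕ} {c c' : Cf} {i : Fin 8} (h : en c i ∧ nx c i = c') (hl : Long n c') :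
    Long (n + 1) c := by
  obtain ⟨h1, rfl⟩ := h
  exact hl.step i h1

theorem long_of' {n : ℕ} {c c' : Cf} {i : Fin 8} (h : en c i ∧ nx c i = c') (hl : Long n c') :
    Long n c := (long_of h hl).mono (Nat.le_succ n)

theorem phaseP (n w x y : ℕ) : ∀ z, Long n (cP w x 0 (z + 2 * y)) → Long n (cP w x y z) := by
  induction y with
  | zero => intro z h; exact h
  | succ y ih =>
    intro z h
    apply long_of' (en_P2 w x y z)
    apply ih
    convert h using 2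
    ring

theorem phaseQ (n w x z : ℕ) : ∀ y, Long n (cQ w x (y + 2 * z) 0) → Long n (cQ w x y z) := by
  induction z with
  | zero => intro y h; exact h
  | succ z ih =>
    intro y h
    apply long_of' (en_Q4 w x y z)
    apply ih
    convert h using 2
    ring

theorem phaseR (n w z y : ℕ) : ∀ x, Long n (cR w (x + y) 0 z) → Long n (cR w x y z) := by
  induction y with
  | zero => intro x h; exact h
  | succ y ih =>
    intro x h
    apply long_of' (en_R7 w x y z)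
    apply ih
    convert h using 2
    ring

theorem double (n w x y : ℕ) (h : Long n (cP w x (4 * y) 0)) : Long n (cP w (x + 2) y 0) := by
  apply phaseP
  apply long_of' (en_P3 w (x + 1) 0 _)
  apply phaseQ
  apply long_of' (en_Q5 w x _ 0)
  convert h using 2
  ring

theorem pow4 (n w k : ℕ) : ∀ y, Long n (cP w 0 (4 ^ k * y) 0) → Long n (cP w (2 * k) y 0) := by
  induction k with
  | zero => intro y h; simpa using h
  | succ k ih =>
    intro y h
    apply double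
    apply ih
    convert h using 2
    ring

theorem tstep (n w k : ℕ) (h : Long n (cP w 0 (2 * 4 ^ k) 0)) : Long n (cP (w + 1) 0 (2 * k) 0) := by
  apply long_of' (en_P6 w 0 _ 0)
  apply phaseR
  apply long_of' (en_R1 w _ 0 0)
  rw [zero_add]
  apply pow4
  convert h using 2
  ring

theorem long_final (w x y : ℕ) : ∀ z, Long y (cP w x y z) := by
  induction y with
  | zero => intro z; exact ⟨[], trivial, le_rfl⟩
  | succ y ih => intro z; exact long_of (en_P2 w x y z) (ih _)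

/-- iterated exponentials -/
def tw : ℕ → ℕ → ℕ
  | 0, k => k
  | w + 1, k => tw w (4 ^ k)

theorem long_tw (w : ℕ) : ∀ k, Long (2 * tw w k) (cP w 0 (2 * k) 0) := by
  induction w with
  | zero => intro k; exact long_final _ _ _ _
  | succ w ih =>
    intro k
    apply tstep
    exact ih (4 ^ k)

/-! ### termination -/

/-- exactly one state -/
def Inv (c : Cf) : Prop := c 5 + c 6 + c 7 = 1

/-- the measure -/
def mu (c : Cf) : ℕ × ℕ × ℕ × ℕ × ℕ :=
  (c 0, c 1, c 7, if c 7 = 1 then c 3 else c 2, if c 5 = 1 then c 3 else c 4)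

/-- lexicographic order -/
def lx : (ℕ × ℕ × ℕ × ℕ × ℕ) → (ℕ × ℕ × ℕ × ℕ × ℕ) → Prop :=
  Prod.Lex (· < ·) (Prod.Lex (· < ·) (Prod.Lex (· < ·) (Prod.Lex (· < ·) (· < ·))))

theorem lx_wf : WellFounded lx :=
  WellFounded.prod_lex Nat.lt_wfRel.wf (WellFounded.prod_lex Nat.lt_wfRel.wf
    (WellFounded.prod_lex Nat.lt_wfRel.wf (WellFounded.prod_lex Nat.lt_wfRel.wf Nat.lt_wfRel.wf)))

theorem lx_iff (a b : ℕ × ℕ × ℕ × ℕ × ℕ) : lx a b ↔ a.1 < b.1 ∨ (a.1 = b.1 ∧ (a.2.1 < b.2.1 ∨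
    (a.2.1 = b.2.1 ∧ (a.2.2.1 < b.2.2.1 ∨ (a.2.2.1 = b.2.2.1 ∧ (a.2.2.2.1 < b.2.2.2.1 ∨
      (a.2.2.2.1 = b.2.2.2.1 ∧ a.2.2.2.2 < b.2.2.2.2))))))) := by
  obtain ⟨a1, a2, a3, a4, a5⟩ := a
  obtain ⟨b1, b2, b3, b4, b5⟩ := b
  simp only [lx, Prod.lex_def]

theorem step_dec (c : Cf) (hc : Inv c) (i : Fin 8) (h : en c i) :
    Inv (nx c i) ∧ lx (mu (nx c i)) (mu c) := by
  obtain ⟨h1, h2⟩ := h
  rw [le_iff8] at h1
  unfold Inv at hc ⊢
  rw [lx_iff]
  simp only [mu, nx_apply]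
  fin_cases i <;> simp [iq, ip] at h1 h2 ⊢
  all_goals try split_ifs
  all_goals omega

theorem bounded (c : Cf) (hc : Inv c) : ∃ B : ℕ, ∀ τ, VRun τ c → τ.length ≤ B := by
  have key : ∀ x : ℕ × ℕ × ℕ × ℕ × ℕ, ∀ c : Cf, mu c = x → Inv c →
      ∃ B : ℕ, ∀ τ, VRun τ c → τ.length ≤ B := by
    intro x
    induction x using lx_wf.induction with
    | _ x ih =>
      intro c hx hc
      have h1 : ∀ i : Fin 8, ∃ B : ℕ, en c i → ∀ τ, VRun τ (nx c i) → τ.length ≤ B := by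
        intro i
        by_cases he : en c i
        · obtain ⟨h2, h3⟩ := step_dec c hc i he
          obtain ⟨B, hB⟩ := ih (mu (nx c i)) (hx ▸ h3) (nx c i) rfl h2
          exact ⟨B, fun _ => hB⟩
        · exact ⟨0, fun h => absurd h he⟩
      choose B hB using h1
      refine ⟨1 + ∑ i, B i, fun τ hτ => ?_⟩
      cases τ with
      | nil => simp
      | cons i τ =>
        have h4 := hB i hτ.1 τ hτ.2
        have h5 := Finset.single_le_sum (f := B) (fun _ _ => Nat.zero_le _) (Finset.mem_univ i)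
        rw [List.length_cons]
        omega
  exact key (mu c) c rfl hc

/-! ### reading -/

theorem read_lemma (a : ℕ) : ∀ (w : ℕ) (τ : List (Fin 8)), VRun τ (cI a w) → a + 1 ≤ τ.length →
    ∃ τ', VRun τ' (cP (w + a) 0 2 0) ∧ τ.length = a + 1 + τ'.length := by
  induction a with
  | zero =>
    intro w τ h hl
    cases τ with
    | nil => simp at hl
    | cons i τ =>
      obtain ⟨⟨h1, h2⟩, h3⟩ := h
      rw [le_iff8] at h1
      have hi : i = 1 := by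
        revert h1
        fin_cases i <;> simp [iq, cI]
      subst hi
      refine ⟨τ, ?_, by rw [List.length_cons]; omega⟩
      have : nx (cI 0 w) 1 = cP w 0 2 0 := by
        rw [eq_iff8]; simp [nx_apply, iq, ip, cI, cP]
      rw [this] at h3
      exact h3
  | succ a ih =>
    intro w τ h hl
    cases τ with
    | nil => simp at hl
    | cons i τ =>
      obtain ⟨⟨h1, h2⟩, h3⟩ := h
      rw [le_iff8] at h1
      have hi : i = 0 := by
        revert h1 h2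
        fin_cases i <;> simp [iq, cI]
      subst hi
      have : nx (cI (a + 1) w) 0 = cI a (w + 1) := by
        rw [eq_iff8]; simp [nx_apply, iq, ip, cI]
      rw [this] at h3
      rw [List.length_cons] at hl ⊢
      obtain ⟨τ', h4, h5⟩ := ih (w + 1) τ h3 (by omega)
      refine ⟨τ', ?_, by omega⟩
      convert h4 using 2
      ring

/-! ### the number of steps -/

theorem inv_cP (w x y z : ℕ) : Inv (cP w x y z) := by
  unfold Inv; simp [cP]

theorem exists_stop (a : ℕ) : ∃ k : ℕ, ¬ ∃ τ, VRun τ (cP a 0 2 0) ∧ τ.length = k := by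
  obtain ⟨B, hB⟩ := bounded _ (inv_cP a 0 2 0)
  refine ⟨B + 1, ?_⟩
  rintro ⟨τ, h1, h2⟩
  have := hB τ h1
  omega

open Classical in
/-- the least length without a run -/
noncomputable def c1 (a : ℕ) : ℕ := Nat.find (exists_stop a)

open Classical in
theorem c1_no (a : ℕ) (τ : List (Fin 8)) (h : VRun τ (cP a 0 2 0)) : τ.length ≠ c1 a := fun h1 =>
  Nat.find_spec (exists_stop a) ⟨τ, h, h1⟩

open Classical in
theorem c1_yes (a k : ℕ) (hk : k < c1 a) : ∃ τ, VRun τ (cP a 0 2 0) ∧ τ.length = k := by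
  by_contra h
  exact Nat.find_min (exists_stop a) hk h

theorem c1_large (a : ℕ) : 2 * tw a 1 < c1 a := by
  by_contra h
  push Not at h
  obtain ⟨τ, h1, h2⟩ := (long_tw a 1).exact h
  rw [mul_one] at h1
  exact c1_no a τ h1 h2

/-! ### growth -/

/-- tower -/
def T : ℕ → ℕ
  | 0 => 1
  | k + 1 => 4 ^ T k

theorem tw_T (w : ℕ) : ∀ j, tw w (T j) = T (j + w) := by
  induction w with
  | zero => intro j; rfl
  | succ w ih =>
    intro j
    show tw w (T (j + 1)) = _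
    rw [ih]
    congr 1
    ring

theorem T_ge (k : ℕ) : 4 ^ k ≤ T k := by
  induction k with
  | zero => exact le_rfl
  | succ k ih =>
    show 4 ^ (k + 1) ≤ 4 ^ T k
    apply Nat.pow_le_pow_right (by norm_num)
    exact le_trans (Nat.lt_pow_self (by norm_num)) ih

theorem growth (K m : ℕ) : ∃ a : ℕ, K * ((16 ^ (4 ^ (10 * (a + 1)))) ^ m + 3) ≤ c1 a := by
  obtain ⟨k, hk⟩ : ∃ k : ℕ, 10 * (k + 3) + (m + K + 2) ≤ 4 ^ k := by
    refine ⟨30 + (m + K + 2), ?_⟩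
    set k := 30 + (m + K + 2) with hk
    have h1 : k + 1 ≤ 2 ^ k := Nat.lt_two_pow_self
    have h2 : (k + 1) * (k + 1) ≤ 2 ^ k * 2 ^ k := Nat.mul_le_mul h1 h1
    have h3 : 4 ^ k = 2 ^ k * 2 ^ k := by
      rw [← mul_pow]; norm_num
    rw [h3]
    refine le_trans ?_ h2
    nlinarith
  refine ⟨k + 2, ?_⟩
  have h1 : tw (k + 2) 1 = T (k + 2) := by
    have := tw_T (k + 2) 0
    rw [zero_add] at this
    exact this
  have h2 := c1_large (k + 2)
  rw [h1] at h2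
  refine le_trans ?_ h2.le
  have h3 : T (k + 2) = 4 ^ (4 ^ T k) := rfl
  have h4 : 10 * (k + 3) + (m + K + 2) ≤ T k := le_trans hk (T_ge k)
  have h5 : 4 ^ (10 * (k + 3)) * 4 ^ (m + K + 2) ≤ 4 ^ T k := by
    rw [← pow_add]
    exact Nat.pow_le_pow_right (by norm_num) h4
  have h6 : 2 * m + K + 2 ≤ 4 ^ (m + K + 2) := by
    have h7 : m + K + 2 + 1 ≤ 2 ^ (m + K + 2) := Nat.lt_two_pow_self
    have h8 : 4 ^ (m + K + 2) = 2 ^ (m + K + 2) * 2 ^ (m + K + 2) := by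
      rw [← mul_pow]; norm_num
    rw [h8]
    nlinarith
  set A := 4 ^ (10 * (k + 3)) with hA
  have hA1 : 1 ≤ A := Nat.one_le_pow _ _ (by norm_num)
  have h9 : 2 * (A * m) + K + 2 ≤ 4 ^ T k := by
    refine le_trans ?_ h5
    refine le_trans ?_ (Nat.mul_le_mul_left A h6)
    nlinarith
  have h10 : 4 ^ (2 * (A * m) + K + 2) ≤ 4 ^ (4 ^ T k) := Nat.pow_le_pow_right (by norm_num) h9
  have h11 : (16 ^ A) ^ m = 4 ^ (2 * (A * m)) := by
    rw [← pow_mul, pow_mul 4 2 (A * m)]; norm_num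
  have h12 : K + 1 ≤ 4 ^ K := Nat.lt_pow_self (by norm_num)
  have h13 : 4 ^ (2 * (A * m) + K + 2) = 4 ^ (2 * (A * m)) * 4 ^ K * 16 := by
    rw [pow_add, pow_add]; norm_num
  have h14 : 1 ≤ 4 ^ (2 * (A * m)) := Nat.one_le_pow _ _ (by norm_num)
  rw [h11, h3]
  refine le_trans ?_ (Nat.mul_le_mul_left 2 h10)
  rw [h13]
  set Y := 4 ^ (2 * (A * m))
  set Z := 4 ^ K
  have h16 : K ≤ Z := by omega
  calc K * (Y + 3) ≤ Z * (Y + 3 * Y) := by
        apply Nat.mul_le_mul h16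
        omega
    _ = Y * Z * 4 := by ring
    _ ≤ 2 * (Y * Z * 16) := by nlinarith [Nat.zero_le (Y * Z)]

end Pool.Agent.Helper940.GL
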