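import Pool.Agent.Helper940.GLRun
import Pool.Agent.Helper940.GLVas

set_option autoImplicit false
set_option linter.unusedSectionVars false

/-!
The system of multiplications encoding the vector addition system.
-/

namespace Pool.Agent.Helper940.GL

open Sys

/-- primes -/
def pr : Fin 8 → ℕ := ![2, 3, 5, 7, 11, 13, 17, 19]

theorem pr_prime (i : Fin 8) : (pr i).Prime := by
  fin_cases i <;> simp [pr] <;> norm_num

theorem pr_inj : Function.Injective pr := by decide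

theorem pr_le (i : Fin 8) : pr i ≤ 19 := by
  fin_cases i <;> simp [pr]

/-- encoding -/
def enc (c : Cf) : ℕ := ∏ i, pr i ^ c i

theorem enc_pos (c : Cf) : 0 < enc c := Finset.prod_pos fun i _ => Nat.pow_pos (pr_prime i).pos

theorem enc_add (c d : Cf) : enc (c + d) = enc c * enc d := by
  unfold enc
  rw [← Finset.prod_mul_distrib]
  apply Finset.prod_congr rfl
  intro i _
  rw [← pow_add]; rfl

theorem enc_dvd {c d : Cf} : enc d ∣ enc c ↔ d ≤ c := by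
  constructor
  · intro h j
    by_contra hlt
    push Not at hlt
    have h1 : enc c = pr j ^ c j * ∏ i ∈ Finset.univ.erase j, pr i ^ c i :=
      (Finset.mul_prod_erase Finset.univ (fun i => pr i ^ c i) (Finset.mem_univ j)).symm
    have h2 : pr j ^ (c j + 1) ∣ enc c := by
      refine dvd_trans ?_ h
      refine dvd_trans (pow_dvd_pow _ hlt) ?_
      exact Finset.dvd_prod_of_mem (fun i => pr i ^ d i) (Finset.mem_univ j)
    rw [h1, pow_succ] at h2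
    have h3 := Nat.dvd_of_mul_dvd_mul_left (Nat.pow_pos (pr_prime j).pos) h2
    rw [(pr_prime j).prime.dvd_finsetProd_iff] at h3
    obtain ⟨i, hi, h4⟩ := h3
    have h5 := (pr_prime j).dvd_of_dvd_pow h4
    rw [Nat.prime_dvd_prime_iff_eq (pr_prime j) (pr_prime i)] at h5
    exact (Finset.mem_erase.1 hi).1 (pr_inj h5).symm
  · intro h
    have h1 : c = d + (c - d) := by
      funext i
      exact (Nat.add_sub_of_le (h i)).symm
    rw [h1, enc_add]
    exact dvd_mul_right _ _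

/-- the fuel prime -/
def Fu : ℕ := 10007

theorem Fu_eq : Fu = 10007 := rfl

theorem Fu_prime : Fu.Prime := by rw [Fu_eq]; norm_num

theorem Fu0 : (Fu : ℤ) ≠ 0 := by rw [Fu_eq]; norm_num
theorem n38 : (38 * Fu : ℤ) ≠ 0 := mul_ne_zero (by norm_num) Fu0
theorem n19 : (19 * Fu : ℤ) ≠ 0 := mul_ne_zero (by norm_num) Fu0
theorem n2 : (2 * Fu : ℤ) ≠ 0 := mul_ne_zero (by norm_num) Fu0

theorem Fu_enc (c : Cf) : ¬ Fu ∣ enc c := by
  intro h
  unfold enc at h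
  rw [Fu_prime.prime.dvd_finsetProd_iff] at h
  obtain ⟨i, _, h4⟩ := h
  have h5 := Nat.le_of_dvd (pr_prime i).pos (Fu_prime.dvd_of_dvd_pow h4)
  have := pr_le i
  rw [Fu_eq] at h5
  omega

/-- the system -/
def Sy : Sys (Fin 8) where
  p i := enc (ip i)
  q i := enc (iq i)
  tst i := i = 1
  F := Fu
  hF := Fu_prime
  hF2 := by decide
  hq0 i := enc_pos _
  hp0 i := enc_pos _
  hpF i := Fu_enc _
  hqF i := Fu_enc _
  hr i := by rw [Fu_eq]; fin_cases i <;> simp [enc, ip, iq, pr, Fin.prod_univ_eight]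

theorem Sy_D (i : Fin 8) : Sy.D i = enc (iq i) * Fu := rfl
theorem Sy_p (i : Fin 8) : Sy.p i = enc (ip i) := rfl
theorem Sy_F : Sy.F = Fu := rfl
theorem Sy_tst (i : Fin 8) : Sy.tst i ↔ i = 1 := Iff.rfl

theorem D0 : Sy.D 0 = 38 * Fu := by
  rw [Sy_D]; simp [enc, iq, pr, Fin.prod_univ_eight]
theorem D1 : Sy.D 1 = 19 * Fu := by
  rw [Sy_D]; simp [enc, iq, pr, Fin.prod_univ_eight]
theorem p0 : Sy.p 0 = 57 := by
  rw [Sy_p]; simp [enc, ip, pr, Fin.prod_univ_eight]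
theorem p1 : Sy.p 1 = 637 := by
  rw [Sy_p]; simp [enc, ip, pr, Fin.prod_univ_eight]

theorem FuI_prime : Prime (Fu : ℤ) := Nat.prime_iff_prime_int.1 Fu_prime

theorem FuI_enc (c : Cf) : ¬ (Fu : ℤ) ∣ enc c := by
  intro h
  exact Fu_enc c (by exact_mod_cast h)

theorem nx_enc {c : Cf} {i : Fin 8} (h : iq i ≤ c) :
    enc c = enc (iq i) * enc (c - iq i) ∧ enc (nx c i) = enc (ip i) * enc (c - iq i) := by
  constructor
  · rw [← enc_add]
    congr 1
    funext j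
    exact (Nat.add_sub_of_le (h j)).symm
  · rw [nx, enc_add, mul_comm]

theorem two_enc {c : Cf} (h : c 0 = 0) : ¬ 2 ∣ enc c := by
  intro h2
  unfold enc at h2
  rw [Nat.prime_two.prime.dvd_finsetProd_iff] at h2
  obtain ⟨i, _, h4⟩ := h2
  by_cases hi : i = 0
  · subst hi
    rw [h, pow_zero] at h4
    omega
  · have h5 := (Nat.prime_dvd_prime_iff_eq Nat.prime_two (pr_prime i)).1
      (Nat.prime_two.dvd_of_dvd_pow h4)
    apply hi
    apply pr_inj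
    rw [← h5]
    rfl

theorem Sy_acc_nil (n : ℤ) : Sy.acc [] n ↔ ¬ (Fu : ℤ) ∣ n := Iff.rfl

theorem Sy_acc_cons (i : Fin 8) (τ : List (Fin 8)) (n : ℤ) : Sy.acc (i :: τ) n ↔
    ((enc (iq i) * Fu : ℕ) : ℤ) ∣ n ∧ (i = 1 → ¬ (2 * ((enc (iq i) * Fu : ℕ) : ℤ)) ∣ n) ∧
      Sy.acc τ (enc (ip i) * (n / ((enc (iq i) * Fu : ℕ) : ℤ))) := Iff.rfl

/-- acceptance of pure numbers -/
theorem acc_run : ∀ (τ : List (Fin 8)) (c : Cf) (f : ℕ), Sy.acc τ ((enc c : ℤ) * (Fu : ℤ) ^ f) →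
    VRun τ c ∧ τ.length = f := by
  intro τ
  induction τ with
  | nil =>
    intro c f h
    rw [Sy_acc_nil] at h
    refine ⟨trivial, ?_⟩
    cases f with
    | zero => rfl
    | succ f =>
      exfalso
      apply h
      rw [pow_succ, ← mul_assoc]
      exact dvd_mul_left _ _
  | cons i τ ih =>
    intro c f h
    rw [Sy_acc_cons] at h
    obtain ⟨h1, h2, h3⟩ := h
    have hcop : IsCoprime ((enc (iq i) : ℕ) : ℤ) ((Fu : ℤ) ^ f) := by
      apply IsCoprime.pow_right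
      rw [isCoprime_comm, FuI_prime.coprime_iff_not_dvd]
      exact FuI_enc _
    have h4 : iq i ≤ c := by
      rw [← enc_dvd, ← Int.natCast_dvd_natCast]
      apply hcop.dvd_of_dvd_mul_right
      refine dvd_trans ?_ h1
      push_cast
      exact dvd_mul_right _ _
    obtain ⟨h5, h6⟩ := nx_enc h4
    cases f with
    | zero =>
      exfalso
      rw [pow_zero, mul_one] at h1
      apply FuI_enc c
      refine dvd_trans ?_ h1
      push_cast
      exact dvd_mul_left _ _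
    | succ f =>
      have hpos : ((enc (iq i) * Fu : ℕ) : ℤ) ≠ 0 := by
        exact_mod_cast (Nat.mul_pos (enc_pos _) Fu_prime.pos).ne'
      have h7 : (enc c : ℤ) * (Fu : ℤ) ^ (f + 1) =
          ((enc (iq i) * Fu : ℕ) : ℤ) * (enc (c - iq i) * (Fu : ℤ) ^ f) := by
        rw [h5]; push_cast; ring
      rw [h7, Int.mul_ediv_cancel_left _ hpos] at h3
      have h8 : (enc (ip i) : ℤ) * (enc (c - iq i) * (Fu : ℤ) ^ f) = enc (nx c i) * (Fu : ℤ) ^ f := by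
        rw [h6]; push_cast; ring
      rw [h8] at h3
      obtain ⟨h9, h10⟩ := ih _ _ h3
      refine ⟨⟨⟨h4, fun hi => ?_⟩, h9⟩, by rw [List.length_cons, h10]⟩
      by_contra hc0
      apply h2 hi
      subst hi
      have h11 : iq 0 ≤ c := by
        rw [le_iff8] at h4 ⊢
        simp [iq] at h4 ⊢
        omega
      have h12 : enc (iq 0) = 2 * enc (iq 1) := by
        simp [enc, iq, pr, Fin.prod_univ_eight]
      have h13 : ((enc (iq 0) : ℕ) : ℤ) ∣ enc c := by exact_mod_cast enc_dvd.2 h11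
      rw [h12] at h13
      obtain ⟨x, hx⟩ := h13
      rw [hx]
      refine ⟨x * (Fu : ℤ) ^ f, ?_⟩
      push_cast
      ring

/-- acceptance along runs -/
theorem run_acc : ∀ (τ : List (Fin 8)) (c : Cf) (m : ℤ), VRun τ c → ¬ 2 ∣ m →
    (Sy.acc τ ((enc c : ℤ) * m) ↔ (Fu : ℤ) ^ τ.length ∣ m ∧ ¬ (Fu : ℤ) ^ (τ.length + 1) ∣ m) := by
  intro τ
  induction τ with
  | nil =>
    intro c m _ _
    rw [Sy_acc_nil, List.length_nil, pow_zero, zero_add, pow_one, FuI_prime.dvd_mul]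
    have := FuI_enc c
    simp only [this, false_or, one_dvd, true_and]
  | cons i τ ih =>
    intro c m ⟨⟨h1, h2⟩, h3⟩ hm
    obtain ⟨h5, h6⟩ := nx_enc h1
    have hpos : ((enc (iq i) * Fu : ℕ) : ℤ) ≠ 0 := by
      exact_mod_cast (Nat.mul_pos (enc_pos _) Fu_prime.pos).ne'
    rw [Sy_acc_cons, List.length_cons]
    by_cases hF : (Fu : ℤ) ∣ m
    · obtain ⟨m', rfl⟩ := hF
      have hm' : ¬ 2 ∣ m' := fun h => hm (h.mul_left _)
      have h7 : (enc c : ℤ) * (Fu * m') = ((enc (iq i) * Fu : ℕ) : ℤ) * (enc (c - iq i) * m') := by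
        rw [h5]; push_cast; ring
      have h8 : (enc (ip i) : ℤ) * (enc (c - iq i) * m') = enc (nx c i) * m' := by
        rw [h6]; push_cast; ring
      rw [h7, Int.mul_ediv_cancel_left _ hpos, h8, ih _ _ h3 hm']
      have hF0 : (Fu : ℤ) ≠ 0 := Fu0
      have h9 : (Fu : ℤ) ^ (τ.length + 1) ∣ Fu * m' ↔ (Fu : ℤ) ^ τ.length ∣ m' := by
        rw [pow_succ']
        exact mul_dvd_mul_iff_left hF0
      have h10 : (Fu : ℤ) ^ (τ.length + 1 + 1) ∣ Fu * m' ↔ (Fu : ℤ) ^ (τ.length + 1) ∣ m' := by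
        rw [pow_succ' _ (τ.length + 1)]
        exact mul_dvd_mul_iff_left hF0
      rw [h9, h10]
      constructor
      · rintro ⟨_, _, h⟩
        exact h
      · intro h
        refine ⟨dvd_mul_right _ _, fun hi => ?_, h⟩
        intro h11
        rw [mul_comm 2, mul_dvd_mul_iff_left hpos, Int.prime_two.dvd_mul] at h11
        rcases h11 with h11 | h11
        · have h12 : (c - iq i) 0 = 0 := by
            show c 0 - iq i 0 = 0
            rw [h2 hi]; omega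
          exact two_enc h12 (by exact_mod_cast h11)
        · exact hm' h11
    · constructor
      · rintro ⟨h, _⟩
        exfalso
        have h7 : (Fu : ℤ) ∣ (enc c : ℤ) * m := dvd_trans (by push_cast; exact dvd_mul_left _ _) h
        rw [FuI_prime.dvd_mul] at h7
        rcases h7 with h7 | h7
        · exact FuI_enc c h7
        · exact hF h7
      · rintro ⟨h, _⟩
        exact absurd (dvd_trans (dvd_pow_self _ (Nat.succ_ne_zero _)) h) hF

/-! ### the reading phase -/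

theorem acc0 (σ : List (Fin 8)) (n : ℤ) : Sy.acc (0 :: σ) n ↔
    (38 * Fu : ℤ) ∣ n ∧ Sy.acc σ (57 * (n / (38 * Fu : ℤ))) := by
  show ((Sy.D 0 : ℕ) : ℤ) ∣ n ∧ ((0 : Fin 8) = 1 → _) ∧ Sy.acc σ (((Sy.p 0 : ℕ) : ℤ) * (n / ((Sy.D 0 : ℕ) : ℤ))) ↔ _
  rw [D0, p0]
  push_cast
  constructor
  · rintro ⟨h1, _, h3⟩
    exact ⟨h1, h3⟩
  · rintro ⟨h1, h3⟩
    exact ⟨h1, fun h => absurd h (by decide), h3⟩

theorem acc1 (σ : List (Fin 8)) (n : ℤ) : Sy.acc (1 :: σ) n ↔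
    (19 * Fu : ℤ) ∣ n ∧ ¬ (2 * (19 * Fu) : ℤ) ∣ n ∧ Sy.acc σ (637 * (n / (19 * Fu : ℤ))) := by
  show ((Sy.D 1 : ℕ) : ℤ) ∣ n ∧ ((1 : Fin 8) = 1 → ¬ (2 * ((Sy.D 1 : ℕ) : ℤ)) ∣ n) ∧
    Sy.acc σ (((Sy.p 1 : ℕ) : ℤ) * (n / ((Sy.D 1 : ℕ) : ℤ))) ↔ _
  rw [D1, p1]
  push_cast
  constructor
  · rintro ⟨h1, h2, h3⟩
    exact ⟨h1, h2 trivial, h3⟩
  · rintro ⟨h1, h2, h3⟩
    exact ⟨h1, fun _ => h2, h3⟩

theorem stb0 (σ : List (Fin 8)) (n : ℤ) : Sy.stb (0 :: σ) n ↔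
    (Sy.M : ℤ) ∣ n ∧ Sy.stb σ (57 * (n / (38 * Fu : ℤ))) := by
  show (Sy.M : ℤ) ∣ n ∧ Sy.stb σ (((Sy.p 0 : ℕ) : ℤ) * (n / ((Sy.D 0 : ℕ) : ℤ))) ↔ _
  rw [D0, p0]
  push_cast
  exact Iff.rfl

theorem D0_dvd_M : (38 * Fu : ℤ) ∣ (Sy.M : ℤ) := by
  have := Sy.D_dvd 0
  rw [D0] at this
  exact_mod_cast this

theorem cop3 (k : ℕ) : IsCoprime ((2 * Fu : ℤ)) ((3 : ℤ) ^ k) := by
  apply IsCoprime.pow_right
  rw [show (2 * (Fu : ℤ)) = ((2 * Fu : ℕ) : ℤ) by push_cast; rfl, show (3 : ℤ) = ((3 : ℕ) : ℤ) by rfl,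
    Nat.isCoprime_iff_coprime]
  decide

theorem accRead (σ : List (Fin 8)) (a : ℕ) : ∀ (i : ℕ) (n : ℤ),
    Sy.acc (List.replicate a 0 ++ σ) (3 ^ i * 19 * n) ↔
      (2 * Fu : ℤ) ^ a ∣ n ∧ Sy.acc σ (3 ^ (i + a) * 19 * (n / (2 * Fu : ℤ) ^ a)) := by
  induction a with
  | zero => intro i n; simp
  | succ a ih =>
    intro i n
    rw [List.replicate_succ, List.cons_append, acc0]
    have hF0 : (2 * Fu : ℤ) ≠ 0 := n2
    by_cases h : (2 * Fu : ℤ) ∣ n
    · obtain ⟨k, rfl⟩ := h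
      have h1 : (3 : ℤ) ^ i * 19 * (2 * Fu * k) = (38 * Fu) * (3 ^ i * k) := by ring
      rw [h1, Int.mul_ediv_cancel_left _ n38]
      have h2 : (57 : ℤ) * (3 ^ i * k) = 3 ^ (i + 1) * 19 * k := by ring
      rw [h2, ih, pow_succ' _ a, mul_dvd_mul_iff_left hF0]
      have h3 : (2 * (Fu : ℤ) * k) / (2 * Fu * (2 * Fu) ^ a) = k / (2 * Fu) ^ a :=
        Int.mul_ediv_mul_of_pos _ _ (by rw [Fu_eq]; norm_num)
      rw [h3, show i + 1 + a = i + (a + 1) by ring]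
      constructor
      · rintro ⟨_, h⟩
        exact h
      · intro h
        exact ⟨dvd_mul_right _ _, h⟩
    · constructor
      · rintro ⟨h1, _⟩
        exfalso
        apply h
        apply (cop3 i).dvd_of_dvd_mul_left
        have h2 : (19 * (2 * Fu) : ℤ) ∣ 19 * (3 ^ i * n) := by
          have e1 : (19 * (2 * Fu) : ℤ) = 38 * Fu := by ring
          have e2 : (19 : ℤ) * (3 ^ i * n) = 3 ^ i * 19 * n := by ring
          rw [e1, e2]
          exact h1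
        exact (mul_dvd_mul_iff_left (by norm_num)).1 h2
      · rintro ⟨h1, _⟩
        exact absurd (dvd_trans (dvd_pow_self _ (Nat.succ_ne_zero a)) h1) h

/-- the residue class -/
def nC (a : ℕ) : ℕ := 2 ^ a * 19 * Fu ^ (a + 1)

theorem nC_pos (a : ℕ) : 0 < nC a :=
  Nat.mul_pos (Nat.mul_pos (Nat.pow_pos two_pos) (by norm_num)) (Nat.pow_pos Fu_prime.pos)

theorem enc_cP (a : ℕ) : (enc (cP a 0 2 0) : ℤ) = 637 * 3 ^ a := by
  have : enc (cP a 0 2 0) = 3 ^ a * 49 * 13 := by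
    simp [enc, cP, pr, Fin.prod_univ_eight]
  rw [this]
  push_cast
  ring

theorem enc_cI (a : ℕ) : enc (cI a 0) = 2 ^ a * 19 := by
  simp [enc, cI, pr, Fin.prod_univ_eight]

/-- the full words -/
def full (a : ℕ) (τ : List (Fin 8)) : List (Fin 8) := List.replicate a 0 ++ 1 :: τ

theorem acc_full (a : ℕ) (τ : List (Fin 8)) (hτ : VRun τ (cP a 0 2 0)) (n : ℤ) :
    Sy.acc (full a τ) n ↔ ∃ m : ℤ, n = nC a * m ∧ ¬ 2 ∣ m ∧ (Fu : ℤ) ^ τ.length ∣ m ∧
      ¬ (Fu : ℤ) ^ (τ.length + 1) ∣ m := by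
  have key : ∀ n' : ℤ, Sy.acc (full a τ) (19 * n') ↔ ∃ m : ℤ, n' = (2 * Fu) ^ a * Fu * m ∧ ¬ 2 ∣ m ∧
      (Fu : ℤ) ^ τ.length ∣ m ∧ ¬ (Fu : ℤ) ^ (τ.length + 1) ∣ m := by
    intro n'
    have h1 := accRead (1 :: τ) a 0 n'
    rw [pow_zero, one_mul] at h1
    rw [full, h1, zero_add]
    have hF0 : ((2 * Fu : ℤ)) ^ a ≠ 0 := pow_ne_zero _ n2
    constructor
    · rintro ⟨⟨k, rfl⟩, h2⟩
      rw [Int.mul_ediv_cancel_left _ hF0, acc1] at h2
      obtain ⟨h3, h4, h5⟩ := h2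
      have h6 : (Fu : ℤ) ∣ k := by
        have h7 : (19 * Fu : ℤ) ∣ 19 * (3 ^ a * k) := by
          convert h3 using 1; ring
        have h8 := (mul_dvd_mul_iff_left (by norm_num)).1 h7
        apply IsCoprime.dvd_of_dvd_mul_left _ h8
        exact (cop3 a).of_mul_left_right
      obtain ⟨m, rfl⟩ := h6
      have h9 : (3 : ℤ) ^ a * 19 * (Fu * m) = 19 * Fu * (3 ^ a * m) := by ring
      rw [h9] at h4 h5
      rw [Int.mul_ediv_cancel_left _ n19] at h5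
      have h10 : ¬ 2 ∣ m := by
        intro h
        apply h4
        obtain ⟨x, rfl⟩ := h
        exact ⟨3 ^ a * x, by ring⟩
      have h11 : (637 : ℤ) * (3 ^ a * m) = enc (cP a 0 2 0) * m := by rw [enc_cP]; ring
      rw [h11, run_acc τ _ _ hτ h10] at h5
      exact ⟨m, by ring, h10, h5⟩
    · rintro ⟨m, rfl, h10, h5⟩
      refine ⟨⟨Fu * m, by ring⟩, ?_⟩
      rw [mul_assoc ((2 * Fu : ℤ) ^ a), Int.mul_ediv_cancel_left _ hF0, acc1]
      have h9 : (3 : ℤ) ^ a * 19 * (Fu * m) = 19 * Fu * (3 ^ a * m) := by ring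
      rw [h9]
      refine ⟨dvd_mul_right _ _, ?_, ?_⟩
      · rw [mul_comm 2, mul_dvd_mul_iff_left n19, Int.prime_two.dvd_mul]
        rintro (h | h)
        · have := Int.prime_two.dvd_of_dvd_pow h
          omega
        · exact h10 h
      · rw [Int.mul_ediv_cancel_left _ n19]
        have h11 : (637 : ℤ) * (3 ^ a * m) = enc (cP a 0 2 0) * m := by rw [enc_cP]; ring
        rw [h11, run_acc τ _ _ hτ h10]
        exact h5
  constructor
  · intro h
    have h19 : (19 : ℤ) ∣ n := by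
      cases a with
      | zero =>
        rw [full, List.replicate_zero, List.nil_append, acc1] at h
        exact dvd_trans (dvd_mul_right _ _) h.1
      | succ a =>
        rw [full, List.replicate_succ, List.cons_append, acc0] at h
        refine dvd_trans ?_ h.1
        exact ⟨2 * Fu, by ring⟩
    obtain ⟨n', rfl⟩ := h19
    obtain ⟨m, rfl, h2⟩ := (key n').1 h
    refine ⟨m, ?_, h2⟩
    unfold nC
    push_cast
    ring
  · rintro ⟨m, rfl, h2⟩
    have h3 : (nC a : ℤ) * m = 19 * ((2 * Fu) ^ a * Fu * m) := by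
      unfold nC
      push_cast
      ring
    rw [h3, key]
    exact ⟨m, rfl, h2⟩

theorem stbRead (σ : List (Fin 8)) (hσ : ∀ n, Sy.stb σ n → (Sy.M : ℤ) ∣ n) (a : ℕ) : ∀ n : ℤ,
    Sy.stb (List.replicate a 0 ++ σ) n → ∃ v : ℤ, (Sy.M : ℤ) ∣ v ∧ (2 * Fu : ℤ) ^ a * v = 3 ^ a * n := by
  induction a with
  | zero => intro n h; exact ⟨n, hσ n h, by simp⟩
  | succ a ih =>
    intro n h
    rw [List.replicate_succ, List.cons_append, stb0] at h
    obtain ⟨h1, h2⟩ := h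
    obtain ⟨v, hv, h3⟩ := ih _ h2
    refine ⟨v, hv, ?_⟩
    obtain ⟨k, rfl⟩ := dvd_trans D0_dvd_M h1
    rw [Int.mul_ediv_cancel_left _ n38] at h3
    calc (2 * Fu : ℤ) ^ (a + 1) * v = 2 * Fu * ((2 * Fu) ^ a * v) := by ring
      _ = 2 * Fu * (3 ^ a * (57 * k)) := by rw [h3]
      _ = 3 ^ (a + 1) * (38 * Fu * k) := by ring

theorem stb_M (τ : List (Fin 8)) (n : ℤ) (h : Sy.stb τ n) : (Sy.M : ℤ) ∣ n := by
  cases τ with
  | nil => exact h
  | cons i τ => exact h.1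

theorem stb_full (a : ℕ) (τ : List (Fin 8)) (n : ℤ) (h : Sy.stb (full a τ) n) :
    ((2 * nC a : ℕ) : ℤ) ∣ n := by
  obtain ⟨v, hv, h1⟩ := stbRead (1 :: τ) (stb_M _) a n h
  have h2 : ((2 * nC a : ℕ) : ℤ) ∣ 3 ^ a * n := by
    rw [← h1]
    obtain ⟨k, rfl⟩ := dvd_trans D0_dvd_M hv
    refine ⟨k, ?_⟩
    unfold nC
    push_cast
    ring
  apply IsCoprime.dvd_of_dvd_mul_left _ h2
  apply IsCoprime.pow_right
  rw [show (3 : ℤ) = ((3 : ℕ) : ℤ) by rfl, Nat.isCoprime_iff_coprime]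
  unfold nC
  apply Nat.Coprime.mul_left (by decide)
  apply Nat.Coprime.mul_left
  · apply Nat.Coprime.mul_left
    · exact Nat.Coprime.pow_left _ (by decide)
    · decide
  · exact Nat.Coprime.pow_left _ (by decide)

theorem small_of_dvd {L : ℕ} {n : ℤ} (h : |n| ≤ 2 * L) {k : ℕ} (hk : 2 * L < k) {d : ℤ}
    (hd : (k : ℤ) ≤ d) (h1 : d ∣ n) : n = 0 := by
  apply Int.eq_zero_of_abs_lt_dvd h1
  have : (2 * L : ℤ) < k := by exact_mod_cast hk
  linarith

theorem hA (L : ℕ) : ∃ τ, ∀ n : ℤ, |n| ≤ 2 * L → Sy.stb τ n → n = 0 := by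
  refine ⟨List.replicate (2 * L) 0 ++ [], fun n hn h => ?_⟩
  obtain ⟨v, _, h1⟩ := stbRead [] (stb_M _) (2 * L) n h
  have h2 : (2 * Fu : ℤ) ^ (2 * L) ∣ n := by
    apply IsCoprime.dvd_of_dvd_mul_left (y := (3 : ℤ) ^ (2 * L))
    · exact (cop3 _).pow_left
    · exact ⟨v, h1.symm⟩
  apply small_of_dvd hn (k := 2 ^ (2 * L)) Nat.lt_two_pow_self _ h2
  push_cast
  exact pow_le_pow_left₀ (by norm_num) (by rw [Fu_eq]; norm_num) _

/-- points hit by `b` -/
def zb : ℕ → List Sy.Pd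
  | 0 => [⟨none, ((1 : ℤ) : ZMod Sy.M)⟩]
  | k + 1 => ⟨some 0, 0⟩ :: zb k

theorem zb_ne (k : ℕ) : zb k ≠ [] := by cases k <;> simp [zb]

theorem zb_mem (k : ℕ) : zb k ∈ Ob true := by
  induction k with
  | zero =>
    show ¬ Sy.F ∣ (((1 : ℤ) : ZMod Sy.M)).val
    rw [dvd_val_iff Sy.F_dvd]
    show ¬ ((Fu : ℕ) : ℤ) ∣ 1
    exact FuI_prime.not_dvd_one
  | succ k ih =>
    rw [zb, mem_cons _ _ _ (zb_ne k)]
    refine ⟨?_, ih⟩
    have h := (al_true_iff (S := Sy) 0 0).2 ⟨dvd_zero _, fun h => absurd h (by rw [Sy_tst]; decide)⟩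
    rw [Int.cast_zero] at h
    exact h

theorem zb_dvd (k : ℕ) : ∀ n : ℤ, n +ᵥ zb k ∈ Ob true → (Fu : ℤ) ^ k ∣ n := by
  induction k with
  | zero => intro n _; simp
  | succ k ih =>
    intro n h
    rw [zb, vadd_cons, mem_cons _ _ _ (vadd_ne_nil (zb_ne k)), act_zero_eq, al_true_iff] at h
    obtain ⟨⟨h1, _⟩, h2⟩ := h
    rw [sec_some_zero 0 n h1] at h2
    have h3 := ih _ h2
    rw [D0, p0] at h3
    rw [D0] at h1
    push_cast at h1 h3
    obtain ⟨m, rfl⟩ := h1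
    rw [Int.mul_ediv_cancel_left _ n38] at h3
    have h4 : (Fu : ℤ) ^ k ∣ m := by
      apply IsCoprime.dvd_of_dvd_mul_left _ h3
      apply IsCoprime.pow_left
      rw [show (57 : ℤ) = ((57 : ℕ) : ℤ) by rfl, Nat.isCoprime_iff_coprime]
      decide
    obtain ⟨x, rfl⟩ := h4
    exact ⟨38 * x, by ring⟩

theorem hB (L : ℕ) : ∃ z : List Sy.Pd, z ∈ Ob true ∧ ∀ n : ℤ, |n| ≤ 2 * L → n +ᵥ z ∈ Ob true →
    n = 0 := by
  refine ⟨zb (2 * L), zb_mem _, fun n hn h => ?_⟩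
  apply small_of_dvd hn (k := 2 ^ (2 * L)) Nat.lt_two_pow_self _ (zb_dvd _ n h)
  push_cast
  exact pow_le_pow_left₀ (by norm_num) (by rw [Fu_eq]; norm_num) _

end Pool.Agent.Helper940.GL
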