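import Pool.Agent.Helper940.GLW

set_option autoImplicit false
set_option linter.unusedSectionVars false

/-!
Finite L-presentations bound the length of violated relators.
-/

namespace Pool.Agent.Helper940.GL

open FreeGroup (of mk norm_inv_eq mul_mk norm_mul_le mk_toWord)

/-- homomorphism from an endomorphism -/
def eh {M : Type} [Monoid M] (φ : Monoid.End M) : M →* M := ⟨⟨fun f => φ f, map_one φ⟩, map_mul φ⟩

theorem eh_apply {M : Type} [Monoid M] (φ : Monoid.End M) (x : M) : eh φ x = φ x := rfl

theorem norm_hom_le {α β : Type} [DecidableEq α] [DecidableEq β] (ψ : FreeGroup α →* FreeGroup β)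
    (K : ℕ) (h : ∀ a, (ψ (of a)).norm ≤ K) (u : FreeGroup α) : (ψ u).norm ≤ K * u.norm := by
  have key : ∀ w : List (α × Bool), (ψ (mk w)).norm ≤ K * w.length := by
    intro w
    induction w with
    | nil =>
      have : (mk ([] : List (α × Bool))) = 1 := rfl
      rw [this, map_one, FreeGroup.norm_one]
      exact Nat.zero_le _
    | cons x w ih =>
      have h1 : (mk (x :: w)) = mk [x] * mk w := by
        rw [mul_mk]; rfl
      have h2 : (ψ (mk [x])).norm ≤ K := by
        obtain ⟨a, b⟩ := x
        cases b
        · have : (mk [(a, false)]) = (of a)⁻¹ := rfl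
          rw [this, map_inv, norm_inv_eq]
          exact h a
        · exact h a
      rw [h1, map_mul, List.length_cons, Nat.mul_add, Nat.mul_one, add_comm]
      exact le_trans (norm_mul_le _ _) (add_le_add h2 ih)
  have := key u.toWord
  rw [mk_toWord] at this
  exact this

section

variable {G : Type} [Group G] (π : FreeGroup Gn →* G) (hπ : Function.Surjective π)
  (H : ℕ → Type) [∀ n, Group (H n)] [∀ n, Finite (H n)] (ρ : ∀ n, FreeGroup Gn →* H n) (L : ℕ → ℕ)

include hπ in
theorem no_Lpres
    (h1 : ∀ n u, π u = 1 → u.norm ≤ L n → ρ n u = 1)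
    (h2 : ∀ n, ∃ u, π u = 1 ∧ ρ n u ≠ 1)
    (h3 : ∀ K m : ℕ, ∃ n, K ^ ((Nat.card (H n)) ^ m + 3) ≤ L n) :
    ¬ ∃ (m : ℕ) (Q R : Finset (FreeGroup (Fin m))) (Φ : Finset (Monoid.End (FreeGroup (Fin m)))),
      Nonempty (G ≃* PresentedGroup ((Q : Set (FreeGroup (Fin m))) ∪ {x : FreeGroup (Fin m) |
        ∃ φ ∈ Submonoid.closure (Φ : Set (Monoid.End (FreeGroup (Fin m)))), ∃ r ∈ R, x = φ r})) := by
  rintro ⟨m, Q, R, Φ, ⟨e⟩⟩
  set S : Set (FreeGroup (Fin m)) := ((Q : Set (FreeGroup (Fin m))) ∪ {x : FreeGroup (Fin m) |
        ∃ φ ∈ Submonoid.closure (Φ : Set (Monoid.End (FreeGroup (Fin m)))), ∃ r ∈ R, x = φ r}) with hS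
  let p : FreeGroup (Fin m) →* G := e.symm.toMonoidHom.comp (PresentedGroup.mk S)
  have hp : Function.Surjective p := e.symm.surjective.comp (PresentedGroup.mk_surjective S)
  have hpk : ∀ f, p f = 1 ↔ f ∈ Subgroup.normalClosure S := by
    intro f
    show e.symm (PresentedGroup.mk S f) = 1 ↔ _
    rw [map_eq_one_iff _ e.symm.injective]
    exact PresentedGroup.mk_eq_one_iff
  -- a lift of `p`
  have hl : ∀ i : Fin m, ∃ u, π u = p (of i) := fun i => hπ _
  choose lg hlg using hl
  let lam : FreeGroup (Fin m) →* FreeGroup Gn := FreeGroup.lift lg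
  have hlam : ∀ f, π (lam f) = p f := by
    have : π.comp lam = p := by
      ext i
      simp [lam, hlg]
    exact fun f => DFunLike.congr_fun this f
  have hgen : ∀ g : Gn, ∃ f, p f = π (of g) := fun g => hp _
  choose fg hfg using hgen
  -- constants
  have hK : ∃ K : ℕ, 1 ≤ K ∧ (∀ i, (lam (of i)).norm ≤ K) ∧ (∀ φ ∈ Φ, ∀ i, (φ (of i)).norm ≤ K) ∧
      (∀ r ∈ R, r.norm ≤ K) ∧ (∀ q ∈ Q, (lam q).norm ≤ K) ∧
      (∀ g : Gn, ((of g)⁻¹ * lam (fg g)).norm ≤ K) := by
    classical
    have := Fintype.ofFinite Gn
    refine ⟨1 + (∑ i, (lam (of i)).norm) + (∑ φ ∈ Φ, ∑ i, (φ (of i)).norm) + (∑ r ∈ R, r.norm) +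
      (∑ q ∈ Q, (lam q).norm) + ∑ g : Gn, ((of g)⁻¹ * lam (fg g)).norm, ?_, ?_, ?_, ?_, ?_, ?_⟩
    · omega
    · intro i
      have := Finset.single_le_sum (f := fun i => (lam (of i)).norm) (fun _ _ => Nat.zero_le _)
        (Finset.mem_univ i)
      omega
    · intro φ hφ i
      have h4 := Finset.single_le_sum (f := fun i => (φ (of i)).norm) (fun _ _ => Nat.zero_le _)
        (Finset.mem_univ i)
      have h5 := Finset.single_le_sum (f := fun φ : Monoid.End (FreeGroup (Fin m)) =>
        ∑ i, (φ (of i)).norm) (fun _ _ => Nat.zero_le _) hφ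
      omega
    · intro r hr
      have := Finset.single_le_sum (f := fun r : FreeGroup (Fin m) => r.norm)
        (fun _ _ => Nat.zero_le _) hr
      omega
    · intro q hq
      have := Finset.single_le_sum (f := fun q : FreeGroup (Fin m) => (lam q).norm)
        (fun _ _ => Nat.zero_le _) hq
      omega
    · intro g
      have := Finset.single_le_sum (f := fun g : Gn => ((of g)⁻¹ * lam (fg g)).norm)
        (fun _ _ => Nat.zero_le _) (Finset.mem_univ g)
      omega
  obtain ⟨K, hK1, hKlam, hKφ, hKR, hKQ, hKg⟩ := hK
  obtain ⟨n, hn⟩ := h3 K m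
  have hpow : ∀ a, a ≤ (Nat.card (H n)) ^ m + 3 → K ^ a ≤ L n := fun a ha =>
    le_trans (Nat.pow_le_pow_right hK1 ha) hn
  have hKL : K ≤ L n := by
    have := hpow 1 (by omega)
    rwa [pow_one] at this
  -- the key claim
  have hclaim : ∀ (k : ℕ) (ws : List (Monoid.End (FreeGroup (Fin m)))), ws.length = k →
      (∀ φ ∈ ws, φ ∈ Φ) → ∀ r ∈ R, ρ n (lam (ws.prod r)) = 1 := by
    intro k
    induction k using Nat.strong_induction_on with
    | _ k ih =>
      intro ws hws hmem r hr
      by_cases hk : k ≤ (Nat.card (H n)) ^ m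
      · -- short
        apply h1
        · rw [hlam, hpk]
          apply Subgroup.subset_normalClosure
          right
          exact ⟨ws.prod, Submonoid.list_prod_mem _ fun φ hφ => Submonoid.subset_closure (hmem φ hφ),
            r, hr, rfl⟩
        · have h4 : ∀ (ws : List (Monoid.End (FreeGroup (Fin m)))), (∀ φ ∈ ws, φ ∈ Φ) →
            (ws.prod r).norm ≤ K ^ ws.length * K := by
            intro ws
            induction ws with
            | nil =>
              intro _
              simpa using hKR r hr
            | cons φ ws ih2 =>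
              intro hm
              have h5 := ih2 fun φ hφ => hm φ (List.mem_cons_of_mem _ hφ)
              have h6 := norm_hom_le (eh φ) K (hKφ φ (hm φ (by simp))) (ws.prod r)
              rw [List.prod_cons, List.length_cons, pow_succ']
              calc ((φ * ws.prod) r).norm = (eh φ (ws.prod r)).norm := rfl
                _ ≤ K * (ws.prod r).norm := h6
                _ ≤ K * (K ^ ws.length * K) := Nat.mul_le_mul_left _ h5
                _ = K * K ^ ws.length * K := by ring
          have h7 := norm_hom_le lam K hKlam (ws.prod r)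
          have h8 := h4 ws hmem
          calc (lam (ws.prod r)).norm ≤ K * (ws.prod r).norm := h7
            _ ≤ K * (K ^ ws.length * K) := Nat.mul_le_mul_left _ h8
            _ = K ^ (k + 2) := by rw [hws]; ring
            _ ≤ L n := hpow _ (by omega)
      · -- long: pigeonhole
        push Not at hk
        let v : Fin (k + 1) → (Fin m → H n) := fun i j => ρ n (lam ((ws.take i).prod (of j)))
        have hninj : ¬ Function.Injective v := by
          intro hinj
          have h4 := Nat.card_le_card_of_injective v hinj
          rw [Nat.card_fun, Nat.card_fin, Nat.card_fin] at h4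
          omega
        rw [Function.Injective] at hninj
        push Not at hninj
        obtain ⟨i, j, hij, hne⟩ := hninj
        have main : ∀ i j : Fin (k + 1), v i = v j → i < j → ρ n (lam (ws.prod r)) = 1 := by
          intro i j hij hlt
          have h5 : ((ρ n).comp lam).comp (eh (ws.take i).prod) =
              ((ρ n).comp lam).comp (eh (ws.take j).prod) := by
            ext x
            exact congrFun hij x
          have h6 : ws.prod r = (ws.take j).prod ((ws.drop j).prod r) := by
            conv_lhs => rw [← List.take_append_drop j ws, List.prod_append]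
            rfl
          have h7 : ρ n (lam (ws.prod r)) = ρ n (lam ((ws.take i ++ ws.drop j).prod r)) := by
            rw [h6, List.prod_append]
            exact (DFunLike.congr_fun h5 ((ws.drop j).prod r)).symm
          rw [h7]
          refine ih ((ws.take i ++ ws.drop j).length) ?_ _ rfl ?_ r hr
          · have hi := i.2
            have hj := j.2
            have hlt' : (i : ℕ) < j := hlt
            rw [List.length_append, List.length_take, List.length_drop, hws]
            omega
          · intro φ hφ
            rcases List.mem_append.1 hφ with h | h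
            · exact hmem φ (List.mem_of_mem_take h)
            · exact hmem φ (List.mem_of_mem_drop h)
        rcases lt_or_gt_of_ne hne with h | h
        · exact main i j hij h
        · exact main j i hij.symm h
  -- factorisation
  have hker : p.ker ≤ ((ρ n).comp lam).ker := by
    intro f hf
    have h4 : Subgroup.normalClosure S ≤ ((ρ n).comp lam).ker := by
      apply Subgroup.normalClosure_le_normal
      rintro x (hx | ⟨φ, hφ, r, hr, rfl⟩)
      · rw [SetLike.mem_coe, MonoidHom.mem_ker, MonoidHom.comp_apply]
        apply h1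
        · rw [hlam, hpk]
          exact Subgroup.subset_normalClosure (Or.inl hx)
        · exact le_trans (hKQ x hx) hKL
      · obtain ⟨ws, hws, rfl⟩ := Submonoid.exists_list_of_mem_closure hφ
        rw [SetLike.mem_coe, MonoidHom.mem_ker, MonoidHom.comp_apply]
        exact hclaim ws.length ws rfl hws r hr
    exact h4 ((hpk f).1 hf)
  let η : G →* H n := p.liftOfSurjective hp ⟨_, hker⟩
  have hη : ∀ f, η (p f) = ρ n (lam f) := fun f =>
    MonoidHom.liftOfRightInverse_comp_apply p _ (Function.rightInverse_surjInv hp)
      ⟨(ρ n).comp lam, hker⟩ f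
  have hη2 : η.comp π = ρ n := by
    ext g
    rw [MonoidHom.comp_apply, ← hfg g, hη]
    have h4 : ρ n ((of g)⁻¹ * lam (fg g)) = 1 := by
      apply h1
      · rw [map_mul, hlam, hfg, map_inv, inv_mul_cancel]
      · exact le_trans (hKg g) hKL
    rw [map_mul, map_inv, inv_mul_eq_one] at h4
    exact h4.symm
  obtain ⟨u, hu1, hu2⟩ := h2 n
  apply hu2
  rw [← hη2, MonoidHom.comp_apply, hu1, map_one]

end

end Pool.Agent.Helper940.GL
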