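import Pool.Agent.Helper940.LPTree2

set_option autoImplicit false
set_option linter.unusedSectionVars false

/-!
Transport to the alphabet `Fin d` and the final counterexample.
-/

namespace Pool.Agent.Helper940.LP

section transport

variable {X X' : Type} (e : X ≃ X')

/-- relabelling -/
def rl : Equiv.Perm (List X) ≃* Equiv.Perm (List X') := (Equiv.listEquivOfEquiv e).permCongrHom

theorem rl_apply (g : Equiv.Perm (List X)) (w : List X') :
    rl e g w = (g (w.map e.symm)).map e := rfl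

variable (G : Subgroup (Equiv.Perm (List X)))

/-- relabelled group -/
def rG : Subgroup (Equiv.Perm (List X')) := G.map (rl e).toMonoidHom

/-- it is isomorphic -/
noncomputable def rGe : G ≃* rG e G := (rl e).subgroupMap G

theorem mem_rG {g' : Equiv.Perm (List X')} : g' ∈ rG e G ↔ ∃ g ∈ G, rl e g = g' := Iff.rfl

theorem rG_nil (h : ∀ g ∈ G, g [] = []) : ∀ g ∈ rG e G, g [] = [] := by
  rintro g' ⟨g, hg, rfl⟩
  show ((g (([] : List X').map e.symm)).map e) = []
  rw [List.map_nil, h g hg, List.map_nil]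

theorem rG_selfSim (h : ∀ g ∈ G, ∀ x : X, ∃ y : X, ∃ h ∈ G, ∀ w : List X, g (x :: w) = y :: h w) :
    ∀ g ∈ rG e G, ∀ x : X', ∃ y : X', ∃ h ∈ rG e G, ∀ w : List X', g (x :: w) = y :: h w := by
  rintro g' ⟨g, hg, rfl⟩ x
  obtain ⟨y, s, hs, hw⟩ := h g hg (e.symm x)
  refine ⟨e y, rl e s, ⟨s, hs, rfl⟩, fun w => ?_⟩
  show (g ((x :: w).map e.symm)).map e = _
  rw [List.map_cons, hw, List.map_cons]
  rfl

theorem map_symm_map (w : List X) : (w.map e).map e.symm = w := by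
  rw [List.map_map]; simp

theorem map_map_symm (w : List X') : (w.map e.symm).map e = w := by
  rw [List.map_map]; simp

theorem rG_contracting (h : ∃ N : Finset (Equiv.Perm (List X)), ∀ g ∈ G, ∃ k : ℕ,
      ∀ v : List X, k ≤ v.length → ∀ h ∈ G, (∀ w, g (v ++ w) = g v ++ h w) → h ∈ N) :
    ∃ N : Finset (Equiv.Perm (List X')), ∀ g ∈ rG e G, ∃ k : ℕ,
      ∀ v : List X', k ≤ v.length → ∀ h ∈ rG e G, (∀ w, g (v ++ w) = g v ++ h w) → h ∈ N := by
  classical
  obtain ⟨N, hN⟩ := h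
  refine ⟨N.image (rl e), ?_⟩
  rintro g' ⟨g, hg, rfl⟩
  obtain ⟨k, hk⟩ := hN g hg
  refine ⟨k, ?_⟩
  rintro v hv h' ⟨s, hs, rfl⟩ hw
  rw [Finset.mem_image]
  refine ⟨s, hk (v.map e.symm) (by rwa [List.length_map]) s hs ?_, rfl⟩
  intro w
  have h1 : (g ((v ++ w.map e).map e.symm)).map e =
    (g (v.map e.symm)).map e ++ (s ((w.map e).map e.symm)).map e := hw (w.map e)
  rw [List.map_append, map_symm_map, ← List.map_append] at h1
  exact (List.map_injective_iff.2 e.injective) h1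

end transport

/-- the alternating group of degree five -/
abbrev A5 := alternatingGroup (Fin 5)

theorem A5_nonab : ∃ a b : A5, a * b ≠ b * a := by
  refine ⟨⟨Equiv.swap 0 1 * Equiv.swap 1 2, Equiv.Perm.mem_alternatingGroup.2 (by decide)⟩,
    ⟨Equiv.swap 0 1 * Equiv.swap 1 3, Equiv.Perm.mem_alternatingGroup.2 (by decide)⟩, ?_⟩
  intro h
  have h1 := congrArg Subtype.val h
  exact absurd h1 (by decide)

/-- the main counterexample -/
theorem counterexample : ∃ (d : ℕ) (G : Subgroup (Equiv.Perm (List (Fin d)))),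
    Group.FG G ∧
    (∀ g ∈ G, g [] = []) ∧
    (∀ g ∈ G, ∀ x : Fin d, ∃ y : Fin d, ∃ h ∈ G, ∀ w : List (Fin d), g (x :: w) = y :: h w) ∧
    (∃ N : Finset (Equiv.Perm (List (Fin d))), ∀ g ∈ G, ∃ k : ℕ, ∀ v : List (Fin d),
        k ≤ v.length → ∀ h ∈ G, (∀ w : List (Fin d), g (v ++ w) = g v ++ h w) → h ∈ N) ∧
    ¬ ∃ (m : ℕ) (R : Finset (FreeGroup (Fin m))) (Φ : Finset (Monoid.End (FreeGroup (Fin m)))),
      Nonempty (G ≃* PresentedGroup {x : FreeGroup (Fin m) |
        ∃ φ ∈ Submonoid.closure (Φ : Set (Monoid.End (FreeGroup (Fin m)))), ∃ r ∈ R, x = φ r}) := by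
  have hs : IsSimpleGroup A5 := alternatingGroup.isSimpleGroup (by simp)
  let e : Pd × Fin 5 ≃ Fin (Fintype.card (Pd × Fin 5)) := Fintype.equivFin _
  refine ⟨_, rG e (GT A5 (Fin 5)), ?_, ?_, ?_, ?_, ?_⟩
  · have := GT_fg A5 (Fin 5)
    exact Group.fg_of_surjective (f := (rGe e (GT A5 (Fin 5))).toMonoidHom) (rGe e _).surjective
  · exact rG_nil e _ GT_nil
  · exact rG_selfSim e _ GT_selfSim
  · exact rG_contracting e _ GT_contracting
  · rintro ⟨m, R, Φ, ⟨f⟩⟩
    exact (dat A5 (Fin 5)).no_presentation A5_nonab ⟨m, R, Φ, ⟨(rGe e _).trans f⟩⟩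

end Pool.Agent.Helper940.LP
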