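import Pool.Agent.Helper940.GLEnc
import Pool.Agent.Helper940.GLPres
import Pool.Agent.Helper940.LPFinal

set_option autoImplicit false
set_option linter.unusedSectionVars false

/-!
The final counterexample.
-/

namespace Pool.Agent.Helper940.GL

open Sys

/-- the modulus of the finite marked group -/
def NN (a : ℕ) : ℕ := 2 * nC a

instance (a : ℕ) : NeZero (NN a) := ⟨(Nat.mul_pos two_pos (nC_pos a)).ne'⟩

/-- the length bound -/
noncomputable def LL (a : ℕ) : ℕ := 2 ^ c1 a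

theorem card_H (a : ℕ) : Nat.card (W E (ZMod (NN a)) (ZMod (NN a))) ≤ 16 ^ (4 ^ (10 * (a + 1))) := by
  rw [Nat.card_congr W.eqv, Nat.card_prod, Nat.card_fun, E.card_E, Nat.card_zmod]
  have h1 : NN a ≤ 4 ^ (10 * (a + 1)) := by
    have e : NN a = 38 * Fu * (2 * Fu) ^ a := by
      unfold NN nC
      rw [mul_pow]
      ring
    rw [e, pow_mul, pow_succ', Fu_eq]
    apply Nat.mul_le_mul
    · norm_num
    · exact Nat.pow_le_pow_left (by norm_num) _
  have h2 : NN a ≤ 2 ^ NN a := Nat.lt_two_pow_self.le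
  calc 8 ^ NN a * NN a ≤ 8 ^ NN a * 2 ^ NN a := Nat.mul_le_mul_left _ h2
    _ = 16 ^ NN a := by rw [← mul_pow]; norm_num
    _ ≤ 16 ^ (4 ^ (10 * (a + 1))) := Nat.pow_le_pow_right (by norm_num) h1

instance (a : ℕ) : Finite (W E (ZMod (NN a)) (ZMod (NN a))) := Finite.of_equiv _ W.eqv.symm

theorem cast_iff (a : ℕ) (n : ℤ) : (n : ZMod (NN a)) = ((nC a : ℤ) : ZMod (NN a)) ↔
    ∃ m : ℤ, n = nC a * m ∧ ¬ 2 ∣ m := by
  rw [ZMod.intCast_eq_intCast_iff_dvd_sub]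
  unfold NN
  have h0 : (nC a : ℤ) ≠ 0 := by exact_mod_cast (nC_pos a).ne'
  constructor
  · rintro ⟨k, hk⟩
    push_cast at hk
    refine ⟨1 - 2 * k, ?_, by omega⟩
    linarith
  · rintro ⟨m, rfl, hm⟩
    obtain ⟨k, hk⟩ : ∃ k, m = 2 * k + 1 := ⟨m / 2, by omega⟩
    refine ⟨-k, ?_⟩
    push_cast
    rw [hk]
    ring

theorem compare (a : ℕ) (u : FreeGroup Gn) (hu : pT Sy u = 1) (hL : u.norm ≤ LL a) :
    rH ((nC a : ℤ) : ZMod (NN a)) u = 1 := by
  classical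
  have hruns : ∀ k : Fin (c1 a), ∃ τ, VRun τ (cP a 0 2 0) ∧ τ.length = k := fun k => c1_yes a k k.2
  choose r hr1 hr2 using hruns
  apply transfer (S := Sy) (NN a) (nC a) (Finset.univ.image fun k => full a (r k)) (LL a) (hA _) (hB _)
  · intro τ hτ n hn
    obtain ⟨k, _, rfl⟩ := Finset.mem_image.1 hτ
    exact stb_full a _ n hn
  · intro τ hτ n hn
    obtain ⟨k, _, rfl⟩ := Finset.mem_image.1 hτ
    rw [acc_full a _ (hr1 k)] at hn
    obtain ⟨m, h1, h2, _⟩ := hn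
    exact (cast_iff a n).2 ⟨m, h1, h2⟩
  · intro n hn hc
    obtain ⟨m, rfl, hm⟩ := (cast_iff a n).1 hc
    have hm0 : m ≠ 0 := by
      rintro rfl
      exact hm (dvd_zero 2)
    -- multiplicity
    have hfin : FiniteMultiplicity (Fu : ℤ) m := by
      apply FiniteMultiplicity.of_prime_left FuI_prime hm0
    set v := multiplicity (Fu : ℤ) m with hv
    have h1 : (Fu : ℤ) ^ v ∣ m := pow_multiplicity_dvd _ _
    have h2 : ¬ (Fu : ℤ) ^ (v + 1) ∣ m := hfin.not_pow_dvd_of_multiplicity_lt (Nat.lt_succ_self v)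
    have hvlt : v < c1 a := by
      by_contra hge
      push Not at hge
      have h3 : (Fu : ℤ) ^ c1 a ∣ m := dvd_trans (pow_dvd_pow _ hge) h1
      have h4 : (Fu : ℤ) ^ c1 a ≤ |m| := Int.le_of_dvd (abs_pos.2 hm0) ((dvd_abs _ _).2 h3)
      have h5 : (2 : ℤ) ^ c1 a ≤ (Fu : ℤ) ^ c1 a :=
        pow_le_pow_left₀ (by norm_num) (by rw [Fu_eq]; norm_num) _
      have h6 : (3 : ℤ) ≤ nC a := by
        have : 3 ≤ nC a := by
          unfold nC
          calc 3 ≤ 1 * 19 * 1 := by norm_num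
            _ ≤ 2 ^ a * 19 * Fu ^ (a + 1) := by
              apply Nat.mul_le_mul
              · apply Nat.mul_le_mul_right
                exact Nat.one_le_two_pow
              · exact Nat.one_le_pow _ _ Fu_prime.pos
        exact_mod_cast this
      rw [abs_mul, abs_of_nonneg (by positivity : (0 : ℤ) ≤ nC a)] at hn
      unfold LL at hn
      push_cast at hn
      have h7 : (0 : ℤ) < 2 ^ c1 a := by positivity
      nlinarith
    refine ⟨full a (r ⟨v, hvlt⟩), Finset.mem_image.2 ⟨_, Finset.mem_univ _, rfl⟩, ?_, ?_⟩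
    · rw [acc_full a _ (hr1 _), hr2]
      exact ⟨m, rfl, hm, h1, h2⟩
    · intro τ' hτ' hacc
      obtain ⟨k, _, rfl⟩ := Finset.mem_image.1 hτ'
      rw [acc_full a _ (hr1 _), hr2] at hacc
      obtain ⟨m', h3, _, h4, h5⟩ := hacc
      have h0 : (nC a : ℤ) ≠ 0 := by exact_mod_cast (nC_pos a).ne'
      have h6 : m = m' := mul_left_cancel₀ h0 h3
      subst h6
      have h7 : (k : ℕ) = v := by
        by_contra hne
        rcases lt_or_gt_of_ne hne with h | h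
        · exact h5 (dvd_trans (pow_dvd_pow _ h) h1)
        · exact h2 (dvd_trans (pow_dvd_pow _ h) h4)
      have h8 : k = ⟨v, hvlt⟩ := Fin.ext h7
      rw [h8]
  · exact rT_of_trivial u hu
  · exact hL

theorem rejected (a : ℕ) (τ : List (Fin 8)) : ¬ Sy.acc τ ((nC a : ℤ) * (Fu : ℤ) ^ c1 a) := by
  intro h
  have e : (nC a : ℤ) * (Fu : ℤ) ^ c1 a = (enc (cI a 0) : ℤ) * (Fu : ℤ) ^ (a + 1 + c1 a) := by
    rw [enc_cI]
    unfold nC
    push_cast
    ring
  rw [e] at h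
  obtain ⟨h1, h2⟩ := acc_run _ _ _ h
  obtain ⟨τ', h3, h4⟩ := read_lemma a 0 τ h1 (by omega)
  rw [zero_add] at h3
  exact c1_no a τ' h3 (by omega)

theorem fails (a : ℕ) : ∃ u : FreeGroup Gn, rT Sy u = 1 ∧ rH ((nC a : ℤ) : ZMod (NN a)) u ≠ 1 := by
  apply violated (NN a) (nC a) ((nC a : ℤ) * (Fu : ℤ) ^ c1 a) (rejected a)
  rw [cast_iff]
  refine ⟨_, rfl, fun h => ?_⟩
  have h1 := Int.prime_two.dvd_of_dvd_pow h
  rw [Fu_eq] at h1
  omega

/-- the group has no finite L-presentation -/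
theorem GT_no_Lpres : ¬ ∃ (m : ℕ) (Q R : Finset (FreeGroup (Fin m)))
    (Φ : Finset (Monoid.End (FreeGroup (Fin m)))),
      Nonempty (GT Sy ≃* PresentedGroup ((Q : Set (FreeGroup (Fin m))) ∪ {x : FreeGroup (Fin m) |
        ∃ φ ∈ Submonoid.closure (Φ : Set (Monoid.End (FreeGroup (Fin m)))), ∃ r ∈ R, x = φ r})) := by
  apply no_Lpres (pT Sy).rangeRestrict (MonoidHom.rangeRestrict_surjective _)
    (fun a => W E (ZMod (NN a)) (ZMod (NN a))) (fun a => rH ((nC a : ℤ) : ZMod (NN a))) LL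
  · intro a u hu hL
    exact compare a u (congrArg Subtype.val hu) hL
  · intro a
    obtain ⟨u, h1, h2⟩ := fails a
    refine ⟨u, ?_, h2⟩
    apply Subtype.ext
    show Lam (rT Sy u) = 1
    rw [h1, map_one]
  · intro K m
    obtain ⟨a, ha⟩ := growth K m
    refine ⟨a, ?_⟩
    unfold LL
    have h1 : K ≤ 2 ^ K := Nat.lt_two_pow_self.le
    calc K ^ (Nat.card (W E (ZMod (NN a)) (ZMod (NN a))) ^ m + 3)
        ≤ (2 ^ K) ^ (Nat.card (W E (ZMod (NN a)) (ZMod (NN a))) ^ m + 3) := Nat.pow_le_pow_left h1 _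
      _ = 2 ^ (K * (Nat.card (W E (ZMod (NN a)) (ZMod (NN a))) ^ m + 3)) := by rw [← pow_mul]
      _ ≤ 2 ^ c1 a := by
        apply Nat.pow_le_pow_right (by norm_num)
        refine le_trans ?_ ha
        apply Nat.mul_le_mul_left
        exact Nat.add_le_add_right (Nat.pow_le_pow_left (card_H a) m) 3

open Pool.Agent.Helper940.LP in
/-- the main theorem -/
theorem main : ∃ (d : ℕ) (G : Subgroup (Equiv.Perm (List (Fin d)))),
    2 ≤ d ∧ Group.FG G ∧
    (∀ g ∈ G, g [] = []) ∧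
    (∀ g ∈ G, ∀ x : Fin d, ∃ y : Fin d, ∃ h ∈ G, ∀ w : List (Fin d), g (x :: w) = y :: h w) ∧
    (∃ N : Finset (Equiv.Perm (List (Fin d))), ∀ g ∈ G, ∃ k : ℕ, ∀ v : List (Fin d),
        k ≤ v.length → ∀ h ∈ G, (∀ w : List (Fin d), g (v ++ w) = g v ++ h w) → h ∈ N) ∧
    ¬ ∃ (m : ℕ) (Q R : Finset (FreeGroup (Fin m))) (Φ : Finset (Monoid.End (FreeGroup (Fin m)))),
      Nonempty (G ≃* PresentedGroup ((Q : Set (FreeGroup (Fin m))) ∪ {x : FreeGroup (Fin m) |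
        ∃ φ ∈ Submonoid.closure (Φ : Set (Monoid.End (FreeGroup (Fin m)))), ∃ r ∈ R, x = φ r})) := by
  have := Fintype.ofFinite (X Sy)
  let e : X Sy ≃ Fin (Fintype.card (X Sy)) := Fintype.equivFin _
  refine ⟨_, rG e (GT Sy), ?_, ?_, ?_, ?_, ?_, ?_⟩
  · have h1 : (1 : E) ≠ ⟨1, 0, 0⟩ := by
      intro h
      have := congrArg E.i h
      revert this
      decide
    have h2 : 1 < Fintype.card (X Sy) :=
      Fintype.one_lt_card_iff.2 ⟨(⟨none, 0⟩, 1), (⟨none, 0⟩, ⟨1, 0, 0⟩), fun h => h1 (congrArg Prod.snd h)⟩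
    exact h2
  · have := GT_fg Sy
    exact Group.fg_of_surjective (f := (rGe e (GT Sy)).toMonoidHom) (rGe e _).surjective
  · exact rG_nil e _ GT_nil
  · exact rG_selfSim e _ GT_selfSim
  · exact rG_contracting e _ GT_contracting
  · rintro ⟨m, Q, R, Φ, ⟨f⟩⟩
    exact GT_no_Lpres ⟨m, Q, R, Φ, ⟨(rGe e _).trans f⟩⟩

end Pool.Agent.Helper940.GL
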