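import Pool.Agent.Helper940.GLTree

set_option autoImplicit false
set_option linter.unusedSectionVars false

/-!
Faithfulness, and the comparison with finite marked groups.
-/

namespace Pool.Agent.Helper940.GL

namespace Sys

variable {I : Type} [Fintype I] {S : Sys I}

theorem sec_some_zero (i : I) (n : ℤ) (h : (S.D i : ℤ) ∣ n) :
    sec n (⟨some i, 0⟩ : S.Pd) = S.p i * (n / S.D i) := by
  show s (some i) n 0 = _
  unfold s
  rw [ZMod.val_zero, Nat.cast_zero, add_zero, g_zero, sub_zero, g_exact _ _ _ h]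

theorem sec_some_zero' (i : I) (n : ℤ) :
    sec n (⟨some i, 0⟩ : S.Pd) = S.g (some i) n := by
  show s (some i) n 0 = _
  unfold s
  rw [ZMod.val_zero, Nat.cast_zero, add_zero, g_zero, sub_zero]

theorem act_zero_eq (κ : Option I) (n : ℤ) : act n (⟨κ, 0⟩ : S.Pd) = ⟨κ, (n : ZMod S.M)⟩ := by
  apply Pd.ext
  · rfl
  · simp [act]

theorem q_faithful [Nonempty I] : ∀ (k : ℕ) (n : ℤ), n.natAbs ≤ k →
    (∀ l : List S.Pd, n +ᵥ l = l) → n = 0 := by
  intro k
  induction k with
  | zero =>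
    intro n hn _
    omega
  | succ k ih =>
    intro n hn h
    by_contra hne
    obtain ⟨i⟩ := ‹Nonempty I›
    have h1 := h [⟨some i, 0⟩]
    rw [vadd_cons, act_zero_eq, List.cons.injEq] at h1
    have h2 : (n : ZMod S.M) = 0 := congrArg Pd.j h1.1
    rw [ZMod.intCast_zmod_eq_zero_iff_dvd] at h2
    have h3 : (S.D i : ℤ) ∣ n := dvd_trans (by exact_mod_cast S.D_dvd i) h2
    have h4 : ∀ l : List S.Pd, (sec n (⟨some i, 0⟩ : S.Pd)) +ᵥ l = l := by
      intro l
      have h5 := h (⟨some i, 0⟩ :: l)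
      rw [vadd_cons, List.cons.injEq] at h5
      exact h5.2
    have hM : 2 ≤ n.natAbs := by
      have h6 : 2 ≤ S.M := le_trans (by
        have := S.D_pos i
        omega) (Nat.le_of_dvd S.M_pos (S.two_D_dvd i))
      have h7 : S.M ∣ n.natAbs := Int.natCast_dvd.1 h2
      exact le_trans h6 (Nat.le_of_dvd (Int.natAbs_pos.2 hne) h7)
    have hb := sec_bound n (⟨some i, 0⟩ : S.Pd)
    have h8 : sec n (⟨some i, 0⟩ : S.Pd) = 0 := by
      apply ih _ _ h4
      rw [Int.abs_eq_natAbs, Int.abs_eq_natAbs] at hb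
      omega
    rw [sec_some_zero i n h3] at h8
    rcases mul_eq_zero.1 h8 with h9 | h9
    · have := S.hp0 i
      have h10 : S.p i = 0 := by exact_mod_cast h9
      omega
    · apply hne
      obtain ⟨m, hm⟩ := h3
      have hD : (S.D i : ℤ) ≠ 0 := by exact_mod_cast (S.D_pos i).ne'
      rw [hm, Int.mul_ediv_cancel_left _ hD] at h9
      rw [hm, h9, mul_zero]

theorem wact_fst : ∀ (x : WW S) (w : List (X S)),
    (wact x w).map Prod.fst = x.q +ᵥ (w.map Prod.fst)
  | _, [] => rfl
  | x, (p, y) :: w => by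
    rw [wact, List.map_cons, List.map_cons, wact_fst, vadd_cons]
    rfl

theorem q_of_trivial [Nonempty I] (x : WW S) (h : ∀ w : List (X S), wact x w = w) :
    x.q = 0 := by
  apply q_faithful (S := S) _ _ le_rfl
  intro l
  have h1 := wact_fst x (l.map fun p => (p, (1 : E)))
  rw [h, List.map_map] at h1
  have h2 : (Prod.fst ∘ fun p : S.Pd => (p, (1 : E))) = id := rfl
  rw [h2, List.map_id] at h1
  exact h1.symm

theorem f_of_trivial : ∀ (l : List S.Pd) (x : WW S) (p : S.Pd), x.q = 0 →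
    (∀ w : List (X S), wact x w = w) → x.f (p :: l) = 1
  | [], x, p, hq, h => by
    have h1 := h [(p, 1)]
    rw [wact, hq, act_zero, List.cons.injEq, Prod.mk.injEq] at h1
    simpa using h1.1.2
  | p' :: l, x, p, hq, h => by
    have h1 : (wsec x p).q = 0 := by
      show sec x.q p = 0
      rw [hq, sec_zero]
    have h2 : x.f (p :: p' :: l) = (wsec x p).f (p' :: l) := by
      show _ = x.f (act x.q p :: p' :: l)
      rw [hq, act_zero]
    rw [h2]
    apply f_of_trivial l (wsec x p) p' h1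
    intro w
    have h3 := h ((p, 1) :: w)
    rw [wact, List.cons.injEq] at h3
    exact h3.2

theorem fz_nil (l : List (ℤ × Bool)) : fz l ([] : List S.Pd) = 1 := by
  induction l with
  | nil => rfl
  | cons e l ih =>
    rw [fz_cons, ih, mul_one]
    exact iv_false (nil_notMem e.2) _

/-- faithfulness -/
theorem rT_of_trivial [Nonempty I] (u : FreeGroup Gn) (h : pT S u = 1) : rT S u = 1 := by
  have h1 : ∀ w : List (X S), wact (rT S u) w = w := fun w => DFunLike.congr_fun h w
  have hq := q_of_trivial _ h1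
  apply W.ext
  · funext z
    cases z with
    | nil =>
      rw [rT, rho_eq]
      exact fz_nil _
    | cons p l => exact f_of_trivial l _ p hq h1
  · exact hq

/-! ### runs -/

/-- the base points -/
def oz : List I → List S.Pd
  | [] => [⟨none, 0⟩]
  | i :: τ => ⟨some i, 0⟩ :: oz τ

theorem oz_ne_nil (τ : List I) : (oz τ : List S.Pd) ≠ [] := by cases τ <;> simp [oz]

theorem map_k_vadd (n : ℤ) (z : List S.Pd) : (n +ᵥ z).map Pd.k = z.map Pd.k := by
  induction z generalizing n with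
  | nil => rfl
  | cons p z ih =>
    rw [vadd_cons, List.map_cons, List.map_cons, ih]
    rfl

theorem oz_k (τ : List I) : (oz τ : List S.Pd).map Pd.k = τ.map some ++ [none] := by
  induction τ with
  | nil => rfl
  | cons i τ ih => rw [oz, List.map_cons, ih]; rfl

theorem oz_inj {τ τ' : List I} {n n' : ℤ} (h : n +ᵥ (oz τ : List S.Pd) = n' +ᵥ oz τ') : τ = τ' := by
  have h1 := congrArg (List.map Pd.k) h
  rw [map_k_vadd, map_k_vadd, oz_k, oz_k] at h1
  have h2 := List.append_cancel_right h1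
  exact (List.map_injective_iff.2 (Option.some_injective I)) h2

theorem mem_false_iff (z : List S.Pd) : z ∈ Ob false ↔ ∃ τ, z = oz τ := by
  induction z with
  | nil =>
    constructor
    · intro h; exact absurd h (nil_notMem false)
    · rintro ⟨τ, h⟩; exact absurd h.symm (oz_ne_nil τ)
  | cons p z ih =>
    obtain ⟨κ, j⟩ := p
    cases z with
    | nil =>
      constructor
      · intro h
        cases κ with
        | none =>
          have h' : j = 0 := h
          exact ⟨[], by rw [h']; rfl⟩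
        | some i => exact absurd h (fun h => h)
      · rintro ⟨τ, h⟩
        cases τ with
        | nil =>
          rw [h]
          show fin false (⟨none, 0⟩ : S.Pd)
          rfl
        | cons i τ =>
          rw [oz, List.cons.injEq] at h
          exact absurd h.2.symm (oz_ne_nil τ)
    | cons p' z =>
      rw [mem_cons _ _ _ (by simp), ih]
      constructor
      · rintro ⟨h1, τ, h2⟩
        cases κ with
        | none => exact absurd h1 (fun h => h)
        | some i =>
          have h1' : j = 0 := h1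
          exact ⟨i :: τ, by rw [h1', h2]; rfl⟩
      · rintro ⟨τ, h⟩
        cases τ with
        | nil => simp [oz] at h
        | cons i τ =>
          rw [oz, List.cons.injEq] at h
          refine ⟨?_, τ, h.2⟩
          rw [h.1]
          show (0 : ZMod S.M) = 0
          rfl

variable (S) in
/-- accepted numbers -/
def acc : List I → ℤ → Prop
  | [], n => ¬ (S.F : ℤ) ∣ n
  | i :: τ, n => (S.D i : ℤ) ∣ n ∧ (S.tst i → ¬ (2 * (S.D i : ℤ)) ∣ n) ∧ acc τ (S.p i * (n / S.D i))

variable (S) in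
/-- stabilising numbers -/
def stb : List I → ℤ → Prop
  | [], n => (S.M : ℤ) ∣ n
  | i :: τ, n => (S.M : ℤ) ∣ n ∧ stb τ (S.p i * (n / S.D i))

theorem dvd_val_iff {d : ℕ} (hd : d ∣ S.M) (n : ℤ) : d ∣ ((n : ZMod S.M)).val ↔ (d : ℤ) ∣ n := by
  have h1 : (((n : ZMod S.M)).val : ℤ) = n % S.M := ZMod.val_intCast n
  rw [← Int.natCast_dvd_natCast, h1]
  have hd' : (d : ℤ) ∣ S.M := by exact_mod_cast hd
  constructor
  · intro h
    rw [← Int.emod_add_mul_ediv n S.M]
    exact dvd_add h (hd'.mul_right _)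
  · intro h
    have : n % S.M = n - S.M * (n / S.M) := by
      have := Int.emod_add_mul_ediv n S.M
      linarith
    rw [this]
    exact dvd_sub h (hd'.mul_right _)

theorem al_true_iff (i : I) (n : ℤ) : al true (⟨some i, (n : ZMod S.M)⟩ : S.Pd) ↔
    (S.D i : ℤ) ∣ n ∧ (S.tst i → ¬ (2 * (S.D i : ℤ)) ∣ n) := by
  show (S.D i ∣ ((n : ZMod S.M)).val ∧ (S.tst i → ¬ 2 * S.D i ∣ ((n : ZMod S.M)).val)) ↔ _
  rw [dvd_val_iff (S.D_dvd i), dvd_val_iff (S.two_D_dvd i)]
  push_cast
  exact Iff.rfl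

theorem vadd_oz_true (τ : List I) : ∀ n : ℤ, n +ᵥ (oz τ : List S.Pd) ∈ Ob true ↔ S.acc τ n := by
  induction τ with
  | nil =>
    intro n
    rw [oz, vadd_cons, vadd_nil, act_zero_eq]
    show ¬ S.F ∣ ((n : ZMod S.M)).val ↔ ¬ _
    rw [dvd_val_iff S.F_dvd]
  | cons i τ ih =>
    intro n
    rw [oz, vadd_cons, mem_cons _ _ _ (vadd_ne_nil (oz_ne_nil τ)), act_zero_eq, al_true_iff, ih, acc]
    constructor
    · rintro ⟨⟨h1, h2⟩, h3⟩
      rw [sec_some_zero i n h1] at h3
      exact ⟨h1, h2, h3⟩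
    · rintro ⟨h1, h2, h3⟩
      rw [sec_some_zero i n h1]
      exact ⟨⟨h1, h2⟩, h3⟩

theorem vadd_oz_eq (τ : List I) : ∀ n : ℤ, n +ᵥ (oz τ : List S.Pd) = oz τ ↔ S.stb τ n := by
  induction τ with
  | nil =>
    intro n
    rw [oz, vadd_cons, vadd_nil, act_zero_eq, stb, ← ZMod.intCast_zmod_eq_zero_iff_dvd]
    constructor
    · intro h
      rw [List.cons.injEq] at h
      exact congrArg Pd.j h.1
    · intro h
      rw [h]
  | cons i τ ih =>
    intro n
    rw [oz, vadd_cons, stb, List.cons.injEq, act_zero_eq]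
    have h0 : ((⟨some i, (n : ZMod S.M)⟩ : S.Pd) = ⟨some i, 0⟩) ↔ (S.M : ℤ) ∣ n := by
      rw [← ZMod.intCast_zmod_eq_zero_iff_dvd]
      exact ⟨fun h => congrArg Pd.j h, fun h => by rw [h]⟩
    rw [h0]
    constructor
    · rintro ⟨h1, h2⟩
      rw [sec_some_zero i n (dvd_trans (by exact_mod_cast S.D_dvd i) h1), ih] at h2
      exact ⟨h1, h2⟩
    · rintro ⟨h1, h2⟩
      rw [sec_some_zero i n (dvd_trans (by exact_mod_cast S.D_dvd i) h1), ih]
      exact ⟨h1, h2⟩

theorem vadd_oz_false (τ : List I) (n : ℤ) : n +ᵥ (oz τ : List S.Pd) ∈ Ob false ↔ S.stb τ n := by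
  rw [mem_false_iff, ← vadd_oz_eq]
  constructor
  · rintro ⟨τ', h⟩
    have h1 : τ = τ' := by
      apply oz_inj (S := S) (n := n) (n' := 0)
      rw [h, zero_vadd]
    rw [h, h1]
  · intro h
    exact ⟨τ, h⟩

/-! ### comparison with the finite marked groups -/

/-- the two sets in the cyclic group -/
def OH {N : ℕ} (c : ZMod N) : Bool → Set (ZMod N)
  | false => {0}
  | true => {c}

/-- the finite marked group -/
noncomputable def rH {N : ℕ} (c : ZMod N) : FreeGroup Gn →* W E (ZMod N) (ZMod N) :=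
  rho (Int.castAddHom (ZMod N)) (OH c)

theorem id_vadd (n : ℤ) (z : List S.Pd) : (AddMonoidHom.id ℤ) n +ᵥ z = n +ᵥ z := rfl

theorem transfer (N : ℕ) (c : ℤ) (𝒯 : Finset (List I)) (L : ℕ)
    (hA : ∃ τ, ∀ n : ℤ, |n| ≤ 2 * L → S.stb τ n → n = 0)
    (hB : ∃ z : List S.Pd, z ∈ Ob true ∧ ∀ n : ℤ, |n| ≤ 2 * L → n +ᵥ z ∈ Ob true → n = 0)
    (hst : ∀ τ ∈ 𝒯, ∀ n, S.stb τ n → (N : ℤ) ∣ n)
    (hacc1 : ∀ τ ∈ 𝒯, ∀ n, S.acc τ n → (n : ZMod N) = c)
    (hacc2 : ∀ n : ℤ, |n| ≤ 2 * L → (n : ZMod N) = c → ∃ τ ∈ 𝒯, S.acc τ n ∧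
      ∀ τ' ∈ 𝒯, S.acc τ' n → τ' = τ)
    (u : FreeGroup Gn) (hu : rT S u = 1) (hL : u.norm ≤ L) : rH (c : ZMod N) u = 1 := by
  classical
  have hbd := (bd_du u).mono hL
  rw [rT, rho_eq] at hu
  rw [rH, rho_eq]
  obtain ⟨hbd1, _⟩ := hbd
  generalize du u = d at *
  obtain ⟨l, n⟩ := d
  simp only at hbd1
  have hn : n = 0 := congrArg W.q hu
  have hf : ∀ z : List S.Pd, fw (AddMonoidHom.id ℤ) Ob l z = 1 := fun z =>
    congrFun (congrArg W.f hu) z
  have hab : ∀ p ∈ l, ∀ x : ℤ, |x| ≤ L → |x - p.1| ≤ 2 * L := by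
    intro p hp x hx
    have h1 := hbd1 p hp
    rw [abs_le] at *
    omega
  -- exact counts
  have hi : ∀ x : ℤ, si (fun e => if e = x then 1 else 0) l = 0 := by
    intro x
    by_cases hx : |x| ≤ L
    · obtain ⟨τ, hτ⟩ := hA
      have h1 := ((fw_eq_one _ _ _ _).1 (hf (x +ᵥ oz τ))).1
      refine Eq.trans ?_ h1
      apply si_congr
      intro p hp
      have h2 : (p.1 = x) ↔ ((AddMonoidHom.id ℤ) (-p.1) +ᵥ (x +ᵥ (oz τ : List S.Pd)) ∈ Ob false) := by
        rw [id_vadd, ← add_vadd, vadd_oz_false]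
        constructor
        · intro h
          rw [h, neg_add_cancel, ← vadd_oz_eq, zero_vadd]
        · intro h
          have h3 := hτ _ (by
            have := hab p hp x hx
            rwa [neg_add_eq_sub]) h
          omega
      by_cases h3 : p.1 = x
      · rw [if_pos h3, ind_true (h2.1 h3)]
      · rw [if_neg h3, ind_false fun h => h3 (h2.2 h)]
    · have h1 : si (fun e => if e = x then (1 : ZMod 2) else 0) l = si (fun e => 0 * 0) l := by
        apply si_congr
        intro p hp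
        rw [if_neg, mul_zero]
        intro h
        exact hx (h ▸ hbd1 p hp)
      rw [h1, si_mul, zero_mul]
  have hj : ∀ x : ℤ, sj (fun e => if e = x then 1 else 0) l = 0 := by
    intro x
    by_cases hx : |x| ≤ L
    · obtain ⟨z, hz, hz'⟩ := hB
      have h1 := ((fw_eq_one _ _ _ _).1 (hf (x +ᵥ z))).2.1
      refine Eq.trans ?_ h1
      apply sj_congr
      intro p hp
      have h2 : (p.1 = x) ↔ ((AddMonoidHom.id ℤ) (-p.1) +ᵥ (x +ᵥ z) ∈ Ob true) := by
        rw [id_vadd, ← add_vadd]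
        constructor
        · intro h
          rw [h, neg_add_cancel, zero_vadd]
          exact hz
        · intro h
          have h3 := hz' _ (by
            have := hab p hp x hx
            rwa [neg_add_eq_sub]) h
          omega
      by_cases h3 : p.1 = x
      · rw [if_pos h3, ind_true (h2.1 h3)]
      · rw [if_neg h3, ind_false fun h => h3 (h2.2 h)]
    · have h1 : sj (fun e => if e = x then (1 : ZMod 2) else 0) l = sj (fun e => 0 * 0) l := by
        apply sj_congr
        intro p hp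
        rw [if_neg, mul_zero]
        intro h
        exact hx (h ▸ hbd1 p hp)
      rw [h1, sj_mul, zero_mul]
  apply W.ext
  · funext ζ
    show fw _ (OH (c : ZMod N)) l ζ = 1
    rw [fw_eq_one]
    refine ⟨si_zero l hi _, sj_zero l hj _, ?_⟩
    let 𝒵 : Finset (List S.Pd) := (𝒯 ×ˢ ((Finset.Icc (-(L : ℤ)) L).filter
      fun x : ℤ => (x : ZMod N) = ζ)).image fun p : List I × ℤ => p.2 +ᵥ (oz p.1 : List S.Pd)
    have hcast : ∀ m : ℤ, (Int.castAddHom (ZMod N)) m = (m : ZMod N) := fun m => rfl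
    -- consequences of membership
    have hz1 : ∀ z ∈ 𝒵, ∀ e e' : ℤ, ((AddMonoidHom.id ℤ) (-e) +ᵥ z ∈ Ob true ∧
        (AddMonoidHom.id ℤ) (-e') +ᵥ z ∈ Ob false) →
        ∃ τ ∈ 𝒯, z = e' +ᵥ oz τ ∧ S.acc τ (e' - e) ∧ (e' : ZMod N) = ζ := by
      intro z hz e e' ⟨h1, h2⟩
      rw [id_vadd] at h1 h2
      obtain ⟨⟨τ, x⟩, hx, hzx⟩ := Finset.mem_image.1 hz
      obtain ⟨hτ, hx2⟩ := Finset.mem_product.1 hx
      rw [Finset.mem_filter] at hx2
      simp only at hτ hx2 hzx
      obtain ⟨τ', hτ'⟩ := (mem_false_iff _).1 h2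
      have h3 : z = e' +ᵥ (oz τ' : List S.Pd) := by
        rw [← hτ', ← add_vadd, add_neg_cancel, zero_vadd]
      have h4 : τ = τ' := oz_inj (hzx.trans h3)
      subst h4
      refine ⟨τ, hτ, h3, ?_, ?_⟩
      · rw [← vadd_oz_true, sub_eq_neg_add, add_vadd, ← h3]
        exact h1
      · have h5 : (-e' + x) +ᵥ (oz τ : List S.Pd) = oz τ := by
          rw [add_vadd, hzx]
          exact hτ'
        rw [vadd_oz_eq] at h5
        have h6 := hst τ hτ _ h5
        rw [← hx2.2]
        have h7 := (ZMod.intCast_zmod_eq_zero_iff_dvd _ _).2 h6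
        push_cast at h7
        rw [neg_add_eq_zero] at h7
        exact h7
    have hK : sk (fun e e' => ind ((Int.castAddHom (ZMod N)) (-e) +ᵥ ζ ∈ OH (c : ZMod N) true ∧
        (Int.castAddHom (ZMod N)) (-e') +ᵥ ζ ∈ OH (c : ZMod N) false)) l =
        sk (fun e e' => ∑ z ∈ 𝒵, ind ((AddMonoidHom.id ℤ) (-e) +ᵥ z ∈ Ob true ∧
          (AddMonoidHom.id ℤ) (-e') +ᵥ z ∈ Ob false)) l := by
      apply sk_congr
      intro p hp p' hp'
      set e := p.1
      set e' := p'.1
      have hle' := hbd1 p' hp'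
      have hP : ((Int.castAddHom (ZMod N)) (-e) +ᵥ ζ ∈ OH (c : ZMod N) true ∧
        (Int.castAddHom (ZMod N)) (-e') +ᵥ ζ ∈ OH (c : ZMod N) false) ↔
        ((e' : ZMod N) = ζ ∧ ((e' - e : ℤ) : ZMod N) = c) := by
        show ((((-e : ℤ)) : ZMod N) + ζ = c ∧ (((-e' : ℤ)) : ZMod N) + ζ = 0) ↔ _
        push_cast
        constructor
        · rintro ⟨h1, h2⟩
          have h3 : ζ = e' := by
            rw [neg_add_eq_zero] at h2
            exact h2.symm
          refine ⟨h3.symm, ?_⟩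
          rw [← h1, h3]
          ring
        · rintro ⟨h1, h2⟩
          rw [← h1, ← h2]
          constructor <;> ring
      by_cases h : (e' : ZMod N) = ζ ∧ ((e' - e : ℤ) : ZMod N) = c
      · rw [ind_true (hP.2 h)]
        obtain ⟨τ, hτ, hacc, huni⟩ := hacc2 (e' - e) (hab p hp e' hle') h.2
        rw [Finset.sum_eq_single (e' +ᵥ (oz τ : List S.Pd))]
        · rw [ind_true]
          rw [id_vadd, id_vadd, ← add_vadd, ← add_vadd, vadd_oz_true, neg_add_eq_sub,
            neg_add_cancel, zero_vadd]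
          exact ⟨hacc, (mem_false_iff _).2 ⟨τ, rfl⟩⟩
        · intro z hz hne
          apply ind_false
          intro h1
          obtain ⟨τ', hτ', h2, h3, _⟩ := hz1 z hz e e' h1
          apply hne
          rw [h2, huni τ' hτ' h3]
        · intro hn1
          exfalso
          apply hn1
          refine Finset.mem_image.2 ⟨(τ, e'), Finset.mem_product.2 ⟨hτ, ?_⟩, rfl⟩
          rw [Finset.mem_filter, Finset.mem_Icc]
          exact ⟨abs_le.1 hle', h.1⟩
      · rw [ind_false fun h1 => h (hP.1 h1)]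
        symm
        apply Finset.sum_eq_zero
        intro z hz
        apply ind_false
        intro h1
        obtain ⟨τ', hτ', h2, h3, h4⟩ := hz1 z hz e e' h1
        exact h ⟨h4, hacc1 τ' hτ' _ h3⟩
    rw [hK, sk_sum]
    apply Finset.sum_eq_zero
    intro z _
    exact ((fw_eq_one _ _ _ _).1 (hf z)).2.2
  · show (Int.castAddHom (ZMod N)) n = 0
    rw [hn, map_zero]

/-- a relator of the group which fails in the finite marked group -/
theorem violated (N : ℕ) (c : ℤ) (n₀ : ℤ) (h : ∀ τ, ¬ S.acc τ n₀) (hc : (n₀ : ZMod N) = c) :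
    ∃ u : FreeGroup Gn, rT S u = 1 ∧ rH (c : ZMod N) u ≠ 1 := by
  obtain ⟨u, hu⟩ := exists_word ([(0, false), (-n₀, true), (0, false), (-n₀, true)], 0)
  refine ⟨u, ?_, ?_⟩
  · rw [rT, hu]
    apply W.ext
    · funext z
      show fw _ _ _ _ = 1
      rw [fw_eq_one]
      have h1 : ¬ ((AddMonoidHom.id ℤ) (-(-n₀)) +ᵥ z ∈ Ob true ∧ (AddMonoidHom.id ℤ) (-0) +ᵥ z ∈ Ob false) := by
        rintro ⟨h1, h2⟩
        rw [id_vadd, neg_neg] at h1
        rw [id_vadd, neg_zero, zero_vadd] at h2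
        obtain ⟨τ, rfl⟩ := (mem_false_iff _).1 h2
        rw [vadd_oz_true] at h1
        exact h τ h1
      refine ⟨?_, ?_, ?_⟩
      · simp only [si, add_zero]
        exact CharTwo.add_self_eq_zero _
      · simp only [sj, add_zero]
        exact CharTwo.add_self_eq_zero _
      · simp only [sk, si, add_zero]
        exact ind_false h1
    · rfl
  · rw [rH, hu]
    intro h2
    have h3 := congrFun (congrArg W.f h2) 0
    have h4 : fw (Int.castAddHom (ZMod N)) (OH (c : ZMod N))
      [(0, false), (-n₀, true), (0, false), (-n₀, true)] 0 = 1 := h3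
    rw [fw_eq_one] at h4
    have h5 := h4.2.2
    simp only [sk, si, add_zero] at h5
    rw [ind_true] at h5
    · exact one_ne_zero h5
    · constructor
      · show (((-(-n₀) : ℤ)) : ZMod N) + 0 = c
        rw [neg_neg, add_zero]
        exact hc
      · show ((((-0) : ℤ)) : ZMod N) + 0 = 0
        simp

end Sys

end Pool.Agent.Helper940.GL
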