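import Pool.Agent.Helper940.GLW

set_option autoImplicit false
set_option linter.unusedSectionVars false

/-!
Systems of contracting multiplications and the associated self-similar group.
-/

namespace Pool.Agent.Helper940.GL

/-- a system: instruction `i` multiplies by `p i` and divides by `q i * F` -/
structure Sys (I : Type) where
  p : I → ℕ
  q : I → ℕ
  tst : I → Prop
  F : ℕ
  hF : F.Prime
  hF2 : Odd F
  hq0 : ∀ i, 0 < q i
  hp0 : ∀ i, 0 < p i
  hpF : ∀ i, ¬ F ∣ p i
  hqF : ∀ i, ¬ F ∣ q i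
  hr : ∀ i, 2 * p i ≤ q i * F

variable {I : Type} [Fintype I] (S : Sys I)

namespace Sys

/-- the divisor -/
def D (i : I) : ℕ := S.q i * S.F

theorem D_pos (i : I) : 0 < S.D i := Nat.mul_pos (S.hq0 i) S.hF.pos

/-- the modulus -/
def M : ℕ := 2 * S.F * ∏ i, S.D i

theorem M_pos : 0 < S.M :=
  Nat.mul_pos (Nat.mul_pos two_pos S.hF.pos) (Finset.prod_pos fun i _ => S.D_pos i)

instance : NeZero S.M := ⟨S.M_pos.ne'⟩

theorem two_D_dvd (i : I) : 2 * S.D i ∣ S.M := by
  unfold M
  rw [mul_assoc 2]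
  apply mul_dvd_mul_left
  exact Dvd.dvd.mul_left (Finset.dvd_prod_of_mem _ (Finset.mem_univ i)) _

theorem D_dvd (i : I) : S.D i ∣ S.M := dvd_trans (dvd_mul_left _ _) (S.two_D_dvd i)

theorem F_dvd : S.F ∣ S.M := by
  unfold M
  exact Dvd.dvd.mul_right (dvd_mul_left _ _) _

/-- the scaled floor functions -/
def g : Option I → ℤ → ℤ
  | none, _ => 0
  | some i, x => (S.p i * x) / (S.D i)

/-- the slope -/
def P : Option I → ℤ
  | none => 0
  | some i => S.p i * ((S.M / S.D i : ℕ) : ℤ)

theorem g_add_M (κ : Option I) (x m : ℤ) : S.g κ (x + S.M * m) = S.g κ x + S.P κ * m := by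
  cases κ with
  | none => simp [g, P]
  | some i =>
    simp only [g, P]
    have h1 : (S.M : ℤ) = (S.D i : ℤ) * ((S.M / S.D i : ℕ) : ℤ) := by
      exact_mod_cast (Nat.mul_div_cancel' (S.D_dvd i)).symm
    have h2 : (S.p i : ℤ) * (x + S.M * m) = S.p i * x + (S.D i : ℤ) * (S.p i * ((S.M / S.D i : ℕ) : ℤ) * m) := by
      conv_lhs => rw [h1]
      ring
    rw [h2, Int.add_mul_ediv_left]
    exact_mod_cast (S.D_pos i).ne'

theorem g_zero (κ : Option I) : S.g κ 0 = 0 := by
  cases κ <;> simp [g]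

theorem g_exact (i : I) (n : ℤ) (h : (S.D i : ℤ) ∣ n) : S.g (some i) n = S.p i * (n / S.D i) := by
  simp only [g]
  rw [Int.mul_ediv_assoc _ h]

/-- positions -/
@[ext] structure Pd where
  k : Option I
  j : ZMod S.M

variable {S}

/-- equivalence with a product -/
def Pd.eqv : S.Pd ≃ Option I × ZMod S.M where
  toFun p := (p.k, p.j)
  invFun p := ⟨p.1, p.2⟩
  left_inv _ := rfl
  right_inv _ := rfl

instance : Finite S.Pd := Finite.of_equiv _ Pd.eqv.symm

/-- sections of `t^n` -/
def s (κ : Option I) (n : ℤ) (j : ZMod S.M) : ℤ := S.g κ (n + j.val) - S.g κ j.val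

theorem s_cast (κ : Option I) (n x : ℤ) : s κ n (x : ZMod S.M) = S.g κ (n + x) - S.g κ x := by
  unfold s
  rw [ZMod.val_intCast]
  have h : x = x % S.M + S.M * (x / S.M) := (Int.emod_add_mul_ediv x S.M).symm
  have h1 : S.g κ x = S.g κ (x % S.M) + S.P κ * (x / S.M) := by
    conv_lhs => rw [h]
    exact S.g_add_M _ _ _
  have h2 : S.g κ (n + x) = S.g κ (n + x % S.M) + S.P κ * (x / S.M) := by
    conv_lhs => rw [h]
    rw [← add_assoc]
    exact S.g_add_M _ _ _
  rw [h1, h2]
  ring

theorem s_bound (κ : Option I) (n : ℤ) (j : ZMod S.M) : 2 * |s κ n j| ≤ |n| + 1 := by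
  unfold s
  generalize (j.val : ℤ) = x
  cases κ with
  | none => simp only [g, sub_self, abs_zero, mul_zero]; positivity
  | some i =>
    simp only [g]
    have hd : (0 : ℤ) < S.D i := by exact_mod_cast S.D_pos i
    have hp : (0 : ℤ) < S.p i := by exact_mod_cast S.hp0 i
    have hr : 2 * (S.p i : ℤ) ≤ S.D i := by
      have := S.hr i
      unfold D
      exact_mod_cast this
    generalize (S.D i : ℤ) = d at *
    generalize (S.p i : ℤ) = p at *
    have h1 := Int.mul_ediv_self_le (x := p * (n + x)) hd.ne'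
    have h2 := Int.lt_mul_ediv_self_add (x := p * (n + x)) hd
    have h3 := Int.mul_ediv_self_le (x := p * x) hd.ne'
    have h4 := Int.lt_mul_ediv_self_add (x := p * x) hd
    generalize (p * (n + x)) / d = u at *
    generalize (p * x) / d = v at *
    have h5 : d * (u - v) < p * n + d := by nlinarith
    have h6 : p * n - d < d * (u - v) := by nlinarith
    have h7 : p * n ≤ p * |n| := mul_le_mul_of_nonneg_left (le_abs_self n) hp.le
    have h8 : -(p * |n|) ≤ p * n := by
      have := mul_le_mul_of_nonneg_left (neg_abs_le n) hp.le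
      linarith
    have h9 : 2 * (p * |n|) ≤ d * |n| := by
      have := mul_le_mul_of_nonneg_right hr (abs_nonneg n)
      linarith
    have h10 : 2 * (u - v) < |n| + 2 := by
      have : d * (2 * (u - v)) < d * (|n| + 2) := by nlinarith
      exact lt_of_mul_lt_mul_left this hd.le
    have h11 : -(|n| + 2) < 2 * (u - v) := by
      have : d * (-(|n| + 2)) < d * (2 * (u - v)) := by nlinarith
      exact lt_of_mul_lt_mul_left this hd.le
    have h12 : |2 * (u - v)| < |n| + 2 := abs_lt.2 ⟨h11, h10⟩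
    rw [abs_mul, abs_two] at h12
    omega

/-- action on letters -/
def act (n : ℤ) (p : S.Pd) : S.Pd := ⟨p.k, (n : ZMod S.M) + p.j⟩

/-- section -/
def sec (n : ℤ) (p : S.Pd) : ℤ := s p.k n p.j

theorem sec_bound (n : ℤ) (p : S.Pd) : 2 * |sec n p| ≤ |n| + 1 := s_bound _ _ _

theorem act_zero (p : S.Pd) : act 0 p = p := by
  apply Pd.ext
  · rfl
  · simp [act]

theorem sec_zero (p : S.Pd) : sec 0 p = 0 := by
  simp [sec, s]

theorem act_add (m n : ℤ) (p : S.Pd) : act (m + n) p = act m (act n p) := by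
  apply Pd.ext
  · rfl
  · simp [act, add_assoc]

theorem sec_add (m n : ℤ) (p : S.Pd) : sec (m + n) p = sec m (act n p) + sec n p := by
  obtain ⟨κ, j⟩ := p
  have hj : j = (((j.val : ℤ)) : ZMod S.M) := by simp
  have h1 : (n : ZMod S.M) + j = ((n + (j.val : ℤ) : ℤ) : ZMod S.M) := by
    rw [Int.cast_add, ← hj]
  show s κ (m + n) j = s κ m ((n : ZMod S.M) + j) + s κ n j
  rw [h1, s_cast]
  unfold s
  rw [add_assoc]
  ring

theorem act_neg_act (n : ℤ) (p : S.Pd) : act (-n) (act n p) = p := by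
  rw [← act_add, neg_add_cancel, act_zero]

theorem act_act_neg (n : ℤ) (p : S.Pd) : act n (act (-n) p) = p := by
  rw [← act_add, add_neg_cancel, act_zero]

theorem sec_neg (n : ℤ) (p : S.Pd) : sec (-n) (act n p) = -(sec n p) := by
  have : sec (-n) (act n p) + sec n p = 0 := by rw [← sec_add, neg_add_cancel, sec_zero]
  omega

/-- action on lists of positions -/
def lact : ℤ → List S.Pd → List S.Pd
  | _, [] => []
  | n, p :: l => act n p :: lact (sec n p) l

theorem lact_zero : ∀ l : List S.Pd, lact 0 l = l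
  | [] => rfl
  | p :: l => by rw [lact, act_zero, sec_zero, lact_zero l]

theorem lact_add : ∀ (m n : ℤ) (l : List S.Pd), lact (m + n) l = lact m (lact n l)
  | _, _, [] => rfl
  | m, n, p :: l => by rw [lact, lact, lact, act_add, sec_add, lact_add]

instance : AddAction ℤ (List S.Pd) where
  vadd := lact
  zero_vadd := lact_zero
  add_vadd := lact_add

theorem vadd_nil (n : ℤ) : n +ᵥ ([] : List S.Pd) = [] := rfl
theorem vadd_cons (n : ℤ) (p : S.Pd) (l : List S.Pd) :
    n +ᵥ (p :: l) = act n p :: (sec n p +ᵥ l) := rfl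

theorem vadd_ne_nil {n : ℤ} {l : List S.Pd} (h : l ≠ []) : n +ᵥ l ≠ [] := by
  cases l with
  | nil => exact absurd rfl h
  | cons p l => rw [vadd_cons]; simp

/-- allowed letters -/
def al : Bool → S.Pd → Prop
  | _, ⟨none, _⟩ => False
  | false, ⟨some _, j⟩ => j = 0
  | true, ⟨some i, j⟩ => S.D i ∣ j.val ∧ (S.tst i → ¬ 2 * S.D i ∣ j.val)

/-- allowed final letters -/
def fin : Bool → S.Pd → Prop
  | _, ⟨some _, _⟩ => False
  | false, ⟨none, j⟩ => j = 0
  | true, ⟨none, j⟩ => ¬ S.F ∣ j.val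

/-- the points where the generators act -/
def mem (b : Bool) : List S.Pd → Prop
  | [] => False
  | [p] => fin b p
  | p :: p' :: l => al b p ∧ mem b (p' :: l)

/-- the two sets -/
def Ob (b : Bool) : Set (List S.Pd) := {z | mem b z}

theorem mem_cons (b : Bool) (p : S.Pd) (l : List S.Pd) (hl : l ≠ []) :
    p :: l ∈ Ob b ↔ al b p ∧ l ∈ Ob b := by
  cases l with
  | nil => exact absurd rfl hl
  | cons p' l => exact Iff.rfl

theorem nil_notMem (b : Bool) : ([] : List S.Pd) ∉ Ob b := fun h => h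

/-! ### the tree -/

/-- the letters of the tree -/
abbrev X (S : Sys I) := S.Pd × E

/-- the wreath product -/
abbrev WW (S : Sys I) := W E ℤ (List S.Pd)

/-- sections in the wreath product -/
def wsec (x : WW S) (p : S.Pd) : WW S := ⟨fun l => x.f (act x.q p :: l), sec x.q p⟩

theorem wsec_one (p : S.Pd) : wsec (1 : WW S) p = 1 := by
  apply W.ext
  · rfl
  · exact sec_zero p

theorem wsec_mul (x y : WW S) (p : S.Pd) :
    wsec (x * y) p = wsec x (act y.q p) * wsec y p := by
  apply W.ext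
  · funext l
    simp only [wsec, W.mul_f, W.mul_q, vadd_cons, act_add, act_neg_act, sec_neg]
  · simp only [wsec, W.mul_q, sec_add]

/-- action on words -/
def wact : WW S → List (X S) → List (X S)
  | _, [] => []
  | x, (p, y) :: w => (act x.q p, x.f [act x.q p] * y) :: wact (wsec x p) w

theorem wact_one : ∀ w : List (X S), wact (1 : WW S) w = w
  | [] => rfl
  | (p, y) :: w => by rw [wact, wsec_one, wact_one w, W.one_q, act_zero, W.one_f, one_mul]

theorem wact_mul : ∀ (x x' : WW S) (w : List (X S)), wact (x * x') w = wact x (wact x' w)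
  | _, _, [] => rfl
  | x, x', (p, y) :: w => by
    rw [wact, wact, wact, wsec_mul, wact_mul, W.mul_q, act_add, W.mul_f, vadd_cons, act_neg_act,
      vadd_nil, mul_assoc]

/-- tree automorphisms -/
def Lam : WW S →* Equiv.Perm (List (X S)) where
  toFun x := ⟨wact x, wact x⁻¹, fun w => by rw [← wact_mul, inv_mul_cancel, wact_one],
    fun w => by rw [← wact_mul, mul_inv_cancel, wact_one]⟩
  map_one' := by ext1 w; exact wact_one w
  map_mul' x x' := by ext1 w; exact wact_mul x x' w

theorem Lam_apply (x : WW S) (w : List (X S)) : Lam x w = wact x w := rfl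

theorem wact_congr : ∀ (w : List (X S)) (x x' : WW S), x.q = x'.q →
    (∀ p l, x.f (p :: l) = x'.f (p :: l)) → wact x w = wact x' w
  | [], _, _, _, _ => rfl
  | (p, y) :: w, x, x', hq, hf => by
    rw [wact, wact, hq, hf]
    congr 1
    apply wact_congr w
    · simp only [wsec, hq]
    · intro p' l
      simp only [wsec, hq, hf]

variable (S) in
/-- the marking in the wreath product -/
noncomputable def rT : FreeGroup Gn →* WW S := rho (AddMonoidHom.id ℤ) Ob

variable (S) in
/-- the marked group -/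
noncomputable def pT : FreeGroup Gn →* Equiv.Perm (List (X S)) := Lam.comp (rT S)

/-- values -/
noncomputable abbrev fz (l : List (ℤ × Bool)) (z : List S.Pd) : E := fw (AddMonoidHom.id ℤ) Ob l z

/-- elements from data -/
noncomputable def Td (d : Dt) : Equiv.Perm (List (X S)) := Lam (elt (AddMonoidHom.id ℤ) Ob d)

theorem pT_eq (u : FreeGroup Gn) : pT S u = Td (du u) := by
  rw [pT, MonoidHom.comp_apply, rT, rho_eq]
  rfl

open Classical in
/-- sections of data -/
noncomputable def sl (l : List (ℤ × Bool)) (p : S.Pd) : List (ℤ × Bool) :=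
  l.filterMap fun e => if al e.2 (act (-e.1) p) then some (-(sec (-e.1) p), e.2) else none

theorem fz_cons (e : ℤ × Bool) (l : List (ℤ × Bool)) (z : List S.Pd) :
    fz (e :: l) z = iv ((AddMonoidHom.id ℤ) (-e.1) +ᵥ z ∈ Ob e.2) (eps e.2) * fz l z := rfl

theorem fz_sl (l : List (ℤ × Bool)) (p : S.Pd) (l' : List S.Pd) (hl : l' ≠ []) :
    fz l (p :: l') = fz (sl l p) l' := by
  induction l with
  | nil => rfl
  | cons e l ih =>
    rw [fz_cons, ih]
    have h0 : (AddMonoidHom.id ℤ) (-e.1) +ᵥ (p :: l') = act (-e.1) p :: (sec (-e.1) p +ᵥ l') := rfl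
    by_cases h : al e.2 (act (-e.1) p)
    · have h1 : sl (e :: l) p = (-(sec (-e.1) p), e.2) :: sl l p := by simp [sl, h]
      rw [h1, fz_cons]
      congr 1
      have h2 : ((AddMonoidHom.id ℤ) (-e.1) +ᵥ (p :: l') ∈ Ob e.2) ↔
          (AddMonoidHom.id ℤ) (-(-(sec (-e.1) p))) +ᵥ l' ∈ Ob e.2 := by
        rw [h0, mem_cons _ _ _ (vadd_ne_nil hl), neg_neg]
        simp only [h, true_and]
        rfl
      by_cases h3 : (AddMonoidHom.id ℤ) (-e.1) +ᵥ (p :: l') ∈ Ob e.2
      · rw [iv_true h3, iv_true (h2.1 h3)]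
      · rw [iv_false h3, iv_false fun h4 => h3 (h2.2 h4)]
    · have h1 : sl (e :: l) p = sl l p := by simp [sl, h]
      have h2 : ¬ ((AddMonoidHom.id ℤ) (-e.1) +ᵥ (p :: l') ∈ Ob e.2) := by
        rw [h0, mem_cons _ _ _ (vadd_ne_nil hl)]
        exact fun h3 => h h3.1
      rw [h1, iv_false h2, one_mul]

/-- sections of data -/
noncomputable def sd (d : Dt) (p : S.Pd) : Dt := (sl d.1 (act d.2 p), sec d.2 p)

theorem Td_cons (d : Dt) (p : S.Pd) (y : E) (w : List (X S)) :
    Td d ((p, y) :: w) = (act d.2 p, fz d.1 [act d.2 p] * y) :: Td (sd d p) w := by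
  show wact _ _ = _
  rw [wact]
  congr 1
  apply wact_congr
  · rfl
  · intro p' l'
    exact fz_sl d.1 (act d.2 p) (p' :: l') (by simp)

theorem Td_nil (d : Dt) : Td d ([] : List (X S)) = [] := rfl

variable (S) in
/-- the group -/
noncomputable def GT : Subgroup (Equiv.Perm (List (X S))) := (pT S).range

/-- a word with given data -/
theorem exists_word (d : Dt) : ∃ u : FreeGroup Gn, ∀ {T Z : Type} [AddGroup T] [AddAction T Z]
    (c : ℤ →+ T) (O : Bool → Set Z), rho c O u = elt c O d := by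
  obtain ⟨l, n⟩ := d
  have hz : ∀ (n : ℤ) {T Z : Type} [AddGroup T] [AddAction T Z] (c : ℤ →+ T) (O : Bool → Set Z),
      rho c O (FreeGroup.of Gn.t ^ n) = (⟨fun _ => 1, c n⟩ : W E T Z) := by
    intro n T Z _ _ c O
    have key : ∀ n : ℕ, ((⟨fun _ => 1, c 1⟩ : W E T Z)) ^ n = ⟨fun _ => 1, c n⟩ := by
      intro n
      induction n with
      | zero =>
        apply W.ext
        · rfl
        · simp
      | succ n ih =>
        rw [pow_succ, ih]
        apply W.ext
        · funext z; simp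
        · simp
    have h1 : rho c O (FreeGroup.of Gn.t) = (⟨fun _ => 1, c 1⟩ : W E T Z) := by
      rw [rho, FreeGroup.lift_apply_of]; rfl
    rw [map_zpow, h1]
    cases n with
    | ofNat n => simpa using key n
    | negSucc n =>
      rw [zpow_negSucc, key]
      apply W.ext
      · funext z; simp
      · simp [Int.negSucc_eq]
  induction l with
  | nil =>
    refine ⟨FreeGroup.of Gn.t ^ n, ?_⟩
    intro T Z _ _ c O
    rw [hz]
    rfl
  | cons p l ih =>
    obtain ⟨u, hu⟩ := ih
    obtain ⟨e, b⟩ := p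
    let x : Gn := if b then Gn.b else Gn.a
    refine ⟨FreeGroup.of Gn.t ^ e * FreeGroup.of x * FreeGroup.of Gn.t ^ (-e) * u, ?_⟩
    intro T Z _ _ c O
    rw [map_mul, map_mul, map_mul, hz, hz, hu]
    have h1 : rho c O (FreeGroup.of x) = (⟨fun z => iv (z ∈ O b) (eps b), 0⟩ : W E T Z) := by
      rw [rho, FreeGroup.lift_apply_of]
      cases b <;> rfl
    rw [h1]
    apply W.ext
    · funext z
      simp only [W.mul_f, W.mul_q, elt, fw, one_mul, mul_one, add_zero]
      rw [map_neg, add_neg_cancel, neg_zero, zero_vadd]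
    · simp only [W.mul_q, elt]
      simp

theorem Td_mem (d : Dt) : (Td d : Equiv.Perm (List (X S))) ∈ GT S := by
  obtain ⟨u, hu⟩ := exists_word d
  exact ⟨u, by rw [pT, MonoidHom.comp_apply, rT, hu]; rfl⟩

theorem mem_GT {g : Equiv.Perm (List (X S))} : g ∈ GT S ↔ ∃ d : Dt, Td d = g := by
  constructor
  · rintro ⟨u, rfl⟩
    exact ⟨du u, (pT_eq u).symm⟩
  · rintro ⟨d, rfl⟩
    exact Td_mem d

theorem GT_nil (g : Equiv.Perm (List (X S))) (hg : g ∈ GT S) : g [] = [] := by
  obtain ⟨d, rfl⟩ := mem_GT.1 hg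
  exact Td_nil d

theorem GT_selfSim (g : Equiv.Perm (List (X S))) (hg : g ∈ GT S) (x : X S) :
    ∃ y : X S, ∃ h ∈ GT S, ∀ w, g (x :: w) = y :: h w := by
  obtain ⟨d, rfl⟩ := mem_GT.1 hg
  obtain ⟨p, y⟩ := x
  exact ⟨_, _, Td_mem _, fun w => Td_cons d p y w⟩

variable (S) in
theorem GT_fg : Group.FG (GT S) := by
  have : Group.FG (FreeGroup Gn) := inferInstance
  exact Group.fg_of_surjective (f := (pT S).rangeRestrict) (MonoidHom.rangeRestrict_surjective _)

/-! ### contraction -/

/-- iterated sections of data -/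
noncomputable def sdv (d : Dt) (v : List S.Pd) : Dt := v.foldl sd d

theorem Td_append (v : List (X S)) : ∀ (d : Dt) (w : List (X S)),
    Td d (v ++ w) = Td d v ++ Td (sdv d (v.map Prod.fst)) w := by
  induction v with
  | nil => intro d w; rw [Td_nil]; rfl
  | cons x v ih =>
    obtain ⟨p, y⟩ := x
    intro d w
    rw [List.cons_append, Td_cons, Td_cons, List.cons_append]
    exact congrArg _ (ih (sd d p) w)

theorem mem_sl {l : List (ℤ × Bool)} {p : S.Pd} {e : ℤ × Bool} (h : e ∈ sl l p) :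
    ∃ e' ∈ l, e.1 = -(sec (-e'.1) p) := by
  rw [sl, List.mem_filterMap] at h
  obtain ⟨e', he', h1⟩ := h
  refine ⟨e', he', ?_⟩
  split_ifs at h1 with h2
  rw [Option.some.injEq] at h1
  rw [← h1]

theorem Bd.step' {r r' : ℕ} (hr : r + 1 ≤ 2 * r' + 1) {d : Dt} (h : Bd r d) (p : S.Pd) :
    Bd r' (sd d p) := by
  obtain ⟨h1, h2⟩ := h
  refine ⟨?_, ?_⟩
  · intro e he
    obtain ⟨e', he', h3⟩ := mem_sl he
    have h4 := h1 e' he'
    have h5 := sec_bound (-e'.1) (act d.2 p)
    rw [h3, abs_neg]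
    rw [abs_neg] at h5
    omega
  · have h5 := sec_bound d.2 p
    show |sec d.2 p| ≤ r'
    omega

theorem Bd.sdv (r : ℕ) : ∀ (d : Dt) (v : List S.Pd), Bd (r + 1) d → r ≤ v.length →
    Bd 1 (sdv d v) := by
  have base : ∀ (v : List S.Pd) (d : Dt), Bd 1 d → Bd 1 (Sys.sdv d v) := by
    intro v
    induction v with
    | nil => exact fun d h => h
    | cons p v ih => exact fun d h => ih _ (Bd.step' (by norm_num) h p)
  induction r with
  | zero => exact fun d v h _ => base v d h
  | succ r ih =>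
    intro d v h hv
    cases v with
    | nil => simp at hv
    | cons p v => exact ih (sd d p) v (Bd.step' (by omega) h p) (by simpa using hv)

/-- the profile of a point -/
noncomputable def prof (z : List S.Pd) : Fin 3 × Bool → Prop :=
  fun x => (1 - (x.1 : ℤ)) +ᵥ z ∈ Ob x.2

/-- index -/
def idx (e : ℤ) : Fin 3 := if e = -1 then 0 else if e = 0 then 1 else 2

/-- values in terms of profiles -/
noncomputable def gf : List (ℤ × Bool) → (Fin 3 × Bool → Prop) → E
  | [], _ => 1
  | p :: l, π => iv (π (idx p.1, p.2)) (eps p.2) * gf l π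

theorem fz_gf (l : List (ℤ × Bool)) (h : ∀ p ∈ l, |p.1| ≤ 1) (z : List S.Pd) :
    fz l z = gf l (prof z) := by
  induction l with
  | nil => rfl
  | cons p l ih =>
    rw [fz_cons, gf, ih fun p hp => h p (List.mem_cons_of_mem _ hp)]
    congr 1
    have h1 : ((AddMonoidHom.id ℤ) (-p.1) +ᵥ z ∈ Ob p.2) = prof z (idx p.1, p.2) := by
      show (-p.1 +ᵥ z ∈ Ob p.2) = ((1 - (((idx p.1 : Fin 3) : ℕ) : ℤ)) +ᵥ z ∈ Ob p.2)
      congr 2
      have h2 := h p (by simp)
      rw [abs_le] at h2
      obtain ⟨h3, h4⟩ := h2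
      have h5 : p.1 = -1 ∨ p.1 = 0 ∨ p.1 = 1 := by
        push_cast at h3 h4
        omega
      rcases h5 with h5 | h5 | h5 <;> rw [h5] <;> simp [idx]
    rw [h1]

theorem nucleus : ∃ N : Finset (Equiv.Perm (List (X S))), ∀ d : Dt, Bd 1 d → Td d ∈ N := by
  classical
  let Φ : ((Fin 3 × Bool → Prop) → E) × Fin 3 → Equiv.Perm (List (X S)) :=
    fun x => Lam ⟨fun z => x.1 (prof z), (x.2 : ℤ) - 1⟩
  have hfin : (Set.range Φ).Finite := Set.finite_range Φ
  refine ⟨hfin.toFinset, fun d hd => ?_⟩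
  rw [Set.Finite.mem_toFinset]
  obtain ⟨h1, h2⟩ := hd
  refine ⟨(gf d.1, idx d.2), ?_⟩
  show Lam _ = Lam _
  congr 1
  apply W.ext
  · funext z
    exact (fz_gf d.1 (by simpa using h1) z).symm
  · show (((idx d.2 : Fin 3) : ℕ) : ℤ) - 1 = d.2
    rw [abs_le] at h2
    obtain ⟨h3, h4⟩ := h2
    have h5 : d.2 = -1 ∨ d.2 = 0 ∨ d.2 = 1 := by
      push_cast at h3 h4
      omega
    rcases h5 with h5 | h5 | h5 <;> rw [h5] <;> simp [idx]

theorem GT_contracting : ∃ N : Finset (Equiv.Perm (List (X S))),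
    ∀ g ∈ GT S, ∃ k : ℕ, ∀ v : List (X S), k ≤ v.length → ∀ h ∈ GT S,
      (∀ w, g (v ++ w) = g v ++ h w) → h ∈ N := by
  obtain ⟨N, hN⟩ := nucleus (S := S)
  refine ⟨N, fun g hg => ?_⟩
  obtain ⟨u, rfl⟩ := hg
  refine ⟨u.norm, fun v hv h _ hh => ?_⟩
  rw [pT_eq] at hh
  have h1 : h = Td (sdv (du u) (v.map Prod.fst)) := by
    ext1 w
    have h2 := hh w
    rw [Td_append v (du u) w] at h2
    exact (List.append_cancel_left h2).symm
  rw [h1]
  apply hN
  apply Bd.sdv u.norm _ _ ((bd_du u).mono (Nat.le_succ _))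
  rw [List.length_map]
  exact hv

end Sys

end Pool.Agent.Helper940.GL
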