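import Mathlib

set_option autoImplicit false
set_option linter.unusedSectionVars false

/-!
Wreath products, a group of order eight, and the marked groups attached to two sets of points.
-/

namespace Pool.Agent.Helper940.GL

/-- the group of order eight (Heisenberg group over the field with two elements) -/
@[ext] structure E where
  i : ZMod 2
  j : ZMod 2
  k : ZMod 2

namespace E

instance : Mul E := ⟨fun x y => ⟨x.i + y.i, x.j + y.j, x.k + y.k + x.j * y.i⟩⟩
instance : One E := ⟨⟨0, 0, 0⟩⟩
instance : Inv E := ⟨fun x => ⟨-x.i, -x.j, -x.k + x.j * x.i⟩⟩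

@[simp] theorem mul_i (x y : E) : (x * y).i = x.i + y.i := rfl
@[simp] theorem mul_j (x y : E) : (x * y).j = x.j + y.j := rfl
@[simp] theorem mul_k (x y : E) : (x * y).k = x.k + y.k + x.j * y.i := rfl
@[simp] theorem one_i : (1 : E).i = 0 := rfl
@[simp] theorem one_j : (1 : E).j = 0 := rfl
@[simp] theorem one_k : (1 : E).k = 0 := rfl
@[simp] theorem inv_i (x : E) : (x⁻¹).i = -x.i := rfl
@[simp] theorem inv_j (x : E) : (x⁻¹).j = -x.j := rfl
@[simp] theorem inv_k (x : E) : (x⁻¹).k = -x.k + x.j * x.i := rfl

instance : Group E := Group.ofLeftAxioms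
  (fun x y z => by
    ext
    · simp [add_assoc]
    · simp [add_assoc]
    · simp; ring)
  (fun x => by ext <;> simp)
  (fun x => by
    ext
    · simp only [mul_i, inv_i, one_i, neg_add_cancel]
    · simp only [mul_j, inv_j, one_j, neg_add_cancel]
    · simp only [mul_k, inv_k, inv_j, one_k]; ring)

/-- it is finite -/
def eqv : E ≃ ZMod 2 × ZMod 2 × ZMod 2 where
  toFun x := (x.i, x.j, x.k)
  invFun x := ⟨x.1, x.2.1, x.2.2⟩
  left_inv _ := rfl
  right_inv _ := rfl

instance : Finite E := Finite.of_equiv _ eqv.symm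

theorem card_E : Nat.card E = 8 := by
  rw [Nat.card_congr eqv, Nat.card_prod, Nat.card_prod, Nat.card_zmod]

end E

/-- unrestricted permutational wreath product -/
@[ext] structure W (A T Z : Type) where
  f : Z → A
  q : T

namespace W

variable {A T Z : Type} [Group A] [AddGroup T] [AddAction T Z]

instance : Mul (W A T Z) := ⟨fun x y => ⟨fun z => x.f z * y.f (-x.q +ᵥ z), x.q + y.q⟩⟩
instance : One (W A T Z) := ⟨⟨fun _ => 1, 0⟩⟩
instance : Inv (W A T Z) := ⟨fun x => ⟨fun z => (x.f (x.q +ᵥ z))⁻¹, -x.q⟩⟩

@[simp] theorem mul_f (x y : W A T Z) (z : Z) : (x * y).f z = x.f z * y.f (-x.q +ᵥ z) := rfl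
@[simp] theorem mul_q (x y : W A T Z) : (x * y).q = x.q + y.q := rfl
@[simp] theorem one_f (z : Z) : (1 : W A T Z).f z = 1 := rfl
@[simp] theorem one_q : (1 : W A T Z).q = 0 := rfl
@[simp] theorem inv_f (x : W A T Z) (z : Z) : (x⁻¹).f z = (x.f (x.q +ᵥ z))⁻¹ := rfl
@[simp] theorem inv_q (x : W A T Z) : (x⁻¹).q = -x.q := rfl

instance : Group (W A T Z) := Group.ofLeftAxioms
  (fun x y w => by
    apply W.ext
    · funext z
      simp only [mul_f, mul_q, mul_assoc, neg_add_rev, add_vadd]
    · simp [add_assoc])
  (fun x => by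
    apply W.ext
    · funext z; simp
    · simp)
  (fun x => by
    apply W.ext
    · funext z; simp
    · simp)

/-- underlying product -/
def eqv : W A T Z ≃ (Z → A) × T where
  toFun x := (x.f, x.q)
  invFun x := ⟨x.1, x.2⟩
  left_inv _ := rfl
  right_inv _ := rfl

end W

/-! ### the marking -/

/-- generators -/
inductive Gn where
  | t
  | a
  | b

instance : Finite Gn := by
  have : Function.Surjective (fun i : Fin 3 => if i = 0 then Gn.t else if i = 1 then Gn.a else Gn.b) := by
    intro x
    cases x
    · exact ⟨0, rfl⟩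
    · exact ⟨1, rfl⟩
    · exact ⟨2, rfl⟩
  exact Finite.of_surjective _ this

/-- the two involutions -/
def eps : Bool → E
  | false => ⟨1, 0, 0⟩
  | true => ⟨0, 1, 0⟩

theorem eps_mul_self (x : Bool) : eps x * eps x = 1 := by
  cases x
  · ext
    · show (1 : ZMod 2) + 1 = 0
      decide
    · show (0 : ZMod 2) + 0 = 0
      decide
    · show (0 : ZMod 2) + 0 + 0 * 1 = 0
      decide
  · ext
    · show (0 : ZMod 2) + 0 = 0
      decide
    · show (1 : ZMod 2) + 1 = 0
      decide
    · show (0 : ZMod 2) + 0 + 1 * 0 = 0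
      decide

/-- data -/
abbrev Dt := List (ℤ × Bool) × ℤ

/-- data of a word -/
def dt : List (Gn × Bool) → Dt
  | [] => ([], 0)
  | (Gn.t, s) :: w =>
    let e : ℤ := if s then 1 else -1
    ((dt w).1.map fun p => (e + p.1, p.2), e + (dt w).2)
  | (Gn.a, _) :: w => ((0, false) :: (dt w).1, (dt w).2)
  | (Gn.b, _) :: w => ((0, true) :: (dt w).1, (dt w).2)

/-- bounded data -/
def Bd (L : ℕ) (d : Dt) : Prop := (∀ p ∈ d.1, |p.1| ≤ L) ∧ |d.2| ≤ L

theorem Bd.mono {L L' : ℕ} (h : L ≤ L') {d : Dt} (hd : Bd L d) : Bd L' d := by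
  have h' : (L : ℤ) ≤ L' := by exact_mod_cast h
  exact ⟨fun p hp => le_trans (hd.1 p hp) h', le_trans hd.2 h'⟩

theorem bd_dt (w : List (Gn × Bool)) : Bd w.length (dt w) := by
  induction w with
  | nil => exact ⟨fun p hp => by simp [dt] at hp, by simp [dt]⟩
  | cons x w ih =>
    obtain ⟨g, s⟩ := x
    have e1 : |(if s then (1 : ℤ) else -1)| = 1 := by cases s <;> simp
    obtain ⟨h1, h2⟩ := ih
    cases g with
    | t =>
      refine ⟨?_, ?_⟩
      · intro p hp
        simp only [dt, List.mem_map] at hp
        obtain ⟨p', hp', rfl⟩ := hp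
        have h3 := h1 p' hp'
        have h4 := abs_add_le (if s then (1 : ℤ) else -1) p'.1
        rw [e1] at h4
        rw [List.length_cons]
        push_cast
        linarith
      · simp only [dt]
        have h4 := abs_add_le (if s then (1 : ℤ) else -1) (dt w).2
        rw [e1] at h4
        rw [List.length_cons]
        push_cast
        linarith
    | a =>
      refine ⟨?_, ?_⟩
      · intro p hp
        simp only [dt, List.mem_cons] at hp
        rw [List.length_cons]
        push_cast
        rcases hp with rfl | hp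
        · simp; positivity
        · have := h1 p hp
          linarith
      · simp only [dt]
        rw [List.length_cons]
        push_cast
        linarith
    | b =>
      refine ⟨?_, ?_⟩
      · intro p hp
        simp only [dt, List.mem_cons] at hp
        rw [List.length_cons]
        push_cast
        rcases hp with rfl | hp
        · simp; positivity
        · have := h1 p hp
          linarith
      · simp only [dt]
        rw [List.length_cons]
        push_cast
        linarith

section rho

variable {T Z : Type} [AddGroup T] [AddAction T Z] (c : ℤ →+ T)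

open Classical in
/-- conditional value -/
noncomputable def iv (P : Prop) (x : E) : E := if P then x else 1

theorem iv_true {P : Prop} (h : P) (x : E) : iv P x = x := if_pos h
theorem iv_false {P : Prop} (h : ¬ P) (x : E) : iv P x = 1 := if_neg h

/-- values of the generators -/
noncomputable def gen (O : Bool → Set Z) : Gn → W E T Z
  | Gn.t => ⟨fun _ => 1, c 1⟩
  | Gn.a => ⟨fun z => iv (z ∈ O false) (eps false), 0⟩
  | Gn.b => ⟨fun z => iv (z ∈ O true) (eps true), 0⟩

/-- the marked group -/
noncomputable def rho (O : Bool → Set Z) : FreeGroup Gn →* W E T Z := FreeGroup.lift (gen c O)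

/-- the value of data at a point -/
noncomputable def fw (O : Bool → Set Z) : List (ℤ × Bool) → Z → E
  | [], _ => 1
  | p :: l, z => iv (c (-p.1) +ᵥ z ∈ O p.2) (eps p.2) * fw O l z

/-- element from data -/
noncomputable def elt (O : Bool → Set Z) (d : Dt) : W E T Z := ⟨fw c O d.1, c d.2⟩

theorem fw_shift (O : Bool → Set Z) (e : ℤ) (l : List (ℤ × Bool)) (z : Z) :
    fw c O (l.map fun p => (e + p.1, p.2)) z = fw c O l (c (-e) +ᵥ z) := by
  induction l with
  | nil => rfl
  | cons p l ih =>
    rw [List.map_cons, fw, fw, ih]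
    have h : c (-(e + p.1)) +ᵥ z = c (-p.1) +ᵥ (c (-e) +ᵥ z) := by
      rw [← add_vadd, ← map_add]
      congr 2
      ring
    simp only [h]

theorem rho_mk (O : Bool → Set Z) (w : List (Gn × Bool)) :
    rho c O (FreeGroup.mk w) = elt c O (dt w) := by
  induction w with
  | nil =>
    have : (FreeGroup.mk ([] : List (Gn × Bool))) = 1 := rfl
    rw [this, map_one]
    apply W.ext
    · rfl
    · simp [elt, dt]
  | cons x w ih =>
    have h1 : (FreeGroup.mk (x :: w)) = FreeGroup.mk [x] * FreeGroup.mk w := by
      rw [FreeGroup.mul_mk]; rfl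
    rw [h1, map_mul, ih]
    obtain ⟨g, s⟩ := x
    have h2 : rho c O (FreeGroup.mk [(g, s)]) = if s then gen c O g else (gen c O g)⁻¹ := by
      rw [rho, FreeGroup.lift_mk]
      cases s <;> simp
    rw [h2]
    cases g with
    | t =>
      have h3 : (if s then gen c O Gn.t else (gen c O Gn.t)⁻¹) =
          (⟨fun _ => 1, c (if s then 1 else -1)⟩ : W E T Z) := by
        cases s
        · apply W.ext
          · funext z; simp [gen]
          · simp [gen]
        · simp [gen]
      rw [h3]
      apply W.ext
      · funext z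
        simp only [W.mul_f, elt, dt, one_mul, fw_shift, map_neg]
      · simp only [W.mul_q, elt, dt, map_add]
    | a =>
      have h3 : (if s then gen c O Gn.a else (gen c O Gn.a)⁻¹) = (gen c O Gn.a : W E T Z) := by
        cases s
        · apply W.ext
          · funext z
            have : (gen c O Gn.a : W E T Z).q = 0 := rfl
            simp only [Bool.false_eq_true, if_false, W.inv_f, this, zero_vadd]
            rw [inv_eq_iff_mul_eq_one]
            simp only [gen]
            by_cases hz : z ∈ O false
            · rw [iv_true hz]; exact eps_mul_self _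
            · rw [iv_false hz]; simp
          · simp [gen]
        · simp
      rw [h3]
      apply W.ext
      · funext z
        simp only [W.mul_f, elt, dt, gen, fw, neg_zero, map_zero, zero_vadd]
      · simp only [W.mul_q, elt, dt, gen, zero_add]
    | b =>
      have h3 : (if s then gen c O Gn.b else (gen c O Gn.b)⁻¹) = (gen c O Gn.b : W E T Z) := by
        cases s
        · apply W.ext
          · funext z
            have : (gen c O Gn.b : W E T Z).q = 0 := rfl
            simp only [Bool.false_eq_true, if_false, W.inv_f, this, zero_vadd]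
            rw [inv_eq_iff_mul_eq_one]
            simp only [gen]
            by_cases hz : z ∈ O true
            · rw [iv_true hz]; exact eps_mul_self _
            · rw [iv_false hz]; simp
          · simp [gen]
        · simp
      rw [h3]
      apply W.ext
      · funext z
        simp only [W.mul_f, elt, dt, gen, fw, neg_zero, map_zero, zero_vadd]
      · simp only [W.mul_q, elt, dt, gen, zero_add]

noncomputable instance : DecidableEq Gn := Classical.decEq _

/-- data of an element of the free group -/
noncomputable def du (u : FreeGroup Gn) : Dt := dt u.toWord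

theorem rho_eq (O : Bool → Set Z) (u : FreeGroup Gn) :
    rho c O u = elt c O (du u) := by
  rw [du, ← rho_mk, FreeGroup.mk_toWord]

theorem bd_du (u : FreeGroup Gn) : Bd u.norm (du u) := bd_dt _

end rho

/-! ### sums over letters -/

/-- sum over the `a` letters -/
def si (α : ℤ → ZMod 2) : List (ℤ × Bool) → ZMod 2
  | [] => 0
  | (e, false) :: l => α e + si α l
  | (_, true) :: l => si α l

/-- sum over the `b` letters -/
def sj (β : ℤ → ZMod 2) : List (ℤ × Bool) → ZMod 2
  | [] => 0
  | (_, false) :: l => sj β l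
  | (e, true) :: l => β e + sj β l

/-- sum over the pairs, `b` letter before `a` letter -/
def sk (K : ℤ → ℤ → ZMod 2) : List (ℤ × Bool) → ZMod 2
  | [] => 0
  | (_, false) :: l => sk K l
  | (e, true) :: l => si (K e) l + sk K l

/-- the list of values -/
def fe (α β : ℤ → ZMod 2) : List (ℤ × Bool) → E
  | [] => 1
  | (e, false) :: l => ⟨α e, 0, 0⟩ * fe α β l
  | (e, true) :: l => ⟨0, β e, 0⟩ * fe α β l

theorem si_mul (x : ZMod 2) (α : ℤ → ZMod 2) (l : List (ℤ × Bool)) :
    si (fun e => x * α e) l = x * si α l := by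
  induction l with
  | nil => simp [si]
  | cons p l ih =>
    obtain ⟨e, b⟩ := p
    cases b <;> simp [si, ih, mul_add]

theorem fe_eq (α β : ℤ → ZMod 2) (l : List (ℤ × Bool)) :
    fe α β l = ⟨si α l, sj β l, sk (fun e e' => β e * α e') l⟩ := by
  induction l with
  | nil => rfl
  | cons p l ih =>
    obtain ⟨e, b⟩ := p
    cases b
    · rw [fe, ih]
      ext <;> simp [si, sj, sk]
    · rw [fe, ih]
      ext
      · simp [si]
      · simp [sj]
      · simp only [E.mul_k, sk, si_mul]
        ring

theorem si_congr {α α' : ℤ → ZMod 2} (l : List (ℤ × Bool)) (h : ∀ p ∈ l, α p.1 = α' p.1) :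
    si α l = si α' l := by
  induction l with
  | nil => rfl
  | cons p l ih =>
    have ih' := ih fun p hp => h p (List.mem_cons_of_mem _ hp)
    have h1 := h p (by simp)
    obtain ⟨e, b⟩ := p
    cases b
    · simp only [si, ih', h1]
    · simp only [si, ih']

theorem sj_congr {α α' : ℤ → ZMod 2} (l : List (ℤ × Bool)) (h : ∀ p ∈ l, α p.1 = α' p.1) :
    sj α l = sj α' l := by
  induction l with
  | nil => rfl
  | cons p l ih =>
    have ih' := ih fun p hp => h p (List.mem_cons_of_mem _ hp)
    have h1 := h p (by simp)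
    obtain ⟨e, b⟩ := p
    cases b
    · simp only [sj, ih']
    · simp only [sj, ih', h1]

theorem sk_congr {K K' : ℤ → ℤ → ZMod 2} (l : List (ℤ × Bool))
    (h : ∀ p ∈ l, ∀ p' ∈ l, K p.1 p'.1 = K' p.1 p'.1) : sk K l = sk K' l := by
  induction l with
  | nil => rfl
  | cons p l ih =>
    have ih' := ih fun p hp p' hp' => h p (List.mem_cons_of_mem _ hp) p' (List.mem_cons_of_mem _ hp')
    have h1 : si (K p.1) l = si (K' p.1) l := si_congr l fun p' hp' =>
      h p (by simp) p' (List.mem_cons_of_mem _ hp')
    obtain ⟨e, b⟩ := p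
    cases b
    · simp only [sk, ih']
    · simp only [sk, ih', h1]

theorem si_sum {ι : Type} (S : Finset ι) (α : ι → ℤ → ZMod 2) (l : List (ℤ × Bool)) :
    si (fun e => ∑ s ∈ S, α s e) l = ∑ s ∈ S, si (α s) l := by
  induction l with
  | nil => simp [si]
  | cons p l ih =>
    obtain ⟨e, b⟩ := p
    cases b
    · simp only [si, ih, Finset.sum_add_distrib]
    · simp only [si, ih]

theorem sj_sum {ι : Type} (S : Finset ι) (α : ι → ℤ → ZMod 2) (l : List (ℤ × Bool)) :
    sj (fun e => ∑ s ∈ S, α s e) l = ∑ s ∈ S, sj (α s) l := by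
  induction l with
  | nil => simp [sj]
  | cons p l ih =>
    obtain ⟨e, b⟩ := p
    cases b
    · simp only [sj, ih]
    · simp only [sj, ih, Finset.sum_add_distrib]

theorem sk_sum {ι : Type} (S : Finset ι) (K : ι → ℤ → ℤ → ZMod 2) (l : List (ℤ × Bool)) :
    sk (fun e e' => ∑ s ∈ S, K s e e') l = ∑ s ∈ S, sk (K s) l := by
  induction l with
  | nil => simp [sk]
  | cons p l ih =>
    obtain ⟨e, b⟩ := p
    cases b
    · simp only [sk, ih]
    · simp only [sk, ih, Finset.sum_add_distrib, si_sum]

theorem sj_mul (x : ZMod 2) (α : ℤ → ZMod 2) (l : List (ℤ × Bool)) :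
    sj (fun e => x * α e) l = x * sj α l := by
  induction l with
  | nil => simp [sj]
  | cons p l ih =>
    obtain ⟨e, b⟩ := p
    cases b <;> simp [sj, ih, mul_add]

/-- if every exponent occurs an even number of times then all sums vanish -/
theorem si_zero (l : List (ℤ × Bool)) (h : ∀ x : ℤ, si (fun e => if e = x then 1 else 0) l = 0)
    (α : ℤ → ZMod 2) : si α l = 0 := by
  classical
  have h1 : si α l = si (fun e => ∑ x ∈ (l.map Prod.fst).toFinset, α x * (if e = x then 1 else 0)) l := by
    apply si_congr
    intro p hp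
    rw [Finset.sum_eq_single p.1]
    · simp
    · intro b _ hb
      rw [if_neg (Ne.symm hb), mul_zero]
    · intro hn
      exfalso
      apply hn
      rw [List.mem_toFinset]
      exact List.mem_map.2 ⟨p, hp, rfl⟩
  rw [h1, si_sum]
  apply Finset.sum_eq_zero
  intro x _
  rw [si_mul, h, mul_zero]

theorem sj_zero (l : List (ℤ × Bool)) (h : ∀ x : ℤ, sj (fun e => if e = x then 1 else 0) l = 0)
    (α : ℤ → ZMod 2) : sj α l = 0 := by
  classical
  have h1 : sj α l = sj (fun e => ∑ x ∈ (l.map Prod.fst).toFinset, α x * (if e = x then 1 else 0)) l := by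
    apply sj_congr
    intro p hp
    rw [Finset.sum_eq_single p.1]
    · simp
    · intro b _ hb
      rw [if_neg (Ne.symm hb), mul_zero]
    · intro hn
      exfalso
      apply hn
      rw [List.mem_toFinset]
      exact List.mem_map.2 ⟨p, hp, rfl⟩
  rw [h1, sj_sum]
  apply Finset.sum_eq_zero
  intro x _
  rw [sj_mul, h, mul_zero]

open Classical in
/-- indicator -/
noncomputable def ind (P : Prop) : ZMod 2 := if P then 1 else 0

theorem ind_mul (P P' : Prop) : ind P * ind P' = ind (P ∧ P') := by
  unfold ind
  by_cases h : P <;> by_cases h' : P' <;> simp [h, h']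

theorem ind_congr {P P' : Prop} (h : P ↔ P') : ind P = ind P' := by
  unfold ind
  by_cases h1 : P
  · rw [if_pos h1, if_pos (h.1 h1)]
  · rw [if_neg h1, if_neg fun h2 => h1 (h.2 h2)]

theorem ind_true {P : Prop} (h : P) : ind P = 1 := if_pos h
theorem ind_false {P : Prop} (h : ¬ P) : ind P = 0 := if_neg h

section

variable {T Z : Type} [AddGroup T] [AddAction T Z] (c : ℤ →+ T)

theorem fw_eq (O : Bool → Set Z) (l : List (ℤ × Bool)) (z : Z) :
    fw c O l z = fe (fun e => ind (c (-e) +ᵥ z ∈ O false)) (fun e => ind (c (-e) +ᵥ z ∈ O true)) l := by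
  induction l with
  | nil => rfl
  | cons p l ih =>
    obtain ⟨e, b⟩ := p
    cases b
    · rw [fw, fe, ih]
      congr 1
      by_cases h : c (-e) +ᵥ z ∈ O false
      · rw [iv_true h, ind_true h]; rfl
      · rw [iv_false h, ind_false h]; rfl
    · rw [fw, fe, ih]
      congr 1
      by_cases h : c (-e) +ᵥ z ∈ O true
      · rw [iv_true h, ind_true h]; rfl
      · rw [iv_false h, ind_false h]; rfl

/-- the three components -/
theorem fw_eq_one (O : Bool → Set Z) (l : List (ℤ × Bool)) (z : Z) :
    fw c O l z = 1 ↔ si (fun e => ind (c (-e) +ᵥ z ∈ O false)) l = 0 ∧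
      sj (fun e => ind (c (-e) +ᵥ z ∈ O true)) l = 0 ∧
      sk (fun e e' => ind (c (-e) +ᵥ z ∈ O true ∧ c (-e') +ᵥ z ∈ O false)) l = 0 := by
  have h : (fun e e' : ℤ => ind (c (-e) +ᵥ z ∈ O true) * ind (c (-e') +ᵥ z ∈ O false)) =
      (fun e e' => ind (c (-e) +ᵥ z ∈ O true ∧ c (-e') +ᵥ z ∈ O false)) := by
    funext e e'
    exact ind_mul _ _
  rw [fw_eq, fe_eq, E.ext_iff, h]
  exact Iff.rfl

end

end Pool.Agent.Helper940.GL
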