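import Mathlib

/-! Copied from the hand-in MP_64b2bf_al.InfDimIrrep of helper439: the Grigorchuk group is a
2-group and a certain element of its group algebra over a field of characteristic 2 has no left
inverse. -/

set_option autoImplicit false

namespace Pool.Agent.Helper940.GrigIrr

/-- The automorphism `a`: it changes the first letter of a nonempty word (`false` is 0, `true` is 1). -/
def aFun : List Bool → List Bool
  | [] => []
  | x :: w => (!x) :: w

mutual
/-- `b(0w) = 0 a(w)`, `b(1w) = 1 c(w)`. -/
def bFun : List Bool → List Bool
  | [] => []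
  | false :: w => false :: aFun w
  | true :: w => true :: cFun w
/-- `c(0w) = 0 a(w)`, `c(1w) = 1 d(w)`. -/
def cFun : List Bool → List Bool
  | [] => []
  | false :: w => false :: aFun w
  | true :: w => true :: dFun w
/-- `d(0w) = 0 w`, `d(1w) = 1 b(w)`. -/
def dFun : List Bool → List Bool
  | [] => []
  | false :: w => false :: w
  | true :: w => true :: bFun w
end

theorem aFun_invol : Function.Involutive aFun := by
  intro w
  cases w <;> simp [aFun]

theorem bcd_invol (w : List Bool) :
    bFun (bFun w) = w ∧ cFun (cFun w) = w ∧ dFun (dFun w) = w := by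
  induction w with
  | nil => simp [bFun, cFun, dFun]
  | cons x w ih =>
    obtain ⟨h1, h2, h3⟩ := ih
    cases x
    · simp [bFun, cFun, dFun, aFun_invol w]
    · simp [bFun, cFun, dFun, h1, h2, h3]

/-- The four generators as permutations of the set of finite binary words. -/
def a : Equiv.Perm (List Bool) := Function.Involutive.toPerm aFun aFun_invol
def b : Equiv.Perm (List Bool) := Function.Involutive.toPerm bFun (fun w => (bcd_invol w).1)
def c : Equiv.Perm (List Bool) := Function.Involutive.toPerm cFun (fun w => (bcd_invol w).2.1)
def d : Equiv.Perm (List Bool) := Function.Involutive.toPerm dFun (fun w => (bcd_invol w).2.2)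

/-- The first Grigorchuk group. -/
def G : Subgroup (Equiv.Perm (List Bool)) := Subgroup.closure {a, b, c, d}

theorem a_apply (w : List Bool) : a w = aFun w := rfl
theorem b_apply (w : List Bool) : b w = bFun w := rfl
theorem c_apply (w : List Bool) : c w = cFun w := rfl
theorem d_apply (w : List Bool) : d w = dFun w := rfl

theorem bcd_mul (w : List Bool) :
    bFun (cFun w) = dFun w ∧ cFun (bFun w) = dFun w ∧ cFun (dFun w) = bFun w ∧
    dFun (cFun w) = bFun w ∧ bFun (dFun w) = cFun w ∧ dFun (bFun w) = cFun w := by
  induction w with
  | nil => simp [bFun, cFun, dFun]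
  | cons x w ih =>
    obtain ⟨h1, h2, h3, h4, h5, h6⟩ := ih
    cases x
    · simp [bFun, cFun, dFun, aFun_invol w]
    · simp [bFun, cFun, dFun, h1, h2, h3, h4, h5, h6]

theorem bb : b * b = 1 := by ext1 w; exact (bcd_invol w).1
theorem cc : c * c = 1 := by ext1 w; exact (bcd_invol w).2.1
theorem dd : d * d = 1 := by ext1 w; exact (bcd_invol w).2.2
theorem aa : a * a = 1 := by ext1 w; exact aFun_invol w
theorem bc_eq : b * c = d := by ext1 w; exact (bcd_mul w).1
theorem cb_eq : c * b = d := by ext1 w; exact (bcd_mul w).2.1
theorem cd_eq : c * d = b := by ext1 w; exact (bcd_mul w).2.2.1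
theorem dc_eq : d * c = b := by ext1 w; exact (bcd_mul w).2.2.2.1
theorem bd_eq : b * d = c := by ext1 w; exact (bcd_mul w).2.2.2.2.1
theorem db_eq : d * b = c := by ext1 w; exact (bcd_mul w).2.2.2.2.2

/-! ### The group is a 2-group -/

/-- Letters of the four-group. -/
inductive V4
  | e | b | c | d
  deriving DecidableEq

namespace V4

def val : V4 → Equiv.Perm (List Bool)
  | e => 1
  | b => GrigIrr.b
  | c => GrigIrr.c
  | d => GrigIrr.d

def mul : V4 → V4 → V4
  | e, y => y
  | x, e => x
  | b, b => e
  | c, c => e
  | d, d => e
  | b, c => d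
  | c, b => d
  | b, d => c
  | d, b => c
  | c, d => b
  | d, c => b

theorem val_mul (x y : V4) : (mul x y).val = x.val * y.val := by
  cases x <;> cases y <;> simp [mul, val, bb, cc, dd, bc_eq, cb_eq, cd_eq, dc_eq, bd_eq, db_eq]

/-- The letters with first section `a`. -/
def bc : V4 → Bool
  | e => false
  | b => true
  | c => true
  | d => false

/-- The second section. -/
def beta : V4 → V4
  | e => e
  | b => c
  | c => d
  | d => b

theorem bc_mul (x y : V4) : (mul x y).bc.toNat ≤ x.bc.toNat + y.bc.toNat := by
  cases x <;> cases y <;> simp [mul, bc]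

theorem val_sq (x : V4) : x.val * x.val = 1 := by
  cases x <;> simp [val, bb, cc, dd]

end V4

/-- Mixed words: `none` is `a`. -/
def mg : Option V4 → Equiv.Perm (List Bool)
  | none => a
  | some v => v.val

def mv (u : List (Option V4)) : Equiv.Perm (List Bool) := (u.map mg).prod

theorem mv_nil : mv [] = 1 := rfl
theorem mv_cons (s : Option V4) (u : List (Option V4)) : mv (s :: u) = mg s * mv u := by simp [mv]
theorem mv_append (u v : List (Option V4)) : mv (u ++ v) = mv u * mv v := by simp [mv]

/-- The product of the `a v`. -/
def E : List V4 → Equiv.Perm (List Bool)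
  | [] => 1
  | v :: l => a * v.val * E l

def nf : List (Option V4) → V4 × List V4
  | [] => (V4.e, [])
  | none :: u => (V4.e, (nf u).1 :: (nf u).2)
  | some v :: u => (V4.mul v (nf u).1, (nf u).2)

theorem nf_val (u : List (Option V4)) : mv u = (nf u).1.val * E (nf u).2 := by
  induction u with
  | nil => simp [mv_nil, nf, E, V4.val]
  | cons s u ih =>
    rw [mv_cons, ih]
    cases s with
    | none => simp [nf, E, mg, V4.val, mul_assoc]
    | some v => simp [nf, mg, V4.val_mul, mul_assoc]

def oB : Option V4 → Bool
  | none => false
  | some v => v.bc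

def nA (u : List (Option V4)) : ℕ := u.countP (fun s => s.isNone)
def nB (u : List (Option V4)) : ℕ := u.countP oB
def cnt (l : List V4) : ℕ := l.countP V4.bc

theorem cnt_cons (v : V4) (l : List V4) : cnt (v :: l) = cnt l + v.bc.toNat := by
  unfold cnt
  rw [List.countP_cons]
  cases v.bc <;> simp

theorem cnt_le (l : List V4) : cnt l ≤ l.length := List.countP_le_length

theorem nf_length (u : List (Option V4)) : (nf u).2.length = nA u := by
  induction u with
  | nil => rfl
  | cons s u ih =>
    cases s with
    | none => simp [nf, nA] at *; exact ih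
    | some v => simp [nf, nA] at *; exact ih

theorem nf_cnt (u : List (Option V4)) : (nf u).1.bc.toNat + cnt (nf u).2 ≤ nB u := by
  induction u with
  | nil => simp [nf, nB, cnt, V4.bc]
  | cons s u ih =>
    cases s with
    | none =>
      have h1 : nB (none :: u) = nB u := by simp [nB, oB]
      have h2 : V4.e.bc = false := rfl
      simp only [nf, cnt_cons, h1, h2, Bool.toNat_false]
      omega
    | some v =>
      simp only [nf]
      have : nB (some v :: u) = nB u + v.bc.toNat := by
        unfold nB
        rw [List.countP_cons, oB]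
        cases v.bc <;> simp
      rw [this]
      have := V4.bc_mul v (nf u).1
      omega

def addLast : List V4 → V4 → List V4
  | [], _ => []
  | [v], x => [V4.mul v x]
  | v :: w :: l, x => v :: addLast (w :: l) x

theorem addLast_length (l : List V4) (x : V4) : (addLast l x).length = l.length := by
  induction l with
  | nil => rfl
  | cons v l ih =>
    cases l with
    | nil => rfl
    | cons w l => simpa [addLast] using ih

theorem addLast_cnt (l : List V4) (x : V4) : cnt (addLast l x) ≤ cnt l + x.bc.toNat := by
  induction l with
  | nil => simp [addLast, cnt]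
  | cons v l ih =>
    cases l with
    | nil =>
      simp only [addLast, cnt_cons]
      have := V4.bc_mul v x
      omega
    | cons w l =>
      simp only [addLast]
      rw [cnt_cons v, cnt_cons v]
      omega

theorem addLast_E (l : List V4) (x : V4) (hl : l ≠ []) : E (addLast l x) = E l * x.val := by
  induction l with
  | nil => exact absurd rfl hl
  | cons v l ih =>
    cases l with
    | nil => simp [addLast, E, V4.val_mul, mul_assoc]
    | cons w l =>
      have := ih (by simp)
      show a * v.val * E (addLast (w :: l) x) = a * v.val * E (w :: l) * x.val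
      rw [this]
      simp only [mul_assoc]

/-- Elements of order a power of two. -/
def P (g : Equiv.Perm (List Bool)) : Prop := ∃ k : ℕ, g ^ (2 ^ k) = 1

theorem P_of_sq {g : Equiv.Perm (List Bool)} (h : P (g * g)) : P g := by
  obtain ⟨k, hk⟩ := h
  refine ⟨k + 1, ?_⟩
  rw [pow_succ, mul_comm, pow_mul, pow_two, hk]

theorem P_comm {g h : Equiv.Perm (List Bool)} (H : P (g * h)) : P (h * g) := by
  obtain ⟨k, hk⟩ := H
  refine ⟨k, ?_⟩
  have : h * g = g⁻¹ * (g * h) * (g⁻¹)⁻¹ := by group
  rw [this, conj_pow, hk]
  simp

theorem P_V (v : V4) : P v.val := P_of_sq ⟨0, by simp [V4.val_sq]⟩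

/-- Reduction of mixed words. -/
theorem P_mixed (u : List (Option V4))
    (h : ∀ l : List V4, l.length = nA u → cnt l ≤ nB u →
      l = addLast (nf u).2 (nf u).1 → P (E l)) : P (mv u) := by
  rw [nf_val u]
  by_cases hl : (nf u).2 = []
  · rw [hl]
    simpa [E] using P_V _
  · apply P_comm
    rw [← addLast_E _ _ hl]
    refine h _ ?_ ?_ rfl
    · rw [addLast_length, nf_length]
    · have h1 := addLast_cnt (nf u).2 (nf u).1
      have h2 := nf_cnt u
      omega

/-- Sections of `E l`. -/
def sec (x : Bool) : List V4 → List (Option V4)
  | [] => []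
  | v :: l => (if xor x (decide (l.length % 2 = 1)) then some v.beta else
      if v.bc then none else some V4.e) :: sec x l

theorem V4_false (v : V4) (w : List Bool) :
    v.val (false :: w) = false :: (mg (if v.bc then none else some V4.e)) w := by
  cases v <;> rfl

theorem V4_true (v : V4) (w : List Bool) : v.val (true :: w) = true :: v.beta.val w := by
  cases v <;> rfl

theorem E_apply (l : List V4) (x : Bool) (w : List Bool) :
    E l (x :: w) = xor x (decide (l.length % 2 = 1)) :: mv (sec x l) w := by
  induction l with
  | nil => simp [E, sec, mv_nil]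
  | cons v l ih =>
    have hodd : decide ((v :: l).length % 2 = 1) = !decide (l.length % 2 = 1) := by
      by_cases h : l.length % 2 = 1
      · simp only [List.length_cons, h, decide_true, Bool.not_true]
        apply decide_eq_false
        omega
      · simp only [List.length_cons, h, decide_false, Bool.not_false]
        apply decide_eq_true
        omega
    rw [hodd]
    simp only [E, Equiv.Perm.mul_apply, ih, sec, mv_cons]
    cases hb : xor x (decide (l.length % 2 = 1))
    · rw [V4_false, a_apply, aFun]
      have : xor x (!decide (l.length % 2 = 1)) = true := by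
        cases x <;> simp_all
      rw [this]
      simp
    · rw [V4_true, a_apply, aFun]
      have : xor x (!decide (l.length % 2 = 1)) = false := by
        cases x <;> simp_all
      rw [this]
      simp [mg]

theorem E_nil_apply (l : List V4) : E l [] = [] := by
  induction l with
  | nil => rfl
  | cons v l ih =>
    simp only [E, Equiv.Perm.mul_apply, ih]
    cases v <;> rfl

theorem nA_sec (x : Bool) (l : List V4) :
    2 * nA (sec x l) ≤ l.length + (xor x (decide (l.length % 2 = 1))).toNat := by
  induction l with
  | nil => simp [sec, nA]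
  | cons v l ih =>
    have hodd : decide ((v :: l).length % 2 = 1) = !decide (l.length % 2 = 1) := by
      by_cases h : l.length % 2 = 1
      · simp only [List.length_cons, h, decide_true, Bool.not_true]
        apply decide_eq_false
        omega
      · simp only [List.length_cons, h, decide_false, Bool.not_false]
        apply decide_eq_true
        omega
    rw [hodd]
    simp only [sec]
    cases hb : xor x (decide (l.length % 2 = 1))
    · have h2 : xor x (!decide (l.length % 2 = 1)) = true := by
        cases x <;> simp_all
      rw [h2]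
      rw [hb] at ih
      simp only [Bool.toNat_false, Bool.toNat_true, List.length_cons, Bool.false_eq_true,
        if_false] at ih ⊢
      have : nA ((if v.bc = true then none else some V4.e) :: sec x l) ≤ nA (sec x l) + 1 := by
        unfold nA
        rw [List.countP_cons]
        split_ifs <;> simp
      omega
    · have h2 : xor x (!decide (l.length % 2 = 1)) = false := by
        cases x <;> simp_all
      rw [h2]
      rw [hb] at ih
      simp only [Bool.toNat_false, Bool.toNat_true, List.length_cons, if_true] at ih ⊢
      have : nA (some v.beta :: sec x l) = nA (sec x l) := by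
        unfold nA
        rw [List.countP_cons]
        simp
      omega

/-- The word describing a section of the square of `E l`, `l` of odd length. -/
def sq (l : List V4) : List (Option V4) := sec true l ++ sec false l

theorem nA_sq (l : List V4) : nA (sq l) = cnt l := by
  unfold sq nA cnt
  rw [List.countP_append]
  induction l with
  | nil => rfl
  | cons v l ih =>
    simp only [sec, List.countP_cons]
    by_cases h : l.length % 2 = 1 <;> cases hv : v.bc <;> simp [h] <;> omega

theorem nB_sq (l : List V4) : nB (sq l) = l.countP (fun v => v.beta.bc) := by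
  unfold sq nB
  rw [List.countP_append]
  induction l with
  | nil => rfl
  | cons v l ih =>
    simp only [sec, List.countP_cons]
    have he : oB (some V4.e) = false := rfl
    have hn : oB none = false := rfl
    have hb : oB (some v.beta) = v.beta.bc := rfl
    by_cases h : l.length % 2 = 1 <;> cases hv : v.bc <;> simp [h, he, hn, hb] <;> omega

theorem P_even (l : List V4) (hl : l.length % 2 = 0) (h : ∀ x, P (mv (sec x l))) : P (E l) := by
  obtain ⟨k0, h0⟩ := h false
  obtain ⟨k1, h1⟩ := h true
  refine ⟨k0 + k1, ?_⟩
  have key : ∀ (n : ℕ) (x : Bool) (w : List Bool),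
      (E l ^ n) (x :: w) = x :: ((mv (sec x l)) ^ n) w := by
    intro n x
    induction n with
    | zero => intro w; rfl
    | succ n ih =>
      intro w
      rw [pow_succ, pow_succ, Equiv.Perm.mul_apply, Equiv.Perm.mul_apply, E_apply]
      have : decide (l.length % 2 = 1) = false := by
        apply decide_eq_false; omega
      rw [this, Bool.xor_false, ih]
  have keyn : ∀ n : ℕ, (E l ^ n) [] = [] := by
    intro n
    induction n with
    | zero => rfl
    | succ n ih => rw [pow_succ, Equiv.Perm.mul_apply, E_nil_apply, ih]
  ext1 w
  match w with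
  | [] => rw [keyn]; rfl
  | false :: w =>
    rw [key, pow_add, pow_mul, h0, one_pow]
    rfl
  | true :: w =>
    rw [key, pow_add, mul_comm, pow_mul, h1, one_pow]
    rfl

theorem P_odd (l : List V4) (hl : l.length % 2 = 1) (h : P (mv (sq l))) : P (E l) := by
  apply P_of_sq
  have h' : P (mv (sec false l) * mv (sec true l)) := by
    apply P_comm
    rw [← mv_append]
    exact h
  rw [sq, mv_append] at h
  obtain ⟨k0, h0⟩ := h
  obtain ⟨k1, h1⟩ := h'
  refine ⟨k0 + k1, ?_⟩
  have hd : decide (l.length % 2 = 1) = true := decide_eq_true hl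
  have key0 : ∀ (n : ℕ) (w : List Bool),
      ((E l * E l) ^ n) (false :: w) = false :: ((mv (sec true l) * mv (sec false l)) ^ n) w := by
    intro n
    induction n with
    | zero => intro w; rfl
    | succ n ih =>
      intro w
      rw [pow_succ, pow_succ, Equiv.Perm.mul_apply, Equiv.Perm.mul_apply, Equiv.Perm.mul_apply,
        E_apply, hd]
      simp only [Bool.xor_true, Bool.not_false]
      rw [E_apply, hd]
      simp only [Bool.xor_true, Bool.not_true]
      rw [ih]
      rfl
  have key1 : ∀ (n : ℕ) (w : List Bool),
      ((E l * E l) ^ n) (true :: w) = true :: ((mv (sec false l) * mv (sec true l)) ^ n) w := by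
    intro n
    induction n with
    | zero => intro w; rfl
    | succ n ih =>
      intro w
      rw [pow_succ, pow_succ, Equiv.Perm.mul_apply, Equiv.Perm.mul_apply, Equiv.Perm.mul_apply,
        E_apply, hd]
      simp only [Bool.xor_true, Bool.not_true]
      rw [E_apply, hd]
      simp only [Bool.xor_true, Bool.not_false]
      rw [ih]
      rfl
  have keyn : ∀ n : ℕ, ((E l * E l) ^ n) [] = [] := by
    intro n
    induction n with
    | zero => rfl
    | succ n ih => rw [pow_succ, Equiv.Perm.mul_apply, Equiv.Perm.mul_apply, E_nil_apply,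
        E_nil_apply, ih]
  ext1 w
  match w with
  | [] => rw [keyn]; rfl
  | false :: w =>
    rw [key0, pow_add, pow_mul, h0, one_pow]
    rfl
  | true :: w =>
    rw [key1, pow_add, mul_comm, pow_mul, h1, one_pow]
    rfl

def isEC (v : V4) : Prop := v = V4.e ∨ v = V4.c

theorem isEC_mul {x y : V4} (hx : isEC x) (hy : isEC y) : isEC (V4.mul x y) := by
  rcases hx with rfl | rfl <;> rcases hy with rfl | rfl <;> simp [isEC, V4.mul]

theorem nf_EC (u : List (Option V4)) (h : ∀ v, some v ∈ u → isEC v) :
    isEC (nf u).1 ∧ ∀ v ∈ (nf u).2, isEC v := by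
  induction u with
  | nil => simp [nf, isEC]
  | cons s u ih =>
    have ih' := ih (fun v hv => h v (List.mem_cons_of_mem _ hv))
    cases s with
    | none =>
      refine ⟨Or.inl rfl, ?_⟩
      intro v hv
      simp only [nf, List.mem_cons] at hv
      rcases hv with rfl | hv
      · exact ih'.1
      · exact ih'.2 v hv
    | some x => exact ⟨isEC_mul (h x (by simp)) ih'.1, ih'.2⟩

theorem addLast_EC (l : List V4) (x : V4) (hx : isEC x) (hl : ∀ v ∈ l, isEC v) :
    ∀ v ∈ addLast l x, isEC v := by
  induction l with
  | nil => simp [addLast]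
  | cons v l ih =>
    cases l with
    | nil =>
      intro y hy
      simp only [addLast, List.mem_singleton] at hy
      rw [hy]
      exact isEC_mul (hl v (by simp)) hx
    | cons w l =>
      intro y hy
      simp only [addLast, List.mem_cons] at hy
      rcases hy with rfl | hy
      · exact hl _ (by simp)
      · exact ih (fun v hv => hl v (List.mem_cons_of_mem _ hv)) y hy

theorem sec_EC (x : Bool) (l : List V4) (h : ∀ v ∈ l, v = V4.b) :
    ∀ v, some v ∈ sec x l → isEC v := by
  induction l with
  | nil => simp [sec]
  | cons w l ih =>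
    intro v hv
    simp only [sec, List.mem_cons] at hv
    rcases hv with hv | hv
    · have hw : w = V4.b := h w (by simp)
      subst hw
      split_ifs at hv with h1 h2
      · have : v = V4.beta V4.b := Option.some.inj hv
        rw [this]; right; rfl
      · have : v = V4.e := Option.some.inj hv
        left; exact this
    · exact ih (fun v hv => h v (List.mem_cons_of_mem _ hv)) v hv

theorem P_E (m : ℕ) : ∀ l : List V4, l.length = m → P (E l) := by
  induction m using Nat.strong_induction_on with
  | _ m IH =>
  rcases Nat.eq_zero_or_pos m with rfl | hm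
  · intro l hl
    rw [List.length_eq_zero_iff.1 hl]
    exact ⟨0, by simp [E]⟩
  rcases Nat.mod_two_eq_zero_or_one m with h0 | h1
  · -- even case
    intro l hl
    apply P_even l (by rw [hl]; exact h0)
    intro x
    apply P_mixed
    intro l' hl' _ _
    have := nA_sec x l
    have hx : (xor x (decide (l.length % 2 = 1))).toNat ≤ 1 := Bool.toNat_le _
    exact IH l'.length (by omega) l' rfl
  · -- odd case
    have hi : ∀ l : List V4, l.length = m → cnt l < m → P (E l) := by
      intro l hl hc
      apply P_odd l (by rw [hl]; exact h1)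
      apply P_mixed
      intro l' hl' _ _
      rw [nA_sq] at hl'
      exact IH l'.length (by omega) l' rfl
    have hii : ∀ l : List V4, l.length = m → V4.c ∈ l → P (E l) := by
      intro l hl hcl
      rcases Nat.lt_or_ge (cnt l) m with h | h
      · exact hi l hl h
      apply P_odd l (by rw [hl]; exact h1)
      apply P_mixed
      intro l' hl' hc' _
      rw [nA_sq] at hl'
      have h2 : cnt l = m := le_antisymm (hl ▸ cnt_le l) h
      apply hi l' (by omega)
      refine lt_of_le_of_lt hc' ?_
      rw [nB_sq, ← hl]
      apply List.countP_lt_length_iff.2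
      exact ⟨V4.c, hcl, by simp [V4.beta, V4.bc]⟩
    intro l hl
    rcases Nat.lt_or_ge (cnt l) m with h | h
    · exact hi l hl h
    by_cases hcl : V4.c ∈ l
    · exact hii l hl hcl
    have h2 : cnt l = l.length := le_antisymm (cnt_le l) (by omega)
    have hall : ∀ v ∈ l, v = V4.b := by
      intro v hv
      have := (List.countP_eq_length.1 h2) v hv
      cases v
      · simp [V4.bc] at this
      · rfl
      · exact absurd hv hcl
      · simp [V4.bc] at this
    apply P_odd l (by rw [hl]; exact h1)
    apply P_mixed
    intro l' hl' hc' hl''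
    rw [nA_sq] at hl'
    have hlen : l'.length = m := by omega
    have hEC : ∀ v ∈ l', isEC v := by
      rw [hl'']
      have hsq : ∀ v, some v ∈ sq l → isEC v := by
        intro v hv
        rw [sq, List.mem_append] at hv
        rcases hv with hv | hv
        · exact sec_EC _ l hall v hv
        · exact sec_EC _ l hall v hv
      have := nf_EC (sq l) hsq
      exact addLast_EC _ _ this.1 this.2
    rcases Nat.lt_or_ge (cnt l') m with h3 | h3
    · exact hi l' hlen h3
    apply hii l' hlen
    have h4 : cnt l' = l'.length := le_antisymm (cnt_le l') (by omega)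
    match l', hlen, h4, hEC with
    | [], hlen, _, _ => simp at hlen; omega
    | v :: t, _, h4, hEC =>
      have := (List.countP_eq_length.1 h4) v (by simp)
      rcases hEC v (by simp) with rfl | rfl
      · simp [V4.bc] at this
      · simp

theorem P_mv (u : List (Option V4)) : P (mv u) := P_mixed u (fun l _ _ _ => P_E _ l rfl)

theorem exists_mixed {g : Equiv.Perm (List Bool)} (hg : g ∈ G) : ∃ u, mv u = g := by
  have hgen : ∀ x ∈ ({a, b, c, d} : Set (Equiv.Perm (List Bool))), ∃ s, mg s = x := by
    intro x hx
    simp only [Set.mem_insert_iff, Set.mem_singleton_iff] at hx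
    rcases hx with h | h | h | h <;> subst h
    · exact ⟨none, rfl⟩
    · exact ⟨some V4.b, rfl⟩
    · exact ⟨some V4.c, rfl⟩
    · exact ⟨some V4.d, rfl⟩
  have hinv : ∀ s, (mg s)⁻¹ = mg s := by
    intro s
    rw [inv_eq_iff_mul_eq_one]
    cases s with
    | none => exact aa
    | some v => exact V4.val_sq v
  induction hg using Subgroup.closure_induction with
  | mem x hx =>
    obtain ⟨s, hs⟩ := hgen x hx
    exact ⟨[s], by simp [mv, hs]⟩
  | one => exact ⟨[], rfl⟩
  | mul x y _ _ hx hy =>
    obtain ⟨u, rfl⟩ := hx
    obtain ⟨v, rfl⟩ := hy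
    exact ⟨u ++ v, mv_append u v⟩
  | inv x _ hx =>
    obtain ⟨u, rfl⟩ := hx
    refine ⟨u.reverse, ?_⟩
    have hrev : ∀ u, mv u.reverse = (mv u)⁻¹ := by
      intro u
      induction u with
      | nil => simp [mv]
      | cons s u ih => simp [mv_append, mv_cons, mv_nil, ih, hinv]
    exact hrev u

/-- The Grigorchuk group is a 2-group. -/
theorem isPGroup : IsPGroup 2 G := by
  intro g
  obtain ⟨u, hu⟩ := exists_mixed g.2
  obtain ⟨k, hk⟩ := P_mv u
  refine ⟨k, ?_⟩
  apply Subtype.ext
  rw [hu] at hk
  simpa using hk


/-! ### Action on words -/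

/-- Compatibility with extension of words (elements of `G` preserve length and initial segments). -/
def Pre (g : Equiv.Perm (List Bool)) : Prop :=
  ∀ w u : List Bool, ∃ u' : List Bool, g (w ++ u) = g w ++ u' ∧ u'.length = u.length

theorem Pre.mul {g h : Equiv.Perm (List Bool)} (hg : Pre g) (hh : Pre h) : Pre (g * h) := by
  intro w u
  obtain ⟨u', h1, h2⟩ := hh w u
  obtain ⟨u'', h3, h4⟩ := hg (h w) u'
  exact ⟨u'', by rw [Equiv.Perm.mul_apply, h1, h3]; rfl, by rw [h4, h2]⟩

theorem pre_a : Pre a := by
  intro w u
  cases w with
  | nil =>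
    cases u with
    | nil => exact ⟨[], rfl, rfl⟩
    | cons x u => exact ⟨(!x) :: u, rfl, rfl⟩
  | cons x w => exact ⟨u, rfl, rfl⟩

theorem pre_bcd (w : List Bool) : (∀ u, ∃ u', b (w ++ u) = b w ++ u' ∧ u'.length = u.length) ∧
    (∀ u, ∃ u', c (w ++ u) = c w ++ u' ∧ u'.length = u.length) ∧
    (∀ u, ∃ u', d (w ++ u) = d w ++ u' ∧ u'.length = u.length) := by
  induction w with
  | nil =>
    have hlen : ∀ u : List Bool, (bFun u).length = u.length ∧ (cFun u).length = u.length ∧
        (dFun u).length = u.length := by
      intro u
      induction u with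
      | nil => exact ⟨rfl, rfl, rfl⟩
      | cons x u ih =>
        obtain ⟨h1, h2, h3⟩ := ih
        have ha : (aFun u).length = u.length := by cases u <;> rfl
        cases x
        · simp [bFun, cFun, dFun, ha]
        · simp [bFun, cFun, dFun, h1, h2, h3]
    exact ⟨fun u => ⟨bFun u, rfl, (hlen u).1⟩, fun u => ⟨cFun u, rfl, (hlen u).2.1⟩,
      fun u => ⟨dFun u, rfl, (hlen u).2.2⟩⟩
  | cons x w ih =>
    obtain ⟨h1, h2, h3⟩ := ih
    cases x
    · refine ⟨fun u => ?_, fun u => ?_, fun u => ?_⟩
      · obtain ⟨u', h, h'⟩ := pre_a w u
        exact ⟨u', congrArg (List.cons false) h, h'⟩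
      · obtain ⟨u', h, h'⟩ := pre_a w u
        exact ⟨u', congrArg (List.cons false) h, h'⟩
      · exact ⟨u, rfl, rfl⟩
    · refine ⟨fun u => ?_, fun u => ?_, fun u => ?_⟩
      · obtain ⟨u', h, h'⟩ := h2 u
        exact ⟨u', congrArg (List.cons true) h, h'⟩
      · obtain ⟨u', h, h'⟩ := h3 u
        exact ⟨u', congrArg (List.cons true) h, h'⟩
      · obtain ⟨u', h, h'⟩ := h1 u
        exact ⟨u', congrArg (List.cons true) h, h'⟩

theorem pre_mv (u : List (Option V4)) : Pre (mv u) := by
  induction u with
  | nil => exact fun w u => ⟨u, rfl, rfl⟩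
  | cons s u ih =>
    rw [mv_cons]
    refine Pre.mul ?_ ih
    cases s with
    | none => exact pre_a
    | some v =>
      cases v
      · exact fun w u => ⟨u, rfl, rfl⟩
      · exact fun w => (pre_bcd w).1
      · exact fun w => (pre_bcd w).2.1
      · exact fun w => (pre_bcd w).2.2

theorem pre_G {g : Equiv.Perm (List Bool)} (hg : g ∈ G) : Pre g := by
  obtain ⟨u, rfl⟩ := exists_mixed hg
  exact pre_mv u

theorem mv_nil_apply (u : List (Option V4)) : mv u [] = [] := by
  induction u with
  | nil => rfl
  | cons s u ih =>
    rw [mv_cons, Equiv.Perm.mul_apply, ih]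
    cases s with
    | none => rfl
    | some v => cases v <;> rfl

theorem len_G {g : Equiv.Perm (List Bool)} (hg : g ∈ G) (w : List Bool) :
    (g w).length = w.length := by
  obtain ⟨u', h1, h2⟩ := pre_G hg [] w
  obtain ⟨u, rfl⟩ := exists_mixed hg
  rw [List.nil_append, mv_nil_apply, List.nil_append] at h1
  rw [h1, h2]

/-- The word `1^m 0`. -/
def en (m : ℕ) : List Bool := List.replicate m true ++ [false]

/-- The word `1^m`. -/
def st (m : ℕ) : List Bool := List.replicate m true

theorem a_snoc (u : List Bool) (hu : u ≠ []) (x : Bool) : a (u ++ [x]) = a u ++ [x] := by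
  cases u with
  | nil => exact absurd rfl hu
  | cons y u => rfl

theorem bcd_snoc (u : List Bool) (hu : ∀ m, u ≠ en m) (x : Bool) :
    b (u ++ [x]) = b u ++ [x] ∧ c (u ++ [x]) = c u ++ [x] ∧ d (u ++ [x]) = d u ++ [x] := by
  induction u with
  | nil => cases x <;> exact ⟨rfl, rfl, rfl⟩
  | cons y u ih =>
    cases y
    · have hu' : u ≠ [] := by
        rintro rfl
        exact hu 0 rfl
      have := a_snoc u hu' x
      exact ⟨congrArg (List.cons false) this, congrArg (List.cons false) this, rfl⟩
    · have hu' : ∀ m, u ≠ en m := by
        rintro m rfl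
        exact hu (m + 1) rfl
      obtain ⟨h1, h2, h3⟩ := ih hu'
      exact ⟨congrArg (List.cons true) h2, congrArg (List.cons true) h3,
        congrArg (List.cons true) h1⟩

theorem bcd_en (m : ℕ) (x : Bool) :
    b (en m) = en m ∧ c (en m) = en m ∧ d (en m) = en m ∧
    b (en m ++ [x]) = en m ++ [xor x (decide (m % 3 ≠ 2))] ∧
    c (en m ++ [x]) = en m ++ [xor x (decide (m % 3 ≠ 1))] ∧
    d (en m ++ [x]) = en m ++ [xor x (decide (m % 3 ≠ 0))] := by
  induction m with
  | zero => cases x <;> exact ⟨rfl, rfl, rfl, rfl, rfl, rfl⟩
  | succ m ih =>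
    obtain ⟨h1, h2, h3, h4, h5, h6⟩ := ih
    have e1 : decide ((m + 1) % 3 ≠ 2) = decide (m % 3 ≠ 1) := decide_eq_decide.2 (by omega)
    have e2 : decide ((m + 1) % 3 ≠ 1) = decide (m % 3 ≠ 0) := decide_eq_decide.2 (by omega)
    have e3 : decide ((m + 1) % 3 ≠ 0) = decide (m % 3 ≠ 2) := decide_eq_decide.2 (by omega)
    rw [e1, e2, e3]
    exact ⟨congrArg (List.cons true) h2, congrArg (List.cons true) h3,
      congrArg (List.cons true) h1, congrArg (List.cons true) h5,
      congrArg (List.cons true) h6, congrArg (List.cons true) h4⟩

section field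

variable {k : Type} [Field k] [CharP k 2] (α β γ δ : k)

/-- The operator `1 + α (1 + a) + β (1 + b) + γ (1 + c) + δ (1 + d)` on functions on words. -/
def T (f : List Bool → k) (w : List Bool) : k :=
  (1 + α + β + γ + δ) * f w + α * f (a w) + β * f (b w) + γ * f (c w) + δ * f (d w)

/-- The weight of the edge leaving `1^m 0`. -/
def eW (m : ℕ) : k :=
  (if m % 3 ≠ 2 then β else 0) + (if m % 3 ≠ 1 then γ else 0) + (if m % 3 ≠ 0 then δ else 0)

omit [CharP k 2] in
theorem T_snoc (f : List Bool → k) (u : List Bool) (x : Bool) (hu0 : u ≠ [])
    (hu : ∀ m, u ≠ en m) : T α β γ δ f (u ++ [x]) = T α β γ δ (fun v => f (v ++ [x])) u := by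
  obtain ⟨h1, h2, h3⟩ := bcd_snoc u hu x
  simp only [T, a_snoc u hu0 x, h1, h2, h3]

theorem T_snoc_en (f : List Bool → k) (m : ℕ) (x : Bool) :
    T α β γ δ f (en m ++ [x]) = T α β γ δ (fun v => f (v ++ [x])) (en m) +
      eW β γ δ m * (f (en m ++ [x]) + f (en m ++ [!x])) := by
  have h0 : en m ≠ [] := by simp [en]
  obtain ⟨h1, h2, h3, h4, h5, h6⟩ := bcd_en m x
  simp only [T, a_snoc _ h0 x, h1, h2, h3, h4, h5, h6, eW]
  have h2 : (2 : k) = 0 := CharTwo.two_eq_zero
  have hm : m % 3 = 0 ∨ m % 3 = 1 ∨ m % 3 = 2 := by omega
  rcases hm with hm | hm | hm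
  · simp only [hm]
    cases x <;> norm_num
    · linear_combination (-(β + γ) * f (en m ++ [false])) * h2
    · linear_combination (-(β + γ) * f (en m ++ [true])) * h2
  · simp only [hm]
    cases x <;> norm_num
    · linear_combination (-(β + δ) * f (en m ++ [false])) * h2
    · linear_combination (-(β + δ) * f (en m ++ [true])) * h2
  · simp only [hm]
    cases x <;> norm_num
    · linear_combination (-(γ + δ) * f (en m ++ [false])) * h2
    · linear_combination (-(γ + δ) * f (en m ++ [true])) * h2

/-- Functions with prescribed values on the two extensions of a word by one letter. -/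
def mk (p q : List Bool → k) (w : List Bool) : k :=
  match w.reverse with
  | [] => 0
  | true :: r => p r.reverse
  | false :: r => q r.reverse

omit [CharP k 2] in
theorem mk_true (p q : List Bool → k) (u : List Bool) : mk p q (u ++ [true]) = p u := by
  simp [mk]

omit [CharP k 2] in
theorem mk_false (p q : List Bool → k) (u : List Bool) : mk p q (u ++ [false]) = q u := by
  simp [mk]

theorem snoc_cases (w : List Bool) : w = [] ∨ ∃ u x, w = u ++ [x] := by
  rcases List.eq_nil_or_concat w with h | ⟨u, x, h⟩
  · left; exact h
  · right; exact ⟨u, x, by rw [h, List.concat_eq_append]⟩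

theorem len_abcd (w : List Bool) : (a w).length = w.length ∧ (b w).length = w.length ∧
    (c w).length = w.length ∧ (d w).length = w.length :=
  ⟨len_G (Subgroup.subset_closure (by simp)) w, len_G (Subgroup.subset_closure (by simp)) w,
    len_G (Subgroup.subset_closure (by simp)) w, len_G (Subgroup.subset_closure (by simp)) w⟩

theorem en_length (m : ℕ) : (en m).length = m + 1 := by simp [en]
theorem st_length (m : ℕ) : (st m).length = m := by simp [st]

theorem en_succ (m : ℕ) : en m = st m ++ [false] := rfl
theorem st_succ (m : ℕ) : st (m + 1) = st m ++ [true] := List.replicate_succ'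

theorem en_ne_st (m n : ℕ) : en m ≠ st n := by
  intro h
  have : false ∈ en m := by simp [en]
  rw [h] at this
  simp [st] at this

theorem green (hα : α ≠ 0) (h1 : β + γ ≠ 0) (h2 : β + δ ≠ 0) (h3 : γ + δ ≠ 0) (m : ℕ) :
    ∃ (φ ψ : List Bool → k) (g : k), g ≠ 0 ∧
      (∀ w, w.length ≠ m + 1 → φ w = 0) ∧
      (∀ w, w.length = m + 1 → T α β γ δ φ w = if w = en m then 1 else 0) ∧
      (∀ w, w.length = m + 1 → T α β γ δ ψ w = if w = st (m + 1) then 1 else 0) ∧
      φ (st (m + 1)) = g ∧ ψ (en m) = g := by
  have two : (2 : k) = 0 := CharTwo.two_eq_zero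
  induction m with
  | zero =>
    refine ⟨fun w => if w = [false] then 1 + α else if w = [true] then α else 0,
      fun w => if w = [true] then 1 + α else if w = [false] then α else 0, α, hα, ?_, ?_, ?_, ?_, ?_⟩
    · intro w hw
      have e1 : w ≠ [false] := by rintro rfl; simp at hw
      have e2 : w ≠ [true] := by rintro rfl; simp at hw
      simp [e1, e2]
    · intro w hw
      obtain ⟨x, rfl⟩ := List.length_eq_one_iff.1 hw
      cases x
      · have : en 0 = [false] := rfl
        simp only [T, a_apply, b_apply, c_apply, d_apply, aFun, bFun, cFun, dFun, this]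
        norm_num
        linear_combination (β + γ + δ + (β + γ + δ) * α + α + α ^ 2) * two
      · have : en 0 = [false] := rfl
        simp only [T, a_apply, b_apply, c_apply, d_apply, aFun, bFun, cFun, dFun, this]
        norm_num
        linear_combination (α + α ^ 2 + (β + γ + δ) * α) * two
    · intro w hw
      obtain ⟨x, rfl⟩ := List.length_eq_one_iff.1 hw
      cases x
      · have : st 1 = [true] := rfl
        simp only [T, a_apply, b_apply, c_apply, d_apply, aFun, bFun, cFun, dFun, this]
        norm_num
        linear_combination (α + α ^ 2 + (β + γ + δ) * α) * two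
      · have : st 1 = [true] := rfl
        simp only [T, a_apply, b_apply, c_apply, d_apply, aFun, bFun, cFun, dFun, this]
        norm_num
        linear_combination (β + γ + δ + (β + γ + δ) * α + α + α ^ 2) * two
    · simp [st]
    · simp [en]
  | succ m ih =>
    obtain ⟨φ, ψ, g, hg, hsupp, hφ, hψ, hst, hen⟩ := ih
    have he : eW β γ δ m ≠ 0 := by
      have hm : m % 3 = 0 ∨ m % 3 = 1 ∨ m % 3 = 2 := by omega
      rcases hm with hm | hm | hm <;> simp [eW, hm, h1, h2, h3]
    set e := eW β γ δ m with hee
    let p : List Bool → k := fun u => ψ u + e * g * φ u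
    let q : List Bool → k := fun u => e * g * φ u
    let p' : List Bool → k := fun u => if u.length = m + 1 then p u else 0
    have hq0 : ∀ u, u.length ≠ m + 1 → q u = 0 := by
      intro u hu
      simp [q, hsupp u hu]
    have hTp : ∀ u, u.length = m + 1 → T α β γ δ p u =
        (if u = st (m + 1) then 1 else 0) + e * g * (if u = en m then 1 else 0) := by
      intro u hu
      rw [← hφ u hu, ← hψ u hu]
      simp only [T, p]
      ring
    have hTp' : ∀ u, u.length = m + 1 → T α β γ δ p' u = T α β γ δ p u := by
      intro u hu
      obtain ⟨l1, l2, l3, l4⟩ := len_abcd u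
      simp only [T, p', l1, l2, l3, l4, hu, if_true]
    have hTq : ∀ u, u.length = m + 1 → T α β γ δ q u = e * g * (if u = en m then 1 else 0) := by
      intro u hu
      rw [← hφ u hu]
      simp only [T, q]
      ring
    have hpen : p' (en m) = g + e * g * φ (en m) := by
      simp only [p', en_length, if_true, p, hen]
    have key : ∀ (f : List Bool → k) (x : Bool) (u : List Bool), u.length = m + 1 →
        T α β γ δ f (u ++ [x]) = T α β γ δ (fun v => f (v ++ [x])) u +
          (if u = en m then e * (f (en m ++ [x]) + f (en m ++ [!x])) else 0) := by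
      intro f x u hu
      by_cases h : u = en m
      · rw [if_pos h, h, T_snoc_en, hee]
      · rw [if_neg h, add_zero]
        apply T_snoc
        · rintro rfl
          simp at hu
        · rintro n rfl
          rw [en_length] at hu
          have : n = m := by omega
          exact h (by rw [this])
    refine ⟨mk q p', mk p' q, e * g * g, mul_ne_zero (mul_ne_zero he hg) hg, ?_, ?_, ?_, ?_, ?_⟩
    · intro w hw
      rcases snoc_cases w with rfl | ⟨u, x, rfl⟩
      · rfl
      · have hu : u.length ≠ m + 1 := by
          intro h
          apply hw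
          simp [h]
        cases x
        · rw [mk_false]; simp [p', hu]
        · rw [mk_true]; exact hq0 u hu
    · intro w hw
      rcases snoc_cases w with rfl | ⟨u, x, rfl⟩
      · simp at hw
      have hu : u.length = m + 1 := by
        simp only [List.length_append, List.length_singleton] at hw
        omega
      rw [key _ _ u hu]
      cases x
      · have e1 : (fun v => mk q p' (v ++ [false])) = p' := by funext v; rw [mk_false]
        rw [e1, hTp' u hu, hTp u hu, mk_false, Bool.not_false, mk_true, hpen]
        have e2 : (u ++ [false] = en (m + 1)) ↔ u = st (m + 1) := by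
          rw [en_succ]
          exact List.append_left_inj _
        simp only [e2]
        by_cases h : u = en m
        · have h' : ¬ u = st (m + 1) := by rw [h]; exact en_ne_st _ _
          rw [if_pos h, if_pos h, if_neg h']
          simp only [q]
          linear_combination (e * g + e * e * g * φ (en m)) * two
        · rw [if_neg h, if_neg h]
          ring
      · have e1 : (fun v => mk q p' (v ++ [true])) = q := by funext v; rw [mk_true]
        rw [e1, hTq u hu, mk_true, Bool.not_true, mk_false, hpen]
        have e2 : ¬ (u ++ [true] = en (m + 1)) := by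
          rw [en_succ]
          intro h
          have := List.append_inj_right' h rfl
          simp at this
        rw [if_neg e2]
        by_cases h : u = en m
        · rw [if_pos h, if_pos h]
          simp only [q]
          linear_combination (e * g + e * e * g * φ (en m)) * two
        · rw [if_neg h, if_neg h]
          ring
    · intro w hw
      rcases snoc_cases w with rfl | ⟨u, x, rfl⟩
      · simp at hw
      have hu : u.length = m + 1 := by
        simp only [List.length_append, List.length_singleton] at hw
        omega
      rw [key _ _ u hu]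
      cases x
      · have e1 : (fun v => mk p' q (v ++ [false])) = q := by funext v; rw [mk_false]
        rw [e1, hTq u hu, mk_false, Bool.not_false, mk_true, hpen]
        have e2 : ¬ (u ++ [false] = st (m + 1 + 1)) := by
          rw [st_succ (m + 1)]
          intro h
          have := List.append_inj_right' h rfl
          simp at this
        rw [if_neg e2]
        by_cases h : u = en m
        · rw [if_pos h, if_pos h]
          simp only [q]
          linear_combination (e * g + e * e * g * φ (en m)) * two
        · rw [if_neg h, if_neg h]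
          ring
      · have e1 : (fun v => mk p' q (v ++ [true])) = p' := by funext v; rw [mk_true]
        rw [e1, hTp' u hu, hTp u hu, mk_true, Bool.not_true, mk_false, hpen]
        have e2 : (u ++ [true] = st (m + 1 + 1)) ↔ u = st (m + 1) := by
          rw [st_succ (m + 1)]
          exact List.append_left_inj _
        simp only [e2]
        by_cases h : u = en m
        · have h' : ¬ u = st (m + 1) := by rw [h]; exact en_ne_st _ _
          rw [if_pos h, if_pos h, if_neg h']
          simp only [q]
          linear_combination (e * g + e * e * g * φ (en m)) * two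
        · rw [if_neg h, if_neg h]
          ring
    · rw [st_succ (m + 1), mk_true]
      simp only [q, hst]
    · rw [en_succ, mk_false]
      simp only [q, hst]

end field

/-! ### A non-invertible element of the group algebra -/

def ga : G := ⟨a, Subgroup.subset_closure (by simp)⟩
def gb : G := ⟨b, Subgroup.subset_closure (by simp)⟩
def gc : G := ⟨c, Subgroup.subset_closure (by simp)⟩
def gd : G := ⟨d, Subgroup.subset_closure (by simp)⟩

theorem inv_of_sq {g : G} (h : (g : Equiv.Perm (List Bool)) * g = 1) : g⁻¹ = g := by
  rw [inv_eq_iff_mul_eq_one]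
  exact Subtype.ext h

theorem ga_inv : ga⁻¹ = ga := inv_of_sq aa
theorem gb_inv : gb⁻¹ = gb := inv_of_sq bb
theorem gc_inv : gc⁻¹ = gc := inv_of_sq cc
theorem gd_inv : gd⁻¹ = gd := inv_of_sq dd

section algebra

variable {k : Type} [Field k]

/-- The action of `G` on functions on finite words. -/
def rho (k : Type) [Field k] : G →* Module.End k (List Bool → k) where
  toFun g :=
    { toFun := fun f w => f (((g⁻¹ : G) : Equiv.Perm (List Bool)) w)
      map_add' := fun _ _ => rfl
      map_smul' := fun _ _ => rfl }
  map_one' := by
    ext f w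
    simp
  map_mul' g h := by
    ext f w
    simp [mul_inv_rev]

theorem rho_apply (g : G) (f : List Bool → k) (w : List Bool) :
    rho k g f w = f (((g⁻¹ : G) : Equiv.Perm (List Bool)) w) := rfl

/-- The extension to the group algebra. -/
noncomputable def Rho (k : Type) [Field k] : MonoidAlgebra k G →ₐ[k] Module.End k (List Bool → k) :=
  MonoidAlgebra.lift k (Module.End k (List Bool → k)) G (rho k)

/-- The element `1 + α (1 + a) + β (1 + b) + γ (1 + c) + δ (1 + d)` of the group algebra. -/
noncomputable def tt (α β γ δ : k) : MonoidAlgebra k G :=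
  MonoidAlgebra.single 1 (1 + α + β + γ + δ) + MonoidAlgebra.single ga α +
    MonoidAlgebra.single gb β + MonoidAlgebra.single gc γ + MonoidAlgebra.single gd δ

theorem Rho_tt (α β γ δ : k) (f : List Bool → k) : Rho k (tt α β γ δ) f = T α β γ δ f := by
  funext w
  simp only [Rho, tt, map_add, MonoidAlgebra.lift_single, LinearMap.add_apply,
    LinearMap.smul_apply, Pi.add_apply, Pi.smul_apply, rho_apply, smul_eq_mul, ga_inv, gb_inv,
    gc_inv, gd_inv, T, inv_one]
  rfl

theorem Rho_ne (y : MonoidAlgebra k G) (h : List Bool → k) (w : List Bool)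
    (hne : Rho k y h w ≠ 0) :
    ∃ g ∈ y.coeff.support, h (((g⁻¹ : G) : Equiv.Perm (List Bool)) w) ≠ 0 := by
  by_contra hcon
  push Not at hcon
  apply hne
  rw [Rho, MonoidAlgebra.lift_apply, Finsupp.sum, LinearMap.sum_apply, Finset.sum_apply]
  apply Finset.sum_eq_zero
  intro g hg
  rw [LinearMap.smul_apply, Pi.smul_apply, rho_apply, hcon g hg, smul_zero]

theorem not_left_inv [CharP k 2] (α β γ δ : k) (hα : α ≠ 0) (h1 : β + γ ≠ 0) (h2 : β + δ ≠ 0)
    (h3 : γ + δ ≠ 0) (y : MonoidAlgebra k G) : y * tt α β γ δ ≠ 1 := by
  intro hy
  have key : ∀ m : ℕ, ∃ g : y.coeff.support, (g : G).1 (en m) = st (m + 1) := by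
    intro m
    obtain ⟨φ, ψ, g, hg, hsupp, hφ, -, hst, -⟩ := green α β γ δ hα h1 h2 h3 m
    have hT : T α β γ δ φ = fun w => if w = en m then 1 else 0 := by
      funext w
      by_cases hw : w.length = m + 1
      · exact hφ w hw
      · have e : ¬ w = en m := by
          rintro rfl
          exact hw (en_length m)
        obtain ⟨l1, l2, l3, l4⟩ := len_abcd w
        simp only [T, if_neg e]
        rw [hsupp w hw, hsupp (a w) (by rw [l1]; exact hw), hsupp (b w) (by rw [l2]; exact hw),
          hsupp (c w) (by rw [l3]; exact hw), hsupp (d w) (by rw [l4]; exact hw)]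
        ring
    have h4 : Rho k y (Rho k (tt α β γ δ) φ) = φ := by
      rw [← Module.End.mul_apply, ← map_mul, hy, map_one]
      rfl
    rw [Rho_tt, hT] at h4
    have h5 : Rho k y (fun w => if w = en m then 1 else 0) (st (m + 1)) ≠ 0 := by
      rw [h4, hst]
      exact hg
    obtain ⟨x, hx, hx'⟩ := Rho_ne y _ _ h5
    refine ⟨⟨x, hx⟩, ?_⟩
    have h6 : ((x⁻¹ : G) : Equiv.Perm (List Bool)) (st (m + 1)) = en m := by
      by_contra hcon
      exact hx' (if_neg hcon)
    show (x : Equiv.Perm (List Bool)) (en m) = st (m + 1)
    rw [← h6]
    simp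
  choose F hF using key
  obtain ⟨m, n, hmn, hFF⟩ := Finite.exists_ne_map_eq_of_infinite F
  have main : ∀ m n : ℕ, m < n → F m = F n → False := by
    intro m n hlt hFF
    have h4 := hF m
    have h5 := hF n
    rw [← hFF] at h5
    set x : G := (F m : G) with hx
    have h6 : en n = st (m + 1) ++ en (n - (m + 1)) := by
      unfold en st
      rw [← List.append_assoc, List.replicate_append_replicate]
      congr 2
      omega
    obtain ⟨u', hu', -⟩ := pre_G x.2 (st (m + 1)) (en (n - (m + 1)))
    rw [← h6, h5] at hu'
    have h7 : st (n + 1) = st (m + 1) ++ st (n - m) := by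
      unfold st
      rw [List.replicate_append_replicate]
      congr 1
      omega
    rw [h7] at hu'
    have h8 : st (m + 1) = x.1 (st (m + 1)) := by
      apply List.append_inj_left hu'
      rw [len_G x.2]
    rw [← h4] at h8
    have h9 : en m = x.1 (en m) := x.1.injective h8
    rw [h4] at h9
    exact en_ne_st _ _ h9
  rcases lt_or_gt_of_ne hmn with h | h
  · exact main m n h hFF
  · exact main n m h hFF.symm

end algebra


end Pool.Agent.Helper940.GrigIrr
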