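import Mathlib

set_option autoImplicit false

namespace Pool.Agent.Helper940.GrowthLimit

open Filter Topology

/-- Abstract passage from dyadic scales to all scales. -/
theorem tendsto_log_ratio (γ N : ℕ → ℕ) (C : ℕ) (hC : 1 ≤ C) (hmono : Monotone γ)
    (hN : ∀ n, 0 < N n) (h1 : ∀ n, N n ≤ γ (2^n)) (h2 : ∀ n, γ (2^n) ≤ C * N n) (α : ℝ)
    (hlim : Tendsto (fun n : ℕ => Real.log (N n) / n) atTop (𝓝 (α * Real.log 2))) :
    Tendsto (fun m : ℕ => Real.log (γ m) / Real.log m) atTop (𝓝 α) := by
  have hl2 : 0 < Real.log 2 := Real.log_pos (by norm_num)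
  have hlog : Tendsto (fun m : ℕ => Nat.log 2 m) atTop atTop := by
    rw [tendsto_atTop]
    intro b
    filter_upwards [eventually_ge_atTop (2^b)] with m hm
    exact Nat.le_log_of_pow_le (by norm_num) hm
  -- the lower comparison sequence
  have ha : Tendsto (fun n : ℕ => Real.log (N n) / ((n + 1) * Real.log 2)) atTop (𝓝 α) := by
    have e1 : Tendsto (fun n : ℕ => (n : ℝ) / ((n : ℝ) + 1)) atTop (𝓝 1) :=
      tendsto_natCast_div_add_atTop (1 : ℝ)
    have e2 := (hlim.mul e1).div_const (Real.log 2)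
    rw [mul_one, mul_div_assoc, div_self hl2.ne', mul_one] at e2
    refine e2.congr' ?_
    filter_upwards [eventually_gt_atTop 0] with n hn
    have hn' : (n : ℝ) ≠ 0 := by exact_mod_cast hn.ne'
    field_simp
  have hb : Tendsto (fun n : ℕ => (Real.log C + Real.log (N (n+1))) / (n * Real.log 2)) atTop
      (𝓝 α) := by
    have e0 : Tendsto (fun n : ℕ => Real.log (N (n+1)) / ((n+1 : ℕ) : ℝ)) atTop
        (𝓝 (α * Real.log 2)) := hlim.comp (tendsto_add_atTop_nat 1)
    have e1 : Tendsto (fun n : ℕ => ((n : ℝ) + 1) / (n : ℝ)) atTop (𝓝 1) := by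
      have h := (tendsto_natCast_div_add_atTop (1 : ℝ)).inv₀ one_ne_zero
      rw [inv_one] at h
      refine h.congr (fun n => ?_)
      rw [inv_div]
    have e3 : Tendsto (fun n : ℕ => Real.log C / ((n : ℝ) * Real.log 2)) atTop (𝓝 0) := by
      apply Tendsto.div_atTop tendsto_const_nhds
      exact tendsto_natCast_atTop_atTop.atTop_mul_const hl2
    have e2 := e3.add ((e0.mul e1).div_const (Real.log 2))
    rw [mul_one, mul_div_assoc, div_self hl2.ne', mul_one, zero_add] at e2
    refine e2.congr' ?_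
    filter_upwards [eventually_gt_atTop 0] with n hn
    have hn' : (n : ℝ) ≠ 0 := by exact_mod_cast hn.ne'
    have hn'' : (n : ℝ) + 1 ≠ 0 := by positivity
    push_cast
    field_simp
  refine tendsto_of_tendsto_of_tendsto_of_le_of_le' (ha.comp hlog) (hb.comp hlog) ?_ ?_
  · filter_upwards [eventually_ge_atTop 2] with m hm
    simp only [Function.comp]
    set n := Nat.log 2 m with hn
    have hn1 : 1 ≤ n := Nat.le_log_of_pow_le (by norm_num) (by simpa using hm)
    have hlow : 2 ^ n ≤ m := Nat.pow_log_le_self 2 (by omega)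
    have hup : m < 2 ^ (n+1) := Nat.lt_pow_succ_log_self (by norm_num) m
    have hmr : (2 : ℝ) ≤ m := by exact_mod_cast hm
    have hlogm : 0 < Real.log m := Real.log_pos (by linarith)
    have hlogm2 : Real.log m ≤ (n + 1) * Real.log 2 := by
      have : (m : ℝ) ≤ (2:ℝ)^(n+1) := by exact_mod_cast hup.le
      calc Real.log m ≤ Real.log ((2:ℝ)^(n+1)) := Real.log_le_log (by linarith) this
        _ = (n + 1) * Real.log 2 := by rw [Real.log_pow]; push_cast; ring
    have hNγ : (N n : ℝ) ≤ γ m := by exact_mod_cast (h1 n).trans (hmono hlow)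
    have hNpos : (1 : ℝ) ≤ N n := by exact_mod_cast hN n
    have hlogN : 0 ≤ Real.log (N n) := Real.log_nonneg hNpos
    have hlogγ : Real.log (N n) ≤ Real.log (γ m) := Real.log_le_log (by linarith) hNγ
    exact div_le_div₀ (hlogN.trans hlogγ) hlogγ hlogm hlogm2
  · filter_upwards [eventually_ge_atTop 2] with m hm
    simp only [Function.comp]
    set n := Nat.log 2 m with hn
    have hn1 : 1 ≤ n := Nat.le_log_of_pow_le (by norm_num) (by simpa using hm)
    have hlow : 2 ^ n ≤ m := Nat.pow_log_le_self 2 (by omega)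
    have hup : m < 2 ^ (n+1) := Nat.lt_pow_succ_log_self (by norm_num) m
    have hmr : (2 : ℝ) ≤ m := by exact_mod_cast hm
    have hnr : (1 : ℝ) ≤ n := by exact_mod_cast hn1
    have hlogm2 : (n : ℝ) * Real.log 2 ≤ Real.log m := by
      have : (2:ℝ)^n ≤ m := by exact_mod_cast hlow
      calc (n : ℝ) * Real.log 2 = Real.log ((2:ℝ)^n) := by rw [Real.log_pow]
        _ ≤ Real.log m := Real.log_le_log (by positivity) this
    have hγpos : (0 : ℝ) < γ m := by
      have : 0 < γ m := lt_of_lt_of_le (hN n) ((h1 n).trans (hmono hlow))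
      exact_mod_cast this
    have hγC : (γ m : ℝ) ≤ C * N (n+1) := by exact_mod_cast (hmono hup.le).trans (h2 (n+1))
    have hNpos : (0 : ℝ) < N (n+1) := by exact_mod_cast hN (n+1)
    have hCpos : (0 : ℝ) < C := by exact_mod_cast hC
    have hlogγ : Real.log (γ m) ≤ Real.log C + Real.log (N (n+1)) := by
      rw [← Real.log_mul hCpos.ne' hNpos.ne']
      exact Real.log_le_log hγpos hγC
    have hnonneg : 0 ≤ Real.log C + Real.log (N (n+1)) := by
      apply add_nonneg
      · exact Real.log_nonneg (by exact_mod_cast hC)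
      · exact Real.log_nonneg (by exact_mod_cast hN (n+1))
    exact div_le_div₀ hnonneg hlogγ (by positivity) hlogm2

/-- A 0-1 sequence with prescribed frequency. -/
noncomputable def seq (θ : ℝ) (i : ℕ) : Bool := decide (⌊((i + 1 : ℕ) : ℝ) * θ⌋₊ ≠ ⌊(i : ℝ) * θ⌋₊)

theorem sum_seq (θ : ℝ) (h0 : 0 ≤ θ) (h1 : θ ≤ 1) (n : ℕ) :
    ∑ i ∈ Finset.range n, (if seq θ i then 1 else 0) = ⌊(n : ℝ) * θ⌋₊ := by
  induction n with
  | zero => simp
  | succ n ih =>
    rw [Finset.sum_range_succ, ih]
    have hle : ⌊(n : ℝ) * θ⌋₊ ≤ ⌊((n + 1 : ℕ) : ℝ) * θ⌋₊ := by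
      apply Nat.floor_mono
      push_cast
      nlinarith
    have hge : ⌊((n + 1 : ℕ) : ℝ) * θ⌋₊ ≤ ⌊(n : ℝ) * θ⌋₊ + 1 := by
      have : ((n + 1 : ℕ) : ℝ) * θ ≤ (n : ℝ) * θ + 1 := by push_cast; nlinarith
      calc ⌊((n + 1 : ℕ) : ℝ) * θ⌋₊ ≤ ⌊(n : ℝ) * θ + 1⌋₊ := Nat.floor_mono this
        _ = ⌊(n : ℝ) * θ⌋₊ + 1 := Nat.floor_add_one (by positivity)
    by_cases hs : ⌊((n + 1 : ℕ) : ℝ) * θ⌋₊ = ⌊(n : ℝ) * θ⌋₊
    · have : seq θ n = false := by
        unfold seq
        rw [decide_eq_false_iff_not]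
        exact fun h => h hs
      rw [this, hs]
      simp
    · have : seq θ n = true := by
        unfold seq
        rw [decide_eq_true_eq]
        exact hs
      rw [this]
      simp only [if_true]
      omega

/-- The logarithm of the product of the sizes `2` and `D` chosen according to `seq θ`. -/
theorem tendsto_log_prod (D : ℕ) (hD : 2 ≤ D) (θ : ℝ) (h0 : 0 ≤ θ) (h1 : θ ≤ 1) :
    Tendsto (fun n : ℕ => Real.log ((∏ i : Fin n, (if seq θ i then D else 2) : ℕ) : ℝ) / n) atTop
      (𝓝 (Real.log 2 + θ * (Real.log D - Real.log 2))) := by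
  have key : ∀ n : ℕ, Real.log ((∏ i : Fin n, (if seq θ i then D else 2) : ℕ) : ℝ) =
      n * Real.log 2 + (⌊(n : ℝ) * θ⌋₊ : ℝ) * (Real.log D - Real.log 2) := by
    intro n
    have hprod : (∏ i : Fin n, (if seq θ i then D else 2)) =
        ∏ i ∈ Finset.range n, (if seq θ i then D else 2) := by
      rw [Finset.prod_range]
    rw [hprod, ← sum_seq θ h0 h1 n]
    induction n with
    | zero => simp
    | succ n ih =>
      have hih := ih (by rw [Finset.prod_range])
      rw [Finset.prod_range_succ, Finset.sum_range_succ]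
      have hpos : (0 : ℝ) < ((∏ i ∈ Finset.range n, (if seq θ i then D else 2) : ℕ) : ℝ) := by
        have : 0 < ∏ i ∈ Finset.range n, (if seq θ i then D else 2) := by
          apply Finset.prod_pos
          intro i _
          split_ifs <;> omega
        exact_mod_cast this
      by_cases hs : seq θ n
      · simp only [hs, if_true]
        rw [Nat.cast_mul, Real.log_mul hpos.ne' (by positivity), hih]
        push_cast
        ring
      · simp only [hs]
        rw [Nat.cast_mul, Real.log_mul hpos.ne' (by norm_num), hih]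
        push_cast
        simp
        ring
  have hfl : Tendsto (fun n : ℕ => (⌊(n : ℝ) * θ⌋₊ : ℝ) / n) atTop (𝓝 θ) := by
    have := (tendsto_nat_floor_mul_div_atTop h0).comp tendsto_natCast_atTop_atTop
    refine this.congr (fun n => ?_)
    simp only [Function.comp]
    rw [mul_comm θ]
  have := (hfl.mul_const (Real.log D - Real.log 2)).const_add (Real.log 2)
  refine this.congr' ?_
  filter_upwards [eventually_gt_atTop 0] with n hn
  have hn' : (n : ℝ) ≠ 0 := by exact_mod_cast hn.ne'
  rw [key]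
  field_simp

end Pool.Agent.Helper940.GrowthLimit
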