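import Pool.Agent.Helper940.LPEv

set_option autoImplicit false
set_option linter.unusedSectionVars false

/-!
Classification of the endomorphisms of the diagonal product.
-/

namespace Pool.Agent.Helper940.LP

open scoped commutatorElement

/-! ### the simple group -/

section simple

variable {A : Type} [Group A] [Finite A] [IsSimpleGroup A]

theorem hom_surj (β : A →* A) (h : β ≠ 1) : Function.Surjective β := by
  have h1 : Function.Injective β := by
    rw [← MonoidHom.ker_eq_bot_iff]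
    rcases (inferInstance : β.ker.Normal).eq_bot_or_eq_top with h' | h'
    · exact h'
    · exfalso
      apply h
      ext a
      have : a ∈ β.ker := by rw [h']; trivial
      exact this
  exact Finite.injective_iff_surjective.1 h1

theorem hom_comm (hA : ∃ a b : A, a * b ≠ b * a) (β γ : A →* A)
    (h : ∀ a a', Commute (β a) (γ a')) : β = 1 ∨ γ = 1 := by
  by_contra hcon
  rw [not_or] at hcon
  obtain ⟨a, b, hab⟩ := hA
  obtain ⟨a', rfl⟩ := hom_surj β hcon.1 a
  obtain ⟨b', rfl⟩ := hom_surj γ hcon.2 b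
  exact hab (h a' b')

theorem hom_Q (hA : ∃ a b : A, a * b ≠ b * a) (f : A →* Q) : f = 1 := by
  have hn : ∀ a, (f a).n = 0 := by
    intro a
    have h1 : f a ^ Nat.card A = 1 := by rw [← map_pow, pow_card_eq_one', map_one]
    have h2 := congrArg Q.n h1
    rw [Q.pow_n] at h2
    have h3 : (Nat.card A : ℤ) ≠ 0 := by exact_mod_cast Nat.card_pos.ne'
    rw [Q.one_n] at h2
    exact (mul_eq_zero.1 h2).resolve_left h3
  rcases (inferInstance : f.ker.Normal).eq_bot_or_eq_top with h' | h'
  · exfalso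
    obtain ⟨a, b, hab⟩ := hA
    apply hab
    apply (MonoidHom.ker_eq_bot_iff f).1 h'
    rw [map_mul, map_mul]
    ext
    · simp [hn, sg_zero, add_comm]
    · simp [hn]
  · ext1 a
    have : a ∈ f.ker := by rw [h']; trivial
    exact this

end simple

/-! ### the setting -/

/-- base points with stabilisers `L (2^(j+1))` -/
def Base {Z : Type} [MulAction Q Z] (o : ℕ → Z) : Prop :=
  ∀ (x y : Q) (j j' : ℕ), x • o j = y • o j' ↔ j = j' ∧ x⁻¹ * y ∈ Q.L (2 ^ (j + 1))

variable {A : Type} [Group A] {Z : Type} [MulAction Q Z] {o : ℕ → Z} (ho : Base o)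

theorem L_le_two {j : ℕ} {x : Q} (h : x ∈ Q.L (2 ^ (j + 1))) : x ∈ Q.L 2 := by
  refine ⟨h.1, dvd_trans ?_ h.2⟩
  exact_mod_cast dvd_pow_self 2 (Nat.succ_ne_zero j)

include ho in
theorem base_mem {x : Q} {j : ℕ} : x • o j ∈ Set.range o ↔ x ∈ Q.L (2 ^ (j + 1)) := by
  constructor
  · rintro ⟨j', hj'⟩
    have h1 : x • o j = (1 : Q) • o j' := by rw [one_smul, hj']
    have := ((ho x 1 j j').1 h1).2
    rw [mul_one] at this
    exact (inv_mem_iff (x := x)).1 this
  · intro h
    refine ⟨j, ?_⟩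
    have : x • o j = (1 : Q) • o j := (ho x 1 j j).2 ⟨rfl, by rw [mul_one]; exact inv_mem h⟩
    rw [this, one_smul]

include ho in
theorem fwd_limit (l : List (Q × A)) (x : Q) :
    ∃ J : ℕ, ∀ j ≥ J, fwd (Set.range o) l (x • o j) = fwd (Z := Q) {1} l x := by
  obtain ⟨B, hB⟩ := Q.eventually_list (l.map fun p => p.1⁻¹ * x)
  refine ⟨B, fun j hj => fwd_congr _ _ _ _ _ fun p hp => ?_⟩
  rw [← mul_smul, base_mem ho, mem_sing]
  constructor
  · intro h
    by_contra hne
    refine hB (2 ^ (j + 1)) ?_ _ (List.mem_map.2 ⟨p, hp, rfl⟩) ?_ h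
    · exact le_trans (le_trans hj (Nat.le_succ j)) (Nat.lt_two_pow_self).le
    · intro h'
      exact hne (inv_mul_eq_one.1 h')
  · intro h
    rw [h, inv_mul_cancel]
    exact one_mem _

include ho in
theorem rinf_of_rho (u : U A) (h : rho (Set.range o) u = 1) : rinf u = 1 := by
  obtain ⟨l, hl⟩ := exists_wd u
  have hq : qv u = 1 := by
    have := congrArg W.q h
    simpa using this
  rw [hq, map_one, mul_one] at hl
  subst hl
  rw [rho_wd] at h
  rw [rinf, rho_wd]
  apply W.ext
  · funext x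
    obtain ⟨J, hJ⟩ := fwd_limit ho l x
    have h1 := congrArg (fun w => W.f w (x • o J)) h
    show fwd (Z := Q) {1} l x = 1
    rw [← hJ J le_rfl]
    exact h1
  · rfl

open Classical in
include ho in
/-- first kind of relations -/
theorem rel_one (a a' : A) (x : Q) (hx : x ∉ Q.L 2) :
    Commute (rho (Set.range o) (ia a)) (rho (Set.range o) (cj x a')) := by
  have key : ∀ z : Z, z ∈ Set.range o → x⁻¹ • z ∈ Set.range o → False := by
    rintro z ⟨j, rfl⟩ h2
    rw [base_mem ho] at h2
    exact hx (L_le_two ((inv_mem_iff (x := x)).1 h2))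
  rw [rho_inl, rho_cj]
  apply W.ext
  · funext z
    simp only [W.mul_f, inv_one, one_smul]
    by_cases h1 : z ∈ Set.range o
    · have h2 : x⁻¹ • z ∉ Set.range o := fun h => key z h1 h
      rw [if_pos h1, if_neg h2]
      simp
    · rw [if_neg h1]
      simp
  · simp

open Classical in
include ho in
/-- second kind of relations -/
theorem rel_two (a a' : A) (x y : Q) (hxy : ∀ j, x ∈ Q.L (2 ^ (j + 1)) ↔ y ∈ Q.L (2 ^ (j + 1))) :
    rho (Set.range o) ⁅ia a, cj x a'⁆ = rho (Set.range o) ⁅ia a, cj y a'⁆ := by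
  rw [map_commutatorElement, map_commutatorElement, rho_inl, rho_cj, rho_cj]
  apply W.ext
  · funext z
    rw [commutatorElement_def, commutatorElement_def]
    simp only [W.mul_f, W.mul_q, inv_one, one_smul, W.inv_f, W.inv_q, mul_one]
    by_cases h1 : z ∈ Set.range o
    · obtain ⟨j, rfl⟩ := h1
      have h2 : x⁻¹ • o j ∈ Set.range o ↔ y⁻¹ • o j ∈ Set.range o := by
        rw [base_mem ho, base_mem ho, inv_mem_iff, inv_mem_iff]
        exact hxy j
      by_cases h3 : x⁻¹ • o j ∈ Set.range o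
      · rw [if_pos h3, if_pos (h2.1 h3)]
      · rw [if_neg h3, if_neg fun h => h3 (h2.2 h)]
    · rw [if_neg h1]
      simp
  · simp [commutatorElement_def]

theorem pow_odd_mem (x : Q) (hx : x ∈ Q.L 2) (k : ℕ) (hk : Odd k) (j : ℕ) :
    x ∈ Q.L (2 ^ (j + 1)) ↔ x ^ k ∈ Q.L (2 ^ (j + 1)) := by
  have h1 : (x ^ k).i = 0 := (pow_mem hx k).1
  rw [Q.mem_L, Q.mem_L, h1, hx.1, Q.pow_n]
  constructor
  · rintro ⟨_, h⟩
    exact ⟨rfl, h.mul_left _⟩
  · rintro ⟨_, h⟩
    refine ⟨rfl, ?_⟩
    apply IsCoprime.dvd_of_dvd_mul_left _ h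
    have : Nat.Coprime (2 ^ (j + 1)) k := by
      apply Nat.Coprime.pow_left
      exact (Nat.coprime_two_left).2 hk
    exact Nat.isCoprime_iff_coprime.2 this

/-- conjugation in the wreath product -/
theorem W.conj_f (w F : W A Z) (hF : F.q = 1) (z : Z) :
    (w * F * w⁻¹).f z = w.f z * F.f (w.q⁻¹ • z) * (w.f z)⁻¹ := by
  simp [hF]

end Pool.Agent.Helper940.LP
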