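import Pool.Agent.Helper940.LPCls

set_option autoImplicit false
set_option linter.unusedSectionVars false

/-!
Classification of the endomorphisms of the diagonal product, main part.
-/

namespace Pool.Agent.Helper940.LP

open scoped commutatorElement

variable {A : Type} [Group A] [Finite A] [IsSimpleGroup A]
  {Z : Type} [MulAction Q Z] {o : ℕ → Z}

/-- projection of the wreath product -/
def W.qh {Z : Type} [MulAction Q Z] : W A Z →* Q := ⟨⟨W.q, rfl⟩, fun _ _ => rfl⟩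

/-- the coordinate homomorphism at a point, for a homomorphism with trivial `Q` part -/
def coordHom {Z : Type} [MulAction Q Z] (F : A →* W A Z) (h : ∀ a, (F a).q = 1) (z : Z) : A →* A where
  toFun a := (F a).f z
  map_one' := by rw [map_one]; rfl
  map_mul' a b := by rw [map_mul, W.mul_f, h, inv_one, one_smul]

theorem coord_q (hA : ∃ a b : A, a * b ≠ b * a) {Z : Type} [MulAction Q Z] (F : A →* W A Z) (a : A) :
    (F a).q = 1 := by
  have := hom_Q hA (W.qh.comp F)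
  exact DFunLike.congr_fun this a

/-- the data of the marked group -/
structure Dat (A : Type) [Group A] {Z : Type} [MulAction Q Z] (o : ℕ → Z) (G : Type) [Group G] where
  ho : Base o
  π : U A →* G
  hπ : Function.Surjective π
  R : G →* W A Z
  hR : ∀ u, R (π u) = rho (Set.range o) u
  hRinj : Function.Injective R
  Ri : G →* W A Q
  hRi : ∀ u, Ri (π u) = rinf u

variable {G : Type} [Group G] (D : Dat A o G)

theorem Dat.q_eq (g : G) : (D.Ri g).q = (D.R g).q := by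
  obtain ⟨u, rfl⟩ := D.hπ g
  rw [D.hR, D.hRi, rinf, rho_q, rho_q]

theorem Dat.limit (g : G) (x : Q) : ∃ J : ℕ, ∀ j ≥ J, (D.R g).f (x • o j) = (D.Ri g).f x := by
  obtain ⟨u, rfl⟩ := D.hπ g
  obtain ⟨l, hl⟩ := exists_wd u
  rw [D.hR, D.hRi, hl, rinf, rho_wd_inr, rho_wd_inr]
  exact fwd_limit D.ho l x

theorem Dat.support (F : A → G) : ∃ X : Set Q, X.Finite ∧
    ∀ (a : A) (z : Z), (D.R (F a)).f z ≠ 1 → ∃ x ∈ X, ∃ j, z = x • o j := by
  have h1 : ∀ a, ∃ (l : List (Q × A)) (x : Q), D.π (wd l * iq x) = F a := by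
    intro a
    obtain ⟨u, hu⟩ := D.hπ (F a)
    obtain ⟨l, hl⟩ := exists_wd u
    exact ⟨l, qv u, by rw [← hl, hu]⟩
  choose l x hl using h1
  refine ⟨⋃ a, {y | ∃ p ∈ l a, p.1 = y}, ?_, ?_⟩
  · apply Set.finite_iUnion
    intro a
    have : {y | ∃ p ∈ l a, p.1 = y} = {y | y ∈ (l a).map Prod.fst} := by
      ext y; simp
    rw [this]
    exact List.finite_toSet _
  · intro a z hz
    rw [← hl a, D.hR, rho_wd_inr] at hz
    obtain ⟨p, hp, j, hj⟩ := fwd_support _ _ _ hz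
    refine ⟨p.1, Set.mem_iUnion.2 ⟨a, p, hp, rfl⟩, j, ?_⟩
    rw [hj, smul_inv_smul]

variable (hA : ∃ a b : A, a * b ≠ b * a) (φ : G →* G)

/-- image of `A` -/
def Dat.FA : A →* W A Z := D.R.comp (φ.comp (D.π.comp ia))
/-- image of `A`, limit -/
def Dat.FAi : A →* W A Q := D.Ri.comp (φ.comp (D.π.comp ia))
/-- image of `Q` -/
def Dat.FQ : Q →* W A Z := D.R.comp (φ.comp (D.π.comp iq))
/-- induced endomorphism of `Q` -/
def Dat.pb : Q →* Q := W.qh.comp (D.FQ φ)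

/-- coordinates -/
def Dat.bet (z : Z) : A →* A := coordHom (D.FA φ) (coord_q hA _) z
/-- coordinates, limit -/
def Dat.beti (x : Q) : A →* A := coordHom (D.FAi φ) (coord_q hA _) x

theorem Dat.bet_apply (z : Z) (a : A) : D.bet hA φ z a = (D.FA φ a).f z := rfl

theorem Dat.beti_limit (x : Q) (h : D.beti hA φ x ≠ 1) : ∃ J : ℕ, ∀ j ≥ J, D.bet hA φ (x • o j) ≠ 1 := by
  have : ∃ a, D.beti hA φ x a ≠ 1 := by
    by_contra hcon
    push Not at hcon
    exact h (MonoidHom.ext hcon)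
  obtain ⟨a, ha⟩ := this
  obtain ⟨J, hJ⟩ := D.limit (φ (D.π (ia a))) x
  refine ⟨J, fun j hj h' => ha ?_⟩
  have h1 := hJ j hj
  have h2 := DFunLike.congr_fun h' a
  rw [D.bet_apply] at h2
  exact h1.symm.trans h2

theorem Dat.FA_cj (x : Q) (a : A) :
    D.R (φ (D.π (cj x a))) = D.FQ φ x * D.FA φ a * (D.FQ φ x)⁻¹ := by
  simp only [cj, map_mul, map_inv]
  rfl

theorem Dat.FA_cj_f (x : Q) (a : A) (z : Z) :
    (D.R (φ (D.π (cj x a)))).f z =
      (D.FQ φ x).f z * D.bet hA φ ((D.pb φ x)⁻¹ • z) a * ((D.FQ φ x).f z)⁻¹ := by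
  rw [D.FA_cj, W.conj_f _ _ (coord_q hA _ a)]
  rfl

include hA in
theorem Dat.FA_cj_q (x : Q) (a : A) : (D.R (φ (D.π (cj x a)))).q = 1 := by
  rw [D.FA_cj, W.mul_q, W.mul_q, coord_q hA (D.FA φ) a, mul_one, W.inv_q, mul_inv_cancel]

/-- the conjugated coordinate homomorphism -/
theorem Dat.ne_one_of (x : Q) (z : Z) (γ : A →* A)
    (hγ : ∀ a, γ a = (D.FQ φ x).f z * D.bet hA φ ((D.pb φ x)⁻¹ • z) a * ((D.FQ φ x).f z)⁻¹)
    (h : γ = 1) : D.bet hA φ ((D.pb φ x)⁻¹ • z) = 1 := by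
  ext a
  have := hγ a
  rw [h, MonoidHom.one_apply] at this
  rw [MonoidHom.one_apply]
  have h2 := this.symm
  rw [mul_inv_eq_one] at h2
  exact (mul_eq_left.1 h2)

theorem Dat.rel1 (x : Q) (hx : x ∉ Q.L 2) (z : Z) :
    D.bet hA φ z = 1 ∨ D.bet hA φ ((D.pb φ x)⁻¹ • z) = 1 := by
  have hcomm : ∀ a a', Commute (D.π (ia a)) (D.π (cj x a')) := by
    intro a a'
    have := rel_one D.ho a a' x hx
    rw [← D.hR, ← D.hR] at this
    apply D.hRinj
    rw [map_mul, map_mul]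
    exact this
  let γ : A →* A := (MulAut.conj ((D.FQ φ x).f z)).toMonoidHom.comp (D.bet hA φ ((D.pb φ x)⁻¹ • z))
  have hγ : ∀ a, γ a = (D.FQ φ x).f z * D.bet hA φ ((D.pb φ x)⁻¹ • z) a * ((D.FQ φ x).f z)⁻¹ :=
    fun a => rfl
  rcases hom_comm hA (D.bet hA φ z) γ (by
    intro a a'
    have h1 := ((hcomm a a').map φ).map D.R
    have h2 := congrArg (fun w => W.f w z) h1.eq
    simp only [W.mul_f] at h2
    have h3 : (D.R (φ (D.π (ia a)))).q = 1 := coord_q hA (D.FA φ) a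
    rw [h3, D.FA_cj_q hA φ x a', inv_one, one_smul] at h2
    rw [D.FA_cj_f hA, ← hγ] at h2
    exact h2) with h | h
  · exact Or.inl h
  · exact Or.inr (D.ne_one_of hA φ x z γ hγ h)

theorem comm_f (X Y : W A Z) (hX : X.q = 1) (hY : Y.q = 1) (z : Z) :
    (⁅X, Y⁆).f z = ⁅X.f z, Y.f z⁆ := by
  rw [commutatorElement_def, commutatorElement_def]
  simp [hX, hY]

theorem Dat.rel2 (x y : Q) (hxy : ∀ j, x ∈ Q.L (2 ^ (j + 1)) ↔ y ∈ Q.L (2 ^ (j + 1))) (z : Z)
    (h1 : D.bet hA φ z ≠ 1) (h2 : D.bet hA φ ((D.pb φ x)⁻¹ • z) ≠ 1) :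
    D.bet hA φ ((D.pb φ y)⁻¹ • z) ≠ 1 := by
  intro h3
  have hrel : ∀ a a' : A, D.π ⁅ia a, cj x a'⁆ = D.π ⁅ia a, cj y a'⁆ := by
    intro a a'
    apply D.hRinj
    rw [D.hR, D.hR]
    exact rel_two D.ho a a' x y hxy
  let γ : A →* A := (MulAut.conj ((D.FQ φ x).f z)).toMonoidHom.comp (D.bet hA φ ((D.pb φ x)⁻¹ • z))
  have hγ : ∀ a, γ a = (D.FQ φ x).f z * D.bet hA φ ((D.pb φ x)⁻¹ • z) a * ((D.FQ φ x).f z)⁻¹ :=
    fun a => rfl
  rcases hom_comm hA (D.bet hA φ z) γ (by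
    intro a a'
    have h4 := congrArg (fun g => (D.R (φ g)).f z) (hrel a a')
    simp only [map_commutatorElement] at h4
    have e1 : (D.R (φ (D.π (ia a)))).q = 1 := coord_q hA (D.FA φ) a
    rw [comm_f _ _ e1 (D.FA_cj_q hA φ x a'), comm_f _ _ e1 (D.FA_cj_q hA φ y a')] at h4
    rw [D.FA_cj_f hA, D.FA_cj_f hA, h3, ← hγ] at h4
    rw [MonoidHom.one_apply, mul_one, mul_inv_cancel, commutatorElement_one_right] at h4
    exact commutatorElement_eq_one_iff_commute.1 h4) with h | h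
  · exact h1 h
  · exact h2 (D.ne_one_of hA φ x z γ hγ h)

end Pool.Agent.Helper940.LP
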