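import Pool.Agent.Helper940.LPCls2

set_option autoImplicit false
set_option linter.unusedSectionVars false

/-!
Classification of the endomorphisms of the diagonal product, conclusion.
-/

namespace Pool.Agent.Helper940.LP

/-! ### endomorphisms of `Q` -/

namespace Q

theorem c_not_mem (k : ℕ) : c ∉ L k := by
  intro h
  exact absurd h.1 (by decide)

variable (ψ : Q →* Q)

theorem psi_c_n : (ψ c).n = 0 := by
  have h : (ψ c) ^ 3 = 1 := by rw [← map_pow, c_cube, map_one]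
  have := congrArg Q.n h
  rw [pow_n, one_n] at this
  push_cast at this
  omega

theorem psi_c_i (h : ψ c ≠ 1) : (ψ c).i ≠ 0 := fun h' => h (Q.ext h' (psi_c_n ψ))

theorem psi_t_odd (h : ψ c ≠ 1) : Odd (ψ t).n := by
  by_contra hodd
  have he : Even (ψ t).n := Int.not_odd_iff_even.1 hodd
  have h1 : ψ t * ψ c * (ψ t)⁻¹ = (ψ c)⁻¹ := by
    rw [← map_mul, ← map_inv, ← map_mul, t_c, map_inv]
  have h2 := congrArg Q.i h1
  simp only [mul_i, mul_n, inv_i, psi_c_n ψ, add_zero, sg_even he, sg_zero, one_mul] at h2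
  have h3 : (ψ c).i = -(ψ c).i := by
    calc (ψ c).i = (ψ t).i + (ψ c).i + -(ψ t).i := by ring
      _ = -(ψ c).i := h2
  have h4 : ∀ z : ZMod 3, z = -z → z = 0 := by decide
  exact psi_c_i ψ h (h4 _ h3)

theorem psi_n (x : Q) : (ψ x).n = (ψ t).n * x.n := by
  conv_lhs => rw [eq_c_t x]
  rw [map_mul, map_pow, map_zpow, mul_n, pow_n, zpow_n, psi_c_n]
  ring

theorem psi_L2 (h : ψ c ≠ 1) {x : Q} (hx : x ∈ L 2) : ψ x = ⟨0, (ψ t).n * x.n⟩ := by
  obtain ⟨k, hk⟩ := hx.2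
  have h1 : x = (t ^ (2 : ℤ)) ^ k := by
    rw [← zpow_mul, t_zpow]
    exact Q.ext hx.1 (by simpa using hk)
  have h2 : (ψ t) ^ (2 : ℤ) = ⟨0, 2 * (ψ t).n⟩ := by
    have e : (ψ t) ^ (2 : ℤ) = ψ t * ψ t := by rw [zpow_ofNat, pow_two]
    rw [e]
    ext
    · simp [sg_odd (psi_t_odd ψ h)]
    · simp; ring
  have h3 : ψ x = (t ^ (2 * (ψ t).n)) ^ k := by
    rw [h1, map_zpow, map_zpow, h2, t_zpow]
  rw [h3, ← zpow_mul, t_zpow]
  ext
  · rfl
  · simp only
    rw [hk]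
    push_cast
    ring

theorem pow_n_zero {y : Q} (hy : y.n = 0) (k : ℕ) : (y ^ k).i = k * y.i := by
  induction k with
  | zero => simp
  | succ k ih =>
    rw [pow_succ, mul_i, ih, pow_n, hy, mul_zero, sg_zero]
    push_cast
    ring

theorem psi_surj (h : ψ c ≠ 1) (d : Q) (j : ℕ) : ∃ x, d⁻¹ * ψ x ∈ L (2 ^ (j + 1)) := by
  have hodd := psi_t_odd ψ h
  have hcop : IsCoprime (ψ t).n ((2 : ℤ) ^ (j + 1)) := by
    apply IsCoprime.pow_right
    obtain ⟨k, hk⟩ := hodd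
    exact ⟨1, -k, by rw [hk]; ring⟩
  obtain ⟨a, b, hab⟩ := hcop
  set r : ℤ := a * d.n with hr
  set y : Q := (ψ t) ^ r with hy
  have hk := psi_c_i ψ h
  have : Fact (Nat.Prime 3) := ⟨Nat.prime_three⟩
  set e : ZMod 3 := (d.i - y.i) * (ψ c).i⁻¹ with he
  refine ⟨c ^ e.val * t ^ r, ?_⟩
  have h1 : (ψ (c ^ e.val * t ^ r)).i = d.i := by
    rw [map_mul, map_pow, map_zpow, mul_i, pow_n_zero (psi_c_n ψ), pow_n, psi_c_n, mul_zero, sg_zero,
      ← hy, ZMod.natCast_zmod_val, he, mul_assoc, inv_mul_cancel₀ hk]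
    ring
  have h2 : (ψ (c ^ e.val * t ^ r)).n = r * (ψ t).n := by
    rw [map_mul, map_pow, map_zpow, mul_n, pow_n, psi_c_n, zpow_n]
    ring
  constructor
  · rw [mul_i, h1, inv_i, inv_n, sg_neg]
    ring
  · rw [mul_n, inv_n, h2]
    refine ⟨-(b * d.n), ?_⟩
    push_cast
    rw [hr]
    linear_combination d.n * hab

theorem psi_reflect (h : ψ c ≠ 1) {q : ℕ} (hq : q.Prime) (hqm : (ψ t).n.natAbs < q)
    {x : Q} (hx : ψ x ∈ L (2 * q)) : x ∈ L (2 * q) := by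
  have hodd := psi_t_odd ψ h
  have hm0 : (ψ t).n ≠ 0 := by
    intro h0
    rw [h0] at hodd
    exact absurd hodd (by decide)
  have hcop : IsCoprime ((2 * q : ℕ) : ℤ) (ψ t).n := by
    push_cast
    apply IsCoprime.mul_left
    · obtain ⟨k, hk⟩ := hodd
      exact ⟨-k, 1, by rw [hk]; ring⟩
    · rw [Int.isCoprime_iff_gcd_eq_one]
      have h5 : Nat.Coprime q (ψ t).n.natAbs := by
        rw [Nat.Prime.coprime_iff_not_dvd hq]
        intro hd
        have := Nat.le_of_dvd (Int.natAbs_pos.2 hm0) hd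
        omega
      exact h5
  have h1 := hx.2
  rw [psi_n] at h1
  have h2 : ((2 * q : ℕ) : ℤ) ∣ x.n := hcop.dvd_of_dvd_mul_left h1
  refine ⟨?_, h2⟩
  have h4 : t ^ x.n ∈ L 2 := by
    rw [t_zpow]
    refine ⟨rfl, dvd_trans ?_ h2⟩
    push_cast
    exact Dvd.intro _ rfl
  have h6 : ψ x = (ψ c) ^ x.i.val * ψ (t ^ x.n) := by
    conv_lhs => rw [eq_c_t x]
    rw [map_mul, map_pow]
  have h7 := hx.1
  rw [h6, mul_i, psi_L2 ψ h h4, pow_n_zero (psi_c_n ψ), mul_zero, add_zero,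
    ZMod.natCast_zmod_val] at h7
  have : Fact (Nat.Prime 3) := ⟨Nat.prime_three⟩
  exact (mul_eq_zero.1 h7).resolve_right (psi_c_i ψ h)

end Q

variable {A : Type} [Group A] [Finite A] [IsSimpleGroup A]
  {Z : Type} [MulAction Q Z] {o : ℕ → Z}
variable {G : Type} [Group G] (D : Dat A o G)
variable (hA : ∃ a b : A, a * b ≠ b * a) (φ : G →* G)

theorem Dat.pb_c (s : Q) (hs : D.beti hA φ s ≠ 1) : D.pb φ Q.c ≠ 1 := by
  intro h
  obtain ⟨J, hJ⟩ := D.beti_limit hA φ s hs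
  rcases D.rel1 hA φ Q.c (Q.c_not_mem 2) (s • o J) with h1 | h1
  · exact hJ J le_rfl h1
  · rw [h, inv_one, one_smul] at h1
    exact hJ J le_rfl h1

theorem base_fix (ho : Base o) {x : Q} {j : ℕ} (h : x ∈ Q.L (2 ^ (j + 1))) : x • o j = o j := by
  have := (ho x 1 j j).2 ⟨rfl, by rw [mul_one]; exact inv_mem h⟩
  rw [this, one_smul]

theorem even_two_pow (j : ℕ) : Even (2 ^ (j + 1)) := by
  rw [pow_succ]
  exact even_two.mul_left _

theorem Dat.unique (s s' : Q) (hs : D.beti hA φ s ≠ 1) (hs' : D.beti hA φ s' ≠ 1) : s' = s := by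
  by_contra hne
  set ψ := D.pb φ with hψ
  have hc := D.pb_c hA φ s hs
  rw [← hψ] at hc
  obtain ⟨J1, hJ1⟩ := D.beti_limit hA φ s hs
  obtain ⟨J2, hJ2⟩ := D.beti_limit hA φ s' hs'
  set d : Q := s' * s⁻¹ with hd
  have hd1 : d ≠ 1 := by
    intro h
    exact hne (mul_inv_eq_one.1 h)
  -- the key step
  have key : ∀ j, J1 ≤ j → J2 ≤ j → ∃ x ∈ Q.L 2, d⁻¹ * ψ x ∈ Q.L (2 ^ (j + 1)) := by
    intro j hj1 hj2
    obtain ⟨x, hx⟩ := Q.psi_surj ψ hc d j
    refine ⟨x, ?_, hx⟩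
    by_contra hx2
    set ℓ : Q := d⁻¹ * ψ x with hℓ
    have e1 : ψ x = d * ℓ := by rw [hℓ, mul_inv_cancel_left]
    have e2 : (ψ x)⁻¹ • (s' • o j) = s • o j := by
      rw [← mul_smul, e1, mul_inv_rev, mul_assoc]
      have e3 : d⁻¹ * s' = s := by rw [hd]; group
      rw [e3, ← Q.L_central (even_two_pow j) (inv_mem hx) s, mul_smul,
        base_fix D.ho (inv_mem hx)]
    rcases D.rel1 hA φ x hx2 (s' • o j) with h | h
    · exact hJ2 j hj2 h
    · rw [← hψ, e2] at h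
      exact hJ1 j hj1 h
  have hdL : d ∈ Q.L 2 := by
    obtain ⟨x, hx, hx2⟩ := key (max J1 J2) (le_max_left _ _) (le_max_right _ _)
    have h1 : ψ x ∈ Q.L 2 := by
      rw [Q.psi_L2 ψ hc hx]
      exact ⟨rfl, hx.2.mul_left _⟩
    have h2 := L_le_two hx2
    have h3 := mul_mem h1 (inv_mem h2)
    rw [mul_inv_rev, inv_inv, mul_inv_cancel_left] at h3
    exact h3
  have hdn : d.n ≠ 0 := fun h => hd1 (Q.ext hdL.1 h)
  obtain ⟨X, hX, hXs⟩ := D.support fun a => φ (D.π (ia a))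
  have hinj : Function.Injective fun k : ℕ => (d ^ (2 * k + 1))⁻¹ * s' := by
    intro k k' h
    have h1 : (d ^ (2 * k + 1))⁻¹ = (d ^ (2 * k' + 1))⁻¹ := mul_right_cancel h
    have h2 := congrArg Q.n (inv_injective h1)
    rw [Q.pow_n, Q.pow_n] at h2
    have h3 := mul_right_cancel₀ hdn h2
    omega
  obtain ⟨_, ⟨k, rfl⟩, hk⟩ := (Set.infinite_range_of_injective hinj).exists_notMem_finite hX
  simp only at hk
  obtain ⟨B, hB⟩ := Q.eventually_list
    (hX.toFinset.toList.map fun x => ((d ^ (2 * k + 1))⁻¹ * s')⁻¹ * x)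
  obtain ⟨x, hx, hx2⟩ := key (max B (max J1 J2))
    (le_trans (le_max_left _ _) (le_max_right _ _)) (le_trans (le_max_right _ _) (le_max_right _ _))
  set j := max B (max J1 J2) with hj
  have hj1 : J1 ≤ j := le_trans (le_max_left _ _) (le_max_right _ _)
  have hj2 : J2 ≤ j := le_trans (le_max_right _ _) (le_max_right _ _)
  set ℓ : Q := d⁻¹ * ψ x with hℓ
  have e1 : ψ x = d * ℓ := by rw [hℓ, mul_inv_cancel_left]
  have hcomm : Commute d ℓ := Q.L_central (even_two_pow j) hx2 d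
  have e2 : ∀ K : ℕ, (ψ (x ^ K))⁻¹ • (s' • o j) = ((d ^ K)⁻¹ * s') • o j := by
    intro K
    have h5 : (ℓ ^ K)⁻¹ ∈ Q.L (2 ^ (j + 1)) := inv_mem (pow_mem hx2 K)
    rw [← mul_smul, map_pow, e1, hcomm.mul_pow, (hcomm.pow_pow K K).eq, mul_inv_rev, mul_assoc,
      ← Q.L_central (even_two_pow j) h5 s', mul_smul, mul_smul, base_fix D.ho h5, ← mul_smul]
  have h6 : D.bet hA φ (s • o j) ≠ 1 := hJ1 j hj1
  have h7 : (ψ x)⁻¹ • (s' • o j) = s • o j := by
    have := e2 1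
    rw [pow_one, pow_one] at this
    rw [this]
    congr 1
    rw [hd]
    group
  have h8 : D.bet hA φ ((ψ (x ^ (2 * k + 1)))⁻¹ • (s' • o j)) ≠ 1 := by
    apply D.rel2 hA φ x (x ^ (2 * k + 1)) (fun i => pow_odd_mem x hx (2 * k + 1) ⟨k, rfl⟩ i) _
      (hJ2 j hj2)
    rw [← hψ, h7]
    exact h6
  rw [e2] at h8
  have h9 : ∃ a, D.bet hA φ (((d ^ (2 * k + 1))⁻¹ * s') • o j) a ≠ 1 := by
    by_contra hcon
    push Not at hcon
    exact h8 (MonoidHom.ext hcon)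
  obtain ⟨a, ha⟩ := h9
  obtain ⟨x0, hx0, j', hj'⟩ := hXs a _ ha
  obtain ⟨_, h10⟩ := (D.ho _ _ _ _).1 hj'
  refine hB (2 ^ (j + 1)) ?_ _ (List.mem_map.2 ⟨x0, by simpa using hx0, rfl⟩) ?_ h10
  · exact le_trans (le_trans (le_max_left _ _) (Nat.le_succ _)) (Nat.lt_two_pow_self).le
  · intro h
    apply hk
    rw [inv_mul_eq_one.1 h]
    exact hx0

include hA in
/-- classification of endomorphisms -/
theorem Dat.classify : ∃ (s : Q) (β : A →* A),
    (∀ a, D.Ri (φ (D.π (ia a))) = rinf (cj s (β a))) ∧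
    (β = 1 ∨ ∃ B : ℕ, ∀ q ≥ B, q.Prime → ∀ x, D.pb φ x ∈ Q.L (2 * q) → x ∈ Q.L (2 * q)) := by
  have hq : ∀ a, (D.Ri (φ (D.π (ia a)))).q = 1 := fun a => coord_q hA (D.FAi φ) a
  by_cases hS : ∀ x, D.beti hA φ x = 1
  · refine ⟨1, 1, fun a => ?_, Or.inl rfl⟩
    rw [MonoidHom.one_apply, cj_one, map_one]
    apply W.ext
    · funext x
      exact DFunLike.congr_fun (hS x) a
    · exact hq a
  · push Not at hS
    obtain ⟨s, hs⟩ := hS
    refine ⟨s, D.beti hA φ s, fun a => ?_, Or.inr ⟨(D.pb φ Q.t).n.natAbs + 3, fun q hq hp x hx => ?_⟩⟩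
    · rw [rinf, rho_cj]
      apply W.ext
      · funext x
        by_cases hx : x = s
        · subst hx
          exact (if_pos ((mem_sing _ _).2 rfl)).symm
        · refine Eq.trans ?_ (if_neg fun h => hx ((mem_sing _ _).1 h).symm).symm
          have : D.beti hA φ x = 1 := by
            by_contra h
            exact hx (D.unique hA φ s x hs h)
          exact DFunLike.congr_fun this a
      · exact hq a
    · exact Q.psi_reflect _ (D.pb_c hA φ s hs) hp (by omega) hx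

end Pool.Agent.Helper940.LP
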