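import Pool.Agent.Helper940.LPU

set_option autoImplicit false
set_option linter.unusedSectionVars false

/-!
A word trivial in the wreath product `A ≀ Q` is trivial in `Gam k` for all large `k`.
-/

namespace Pool.Agent.Helper940.LP

open scoped commutatorElement

variable {A : Type} [Group A]

theorem mem_sing (p x : Q) : (p⁻¹ • x ∈ ({1} : Set Q)) ↔ p = x := by
  rw [Set.mem_singleton_iff, smul_eq_mul, inv_mul_eq_one]

theorem fwd_sing_cons (p : Q × A) (l : List (Q × A)) (x : Q) :
    fwd (Z := Q) {1} (p :: l) x = (if p.1 = x then p.2 else 1) * fwd (Z := Q) {1} l x := by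
  rw [fwd]
  congr 1
  by_cases h : p.1 = x
  · rw [if_pos h, if_pos ((mem_sing _ _).2 h)]
  · rw [if_neg h, if_neg fun h' => h ((mem_sing _ _).1 h')]

theorem wd_filter (l : List (Q × A)) (x : Q) :
    wd (l.filter fun p => p.1 = x) = cj x (fwd (Z := Q) {1} l x) := by
  induction l with
  | nil => exact (cj_one x).symm
  | cons p l ih =>
    rw [fwd_sing_cons]
    by_cases h : p.1 = x
    · rw [List.filter_cons_of_pos (by simpa using h), wd_cons, ih, if_pos h, cj_mul, h]
    · rw [List.filter_cons_of_neg (by simpa using h), if_neg h, one_mul, ih]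

theorem fwd_filter (l : List (Q × A)) (x y : Q) :
    fwd (Z := Q) {1} (l.filter fun p => p.1 ≠ x) y =
      if y = x then 1 else fwd (Z := Q) {1} l y := by
  induction l with
  | nil => simp [fwd]
  | cons p l ih =>
    by_cases h : p.1 = x
    · rw [List.filter_cons_of_neg (by simpa using h), ih, fwd_sing_cons]
      by_cases hy : y = x
      · simp [hy]
      · rw [if_neg hy, if_neg hy, if_neg (fun h' => hy (h'.symm.trans h)), one_mul]
    · rw [List.filter_cons_of_pos (by simpa using h), fwd_sing_cons, ih, fwd_sing_cons]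
      by_cases hy : y = x
      · rw [if_pos hy, if_pos hy, if_neg (fun h' => h (h'.trans hy)), one_mul]
      · rw [if_neg hy, if_neg hy]

theorem kap_split (k : ℕ) (x : Q) (l : List (Q × A))
    (h : ∀ p ∈ l, p.1 ≠ x → p.1⁻¹ * x ∉ Q.L k) :
    kap k (wd l) = kap k (wd (l.filter fun p => p.1 = x)) * kap k (wd (l.filter fun p => p.1 ≠ x)) := by
  induction l with
  | nil => simp
  | cons p l ih =>
    have ih' := ih fun p hp => h p (by simp [hp])
    by_cases hx : p.1 = x
    · rw [List.filter_cons_of_pos (by simpa using hx), List.filter_cons_of_neg (by simpa using hx),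
        wd_cons, wd_cons, map_mul, map_mul, ih', mul_assoc]
    · rw [List.filter_cons_of_neg (by simpa using hx), List.filter_cons_of_pos (by simpa using hx),
        wd_cons, wd_cons, map_mul, map_mul, ih', wd_filter]
      rw [← mul_assoc, ← mul_assoc, (kap_comm k (h p (by simp) hx) p.2 _).eq]

theorem kap_wd_eq_one (k : ℕ) : ∀ (n : ℕ) (l : List (Q × A)), l.length ≤ n →
    (∀ p ∈ l, ∀ p' ∈ l, p.1 ≠ p'.1 → p.1⁻¹ * p'.1 ∉ Q.L k) →
    (∀ x : Q, fwd (Z := Q) {1} l x = 1) → kap k (wd l) = 1 := by
  intro n
  induction n with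
  | zero =>
    intro l hl _ _
    rw [List.eq_nil_of_length_eq_zero (Nat.le_zero.1 hl), wd_nil, map_one]
  | succ n ih =>
    intro l hl hsep hf
    cases l with
    | nil => rw [wd_nil, map_one]
    | cons p l =>
      rw [kap_split k p.1 (p :: l) fun p' hp' hne => hsep p' hp' p (by simp) hne]
      rw [wd_filter, hf, cj_one, map_one, one_mul]
      rw [List.filter_cons_of_neg (by simp)]
      apply ih
      · exact le_trans (List.length_filter_le _ _) (by simpa using hl)
      · intro p' hp' p'' hp'' hne
        exact hsep p' (List.mem_cons_of_mem _ (List.mem_of_mem_filter hp')) p''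
          (List.mem_cons_of_mem _ (List.mem_of_mem_filter hp'')) hne
      · intro x
        have h1 := fwd_filter (p :: l) p.1 x
        rw [List.filter_cons_of_neg (by simp)] at h1
        rw [h1, hf]
        simp

/-- words trivial in `A ≀ Q` are eventually trivial in `Gam k` -/
theorem kap_eventually (u : U A) (h : rinf u = 1) : ∃ B : ℕ, ∀ k ≥ B, kap k u = 1 := by
  obtain ⟨l, hl⟩ := exists_wd u
  have hq : qv u = 1 := by
    have := congrArg W.q h
    simpa [rinf] using this
  rw [hq, map_one, mul_one] at hl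
  subst hl
  obtain ⟨B, hB⟩ := Q.eventually_list ((l ×ˢ l).map fun p => p.1.1⁻¹ * p.2.1)
  refine ⟨B, fun k hk => kap_wd_eq_one k _ l le_rfl ?_ ?_⟩
  · intro p hp p' hp' hne
    apply hB k hk
    · exact List.mem_map.2 ⟨(p, p'), List.pair_mem_product.2 ⟨hp, hp'⟩, rfl⟩
    · intro h'
      exact hne (inv_mul_eq_one.1 h')
  · intro x
    have h2 := congrArg (fun w => W.f w x) h
    simpa [rinf, rho_wd] using h2

/-- the eventual equality of images -/
theorem kap_eventually_eq (u v : U A) (h : rinf u = rinf v) :
    ∃ B : ℕ, ∀ k ≥ B, kap k u = kap k v := by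
  obtain ⟨B, hB⟩ := kap_eventually (u * v⁻¹) (by rw [map_mul, map_inv, h, mul_inv_cancel])
  refine ⟨B, fun k hk => ?_⟩
  have := hB k hk
  rw [map_mul, map_inv, mul_inv_eq_one] at this
  exact this

/-! ### the coset subgroups -/

/-- the subgroup generated by the copies of `A` in a coset of `L k` -/
def PC (A : Type) [Group A] (k : ℕ) (x : Q) : Subgroup (Gam A k) :=
  Subgroup.closure {g | ∃ (y : Q) (a : A), x⁻¹ * y ∈ Q.L k ∧ g = kap k (cj y a)}

/-- projection to `Q` -/
def gq (k : ℕ) : Gam A k →* Q := gLift k qv (by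
  intro a a' x _
  simp)

@[simp] theorem gq_kap (k : ℕ) (u : U A) : gq k (kap k u) = qv u := rfl

theorem PC_conj (k : ℕ) (hk : Even k) (x z : Q) (b : A) (g : Gam A k) (hg : g ∈ PC A k x) :
    kap k (cj z b) * g * (kap k (cj z b))⁻¹ ∈ PC A k x := by
  haveI := Q.L_normal hk
  by_cases hz : x⁻¹ * z ∈ Q.L k
  · have : kap k (cj z b) ∈ PC A k x := Subgroup.subset_closure ⟨z, b, hz, rfl⟩
    exact mul_mem (mul_mem this hg) (inv_mem this)
  · have hc : ∀ g ∈ PC A k x, Commute (kap k (cj z b)) g := by
      intro g hg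
      refine Subgroup.closure_induction (p := fun g _ => Commute (kap k (cj z b)) g) ?_ ?_ ?_ ?_ hg
      · rintro g ⟨y, a, hy, rfl⟩
        apply kap_comm
        intro h
        apply hz
        have := mul_mem hy (inv_mem h)
        simpa [mul_assoc] using this
      · exact Commute.one_right _
      · intro g h _ _ h1 h2
        exact h1.mul_right h2
      · intro g _ h1
        exact h1.inv_right
    rw [(hc g hg).eq, mul_inv_cancel_right]
    exact hg

theorem PC_wd_conj (k : ℕ) (hk : Even k) (x : Q) (l : List (Q × A)) (g : Gam A k)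
    (hg : g ∈ PC A k x) : kap k (wd l) * g * (kap k (wd l))⁻¹ ∈ PC A k x := by
  induction l with
  | nil => simpa using hg
  | cons p l ih =>
    have := PC_conj k hk x p.1 p.2 _ ih
    rw [wd_cons, map_mul]
    convert this using 1
    group

/-- conjugates of `A` by elements over a nontrivial coset commute with `A` -/
theorem gam_comm (k : ℕ) (hk : Even k) (y : Gam A k) (hy : gq k y ∉ Q.L k) (a a' : A) :
    Commute (kap k (ia a)) (y * kap k (ia a') * y⁻¹) := by
  obtain ⟨u, rfl⟩ := kap_surj k y
  obtain ⟨l, hl⟩ := exists_wd u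
  rw [gq_kap] at hy
  set x := qv u with hx
  have h1 : kap k u * kap k (ia a') * (kap k u)⁻¹ ∈ PC A k x := by
    have h2 : kap k (cj x a') ∈ PC A k x :=
      Subgroup.subset_closure ⟨x, a', by rw [inv_mul_cancel]; exact one_mem _, rfl⟩
    have h3 := PC_wd_conj k hk x l _ h2
    have h4 : kap k (wd l) * kap k (cj x a') * (kap k (wd l))⁻¹ =
        kap k u * kap k (ia a') * (kap k u)⁻¹ := by
      rw [← map_inv, ← map_mul, ← map_mul, ← map_inv, ← map_mul, ← map_mul]
      congr 1
      rw [hl]
      simp only [cj, map_inv]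
      group
    rw [← h4]
    exact h3
  refine Subgroup.closure_induction (p := fun g _ => Commute (kap k (ia a)) g) ?_ ?_ ?_ ?_ h1
  · rintro g ⟨z, b, hz, rfl⟩
    have h5 : (ia a : U A) = cj 1 a := by simp [cj]
    rw [h5]
    apply kap_comm
    intro h
    apply hy
    have := mul_mem h (inv_mem hz)
    simpa [mul_assoc] using this
  · exact Commute.one_right _
  · intro g h _ _ h1 h2
    exact h1.mul_right h2
  · intro g _ h1
    exact h1.inv_right

end Pool.Agent.Helper940.LP
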