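import Pool.Agent.Helper940.LPCls3

set_option autoImplicit false
set_option linter.unusedSectionVars false

/-!
The diagonal product has no finite L-presentation.
-/

namespace Pool.Agent.Helper940.LP

open scoped commutatorElement
open Filter

variable {A : Type} [Group A] [Finite A] [IsSimpleGroup A]
  {Z : Type} [MulAction Q Z] {o : ℕ → Z}
variable {G : Type} [Group G] (D : Dat A o G)
variable (hA : ∃ a b : A, a * b ≠ b * a) (φ : G →* G)

theorem kap_ev_eq (u v : U A) (h : rinf u = rinf v) : ∀ᶠ k in atTop, kap k u = kap k v := by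
  obtain ⟨B, hB⟩ := kap_eventually_eq u v h
  exact eventually_atTop.2 ⟨B, hB⟩

theorem Dat.rinf_eq {u v : U A} (h : D.π u = D.π v) : rinf u = rinf v := by
  rw [← D.hRi, ← D.hRi, h]

/-- the lifts of an endomorphism to `Gam k` -/
structure Lft (s : Q) (β : A →* A) (wc wt : U A) (k : ℕ) (ψ : U A →* Gam A k) : Prop where
  ha : ∀ a, ψ (ia a) = kap k (cj s (β a))
  hc : ψ (iq Q.c) = kap k wc
  ht : ψ (iq Q.t) = kap k wt

section lifting

variable (s : Q) (β : A →* A) (hβ : ∀ a, D.Ri (φ (D.π (ia a))) = rinf (cj s (β a)))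
  (wc wt : U A) (hwc : D.π wc = φ (D.π (iq Q.c))) (hwt : D.π wt = φ (D.π (iq Q.t)))

include hβ hwc hwt

theorem Dat.lift_good (u : U A) : ∀ v : U A, D.π v = φ (D.π u) →
    ∀ᶠ k in atTop, ∀ ψ, Lft s β wc wt k ψ → ψ u = kap k v := by
  induction u using U_induction with
  | h1 a =>
    intro v hv
    have h1 : rinf v = rinf (cj s (β a)) := by rw [← hβ a, ← hv, D.hRi]
    filter_upwards [kap_ev_eq _ _ h1] with k hk ψ hψ
    rw [hψ.ha, hk]
  | h2 x =>
    intro v hv
    have h1 : D.π v = D.π (wc ^ x.i.val * wt ^ x.n) := by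
      rw [hv, map_mul, map_pow, map_zpow, hwc, hwt, ← map_pow, ← map_zpow, ← map_pow, ← map_zpow,
        ← map_pow, ← map_zpow, ← map_mul, ← map_mul, ← map_mul, ← Q.eq_c_t]
    filter_upwards [kap_ev_eq _ _ (D.rinf_eq h1)] with k hk ψ hψ
    rw [hk]
    conv_lhs => rw [Q.eq_c_t x]
    rw [map_mul, map_pow, map_zpow, map_mul, map_pow, map_zpow, hψ.hc, hψ.ht, map_mul, map_pow,
      map_zpow]
  | h3 u v hu hv =>
    intro w hw
    obtain ⟨u', hu'⟩ := D.hπ (φ (D.π u))
    obtain ⟨v', hv'⟩ := D.hπ (φ (D.π v))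
    have h1 : D.π w = D.π (u' * v') := by rw [hw, map_mul, map_mul, map_mul, hu', hv']
    filter_upwards [hu u' hu', hv v' hv', kap_ev_eq _ _ (D.rinf_eq h1)] with k h2 h3 h4 ψ hψ
    rw [map_mul, h2 ψ hψ, h3 ψ hψ, h4, map_mul]

theorem Dat.lift_exists : ∀ᶠ k in atTop, ∃ ψ, Lft s β wc wt k ψ := by
  have h1 : D.π (wc ^ 3) = D.π 1 := by
    rw [map_pow, hwc, ← map_pow, ← map_pow, ← map_pow, Q.c_cube]
    simp
  have h2 : D.π (wt * wc * wt⁻¹) = D.π wc⁻¹ := by
    rw [map_mul, map_mul, map_inv, map_inv, hwc, hwt, ← map_inv, ← map_inv, ← map_inv, ← map_inv,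
      ← map_inv, ← map_inv, ← map_mul, ← map_mul, ← map_mul, ← map_mul, ← map_mul, ← map_mul,
      Q.t_c]
  filter_upwards [kap_ev_eq _ _ (D.rinf_eq h1), kap_ev_eq _ _ (D.rinf_eq h2)] with k h3 h4
  rw [map_pow, map_one] at h3
  rw [map_mul, map_mul, map_inv, map_inv] at h4
  let α : A →* Gam A k := (MulAut.conj (kap k (iq s))).toMonoidHom.comp ((kap k).comp (ia.comp β))
  refine ⟨ul α (Q.lift _ _ h3 h4), ?_, ?_, ?_⟩
  · intro a
    rw [ul_ia]
    show kap k (iq s) * kap k (ia (β a)) * (kap k (iq s))⁻¹ = _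
    rw [cj, map_mul, map_mul, map_inv, map_inv]
  · rw [ul_iq, Q.lift_c]
  · rw [ul_iq, Q.lift_t]

theorem Dat.lift_kills (hcl : β = 1 ∨ ∃ B : ℕ, ∀ q ≥ B, q.Prime → ∀ x, D.pb φ x ∈ Q.L (2 * q) →
    x ∈ Q.L (2 * q)) : ∀ᶠ q in atTop, q.Prime → ∀ ψ, Lft s β wc wt (2 * q) ψ →
      ∀ u, kap (2 * q) u = 1 → ψ u = 1 := by
  have main : ∀ᶠ q in atTop, q.Prime → ∀ ψ, Lft s β wc wt (2 * q) ψ →
      ∀ (a a' : A) (x : Q), x ∉ Q.L (2 * q) → Commute (ψ (ia a)) (ψ (cj x a')) := by
    rcases hcl with h | ⟨B, hB⟩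
    · refine Eventually.of_forall fun q _ ψ hψ a a' x _ => ?_
      rw [hψ.ha, h, MonoidHom.one_apply, cj_one, map_one]
      exact Commute.one_left _
    · refine eventually_atTop.2 ⟨B, fun q hq hp ψ hψ a a' x hx => ?_⟩
      have hk : Even (2 * q) := even_two_mul q
      have := Q.L_normal hk
      have h1 : (gq (2 * q)).comp (ψ.comp iq) = D.pb φ := by
        apply Q.hom_ext
        · show gq _ (ψ (iq Q.c)) = D.pb φ Q.c
          rw [hψ.hc, gq_kap]
          show qv wc = (D.R (φ (D.π (iq Q.c)))).q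
          rw [← hwc, D.hR, rho_q]
        · show gq _ (ψ (iq Q.t)) = D.pb φ Q.t
          rw [hψ.ht, gq_kap]
          show qv wt = (D.R (φ (D.π (iq Q.t)))).q
          rw [← hwt, D.hR, rho_q]
      have h2 : gq (2 * q) (ψ (iq x)) ∉ Q.L (2 * q) := by
        have h3 : gq (2 * q) (ψ (iq x)) = D.pb φ x := DFunLike.congr_fun h1 x
        rw [h3]
        exact fun h => hx (hB q hq hp x h)
      set σ := kap (2 * q) (iq s : U A) with hσ
      set y := σ⁻¹ * ψ (iq x) * σ with hy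
      have h4 : gq (2 * q) y ∉ Q.L (2 * q) := by
        intro h
        apply h2
        have h5 := this.conj_mem _ h (gq (2 * q) σ)
        rw [hy, map_mul, map_mul, map_inv] at h5
        convert h5 using 1
        group
      have h6 := gam_comm (2 * q) hk y h4 (β a) (β a')
      have h7 : ψ (ia a) = σ * kap (2 * q) (ia (β a)) * σ⁻¹ := by
        rw [hψ.ha, cj, map_mul, map_mul, map_inv, map_inv]
      have h8 : ψ (ia a') = σ * kap (2 * q) (ia (β a')) * σ⁻¹ := by
        rw [hψ.ha, cj, map_mul, map_mul, map_inv, map_inv]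
      have h9 : ψ (cj x a') = σ * (y * kap (2 * q) (ia (β a')) * y⁻¹) * σ⁻¹ := by
        rw [cj, map_mul, map_mul, map_inv, map_inv, h8, hy]
        group
      rw [h7, h9]
      exact (Commute.conj_iff _).2 h6
  filter_upwards [main] with q hq hp ψ hψ u hu
  have h1 := hq hp ψ hψ
  have h2 : gLift (2 * q) ψ h1 (kap (2 * q) u) = ψ u := gLift_kap _ _ _ u
  rw [← h2, hu, map_one]

end lifting

include hA in
/-- invariance of the kernels -/
theorem Dat.invariant {m : ℕ} (p : FreeGroup (Fin m) →* G) (lam : FreeGroup (Fin m) →* U A)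
    (hlam : ∀ f, D.π (lam f) = p f) (σ : FreeGroup (Fin m) →* FreeGroup (Fin m))
    (hσ : ∀ f, p (σ f) = φ (p f)) :
    ∀ᶠ q in atTop, q.Prime → ∀ f, kap (2 * q) (lam f) = 1 → kap (2 * q) (lam (σ f)) = 1 := by
  obtain ⟨s, β, hβ, hcl⟩ := D.classify hA φ
  obtain ⟨wc, hwc⟩ := D.hπ (φ (D.π (iq Q.c)))
  obtain ⟨wt, hwt⟩ := D.hπ (φ (D.π (iq Q.t)))
  have h1 : ∀ i : Fin m, ∀ᶠ k in atTop, ∀ ψ, Lft s β wc wt k ψ →
      ψ (lam (FreeGroup.of i)) = kap k (lam (σ (FreeGroup.of i))) := by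
    intro i
    apply D.lift_good φ s β hβ wc wt hwc hwt
    rw [hlam, hlam, hσ]
  have h2 := eventually_all.2 h1
  have h3 := h2.and (D.lift_exists φ s β hβ wc wt hwc hwt)
  have h4 : Tendsto (fun q : ℕ => 2 * q) atTop atTop :=
    tendsto_atTop_mono (fun q => by show q ≤ 2 * q; omega) tendsto_id
  filter_upwards [h4.eventually h3, D.lift_kills φ s β hβ wc wt hwc hwt hcl] with q h5 h6 hp f hf
  obtain ⟨h7, ψ, hψ⟩ := h5
  have h8 : ψ.comp lam = (kap (2 * q)).comp (lam.comp σ) := by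
    ext i
    exact h7 i ψ hψ
  have h9 : ψ (lam f) = kap (2 * q) (lam (σ f)) := DFunLike.congr_fun h8 f
  rw [← h9]
  exact h6 hp ψ hψ _ hf

/-! ### the limiting relators do not hold in `Gam` -/

section final

open Classical in
theorem rho_comm {Z : Type} [MulAction Q Z] (O : Set Z) (a a' : A) (x : Q)
    (h : ∀ z ∈ O, x⁻¹ • z ∉ O) : Commute (rho O (ia a)) (rho O (cj x a')) := by
  rw [rho_inl, rho_cj]
  apply W.ext
  · funext z
    simp only [W.mul_f, inv_one, one_smul]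
    by_cases h1 : z ∈ O
    · rw [if_pos h1, if_neg (h z h1)]
      simp
    · rw [if_neg h1]
      simp
  · simp

variable (k : ℕ)

/-- the base point -/
def bpt : Q ⧸ Q.L k := ((1 : Q) : Q ⧸ Q.L k)

theorem bpt_smul (x : Q) : x⁻¹ • bpt k = bpt k ↔ x ∈ Q.L k := by
  have : x⁻¹ • bpt k = ((x⁻¹ * 1 : Q) : Q ⧸ Q.L k) := rfl
  rw [this, bpt, QuotientGroup.eq]
  simp

/-- the finite quotient -/
noncomputable def fq : Gam A k →* W A (Q ⧸ Q.L k) :=
  gLift k (rho {bpt k}) (by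
    intro a a' x hx
    apply rho_comm
    intro z hz h
    rw [Set.mem_singleton_iff] at hz h
    rw [hz] at h
    exact hx ((bpt_smul k x).1 h))

open Classical in
include hA in
theorem not_all_comm (x : Q) (hx : x ∈ Q.L k) :
    ¬ ∀ a a' : A, kap k ⁅ia a, cj x a'⁆ = 1 := by
  intro h
  obtain ⟨a, b, hab⟩ := hA
  apply hab
  have h0 : rho {bpt k} ⁅ia a, cj x b⁆ = 1 := by
    have := congrArg (fq k) (h a b)
    rw [map_one] at this
    exact this
  have h1 := congrArg (fun g => W.f g (bpt k)) h0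
  simp only [map_commutatorElement] at h1
  rw [comm_f _ _ (by rw [rho_q]; rfl) (by rw [rho_q, qv_cj]), rho_inl, rho_cj] at h1
  simp only [(bpt_smul k x).2 hx, Set.mem_singleton_iff, if_true, W.one_f] at h1
  exact commutatorElement_eq_one_iff_mul_comm.1 h1

end final

include D hA in
/-- no finite L-presentation -/
theorem Dat.no_presentation : ¬ ∃ (m : ℕ) (R : Finset (FreeGroup (Fin m)))
    (Φ : Finset (Monoid.End (FreeGroup (Fin m)))),
      Nonempty (G ≃* PresentedGroup {x : FreeGroup (Fin m) |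
        ∃ φ ∈ Submonoid.closure (Φ : Set (Monoid.End (FreeGroup (Fin m)))), ∃ r ∈ R, x = φ r}) := by
  rintro ⟨m, R, Φ, ⟨e⟩⟩
  set S : Set (FreeGroup (Fin m)) := {x : FreeGroup (Fin m) |
        ∃ φ ∈ Submonoid.closure (Φ : Set (Monoid.End (FreeGroup (Fin m)))), ∃ r ∈ R, x = φ r} with hS
  let p : FreeGroup (Fin m) →* G := e.symm.toMonoidHom.comp (PresentedGroup.mk S)
  have hp : Function.Surjective p := e.symm.surjective.comp (PresentedGroup.mk_surjective S)
  have hpk : ∀ f, p f = 1 ↔ f ∈ Subgroup.normalClosure S := by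
    intro f
    show e.symm (PresentedGroup.mk S f) = 1 ↔ _
    rw [map_eq_one_iff _ e.symm.injective]
    exact PresentedGroup.mk_eq_one_iff
  -- a lift of `p`
  have hl : ∀ i : Fin m, ∃ u, D.π u = p (FreeGroup.of i) := fun i => D.hπ _
  choose lg hlg using hl
  let lam : FreeGroup (Fin m) →* U A := FreeGroup.lift lg
  have hlam : ∀ f, D.π (lam f) = p f := by
    have : D.π.comp lam = p := by
      ext i
      simp [lam, hlg]
    exact fun f => DFunLike.congr_fun this f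
  -- endomorphisms
  have hend : ∀ σ ∈ Φ, ∃ φ : G →* G, ∀ f, p (σ f) = φ (p f) := by
    intro σ hσ
    let σ' : FreeGroup (Fin m) →* FreeGroup (Fin m) := ⟨⟨fun f => σ f, map_one σ⟩, map_mul σ⟩
    have h1 : p.ker ≤ (p.comp σ').ker := by
      intro f hf
      have h2 : Subgroup.normalClosure S ≤ (p.comp σ').ker := by
        apply Subgroup.normalClosure_le_normal
        rintro x ⟨τ, hτ, r, hr, rfl⟩
        rw [SetLike.mem_coe, MonoidHom.mem_ker, MonoidHom.comp_apply, hpk]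
        apply Subgroup.subset_normalClosure
        exact ⟨σ * τ, mul_mem (Submonoid.subset_closure hσ) hτ, r, hr, rfl⟩
      exact h2 ((hpk f).1 hf)
    refine ⟨p.liftOfSurjective hp ⟨_, h1⟩, fun f => ?_⟩
    exact (MonoidHom.liftOfRightInverse_comp_apply p _ (Function.rightInverse_surjInv hp)
      ⟨p.comp σ', h1⟩ f).symm
  have hinv : ∀ σ ∈ Φ, ∀ᶠ q in atTop, q.Prime → ∀ f, kap (2 * q) (lam f) = 1 →
      kap (2 * q) (lam (σ f)) = 1 := by
    intro σ hσ
    obtain ⟨φ, hφ⟩ := hend σ hσ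
    let σ' : FreeGroup (Fin m) →* FreeGroup (Fin m) := ⟨⟨fun f => σ f, map_one σ⟩, map_mul σ⟩
    exact D.invariant hA φ p lam hlam σ' hφ
  have hinv' := (eventually_all_finset Φ).2 hinv
  have h4 : Tendsto (fun q : ℕ => 2 * q) atTop atTop :=
    tendsto_atTop_mono (fun q => by show q ≤ 2 * q; omega) tendsto_id
  have hR : ∀ r ∈ R, ∀ᶠ k in atTop, kap k (lam r) = 1 := by
    intro r hr
    have h1 : D.π (lam r) = D.π 1 := by
      rw [hlam, map_one, hpk]
      exact Subgroup.subset_normalClosure ⟨1, one_mem _, r, hr, rfl⟩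
    filter_upwards [kap_ev_eq _ _ (D.rinf_eq h1)] with k hk
    rw [hk, map_one]
  have hR' := h4.eventually ((eventually_all_finset R).2 hR)
  -- generators
  have hgen : ∀ u : U A, ∃ f, p f = D.π u := fun u => hp _
  choose fg hfg using hgen
  have hge : ∀ u : U A, ∀ᶠ k in atTop, kap k (lam (fg u)) = kap k u := by
    intro u
    apply kap_ev_eq
    apply D.rinf_eq
    rw [hlam, hfg]
  have hga := h4.eventually (eventually_all.2 fun a : A => hge (ia a))
  have hgc := h4.eventually (hge (iq Q.c))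
  have hgt := h4.eventually (hge (iq Q.t))
  obtain ⟨B, hB⟩ := eventually_atTop.1 (hinv'.and (hR'.and (hga.and (hgc.and hgt))))
  obtain ⟨q, hqB, hqp⟩ := Nat.exists_infinite_primes (max B 3)
  obtain ⟨h5, h6, h7, h8, h9⟩ := hB q (le_trans (le_max_left _ _) hqB)
  have hq3 : 3 ≤ q := le_trans (le_max_right _ _) hqB
  have hqodd : Odd q := hqp.odd_of_ne_two (by omega)
  -- the kernel of `p` is killed
  have h10 : ∀ τ ∈ Submonoid.closure (Φ : Set (Monoid.End (FreeGroup (Fin m)))),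
      ∀ f, kap (2 * q) (lam f) = 1 → kap (2 * q) (lam (τ f)) = 1 := by
    intro τ hτ
    refine Submonoid.closure_induction
      (motive := fun (τ : Monoid.End (FreeGroup (Fin m))) _ => ∀ f, kap (2 * q) (lam f) = 1 →
        kap (2 * q) (lam (τ f)) = 1) ?_ ?_ ?_ hτ
    · intro σ hσ f hf
      exact h5 σ hσ hqp f hf
    · intro f hf
      exact hf
    · intro σ τ _ _ h1 h2 f hf
      exact h1 _ (h2 f hf)
  have h11 : p.ker ≤ ((kap (2 * q)).comp lam).ker := by
    intro f hf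
    have h12 : Subgroup.normalClosure S ≤ ((kap (2 * q)).comp lam).ker := by
      apply Subgroup.normalClosure_le_normal
      rintro x ⟨τ, hτ, r, hr, rfl⟩
      exact h10 τ hτ r (h6 r hr)
    exact h12 ((hpk f).1 hf)
  let η : G →* Gam A (2 * q) := p.liftOfSurjective hp ⟨_, h11⟩
  have hη : ∀ f, η (p f) = kap (2 * q) (lam f) := fun f =>
    MonoidHom.liftOfRightInverse_comp_apply p _ (Function.rightInverse_surjInv hp)
      ⟨(kap (2 * q)).comp lam, h11⟩ f
  have hη2 : η.comp D.π = kap (2 * q) := by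
    apply U_hom_ext
    · intro a
      rw [MonoidHom.comp_apply, ← hfg (ia a), hη, h7 a]
    · have : (η.comp D.π).comp iq = (kap (2 * q)).comp iq := by
        apply Q.hom_ext
        · show η (D.π (iq Q.c)) = kap (2 * q) (iq Q.c)
          rw [← hfg (iq Q.c), hη, h8]
        · show η (D.π (iq Q.t)) = kap (2 * q) (iq Q.t)
          rw [← hfg (iq Q.t), hη, h9]
      exact fun x => DFunLike.congr_fun this x
  -- contradiction
  have hx : Q.t ^ (2 * q) ∈ Q.L (2 * q) := by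
    rw [Q.t_pow]
    exact ⟨rfl, dvd_rfl⟩
  apply not_all_comm hA (2 * q) (Q.t ^ (2 * q)) hx
  intro a a'
  have h13 : (Q.t ^ 2) ∈ Q.L 2 := by
    rw [Q.t_pow]
    exact ⟨rfl, dvd_rfl⟩
  have h14 : D.π ⁅ia a, cj (Q.t ^ 2) a'⁆ = D.π ⁅ia a, cj (Q.t ^ (2 * q)) a'⁆ := by
    apply D.hRinj
    rw [D.hR, D.hR]
    apply rel_two D.ho
    intro j
    rw [pow_mul]
    exact pow_odd_mem _ h13 q hqodd j
  have h15 : kap (2 * q) ⁅ia a, cj (Q.t ^ 2) a'⁆ = kap (2 * q) ⁅ia a, cj (Q.t ^ (2 * q)) a'⁆ := by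
    rw [← hη2, MonoidHom.comp_apply, MonoidHom.comp_apply, h14]
  rw [← h15]
  refine (QuotientGroup.eq_one_iff _).2 (Subgroup.subset_normalClosure ⟨a, a', _, ?_, rfl⟩)
  rw [Q.t_pow]
  rintro ⟨_, h16⟩
  have h16' : ((2 * q : ℕ) : ℤ) ∣ ((2 : ℕ) : ℤ) := h16
  have h17 : (2 * q) ∣ 2 := Int.natCast_dvd_natCast.1 h16'
  have := Nat.le_of_dvd (by norm_num) h17
  omega

end Pool.Agent.Helper940.LP
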