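import Mathlib

set_option autoImplicit false

/-!
The group `Q = C₃ ⋊ ℤ`, where the generator of `ℤ` inverts `C₃`.
-/

namespace Pool.Agent.Helper940.LP

/-- elements `c^i t^n` -/
@[ext] structure Q where
  i : ZMod 3
  n : ℤ

/-- the sign -/
def sg (n : ℤ) : ZMod 3 := if Even n then 1 else -1

theorem sg_add (m n : ℤ) : sg (m + n) = sg m * sg n := by
  unfold sg
  by_cases hm : Even m <;> by_cases hn : Even n <;> simp [Int.even_add, hm, hn]

theorem sg_neg (n : ℤ) : sg (-n) = sg n := by simp [sg]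

theorem sg_mul_self (n : ℤ) : sg n * sg n = 1 := by
  unfold sg; split_ifs <;> simp

theorem sg_even {n : ℤ} (h : Even n) : sg n = 1 := by simp [sg, h]

theorem sg_odd {n : ℤ} (h : Odd n) : sg n = -1 := by
  have : ¬ Even n := Int.not_even_iff_odd.2 h
  simp [sg, this]

theorem sg_zero : sg 0 = 1 := by simp [sg]

namespace Q

instance : Mul Q := ⟨fun x y => ⟨x.i + sg x.n * y.i, x.n + y.n⟩⟩
instance : One Q := ⟨⟨0, 0⟩⟩
instance : Inv Q := ⟨fun x => ⟨-(sg x.n * x.i), -x.n⟩⟩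

@[simp] theorem mul_i (x y : Q) : (x * y).i = x.i + sg x.n * y.i := rfl
@[simp] theorem mul_n (x y : Q) : (x * y).n = x.n + y.n := rfl
@[simp] theorem one_i : (1 : Q).i = 0 := rfl
@[simp] theorem one_n : (1 : Q).n = 0 := rfl
@[simp] theorem inv_i (x : Q) : (x⁻¹).i = -(sg x.n * x.i) := rfl
@[simp] theorem inv_n (x : Q) : (x⁻¹).n = -x.n := rfl

instance : Group Q := Group.ofLeftAxioms
  (fun x y z => by
    ext
    · simp [sg_add]; ring
    · simp [add_assoc])
  (fun x => by ext <;> simp [sg_zero])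
  (fun x => by
    ext
    · simp [sg_neg]
    · simp)

instance : DecidableEq Q := fun x y =>
  decidable_of_iff (x.i = y.i ∧ x.n = y.n) ⟨fun h => Q.ext h.1 h.2, fun h => by subst h; exact ⟨rfl, rfl⟩⟩

theorem pow_n (x : Q) (k : ℕ) : (x ^ k).n = k * x.n := by
  induction k with
  | zero => simp
  | succ k ih => rw [pow_succ, mul_n, ih]; push_cast; ring

theorem zpow_n (x : Q) (k : ℤ) : (x ^ k).n = k * x.n := by
  cases k with
  | ofNat k => simpa using pow_n x k
  | negSucc k => rw [zpow_negSucc, inv_n, pow_n, Int.negSucc_eq]; push_cast; ring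

/-- generator of `C₃` -/
def c : Q := ⟨1, 0⟩
/-- generator of `ℤ` -/
def t : Q := ⟨0, 1⟩

theorem t_pow (k : ℕ) : t ^ k = ⟨0, k⟩ := by
  induction k with
  | zero => rfl
  | succ k ih => rw [pow_succ, ih]; ext <;> simp [t]

theorem t_zpow (k : ℤ) : t ^ k = ⟨0, k⟩ := by
  cases k with
  | ofNat k => simpa using t_pow k
  | negSucc k =>
    rw [zpow_negSucc, t_pow]; ext
    · simp
    · simp [Int.negSucc_eq]

theorem c_pow (k : ℕ) : c ^ k = ⟨k, 0⟩ := by
  induction k with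
  | zero => rfl
  | succ k ih => rw [pow_succ, ih]; ext <;> simp [c, sg_zero]

theorem eq_c_t (x : Q) : x = c ^ x.i.val * t ^ x.n := by
  rw [c_pow, t_zpow]; ext <;> simp [sg_zero]

theorem c_cube : c ^ 3 = 1 := by rw [c_pow]; rfl

theorem t_c : t * c * t⁻¹ = c⁻¹ := by decide

/-- the subgroups `L k = ⟨t^k⟩` -/
def L (k : ℕ) : Subgroup Q where
  carrier := {x | x.i = 0 ∧ (k : ℤ) ∣ x.n}
  one_mem' := ⟨rfl, dvd_zero _⟩
  mul_mem' := by
    rintro x y ⟨hx, hx'⟩ ⟨hy, hy'⟩
    exact ⟨by simp [hx, hy], dvd_add hx' hy'⟩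
  inv_mem' := by
    rintro x ⟨hx, hx'⟩
    exact ⟨by simp [hx], (dvd_neg).2 hx'⟩

theorem mem_L {k : ℕ} {x : Q} : x ∈ L k ↔ x.i = 0 ∧ (k : ℤ) ∣ x.n := Iff.rfl

theorem L_central {k : ℕ} (hk : Even k) {x : Q} (hx : x ∈ L k) (y : Q) : y * x = x * y := by
  obtain ⟨h1, h2⟩ := hx
  have : Even x.n := by
    obtain ⟨m, hm⟩ := h2
    rw [hm]
    exact ((Int.even_coe_nat k).2 hk).mul_right m
  ext
  · simp [h1, sg_even this]
  · simp [add_comm]

theorem L_normal {k : ℕ} (hk : Even k) : (L k).Normal := by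
  constructor
  intro x hx y
  rw [L_central hk hx y, mul_assoc, mul_inv_cancel, mul_one]
  exact hx

theorem mem_L_zero {x : Q} : x ∈ L 0 ↔ x = 1 := by
  rw [mem_L]
  constructor
  · rintro ⟨h1, h2⟩
    ext
    · exact h1
    · simpa using h2
  · rintro rfl
    exact ⟨rfl, dvd_zero _⟩

section lift

variable {H : Type*} [Group H] (C T : H) (hC : C ^ 3 = 1) (hT : T * C * T⁻¹ = C⁻¹)

include hC in
theorem pc_add (i j : ZMod 3) : C ^ (i + j).val = C ^ i.val * C ^ j.val := by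
  rw [ZMod.val_add, ← pow_eq_pow_mod _ hC, pow_add]

include hC in
theorem pc_neg (i : ZMod 3) : C ^ (-i).val = (C ^ i.val)⁻¹ := by
  rw [eq_inv_iff_mul_eq_one, ← pc_add C hC]
  simp

include hC hT in
theorem pc_conj (i : ZMod 3) : T * C ^ i.val * T⁻¹ = C ^ (-i).val := by
  rw [pc_neg C hC, ← conj_pow, hT, inv_pow]

include hC hT in
theorem pc_comm (n : ℤ) (i : ZMod 3) : T ^ n * C ^ i.val = C ^ (sg n * i).val * T ^ n := by
  have h2 : ∀ m : ℤ, Commute (T ^ (2 * m)) (C ^ i.val) := by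
    intro m
    rw [zpow_mul]
    apply Commute.zpow_left
    have h := pc_conj C T hC hT i
    have h' := pc_conj C T hC hT (-i)
    rw [neg_neg, ← h] at h'
    have : T ^ (2 : ℤ) * C ^ i.val * (T ^ (2 : ℤ))⁻¹ = C ^ i.val := by
      have e : T ^ (2 : ℤ) = T * T := by
        rw [zpow_ofNat, pow_two]
      rw [e]
      simpa [mul_assoc] using h'
    exact mul_inv_eq_iff_eq_mul.1 this
  rcases Int.even_or_odd n with hn | hn
  · obtain ⟨m, rfl⟩ := hn
    rw [sg_even ⟨m, rfl⟩, one_mul, ← two_mul]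
    exact h2 m
  · obtain ⟨m, rfl⟩ := hn
    rw [sg_odd ⟨m, rfl⟩, neg_one_mul]
    rw [zpow_add, zpow_one, mul_assoc]
    have h : T * C ^ i.val = C ^ (-i).val * T := by
      rw [← pc_conj C T hC hT i]; simp
    rw [h]
    have h3 : Commute (T ^ (2 * m)) (C ^ (-i).val) := by
      rw [pc_neg C hC]
      exact (h2 m).inv_right
    rw [← mul_assoc, h3.eq, mul_assoc]

/-- homomorphisms out of `Q` -/
def lift : Q →* H where
  toFun x := C ^ x.i.val * T ^ x.n
  map_one' := by simp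
  map_mul' x y := by
    rw [mul_i, mul_n, pc_add C hC, zpow_add]
    rw [mul_assoc, mul_assoc, ← mul_assoc (C ^ (sg x.n * y.i).val), ← pc_comm C T hC hT]
    simp [mul_assoc]

theorem lift_c : lift C T hC hT c = C := by
  show C ^ (1 : ZMod 3).val * T ^ (0 : ℤ) = C
  simp [ZMod.val_one]

theorem lift_t : lift C T hC hT t = T := by
  show C ^ (0 : ZMod 3).val * T ^ (1 : ℤ) = T
  simp

end lift

theorem hom_ext {H : Type*} [Monoid H] {f g : Q →* H} (hc : f c = g c) (ht : f t = g t) : f = g := by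
  have ht' : ∀ n : ℤ, f (t ^ n) = g (t ^ n) := by
    intro n
    have e : f.toHomUnits t = g.toHomUnits t := Units.ext ht
    have := congrArg (fun u : Hˣ => ((u ^ n : Hˣ) : H)) e
    simpa only [← map_zpow, MonoidHom.coe_toHomUnits] using this
  ext x
  rw [eq_c_t x, map_mul, map_mul, map_pow, map_pow, hc, ht']

end Q

end Pool.Agent.Helper940.LP
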