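import Pool.Agent.Helper940.LPMain

set_option autoImplicit false
set_option linter.unusedSectionVars false

/-!
The tree action.
-/

namespace Pool.Agent.Helper940.LP

/-- position letters -/
abbrev Pd := ZMod 3 × Bool

/-- value of a digit -/
def bv : Bool → ℤ
  | false => 0
  | true => 1

/-- parity -/
def pa (n : ℤ) : Bool := decide (n % 2 = 1)

theorem bv_pa (n : ℤ) : bv (pa n) = n % 2 := by
  unfold pa
  by_cases h : n % 2 = 1
  · simp [h, bv]
  · simp only [h, decide_false, bv]
    omega

theorem pa_bv (b : Bool) : pa (bv b) = b := by cases b <;> rfl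

/-- action on letters -/
def act (q : Q) (p : Pd) : Pd := (q.i + sg q.n * p.1, pa (bv p.2 + q.n))

/-- section -/
def sec (q : Q) (p : Pd) : Q := ⟨0, (bv p.2 + q.n) / 2⟩

theorem act_one (p : Pd) : act 1 p = p := by
  obtain ⟨k, b⟩ := p
  simp [act, sg_zero, pa_bv]

theorem sec_one (p : Pd) : sec 1 p = 1 := by
  obtain ⟨k, b⟩ := p
  cases b <;> rfl

theorem pa_congr {m n : ℤ} (h : m % 2 = n % 2) : pa m = pa n := by
  simp [pa, h]

theorem act_mul (q q' : Q) (p : Pd) : act (q * q') p = act q (act q' p) := by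
  obtain ⟨k, b⟩ := p
  unfold act
  ext1
  · simp only [Q.mul_i, Q.mul_n, sg_add]
    ring
  · simp only [Q.mul_n]
    apply pa_congr
    rw [bv_pa]
    omega

theorem sec_mul (q q' : Q) (p : Pd) : sec (q * q') p = sec q (act q' p) * sec q' p := by
  obtain ⟨k, b⟩ := p
  unfold sec act
  ext1
  · simp
  · simp only [Q.mul_n]
    rw [bv_pa]
    omega

theorem act_inv_act (q : Q) (p : Pd) : act q⁻¹ (act q p) = p := by
  rw [← act_mul, inv_mul_cancel, act_one]

theorem act_act_inv (q : Q) (p : Pd) : act q (act q⁻¹ p) = p := by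
  rw [← act_mul, mul_inv_cancel, act_one]

theorem sec_inv (q : Q) (p : Pd) : sec q⁻¹ (act q p) = (sec q p)⁻¹ := by
  rw [eq_inv_iff_mul_eq_one, ← sec_mul, inv_mul_cancel, sec_one]

/-- action on words -/
def lact : Q → List Pd → List Pd
  | _, [] => []
  | q, p :: l => act q p :: lact (sec q p) l

theorem lact_one : ∀ l, lact 1 l = l
  | [] => rfl
  | p :: l => by rw [lact, act_one, sec_one, lact_one l]

theorem lact_mul : ∀ (q q' : Q) (l : List Pd), lact (q * q') l = lact q (lact q' l)
  | _, _, [] => rfl
  | q, q', p :: l => by rw [lact, lact, lact, act_mul, sec_mul, lact_mul]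

instance : MulAction Q (List Pd) where
  smul := lact
  one_smul := lact_one
  mul_smul := lact_mul

theorem smul_nil (q : Q) : q • ([] : List Pd) = [] := rfl
theorem smul_cons (q : Q) (p : Pd) (l : List Pd) : q • (p :: l) = act q p :: (sec q p • l) := rfl

theorem smul_length (q : Q) (l : List Pd) : (q • l).length = l.length := by
  induction l generalizing q with
  | nil => rfl
  | cons p l ih => rw [smul_cons, List.length_cons, List.length_cons, ih]

/-- the zero letter -/
def z0 : Pd := (0, false)

/-- base points -/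
def bo (j : ℕ) : List Pd := List.replicate (j + 1) z0

theorem stab_aux (k : ℕ) : ∀ n : ℤ, (⟨0, n⟩ : Q) • (List.replicate k z0) = List.replicate k z0 ↔
    ((2 ^ k : ℕ) : ℤ) ∣ n := by
  induction k with
  | zero => intro n; simp [smul_nil]
  | succ k ih =>
    intro n
    rw [List.replicate_succ, smul_cons, List.cons.injEq]
    have h1 : sec ⟨0, n⟩ z0 = ⟨0, n / 2⟩ := by simp [sec, z0, bv]
    have h2 : act ⟨0, n⟩ z0 = z0 ↔ n % 2 = 0 := by
      simp only [act, z0, Prod.mk.injEq, mul_zero, add_zero, true_and, bv, zero_add, pa,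
        decide_eq_false_iff_not]
      omega
    rw [h1, h2, ih]
    constructor
    · rintro ⟨h3, m, h4⟩
      refine ⟨m, ?_⟩
      have : n = 2 * (n / 2) := by omega
      rw [this, h4]
      push_cast
      ring
    · rintro ⟨m, h4⟩
      have h5 : n = 2 * (((2 ^ k : ℕ) : ℤ) * m) := by
        rw [h4]; push_cast; ring
      constructor
      · omega
      · exact ⟨m, by omega⟩

theorem stab (w : Q) (j : ℕ) : w • bo j = bo j ↔ w ∈ Q.L (2 ^ (j + 1)) := by
  obtain ⟨i, n⟩ := w
  rw [Q.mem_L]
  by_cases hi : i = 0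
  · subst hi
    rw [bo, stab_aux]
    simp
  · constructor
    · intro h
      exfalso
      apply hi
      rw [bo, List.replicate_succ, smul_cons, List.cons.injEq] at h
      have := congrArg Prod.fst h.1
      simpa [act, z0] using this
    · rintro ⟨h, _⟩
      exact absurd h hi

theorem base_bo : Base bo := by
  intro x y j j'
  constructor
  · intro h
    have h1 := congrArg List.length h
    rw [smul_length, smul_length] at h1
    have h2 : j = j' := by simpa [bo] using h1
    subst h2
    refine ⟨rfl, ?_⟩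
    rw [← stab, mul_smul, ← h, inv_smul_smul]
  · rintro ⟨rfl, h⟩
    rw [← stab, mul_smul, inv_smul_eq_iff] at h
    exact h.symm

/-! ### the tree -/

variable {A : Type} [Group A] {Y : Type} [MulAction A Y]

/-- sections in the wreath product -/
def wsec (x : W A (List Pd)) (p : Pd) : W A (List Pd) := ⟨fun l => x.f (act x.q p :: l), sec x.q p⟩

theorem wsec_one (p : Pd) : wsec (1 : W A (List Pd)) p = 1 := by
  apply W.ext
  · rfl
  · exact sec_one p

theorem wsec_mul (x y : W A (List Pd)) (p : Pd) :
    wsec (x * y) p = wsec x (act y.q p) * wsec y p := by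
  apply W.ext
  · funext l
    simp only [wsec, W.mul_f, W.mul_q, smul_cons, act_mul, act_inv_act, sec_inv]
  · simp only [wsec, W.mul_q, sec_mul]

/-- action on words -/
def wact : W A (List Pd) → List (Pd × Y) → List (Pd × Y)
  | _, [] => []
  | x, (p, y) :: w => (act x.q p, x.f [act x.q p] • y) :: wact (wsec x p) w

theorem wact_one : ∀ w : List (Pd × Y), wact (1 : W A (List Pd)) w = w
  | [] => rfl
  | (p, y) :: w => by rw [wact, wsec_one, wact_one w, W.one_q, act_one, W.one_f, one_smul]

theorem wact_mul : ∀ (x x' : W A (List Pd)) (w : List (Pd × Y)),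
    wact (x * x') w = wact x (wact x' w)
  | _, _, [] => rfl
  | x, x', (p, y) :: w => by
    rw [wact, wact, wact, wsec_mul, wact_mul, W.mul_q, act_mul, W.mul_f, smul_cons, act_inv_act,
      smul_nil, mul_smul]

/-- tree automorphisms -/
def Lam : W A (List Pd) →* Equiv.Perm (List (Pd × Y)) where
  toFun x := ⟨wact x, wact x⁻¹, fun w => by rw [← wact_mul, inv_mul_cancel, wact_one],
    fun w => by rw [← wact_mul, mul_inv_cancel, wact_one]⟩
  map_one' := by ext1 w; exact wact_one w
  map_mul' x x' := by ext1 w; exact wact_mul x x' w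

theorem Lam_apply (x : W A (List Pd)) (w : List (Pd × Y)) : Lam x w = wact x w := rfl

theorem wact_congr : ∀ (w : List (Pd × Y)) (x x' : W A (List Pd)), x.q = x'.q →
    (∀ p l, x.f (p :: l) = x'.f (p :: l)) → wact x w = wact x' w
  | [], _, _, _, _ => rfl
  | (p, y) :: w, x, x', hq, hf => by
    rw [wact, wact, hq, hf]
    congr 1
    apply wact_congr w
    · simp only [wsec, hq]
    · intro p' l
      simp only [wsec, hq, hf]

/-- the marked group -/
noncomputable def pT : U A →* Equiv.Perm (List (Pd × Y)) := Lam.comp (rho (Set.range bo))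

/-- elements from data -/
noncomputable def Td (l : List (Q × A)) (q : Q) : Equiv.Perm (List (Pd × Y)) := pT (wd l * iq q)

theorem Td_apply (l : List (Q × A)) (q : Q) (w : List (Pd × Y)) :
    Td l q w = wact ⟨fwd (Set.range bo) l, q⟩ w := by
  show wact (rho _ (wd l * iq q)) w = _
  rw [rho_wd_inr]

/-- sections of data -/
def sl (l : List (Q × A)) (p : Pd) : List (Q × A) :=
  l.filterMap fun e => if act e.1 z0 = p then some (sec e.1 z0, e.2) else none

theorem mem_range_bo_cons (p : Pd) (l : List Pd) (hl : l ≠ []) :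
    (p :: l) ∈ Set.range bo ↔ p = z0 ∧ l ∈ Set.range bo := by
  constructor
  · rintro ⟨j, hj⟩
    rw [bo, List.replicate_succ, List.cons.injEq] at hj
    obtain ⟨h1, h2⟩ := hj
    refine ⟨h1.symm, ?_⟩
    cases j with
    | zero => exact absurd h2.symm hl
    | succ j => exact ⟨j, h2⟩
  · rintro ⟨rfl, j, rfl⟩
    exact ⟨j + 1, rfl⟩

theorem fwd_sl (l : List (Q × A)) (p' : Pd) (l' : List Pd) (hl : l' ≠ []) :
    fwd (Set.range bo) l (p' :: l') = fwd (Set.range bo) (sl l p') l' := by
  induction l with
  | nil => rfl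
  | cons e l ih =>
    rw [fwd, ih]
    by_cases h : act e.1 z0 = p'
    · have h1 : sl (e :: l) p' = (sec e.1 z0, e.2) :: sl l p' := by simp [sl, h]
      rw [h1, fwd]
      congr 1
      have h2 : (e.1⁻¹ • (p' :: l') ∈ Set.range bo) ↔ (sec e.1 z0)⁻¹ • l' ∈ Set.range bo := by
        rw [smul_cons, mem_range_bo_cons, ← h, act_inv_act, sec_inv]
        · simp
        · intro h3
          apply hl
          rw [← List.length_eq_zero_iff] at h3 ⊢
          rwa [smul_length] at h3
      by_cases h4 : e.1⁻¹ • (p' :: l') ∈ Set.range bo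
      · rw [if_pos h4, if_pos (h2.1 h4)]
      · rw [if_neg h4, if_neg fun h5 => h4 (h2.2 h5)]
    · have h1 : sl (e :: l) p' = sl l p' := by simp [sl, h]
      have h2 : ¬ (e.1⁻¹ • (p' :: l') ∈ Set.range bo) := by
        rw [smul_cons, mem_range_bo_cons]
        · rintro ⟨h3, _⟩
          apply h
          rw [← h3, act_act_inv]
        · intro h3
          apply hl
          rw [← List.length_eq_zero_iff] at h3 ⊢
          rwa [smul_length] at h3
      rw [h1, if_neg h2, one_mul]

theorem Td_cons (l : List (Q × A)) (q : Q) (p : Pd) (y : Y) (w : List (Pd × Y)) :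
    Td l q ((p, y) :: w) =
      (act q p, fwd (Set.range bo) l [act q p] • y) :: Td (sl l (act q p)) (sec q p) w := by
  rw [Td_apply, wact, Td_apply]
  congr 1
  apply wact_congr
  · rfl
  · intro p' l'
    exact fwd_sl l (act q p) (p' :: l') (by simp)

theorem Td_nil (l : List (Q × A)) (q : Q) : Td l q ([] : List (Pd × Y)) = [] := rfl

variable (A Y) in
/-- the group -/
noncomputable def GT : Subgroup (Equiv.Perm (List (Pd × Y))) := (pT : U A →* _).range

theorem Td_mem (l : List (Q × A)) (q : Q) : (Td l q : Equiv.Perm (List (Pd × Y))) ∈ GT A Y := ⟨_, rfl⟩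

theorem mem_GT {g : Equiv.Perm (List (Pd × Y))} : g ∈ GT A Y ↔ ∃ (l : List (Q × A)) (q : Q), Td l q = g := by
  constructor
  · rintro ⟨u, rfl⟩
    obtain ⟨l, hl⟩ := exists_wd u
    exact ⟨l, qv u, by rw [Td, ← hl]⟩
  · rintro ⟨l, q, rfl⟩
    exact Td_mem l q

end Pool.Agent.Helper940.LP
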