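import Pool.Agent.Helper940.LPTree

set_option autoImplicit false
set_option linter.unusedSectionVars false

/-!
The tree action is faithful for the marked wreath product; the group is finitely generated,
self-similar and contracting.
-/

namespace Pool.Agent.Helper940.LP

variable {A : Type} [Group A] {Y : Type} [MulAction A Y]

/-! ### faithfulness -/

theorem wact_fst : ∀ (x : W A (List Pd)) (w : List (Pd × Y)),
    (wact x w).map Prod.fst = x.q • (w.map Prod.fst)
  | _, [] => rfl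
  | x, (p, y) :: w => by
    rw [wact, List.map_cons, List.map_cons, wact_fst, smul_cons]
    rfl

theorem q_of_trivial [Nonempty Y] (x : W A (List Pd)) (h : ∀ w : List (Pd × Y), wact x w = w) :
    x.q = 1 := by
  obtain ⟨y⟩ := ‹Nonempty Y›
  by_contra hq
  obtain ⟨B, hB⟩ := Q.eventually_notMem x.q hq
  apply hB (2 ^ (B + 1)) (le_trans (Nat.le_succ B) (Nat.lt_two_pow_self).le)
  rw [← stab]
  have h1 := wact_fst x ((bo B).map fun p => (p, y))
  rw [h, List.map_map] at h1
  have h2 : (Prod.fst ∘ fun p : Pd => (p, y)) = id := rfl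
  rw [h2, List.map_id] at h1
  exact h1.symm

theorem f_of_trivial [FaithfulSMul A Y] [Nonempty Y] : ∀ (l : List Pd) (x : W A (List Pd)) (p : Pd), x.q = 1 →
    (∀ w : List (Pd × Y), wact x w = w) → x.f (p :: l) = 1
  | [], x, p, hq, h => by
    apply FaithfulSMul.eq_of_smul_eq_smul (α := Y)
    intro y
    have h1 := h [(p, y)]
    rw [wact, hq, act_one, List.cons.injEq, Prod.mk.injEq] at h1
    rw [h1.1.2, one_smul]
  | p' :: l, x, p, hq, h => by
    have h1 : (wsec x p).q = 1 := by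
      show sec x.q p = 1
      rw [hq, sec_one]
    have h2 : x.f (p :: p' :: l) = (wsec x p).f (p' :: l) := by
      show _ = x.f (act x.q p :: p' :: l)
      rw [hq, act_one]
    rw [h2]
    apply f_of_trivial l (wsec x p) p' h1
    intro w
    have h3 := h ((p, Classical.arbitrary Y) :: w)
    rw [wact, List.cons.injEq] at h3
    exact h3.2

theorem not_nil_mem : ([] : List Pd) ∉ Set.range bo := by
  rintro ⟨j, hj⟩
  have := congrArg List.length hj
  simp [bo] at this

theorem rho_of_trivial [FaithfulSMul A Y] [Nonempty Y] (u : U A)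
    (h : (pT u : Equiv.Perm (List (Pd × Y))) = 1) : rho (Set.range bo) u = 1 := by
  have h1 : ∀ w : List (Pd × Y), wact (rho (Set.range bo) u) w = w := fun w =>
    DFunLike.congr_fun h w
  have hq := q_of_trivial _ h1
  apply W.ext
  · funext z
    cases z with
    | nil =>
      obtain ⟨l, hl⟩ := exists_wd u
      rw [hl, rho_wd_inr]
      show fwd _ l [] = 1
      by_contra hne
      obtain ⟨e, _, he⟩ := fwd_support _ _ _ hne
      rw [smul_nil] at he
      exact not_nil_mem he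
    | cons p l => exact f_of_trivial l _ p hq h1
  · exact hq

variable (A Y) in
/-- the marking -/
noncomputable def mk : U A →* GT A Y := (pT : U A →* Equiv.Perm (List (Pd × Y))).rangeRestrict

variable (A Y) in
theorem mk_surj : Function.Surjective (mk A Y) := MonoidHom.rangeRestrict_surjective _

theorem mk_eq_one [FaithfulSMul A Y] [Nonempty Y] (u : U A) (h : mk A Y u = 1) :
    rho (Set.range bo) u = 1 :=
  rho_of_trivial u (congrArg Subtype.val h)

variable (A Y) in
/-- the data -/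
noncomputable def dat [FaithfulSMul A Y] [Nonempty Y] : Dat A bo (GT A Y) where
  ho := base_bo
  π := mk A Y
  hπ := mk_surj A Y
  R := (mk A Y).liftOfSurjective (mk_surj A Y) ⟨rho (Set.range bo), fun u hu => mk_eq_one u hu⟩
  hR u := MonoidHom.liftOfRightInverse_comp_apply (mk A Y) _ (Function.rightInverse_surjInv (mk_surj A Y))
      ⟨rho (Set.range bo), fun u hu => mk_eq_one u hu⟩ u
  hRinj := by
    rw [injective_iff_map_eq_one]
    intro g hg
    obtain ⟨u, rfl⟩ := mk_surj A Y g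
    have h1 : rho (Set.range bo) u = 1 := (MonoidHom.liftOfRightInverse_comp_apply (mk A Y) _
      (Function.rightInverse_surjInv (mk_surj A Y))
      ⟨rho (Set.range bo), fun u hu => mk_eq_one u hu⟩ u).symm.trans hg
    apply Subtype.ext
    show Lam (rho (Set.range bo) u) = 1
    rw [h1, map_one]
  Ri := (mk A Y).liftOfSurjective (mk_surj A Y)
    ⟨rinf, fun u hu => rinf_of_rho base_bo u (mk_eq_one u hu)⟩
  hRi u := MonoidHom.liftOfRightInverse_comp_apply (mk A Y) _ (Function.rightInverse_surjInv (mk_surj A Y))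
      ⟨rinf, fun u hu => rinf_of_rho base_bo u (mk_eq_one u hu)⟩ u

/-! ### finite generation -/

variable (A) in
theorem U_fg [Finite A] : Group.FG (U A) := by
  rw [Group.fg_iff]
  refine ⟨Set.range (ia : A →* U A) ∪ {iq Q.c, iq Q.t}, ?_, ?_⟩
  · rw [eq_top_iff]
    intro u _
    induction u using U_induction with
    | h1 a => exact Subgroup.subset_closure (Or.inl ⟨a, rfl⟩)
    | h2 x =>
      rw [Q.eq_c_t x, map_mul, map_pow, map_zpow]
      have hc : (iq Q.c : U A) ∈ Subgroup.closure (Set.range (ia : A →* U A) ∪ {iq Q.c, iq Q.t}) :=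
        Subgroup.subset_closure (Or.inr (Or.inl rfl))
      have ht : (iq Q.t : U A) ∈ Subgroup.closure (Set.range (ia : A →* U A) ∪ {iq Q.c, iq Q.t}) :=
        Subgroup.subset_closure (Or.inr (Or.inr rfl))
      exact mul_mem (pow_mem hc _) (zpow_mem ht _)
    | h3 u v hu hv => exact mul_mem (hu trivial) (hv trivial)
  · exact (Set.finite_range _).union (Set.toFinite _)

variable (A Y) in
theorem GT_fg [Finite A] : Group.FG (GT A Y) := by
  haveI := U_fg A
  exact Group.fg_of_surjective (mk_surj A Y)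

/-! ### the basic properties -/

theorem GT_nil (g : Equiv.Perm (List (Pd × Y))) (hg : g ∈ GT A Y) : g [] = [] := by
  obtain ⟨l, q, rfl⟩ := mem_GT.1 hg
  exact Td_nil l q

theorem GT_selfSim (g : Equiv.Perm (List (Pd × Y))) (hg : g ∈ GT A Y) (x : Pd × Y) :
    ∃ y : Pd × Y, ∃ h ∈ GT A Y, ∀ w, g (x :: w) = y :: h w := by
  obtain ⟨l, q, rfl⟩ := mem_GT.1 hg
  obtain ⟨p, y⟩ := x
  exact ⟨_, _, Td_mem _ _, fun w => Td_cons l q p y w⟩

/-! ### contraction -/

/-- sections of data -/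
def sd (d : List (Q × A) × Q) (p : Pd) : List (Q × A) × Q := (sl d.1 (act d.2 p), sec d.2 p)

/-- iterated sections of data -/
def sdv (d : List (Q × A) × Q) (v : List Pd) : List (Q × A) × Q := v.foldl sd d

theorem Td_append (v : List (Pd × Y)) : ∀ (d : List (Q × A) × Q) (w : List (Pd × Y)),
    Td d.1 d.2 (v ++ w) = Td d.1 d.2 v ++
      Td (sdv d (v.map Prod.fst)).1 (sdv d (v.map Prod.fst)).2 w := by
  induction v with
  | nil => intro d w; rw [Td_nil]; rfl
  | cons x v ih =>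
    obtain ⟨p, y⟩ := x
    intro d w
    rw [List.cons_append, Td_cons, Td_cons, List.cons_append]
    exact congrArg _ (ih (sd d p) w)

/-- radius -/
def Rad (r : ℕ) (d : List (Q × A) × Q) : Prop :=
  (∀ e ∈ d.1, -(r : ℤ) ≤ e.1.n ∧ e.1.n ≤ r) ∧ -(r : ℤ) ≤ d.2.n ∧ d.2.n ≤ r

/-- the final data -/
def Good (d : List (Q × A) × Q) : Prop :=
  (∀ e ∈ d.1, e.1 = Q.t⁻¹ ∨ e.1 = 1) ∧ (d.2 = Q.t⁻¹ ∨ d.2 = 1 ∨ d.2 = Q.t)

theorem mem_sl {l : List (Q × A)} {p : Pd} {e : Q × A} (h : e ∈ sl l p) :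
    ∃ e' ∈ l, sec e'.1 z0 = e.1 := by
  rw [sl, List.mem_filterMap] at h
  obtain ⟨e', he', h1⟩ := h
  refine ⟨e', he', ?_⟩
  split_ifs at h1 with h2
  · rw [Option.some.injEq] at h1
    rw [← h1]

theorem bv_nonneg (b : Bool) : 0 ≤ bv b ∧ bv b ≤ 1 := by cases b <;> simp [bv]

theorem Rad.step {r : ℕ} (hr : 1 ≤ r) {d : List (Q × A) × Q} (h : Rad (r + 1) d) (p : Pd) :
    Rad r (sd d p) := by
  obtain ⟨h1, h2⟩ := h
  push_cast at h1 h2
  refine ⟨?_, ?_⟩
  · intro e he
    obtain ⟨e', he', h3⟩ := mem_sl he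
    have h4 := h1 e' he'
    rw [← h3]
    show -(r : ℤ) ≤ (bv false + e'.1.n) / 2 ∧ (bv false + e'.1.n) / 2 ≤ r
    simp only [bv]
    omega
  · show -(r : ℤ) ≤ (bv p.2 + d.2.n) / 2 ∧ (bv p.2 + d.2.n) / 2 ≤ r
    have := bv_nonneg p.2
    omega

theorem Rad.good {d : List (Q × A) × Q} (h : Rad 1 d) (p : Pd) : Good (sd d p) := by
  obtain ⟨h1, h2⟩ := h
  push_cast at h1 h2
  refine ⟨?_, ?_⟩
  · intro e he
    obtain ⟨e', he', h3⟩ := mem_sl he
    have h4 := h1 e' he'
    rw [← h3]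
    have h5 : (bv false + e'.1.n) / 2 = -1 ∨ (bv false + e'.1.n) / 2 = 0 := by
      simp only [bv]; omega
    rcases h5 with h5 | h5
    · left
      show (⟨0, (bv false + e'.1.n) / 2⟩ : Q) = Q.t⁻¹
      rw [h5]; rfl
    · right
      show (⟨0, (bv false + e'.1.n) / 2⟩ : Q) = 1
      rw [h5]; rfl
  · have := bv_nonneg p.2
    have h5 : (bv p.2 + d.2.n) / 2 = -1 ∨ (bv p.2 + d.2.n) / 2 = 0 ∨ (bv p.2 + d.2.n) / 2 = 1 := by
      omega
    rcases h5 with h5 | h5 | h5
    · left
      show (⟨0, (bv p.2 + d.2.n) / 2⟩ : Q) = Q.t⁻¹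
      rw [h5]; rfl
    · right; left
      show (⟨0, (bv p.2 + d.2.n) / 2⟩ : Q) = 1
      rw [h5]; rfl
    · right; right
      show (⟨0, (bv p.2 + d.2.n) / 2⟩ : Q) = Q.t
      rw [h5]; rfl

theorem Good.rad {d : List (Q × A) × Q} (h : Good d) : Rad 1 d := by
  obtain ⟨h1, h2⟩ := h
  refine ⟨?_, ?_⟩
  · intro e he
    rcases h1 e he with h3 | h3 <;> rw [h3] <;> simp [Q.t]
  · rcases h2 with h3 | h3 | h3 <;> rw [h3] <;> simp [Q.t]

theorem Good.sdv {d : List (Q × A) × Q} (h : Good d) (v : List Pd) : Good (sdv d v) := by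
  induction v generalizing d with
  | nil => exact h
  | cons p v ih => exact ih (h.rad.good p)

theorem Rad.sdv (r : ℕ) : ∀ (d : List (Q × A) × Q) (v : List Pd), Rad (r + 1) d →
    r + 1 ≤ v.length → Good (sdv d v) := by
  induction r with
  | zero =>
    intro d v h hv
    cases v with
    | nil => simp at hv
    | cons p v => exact (Rad.good h p).sdv v
  | succ r ih =>
    intro d v h hv
    cases v with
    | nil => simp at hv
    | cons p v => exact ih (sd d p) v (h.step (Nat.le_add_left 1 r) p) (by simpa using hv)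

theorem exists_rad (d : List (Q × A) × Q) : ∃ r, Rad (r + 1) d := by
  obtain ⟨l, q⟩ := d
  induction l with
  | nil =>
    refine ⟨q.n.natAbs, fun e he => by simp at he, ?_⟩
    show -((q.n.natAbs + 1 : ℕ) : ℤ) ≤ q.n ∧ q.n ≤ ((q.n.natAbs + 1 : ℕ) : ℤ)
    omega
  | cons e l ih =>
    obtain ⟨r, h1, h2⟩ := ih
    refine ⟨r + e.1.n.natAbs, ?_, ?_⟩
    · intro e' he'
      rcases List.mem_cons.1 he' with rfl | h
      · omega
      · have := h1 e' h
        omega
    · show -((r + e.1.n.natAbs + 1 : ℕ) : ℤ) ≤ q.n ∧ q.n ≤ ((r + e.1.n.natAbs + 1 : ℕ) : ℤ)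
      have h3 : -((r + 1 : ℕ) : ℤ) ≤ q.n ∧ q.n ≤ ((r + 1 : ℕ) : ℤ) := h2
      omega

theorem wd_good (l : List (Q × A)) (h : ∀ e ∈ l, e.1 = Q.t⁻¹ ∨ e.1 = 1) :
    ∃ b b' : A, rho (Set.range bo) (wd l) = rho (Set.range bo) (cj Q.t⁻¹ b' * cj 1 b) := by
  induction l with
  | nil => exact ⟨1, 1, by rw [cj_one, cj_one, wd_nil, mul_one]⟩
  | cons e l ih =>
    obtain ⟨b, b', hb⟩ := ih fun e he => h e (List.mem_cons_of_mem _ he)
    obtain ⟨x, a⟩ := e
    rcases h (x, a) (by simp) with h1 | h1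
    · simp only at h1
      subst h1
      refine ⟨b, a * b', ?_⟩
      rw [wd_cons, map_mul, hb, ← map_mul, cj_mul, mul_assoc]
    · simp only at h1
      subst h1
      refine ⟨a * b, b', ?_⟩
      have h2 : Commute (rho (Set.range bo) (ia a)) (rho (Set.range bo) (cj Q.t⁻¹ b')) := by
        apply rel_one base_bo
        rintro ⟨_, h3⟩
        have h4 : ((2 : ℕ) : ℤ) ∣ -1 := h3
        omega
      have h5 : (ia a : U A) = cj 1 a := by simp [cj]
      rw [h5] at h2
      rw [wd_cons, map_mul, hb, cj_mul, map_mul, map_mul, map_mul, ← mul_assoc, h2.eq, mul_assoc]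

variable (A Y) in
/-- a finite set containing the nucleus -/
theorem nucleus [Finite A] : ∃ N : Finset (Equiv.Perm (List (Pd × Y))),
    ∀ d : List (Q × A) × Q, Good d → Td d.1 d.2 ∈ N := by
  classical
  haveI := Fintype.ofFinite A
  refine ⟨(Finset.univ ×ˢ (Finset.univ ×ˢ ({Q.t⁻¹, 1, Q.t} : Finset Q))).image
    (fun p : A × (A × Q) => pT (cj Q.t⁻¹ p.2.1 * cj 1 p.1 * iq p.2.2)), ?_⟩
  rintro ⟨l, q⟩ ⟨h1, h2⟩
  obtain ⟨b, b', hb⟩ := wd_good l h1
  rw [Finset.mem_image]
  refine ⟨(b, (b', q)), ?_, ?_⟩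
  · simp only [Finset.mem_product, Finset.mem_univ, true_and, Finset.mem_insert,
      Finset.mem_singleton]
    exact h2
  · show Lam (rho _ _) = Lam (rho _ _)
    rw [map_mul, ← hb, ← map_mul]

theorem GT_contracting [Finite A] : ∃ N : Finset (Equiv.Perm (List (Pd × Y))),
    ∀ g ∈ GT A Y, ∃ k : ℕ, ∀ v : List (Pd × Y), k ≤ v.length → ∀ h ∈ GT A Y,
      (∀ w, g (v ++ w) = g v ++ h w) → h ∈ N := by
  obtain ⟨N, hN⟩ := nucleus A Y
  refine ⟨N, fun g hg => ?_⟩
  obtain ⟨l, q, rfl⟩ := mem_GT.1 hg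
  obtain ⟨r, hr⟩ := exists_rad (l, q)
  refine ⟨r + 1, fun v hv h _ hh => ?_⟩
  have h1 : h = Td (sdv (l, q) (v.map Prod.fst)).1 (sdv (l, q) (v.map Prod.fst)).2 := by
    ext1 w
    have h2 := hh w
    rw [Td_append v (l, q) w] at h2
    exact (List.append_cancel_left h2).symm
  rw [h1]
  apply hN
  apply Rad.sdv r _ _ hr
  rw [List.length_map]
  exact hv

end Pool.Agent.Helper940.LP
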