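import Pool.Agent.Helper940.LPQ

set_option autoImplicit false
set_option linter.unusedSectionVars false

/-!
The free product `U = A * Q`, wreath products, and the partially commutative quotients.
-/

namespace Pool.Agent.Helper940.LP

open Monoid Monoid.Coprod
open scoped commutatorElement

variable {A : Type} [Group A]

/-- the free product -/
abbrev U (A : Type) [Group A] : Type := Coprod A Q

/-- letters from `A` -/
def ia : A →* U A := Coprod.inl
/-- letters from `Q` -/
def iq : Q →* U A := Coprod.inr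
/-- homomorphisms from `U A` -/
def ul {H : Type*} [Group H] (f : A →* H) (g : Q →* H) : U A →* H := Coprod.lift f g

@[simp] theorem ul_ia {H : Type*} [Group H] (f : A →* H) (g : Q →* H) (a : A) :
    ul f g (ia a) = f a := rfl
@[simp] theorem ul_iq {H : Type*} [Group H] (f : A →* H) (g : Q →* H) (x : Q) :
    ul f g (iq x) = g x := rfl

theorem U_hom_ext {H : Type*} [Group H] {F G : U A →* H} (h1 : ∀ a, F (ia a) = G (ia a))
    (h2 : ∀ x, F (iq x) = G (iq x)) : F = G :=
  Coprod.hom_ext (MonoidHom.ext h1) (MonoidHom.ext h2)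

theorem U_induction {P : U A → Prop} (u : U A) (h1 : ∀ a, P (ia a)) (h2 : ∀ x, P (iq x))
    (h3 : ∀ u v, P u → P v → P (u * v)) : P u := by
  induction u using Coprod.induction_on with
  | inl a => exact h1 a
  | inr x => exact h2 x
  | mul u v hu hv => exact h3 u v hu hv

/-- unrestricted permutational wreath product -/
@[ext] structure W (A Z : Type) where
  f : Z → A
  q : Q

namespace W

variable {Z : Type} [MulAction Q Z]

instance : Mul (W A Z) := ⟨fun x y => ⟨fun z => x.f z * y.f (x.q⁻¹ • z), x.q * y.q⟩⟩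
instance : One (W A Z) := ⟨⟨fun _ => 1, 1⟩⟩
instance : Inv (W A Z) := ⟨fun x => ⟨fun z => (x.f (x.q • z))⁻¹, x.q⁻¹⟩⟩

@[simp] theorem mul_f (x y : W A Z) (z : Z) : (x * y).f z = x.f z * y.f (x.q⁻¹ • z) := rfl
@[simp] theorem mul_q (x y : W A Z) : (x * y).q = x.q * y.q := rfl
@[simp] theorem one_f (z : Z) : (1 : W A Z).f z = 1 := rfl
@[simp] theorem one_q : (1 : W A Z).q = 1 := rfl
@[simp] theorem inv_f (x : W A Z) (z : Z) : (x⁻¹).f z = (x.f (x.q • z))⁻¹ := rfl
@[simp] theorem inv_q (x : W A Z) : (x⁻¹).q = x.q⁻¹ := rfl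

instance : Group (W A Z) := Group.ofLeftAxioms
  (fun x y w => by
    apply W.ext
    · funext z
      simp [mul_assoc, mul_smul]
    · simp [mul_assoc])
  (fun x => by
    apply W.ext
    · funext z; simp
    · simp)
  (fun x => by
    apply W.ext
    · funext z; simp
    · simp)

end W

section rho

variable {Z : Type} [MulAction Q Z]

open Classical in
/-- `A` acting at the points of `O` -/
noncomputable def aHom (O : Set Z) : A →* W A Z where
  toFun a := ⟨fun z => if z ∈ O then a else 1, 1⟩
  map_one' := by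
    apply W.ext
    · funext z; simp
    · rfl
  map_mul' a b := by
    apply W.ext
    · funext z
      simp only [W.mul_f, inv_one, one_smul]
      split_ifs <;> simp
    · simp

/-- `Q` in the wreath product -/
def qHom : Q →* W A Z where
  toFun x := ⟨fun _ => 1, x⟩
  map_one' := rfl
  map_mul' x y := by
    apply W.ext
    · funext z; simp
    · rfl

/-- the marked wreath product -/
noncomputable def rho (O : Set Z) : U A →* W A Z := ul (aHom O) qHom

/-- projection to `Q` -/
def qv : U A →* Q := ul 1 (MonoidHom.id Q)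

@[simp] theorem qv_inl (a : A) : qv (ia a : U A) = 1 := rfl
@[simp] theorem qv_inr (x : Q) : qv (iq x : U A) = x := rfl

@[simp] theorem rho_q (O : Set Z) (u : U A) : (rho O u).q = qv u := by
  let r : W A Z →* Q := ⟨⟨fun x => x.q, rfl⟩, fun _ _ => rfl⟩
  have : r.comp (rho O) = (qv : U A →* Q) := by
    exact U_hom_ext (fun _ => rfl) (fun _ => rfl)
  exact DFunLike.congr_fun this u

theorem rho_f_mul (O : Set Z) (u v : U A) (z : Z) :
    (rho O (u * v)).f z = (rho O u).f z * (rho O v).f ((qv u)⁻¹ • z) := by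
  rw [map_mul, W.mul_f, rho_q]

theorem rho_inr (O : Set Z) (x : Q) : (rho O (iq x : U A)) = ⟨fun _ => 1, x⟩ := rfl

open Classical in
theorem rho_inl (O : Set Z) (a : A) :
    (rho O (ia a : U A)) = ⟨fun z => if z ∈ O then a else 1, 1⟩ := rfl

/-- conjugate of a letter -/
def cj (x : Q) (a : A) : U A := iq x * ia a * iq x⁻¹

theorem cj_mul (x : Q) (a b : A) : cj x (a * b) = cj x a * cj x b := by
  unfold cj
  rw [map_mul, map_inv]
  group

theorem cj_one (x : Q) : cj x (1 : A) = 1 := by
  unfold cj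
  rw [map_one, map_inv]
  group

open Classical in
theorem rho_cj (O : Set Z) (x : Q) (a : A) :
    rho O (cj x a) = ⟨fun z => if x⁻¹ • z ∈ O then a else 1, 1⟩ := by
  unfold cj
  rw [map_mul, map_mul, rho_inr, rho_inl, rho_inr]
  apply W.ext
  · funext z; simp
  · simp

/-- words -/
def wd (l : List (Q × A)) : U A := (l.map fun p => cj p.1 p.2).prod

@[simp] theorem wd_nil : wd ([] : List (Q × A)) = 1 := rfl
@[simp] theorem wd_cons (p : Q × A) (l : List (Q × A)) : wd (p :: l) = cj p.1 p.2 * wd l := by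
  simp [wd]
theorem wd_append (l l' : List (Q × A)) : wd (l ++ l') = wd l * wd l' := by
  simp [wd]

@[simp] theorem qv_cj (x : Q) (a : A) : qv (cj x a) = 1 := by simp [cj]

@[simp] theorem qv_wd (l : List (Q × A)) : qv (wd l) = 1 := by
  induction l with
  | nil => simp
  | cons p l ih => simp [ih]

theorem exists_wd (u : U A) : ∃ l : List (Q × A), u = wd l * iq (qv u) := by
  induction u using U_induction with
  | h1 a => exact ⟨[(1, a)], by simp [cj]⟩
  | h2 x => exact ⟨[], by simp⟩
  | h3 u v hu hv =>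
    obtain ⟨l, hl⟩ := hu
    obtain ⟨l', hl'⟩ := hv
    have key : ∀ (x : Q) (l' : List (Q × A)), iq x * wd l' * iq x⁻¹ = wd (l'.map fun p => (x * p.1, p.2)) := by
      intro x l'
      induction l' with
      | nil => rw [wd_nil, List.map_nil, wd_nil, map_inv]; group
      | cons p l' ih =>
        rw [List.map_cons, wd_cons, wd_cons, ← ih]
        simp only [cj, map_inv, map_mul]
        group
    refine ⟨l ++ l'.map fun p => (qv u * p.1, p.2), ?_⟩
    rw [wd_append, ← key, map_mul, map_mul]
    conv_lhs => rw [hl, hl']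
    rw [map_inv]
    group

open Classical in
/-- the value of a word at a point -/
noncomputable def fwd (O : Set Z) : List (Q × A) → Z → A
  | [], _ => 1
  | p :: l, z => (if p.1⁻¹ • z ∈ O then p.2 else 1) * fwd O l z

theorem rho_wd (O : Set Z) (l : List (Q × A)) : rho O (wd l) = ⟨fwd O l, 1⟩ := by
  induction l with
  | nil => rw [wd_nil, map_one]; rfl
  | cons p l ih =>
    rw [wd_cons, map_mul, ih, rho_cj]
    apply W.ext
    · funext z
      simp [fwd]
    · simp

theorem rho_wd_inr (O : Set Z) (l : List (Q × A)) (x : Q) :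
    rho O (wd l * iq x) = ⟨fwd O l, x⟩ := by
  rw [map_mul, rho_wd, rho_inr]
  apply W.ext
  · funext z; simp
  · simp

theorem fwd_support (O : Set Z) (l : List (Q × A)) (z : Z) (h : fwd O l z ≠ 1) :
    ∃ p ∈ l, p.1⁻¹ • z ∈ O := by
  induction l with
  | nil => exact absurd rfl h
  | cons p l ih =>
    by_cases hp : p.1⁻¹ • z ∈ O
    · exact ⟨p, by simp, hp⟩
    · rw [fwd, if_neg hp, one_mul] at h
      obtain ⟨p', h1, h2⟩ := ih h
      exact ⟨p', by simp [h1], h2⟩

theorem fwd_congr {Z' : Type} [MulAction Q Z'] (O : Set Z) (O' : Set Z') (l : List (Q × A)) (z : Z)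
    (z' : Z') (h : ∀ p ∈ l, (p.1⁻¹ • z ∈ O ↔ p.1⁻¹ • z' ∈ O')) : fwd O l z = fwd O' l z' := by
  induction l with
  | nil => rfl
  | cons p l ih =>
    rw [fwd, fwd, ih fun q hq => h q (by simp [hq])]
    by_cases hp : p.1⁻¹ • z ∈ O
    · rw [if_pos hp, if_pos ((h p (by simp)).1 hp)]
    · rw [if_neg hp, if_neg fun h' => hp ((h p (by simp)).2 h')]

end rho

/-- the wreath product with infinite `Q` -/
noncomputable def rinf : U A →* W A Q := rho (Z := Q) {1}

theorem Q.eventually_notMem (y : Q) (hy : y ≠ 1) : ∃ B : ℕ, ∀ k ≥ B, y ∉ Q.L k := by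
  refine ⟨y.n.natAbs + 1, fun k hk h => ?_⟩
  obtain ⟨h1, h2⟩ := h
  have h3 : y.n = 0 := by
    apply Int.eq_zero_of_abs_lt_dvd h2
    have : |y.n| = (y.n.natAbs : ℤ) := Int.abs_eq_natAbs y.n
    omega
  exact hy (Q.ext h1 h3)

theorem Q.eventually_list (l : List Q) : ∃ B : ℕ, ∀ k ≥ B, ∀ y ∈ l, y ≠ 1 → y ∉ Q.L k := by
  induction l with
  | nil => exact ⟨0, fun k _ y hy => by simp at hy⟩
  | cons x l ih =>
    obtain ⟨B, hB⟩ := ih
    by_cases hx : x = 1
    · refine ⟨B, fun k hk y hy hy1 => ?_⟩
      rcases List.mem_cons.1 hy with rfl | h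
      · exact absurd hx hy1
      · exact hB k hk y h hy1
    · obtain ⟨B', hB'⟩ := Q.eventually_notMem x hx
      refine ⟨max B B', fun k hk y hy hy1 => ?_⟩
      rcases List.mem_cons.1 hy with rfl | h
      · exact hB' k (le_trans (le_max_right _ _) hk)
      · exact hB k (le_trans (le_max_left _ _) hk) y h hy1

/-! ### the groups `Gam k` -/

/-- commutation relators -/
def rels (A : Type) [Group A] (k : ℕ) : Set (U A) :=
  {g | ∃ (a a' : A) (x : Q), x ∉ Q.L k ∧ g = ⁅ia a, cj x a'⁆}

/-- partially commutative quotient -/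
abbrev Gam (A : Type) [Group A] (k : ℕ) := U A ⧸ Subgroup.normalClosure (rels A k)

/-- quotient map -/
def kap (k : ℕ) : U A →* Gam A k := QuotientGroup.mk' _

theorem kap_surj (k : ℕ) : Function.Surjective (kap k : U A →* Gam A k) := QuotientGroup.mk'_surjective _

/-- homomorphisms out of `Gam` -/
def gLift {H : Type*} [Group H] (k : ℕ) (F : U A →* H)
    (h : ∀ (a a' : A) (x : Q), x ∉ Q.L k → Commute (F (ia a)) (F (cj x a'))) : Gam A k →* H :=
  QuotientGroup.lift _ F (by
    intro g hg
    have : Subgroup.normalClosure (rels A k) ≤ F.ker := by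
      apply Subgroup.normalClosure_le_normal
      rintro g ⟨a, a', x, hx, rfl⟩
      rw [SetLike.mem_coe, MonoidHom.mem_ker, map_commutatorElement]
      exact commutatorElement_eq_one_iff_commute.2 (h a a' x hx)
    exact this hg)

theorem gLift_kap {H : Type*} [Group H] (k : ℕ) (F : U A →* H) (h) (u : U A) :
    gLift k F h (kap k u) = F u := rfl

theorem kap_comm (k : ℕ) {x y : Q} (h : x⁻¹ * y ∉ Q.L k) (a b : A) :
    Commute (kap k (cj x a)) (kap k (cj y b)) := by
  have h1 : kap k ⁅ia a, cj (x⁻¹ * y) b⁆ = 1 :=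
    (QuotientGroup.eq_one_iff _).2 (Subgroup.subset_normalClosure ⟨a, b, _, h, rfl⟩)
  rw [map_commutatorElement, commutatorElement_eq_one_iff_commute] at h1
  have h2 : cj x a = iq x * ia a * (iq x)⁻¹ := by simp [cj]
  have h3 : cj y b = iq x * cj (x⁻¹ * y) b * (iq x)⁻¹ := by
    simp only [cj, map_mul, map_inv]
    group
  rw [h2, h3, map_mul, map_mul, map_mul, map_mul, map_inv]
  exact (Commute.conj_iff _).2 h1

end Pool.Agent.Helper940.LP
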