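import Mathlib

set_option autoImplicit false

/-!
Definitions for self-similar groups acting on the words over a finite alphabet, the action on
infinite words, Schreier graphs of boundary points and their growth.
-/

namespace Pool.Agent.Helper940.SelfSim

open Filter Topology

variable {X : Type}

/-- The initial segment `ξ 0, ..., ξ (n-1)` of length `n` of an infinite word `ξ`. -/
def pre (ξ : ℕ → X) (n : ℕ) : List X := (List.range n).map ξ

/-- A group `G` of permutations of the set of finite words is self-similar: for all `g ∈ G` and
every letter `x` there are a letter `y` and `h ∈ G` with `g (x w) = y h(w)` for all words `w`. -/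
def SelfSimilar (G : Subgroup (Equiv.Perm (List X))) : Prop :=
  ∀ g ∈ G, ∀ x : X, ∃ y : X, ∃ h ∈ G, ∀ w : List X, g (x :: w) = y :: h w

/-- `G` is contracting: there is a finite set `N ⊆ G` such that for every `g ∈ G` the sections of
`g` at all sufficiently long words lie in `N`. -/
def Contracting (G : Subgroup (Equiv.Perm (List X))) : Prop :=
  ∃ N : Set (Equiv.Perm (List X)), N.Finite ∧ N ⊆ (G : Set (Equiv.Perm (List X))) ∧
    ∀ g ∈ G, ∃ n : ℕ, ∀ v : List X, n < v.length → ∃ h ∈ N, ∀ w : List X, g (v ++ w) = g v ++ h w

/-- The action on the boundary: `g` maps the infinite word `ξ` to the infinite word `η`, that is,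
`g` maps every finite initial segment of `ξ` to the initial segment of `η` of the same length. -/
def Maps (g : Equiv.Perm (List X)) (ξ η : ℕ → X) : Prop :=
  ∀ n : ℕ, g (pre ξ n) = pre η n

/-- The graph on infinite words with an edge between `η` and `s(η)` for every `s ∈ S`; the connected
component of `ξ` is the Schreier graph of the orbit of `ξ` under the group generated by `S`. -/
def schreier (S : Set (Equiv.Perm (List X))) : SimpleGraph (ℕ → X) :=
  SimpleGraph.fromRel (fun η ζ => ∃ s ∈ S, Maps s η ζ)

/-- The set of vertices at distance at most `n` from `ξ` in the Schreier graph. -/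
def ball (S : Set (Equiv.Perm (List X))) (ξ : ℕ → X) (n : ℕ) : Set (ℕ → X) :=
  {η | ∃ p : (schreier S).Walk ξ η, p.length ≤ n}

/-- The growth function: the number of vertices at distance at most `n` from `ξ`. -/
noncomputable def growth (S : Set (Equiv.Perm (List X))) (ξ : ℕ → X) (n : ℕ) : ℕ :=
  (ball S ξ n).ncard

end Pool.Agent.Helper940.SelfSim
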