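import Mathlib
import Pool.Agent.Helper940.SelfSim

set_option autoImplicit false

namespace Pool.Agent.Helper940.SelfSim

open Filter Topology

variable {X : Type}

theorem pre_length (ξ : ℕ → X) (n : ℕ) : (pre ξ n).length = n := by
  simp [pre]

theorem pre_zero (ξ : ℕ → X) : pre ξ 0 = [] := by simp [pre]

theorem pre_getElem (ξ : ℕ → X) (n i : ℕ) (h : i < (pre ξ n).length) : (pre ξ n)[i] = ξ i := by
  simp [pre]

theorem pre_add (ξ : ℕ → X) (m n : ℕ) :
    pre ξ (m + n) = pre ξ m ++ pre (fun i => ξ (m + i)) n := by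
  simp only [pre, List.range_add, List.map_append, List.map_map]
  rfl

theorem pre_inj {ξ η : ℕ → X} (h : ∀ n, pre ξ n = pre η n) : ξ = η := by
  funext i
  have h1 : i < (pre ξ (i+1)).length := by rw [pre_length]; omega
  have h2 : i < (pre η (i+1)).length := by rw [pre_length]; omega
  rw [← pre_getElem ξ (i+1) i h1, ← pre_getElem η (i+1) i h2]
  simp only [h (i+1)]

theorem maps_unique {g : Equiv.Perm (List X)} {ξ η η' : ℕ → X} (h : Maps g ξ η)
    (h' : Maps g ξ η') : η = η' :=
  pre_inj (fun n => (h n).symm.trans (h' n))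

theorem maps_inv {g : Equiv.Perm (List X)} {ξ η : ℕ → X} : Maps g⁻¹ ξ η ↔ Maps g η ξ := by
  constructor
  · intro h n
    rw [← h n]
    simp
  · intro h n
    rw [← h n]
    simp

theorem maps_mul {g h : Equiv.Perm (List X)} {ξ η ζ : ℕ → X} (h1 : Maps h ξ η)
    (h2 : Maps g η ζ) : Maps (g * h) ξ ζ := by
  intro n
  rw [Equiv.Perm.mul_apply, h1 n, h2 n]

theorem maps_one (ξ : ℕ → X) : Maps (1 : Equiv.Perm (List X)) ξ ξ := fun _ => rfl

/-! ### Tree automorphisms -/

section tree

variable {G : Subgroup (Equiv.Perm (List X))} (hG : SelfSimilar G)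

include hG

theorem apply_nil {g : Equiv.Perm (List X)} (hg : g ∈ G) : g [] = [] := by
  by_contra hne
  obtain ⟨x, u, hxu⟩ := List.exists_cons_of_ne_nil hne
  obtain ⟨y, h, -, hh⟩ := hG g⁻¹ (G.inv_mem hg) x
  have := hh u
  rw [← hxu] at this
  simp at this

theorem apply_length {g : Equiv.Perm (List X)} (hg : g ∈ G) (v : List X) :
    (g v).length = v.length := by
  induction v generalizing g with
  | nil => rw [apply_nil hG hg]
  | cons x v ih =>
    obtain ⟨y, h, hh, e⟩ := hG g hg x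
    rw [e v]
    simp [ih hh]

theorem exists_section {g : Equiv.Perm (List X)} (hg : g ∈ G) (v : List X) :
    ∃ h ∈ G, ∀ w, g (v ++ w) = g v ++ h w := by
  induction v generalizing g with
  | nil =>
    refine ⟨g, hg, fun w => ?_⟩
    rw [apply_nil hG hg]; rfl
  | cons x v ih =>
    obtain ⟨y, h, hh, e⟩ := hG g hg x
    obtain ⟨h', hh', e'⟩ := ih hh
    refine ⟨h', hh', fun w => ?_⟩
    rw [List.cons_append, e, e, e' w]
    rfl

theorem exists_maps {g : Equiv.Perm (List X)} (hg : g ∈ G) (ξ : ℕ → X) :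
    ∃ η, Maps g ξ η := by
  have hl : ∀ i, i < (g (pre ξ (i+1))).length := by
    intro i
    rw [apply_length hG hg, pre_length]; omega
  refine ⟨fun i => (g (pre ξ (i+1)))[i]'(hl i), fun n => ?_⟩
  apply List.ext_getElem
  · rw [apply_length hG hg, pre_length, pre_length]
  · intro i h1 h2
    rw [pre_getElem]
    rw [pre_length] at h2
    obtain ⟨m, rfl⟩ : ∃ m, n = (i+1) + m := ⟨n - (i+1), by omega⟩
    obtain ⟨h, -, hh⟩ := exists_section hG hg (pre ξ (i+1))
    have e : g (pre ξ (i+1+m)) = g (pre ξ (i+1)) ++ h (pre (fun j => ξ (i+1+j)) m) := by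
      rw [pre_add, hh]
    simp only [e]
    rw [List.getElem_append_left]

end tree

/-! ### Balls in the Schreier graph -/

theorem schreier_adj_of_maps {S : Set (Equiv.Perm (List X))} {s : Equiv.Perm (List X)}
    (hs : s ∈ S) {η ζ : ℕ → X} (h : Maps s η ζ) (hne : η ≠ ζ) : (schreier S).Adj η ζ := by
  rw [schreier, SimpleGraph.fromRel_adj]
  exact ⟨hne, Or.inl ⟨s, hs, h⟩⟩

theorem self_mem_ball (S : Set (Equiv.Perm (List X))) (ξ : ℕ → X) (n : ℕ) : ξ ∈ ball S ξ n :=
  ⟨SimpleGraph.Walk.nil, by simp⟩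

theorem ball_mono (S : Set (Equiv.Perm (List X))) (ξ : ℕ → X) {m n : ℕ} (h : m ≤ n) :
    ball S ξ m ⊆ ball S ξ n := by
  rintro η ⟨p, hp⟩
  exact ⟨p, hp.trans h⟩

theorem ball_succ (S : Set (Equiv.Perm (List X))) (ξ : ℕ → X) (n : ℕ) {ζ : ℕ → X}
    (h : ζ ∈ ball S ξ (n+1)) : ζ ∈ ball S ξ n ∨ ∃ η ∈ ball S ξ n, (schreier S).Adj η ζ := by
  obtain ⟨p, hp⟩ := h
  by_cases hn : p.length ≤ n
  · exact Or.inl ⟨p, hn⟩
  · right
    have hlen : p.reverse.length = p.length := SimpleGraph.Walk.length_reverse p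
    cases hq : p.reverse with
    | nil =>
      rw [hq] at hlen
      simp at hlen
      omega
    | cons hadj q =>
      rename_i η
      refine ⟨η, ⟨q.reverse, ?_⟩, hadj.symm⟩
      rw [SimpleGraph.Walk.length_reverse]
      rw [hq, SimpleGraph.Walk.length_cons] at hlen
      omega

theorem ball_adj (S : Set (Equiv.Perm (List X))) (ξ : ℕ → X) (n : ℕ) {η ζ : ℕ → X}
    (h : η ∈ ball S ξ n) (hadj : (schreier S).Adj η ζ) : ζ ∈ ball S ξ (n+1) := by
  obtain ⟨p, hp⟩ := h
  refine ⟨p.concat hadj, ?_⟩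
  rw [SimpleGraph.Walk.length_concat]
  omega

theorem ball_finite {S : Set (Equiv.Perm (List X))} (hS : S.Finite) (ξ : ℕ → X) (n : ℕ) :
    (ball S ξ n).Finite := by
  induction n with
  | zero =>
    refine Set.Finite.subset (Set.finite_singleton ξ) ?_
    rintro η ⟨p, hp⟩
    have : p.length = 0 := by omega
    exact (SimpleGraph.Walk.eq_of_length_eq_zero this).symm
  | succ n ih =>
    have hfin : (ball S ξ n ∪ ⋃ η ∈ ball S ξ n, ⋃ s ∈ S,
        ({ζ | Maps s η ζ} ∪ {ζ | Maps s ζ η})).Finite := by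
      refine ih.union (Set.Finite.biUnion ih (fun η _ => Set.Finite.biUnion hS (fun s _ => ?_)))
      refine Set.Finite.union (Set.Subsingleton.finite ?_) (Set.Subsingleton.finite ?_)
      · intro a ha b hb
        exact maps_unique ha hb
      · intro a ha b hb
        exact maps_unique (maps_inv.2 ha) (maps_inv.2 hb)
    refine hfin.subset ?_
    intro ζ hζ
    rcases ball_succ S ξ n hζ with h | ⟨η, hη, hadj⟩
    · exact Or.inl h
    · right
      rw [schreier, SimpleGraph.fromRel_adj] at hadj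
      simp only [Set.mem_iUnion]
      rcases hadj.2 with ⟨s, hs, hm⟩ | ⟨s, hs, hm⟩
      · exact ⟨η, hη, s, hs, Or.inl hm⟩
      · exact ⟨η, hη, s, hs, Or.inr hm⟩

theorem growth_pos {S : Set (Equiv.Perm (List X))} (hS : S.Finite) (ξ : ℕ → X) (n : ℕ) :
    1 ≤ growth S ξ n := by
  have : 0 < (ball S ξ n).ncard :=
    (Set.ncard_pos (ball_finite hS ξ n)).2 ⟨ξ, self_mem_ball S ξ n⟩
  exact this

theorem growth_mono {S : Set (Equiv.Perm (List X))} (hS : S.Finite) (ξ : ℕ → X) {m n : ℕ}
    (h : m ≤ n) : growth S ξ m ≤ growth S ξ n :=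
  Set.ncard_le_ncard (ball_mono S ξ h) (ball_finite hS ξ n)

/-- Either the balls stabilise or they grow at least linearly. -/
theorem ball_dichotomy {S : Set (Equiv.Perm (List X))} (hS : S.Finite) (ξ : ℕ → X) :
    (∃ n, ∀ m, ball S ξ m ⊆ ball S ξ n) ∨ ∀ n, n + 1 ≤ growth S ξ n := by
  by_cases hst : ∃ n, ball S ξ (n+1) = ball S ξ n
  · left
    obtain ⟨n, hn⟩ := hst
    refine ⟨n, ?_⟩
    have key : ∀ j, ball S ξ (n + j) ⊆ ball S ξ n := by
      intro j
      induction j with
      | zero => exact subset_rfl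
      | succ j ih =>
        intro ζ hζ
        rcases ball_succ S ξ (n+j) hζ with h | ⟨η, hη, hadj⟩
        · exact ih h
        · rw [← hn]
          exact ball_adj S ξ n (ih hη) hadj
    intro m
    exact (ball_mono S ξ (Nat.le_add_left m n)).trans (key m)
  · right
    push Not at hst
    intro n
    induction n with
    | zero => exact growth_pos hS ξ 0
    | succ n ih =>
      have hss : ball S ξ n ⊂ ball S ξ (n+1) :=
        (ball_mono S ξ (Nat.le_succ n)).ssubset_of_ne (hst n).symm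
      have := Set.ncard_lt_ncard hss (ball_finite hS ξ (n+1))
      have h2 : growth S ξ n < growth S ξ (n+1) := this
      omega

/-- Points of the orbit are reachable. -/
theorem orbit_reachable {S : Set (Equiv.Perm (List X))}
    (hG : SelfSimilar (Subgroup.closure S)) {g : Equiv.Perm (List X)}
    (hg : g ∈ Subgroup.closure S) :
    ∀ ξ η : ℕ → X, Maps g ξ η → (schreier S).Reachable ξ η := by
  induction hg using Subgroup.closure_induction with
  | mem s hs =>
    intro ξ η h
    by_cases hne : ξ = η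
    · subst hne; exact SimpleGraph.Reachable.refl _
    · exact (schreier_adj_of_maps hs h hne).reachable
  | one =>
    intro ξ η h
    have : ξ = η := maps_unique (maps_one ξ) h
    subst this; exact SimpleGraph.Reachable.refl _
  | mul a b ha hb iha ihb =>
    intro ξ η h
    obtain ⟨ζ, hζ⟩ := exists_maps hG hb ξ
    obtain ⟨θ, hθ⟩ := exists_maps hG ha ζ
    have : η = θ := maps_unique h (maps_mul hζ hθ)
    subst this
    exact (ihb ξ ζ hζ).trans (iha ζ η hθ)
  | inv a ha iha =>
    intro ξ η h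
    exact (iha η ξ (maps_inv.1 h)).symm

/-- If the orbit of `ξ` is infinite, the growth is at least linear. -/
theorem growth_ge_of_infinite {S : Set (Equiv.Perm (List X))} (hS : S.Finite)
    (hG : SelfSimilar (Subgroup.closure S)) (ξ : ℕ → X)
    (hinf : {η | ∃ g ∈ Subgroup.closure S, Maps g ξ η}.Infinite) (n : ℕ) :
    n + 1 ≤ growth S ξ n := by
  rcases ball_dichotomy hS ξ with ⟨N, hN⟩ | h
  · exfalso
    apply hinf
    refine (ball_finite hS ξ N).subset ?_
    rintro η ⟨g, hg, hm⟩
    obtain ⟨p⟩ := orbit_reachable hG hg ξ η hm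
    exact hN p.length ⟨p, le_rfl⟩
  · exact h n

/-- Conversely, points of the ball of radius `n` are images under products of at most `n`
generators, if the generating set is closed under inverses and contains `1`. -/
theorem ball_subset_pow {S : Set (Equiv.Perm (List X))} (h1 : (1 : Equiv.Perm (List X)) ∈ S)
    (hinv : ∀ s ∈ S, s⁻¹ ∈ S) (ξ : ℕ → X) (n : ℕ) (P : ℕ → Equiv.Perm (List X) → Prop)
    (hP0 : P 0 1) (hPs : ∀ m g s, P m g → s ∈ S → P (m+1) (s * g)) :
    ∀ η ∈ ball S ξ n, ∃ g, P n g ∧ Maps g ξ η := by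
  induction n with
  | zero =>
    rintro η ⟨p, hp⟩
    have h0 : p.length = 0 := by omega
    have := SimpleGraph.Walk.eq_of_length_eq_zero h0
    subst this
    exact ⟨1, hP0, maps_one _⟩
  | succ n ih =>
    intro ζ hζ
    rcases ball_succ S ξ n hζ with h | ⟨η, hη, hadj⟩
    · obtain ⟨g, hg, hm⟩ := ih ζ h
      exact ⟨1 * g, hPs n g 1 hg h1, maps_mul hm (maps_one _)⟩
    · obtain ⟨g, hg, hm⟩ := ih η hη
      rw [schreier, SimpleGraph.fromRel_adj] at hadj
      rcases hadj.2 with ⟨s, hs, hms⟩ | ⟨s, hs, hms⟩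
      · exact ⟨s * g, hPs n g s hg hs, maps_mul hm hms⟩
      · exact ⟨s⁻¹ * g, hPs n g s⁻¹ hg (hinv s hs), maps_mul hm (maps_inv.2 hms)⟩

end Pool.Agent.Helper940.SelfSim
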