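import Mathlib
import Pool.Agent.Helper940.SelfSim
import Pool.Agent.Helper940.SelfSimBasic

set_option autoImplicit false

namespace Pool.Agent.Helper940.MixedTree

open Filter Topology Pool.Agent.Helper940.SelfSim

/-- The alphabet: two letters of the first kind and `k+2` letters of the second kind. -/
abbrev Al (k : ℕ) : Type := Fin 2 ⊕ Fin (k+2)

variable {k : ℕ}

/-- letter kind -/
def cl (x : Al k) : Bool := x.isRight

def tp (k : ℕ) (b : Bool) : Al k := if b then Sum.inr 1 else Sum.inl 1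
def bt (k : ℕ) (b : Bool) : Al k := if b then Sum.inr 0 else Sum.inl 0

theorem cl_tp (b : Bool) : cl (tp k b) = b := by cases b <;> rfl
theorem cl_bt (b : Bool) : cl (bt k b) = b := by cases b <;> rfl

def isTop (x : Al k) : Prop := x = tp k (cl x)
def isBot (x : Al k) : Prop := x = bt k (cl x)

instance (x : Al k) : Decidable (isTop x) := inferInstanceAs (Decidable (_ = _))
instance (x : Al k) : Decidable (isBot x) := inferInstanceAs (Decidable (_ = _))

theorem isTop_tp (b : Bool) : isTop (tp k b) := by unfold isTop; rw [cl_tp]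
theorem isBot_bt (b : Bool) : isBot (bt k b) := by unfold isBot; rw [cl_bt]

theorem not_isTop_bt (b : Bool) : ¬ isTop (bt k b) := by
  unfold isTop; rw [cl_bt]
  cases b <;> simp [tp, bt]

/-- permutation of the first letter -/
def rootF (σ : Equiv.Perm (Al k)) : List (Al k) → List (Al k)
  | [] => []
  | x :: w => σ x :: w

/-- directed automorphism -/
def dirF (σ : Equiv.Perm (Al k)) : List (Al k) → List (Al k)
  | [] => []
  | x :: w => x :: (if isTop x then dirF σ w else if isBot x then rootF σ w else w)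

theorem rootF_mul (σ τ : Equiv.Perm (Al k)) (w : List (Al k)) :
    rootF (σ * τ) w = rootF σ (rootF τ w) := by
  cases w <;> simp [rootF]

theorem rootF_one (w : List (Al k)) : rootF (1 : Equiv.Perm (Al k)) w = w := by
  cases w <;> simp [rootF]

theorem dirF_mul (σ τ : Equiv.Perm (Al k)) (w : List (Al k)) :
    dirF (σ * τ) w = dirF σ (dirF τ w) := by
  induction w with
  | nil => simp [dirF]
  | cons x w ih =>
    simp only [dirF]
    by_cases h1 : isTop x
    · simp [h1, ih]
    · by_cases h2 : isBot x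
      · simp [h1, h2, rootF_mul]
      · simp [h1, h2]

theorem dirF_one (w : List (Al k)) : dirF (1 : Equiv.Perm (Al k)) w = w := by
  induction w with
  | nil => simp [dirF]
  | cons x w ih =>
    simp only [dirF]
    by_cases h1 : isTop x
    · simp [h1, ih]
    · by_cases h2 : isBot x
      · simp [h1, h2, rootF_one]
      · simp [h1, h2]

def root (σ : Equiv.Perm (Al k)) : Equiv.Perm (List (Al k)) where
  toFun := rootF σ
  invFun := rootF σ⁻¹
  left_inv w := by rw [← rootF_mul]; simp [rootF_one]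
  right_inv w := by rw [← rootF_mul]; simp [rootF_one]

def dir (σ : Equiv.Perm (Al k)) : Equiv.Perm (List (Al k)) where
  toFun := dirF σ
  invFun := dirF σ⁻¹
  left_inv w := by rw [← dirF_mul]; simp [dirF_one]
  right_inv w := by rw [← dirF_mul]; simp [dirF_one]

theorem root_apply_cons (σ : Equiv.Perm (Al k)) (x : Al k) (w : List (Al k)) :
    root σ (x :: w) = σ x :: w := rfl

theorem root_mul (σ τ : Equiv.Perm (Al k)) : root (σ * τ) = root σ * root τ := by
  ext1 w; exact rootF_mul σ τ w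

theorem root_one : root (1 : Equiv.Perm (Al k)) = 1 := by
  ext1 w; exact rootF_one w

theorem dir_mul (σ τ : Equiv.Perm (Al k)) : dir (σ * τ) = dir σ * dir τ := by
  ext1 w; exact dirF_mul σ τ w

theorem dir_one : dir (1 : Equiv.Perm (Al k)) = 1 := by
  ext1 w; exact dirF_one w

theorem root_inv (σ : Equiv.Perm (Al k)) : (root σ)⁻¹ = root σ⁻¹ := by
  rw [inv_eq_iff_mul_eq_one, ← root_mul]; simp [root_one]

theorem dir_inv (σ : Equiv.Perm (Al k)) : (dir σ)⁻¹ = dir σ⁻¹ := by
  rw [inv_eq_iff_mul_eq_one, ← dir_mul]; simp [dir_one]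

/-- permutations of letters preserving the kind -/
def P (k : ℕ) : Subgroup (Equiv.Perm (Al k)) where
  carrier := {σ | ∀ x, cl (σ x) = cl x}
  one_mem' := fun _ => rfl
  mul_mem' := by
    intro σ τ hσ hτ x
    rw [Equiv.Perm.mul_apply, hσ, hτ]
  inv_mem' := by
    intro σ hσ x
    have h1 := hσ (σ⁻¹ x)
    have h2 : σ (σ⁻¹ x) = x := by simp
    rw [h2] at h1
    exact h1.symm

theorem mem_P {σ : Equiv.Perm (Al k)} : σ ∈ P k ↔ ∀ x, cl (σ x) = cl x := Iff.rfl

theorem exists_P (x y : Al k) (h : cl x = cl y) : ∃ σ ∈ P k, σ x = y := by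
  refine ⟨Equiv.swap x y, ?_, Equiv.swap_apply_left x y⟩
  rw [mem_P]
  intro z
  by_cases hx : z = x
  · rw [hx, Equiv.swap_apply_left, h]
  · by_cases hy : z = y
    · rw [hy, Equiv.swap_apply_right, h]
    · rw [Equiv.swap_apply_of_ne_of_ne hx hy]

/-- The generating set. -/
def S (k : ℕ) : Set (Equiv.Perm (List (Al k))) :=
  {g | ∃ σ ∈ P k, g = root σ ∨ g = dir σ}

theorem S_finite : (S k).Finite := by
  have : S k ⊆ (root '' (P k : Set (Equiv.Perm (Al k)))) ∪
      (dir '' (P k : Set (Equiv.Perm (Al k)))) := by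
    rintro g ⟨σ, hσ, h | h⟩
    · exact Or.inl ⟨σ, hσ, h.symm⟩
    · exact Or.inr ⟨σ, hσ, h.symm⟩
  exact ((Set.toFinite _).union (Set.toFinite _)).subset this

theorem one_mem_S : (1 : Equiv.Perm (List (Al k))) ∈ S k :=
  ⟨1, (P k).one_mem, Or.inl root_one.symm⟩

theorem inv_mem_S : ∀ s ∈ S k, s⁻¹ ∈ S k := by
  rintro s ⟨σ, hσ, h | h⟩
  · exact ⟨σ⁻¹, (P k).inv_mem hσ, Or.inl (by rw [h, root_inv])⟩
  · exact ⟨σ⁻¹, (P k).inv_mem hσ, Or.inr (by rw [h, dir_inv])⟩

/-- products with `m` directed factors -/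
inductive M : ℕ → Equiv.Perm (List (Al k)) → Prop
  | base (σ : Equiv.Perm (Al k)) : σ ∈ P k → M 0 (root σ)
  | step (m : ℕ) (g : Equiv.Perm (List (Al k))) (σ τ : Equiv.Perm (Al k)) :
      M m g → σ ∈ P k → τ ∈ P k → M (m+1) (g * dir σ * root τ)

theorem M_one : M 0 (1 : Equiv.Perm (List (Al k))) := by
  rw [← root_one]; exact M.base 1 (P k).one_mem

theorem M_mul_root {m : ℕ} {g : Equiv.Perm (List (Al k))} (h : M m g) {σ : Equiv.Perm (Al k)}
    (hσ : σ ∈ P k) : M m (g * root σ) := by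
  cases h with
  | base τ hτ => rw [← root_mul]; exact M.base _ ((P k).mul_mem hτ hσ)
  | step m g τ τ' hg hτ hτ' =>
    rw [mul_assoc, ← root_mul]
    exact M.step m g τ _ hg hτ ((P k).mul_mem hτ' hσ)

theorem M_mul_dir {m : ℕ} {g : Equiv.Perm (List (Al k))} (h : M m g) {σ : Equiv.Perm (Al k)}
    (hσ : σ ∈ P k) : M (m+1) (g * dir σ) := by
  have := M.step m g σ 1 h hσ (P k).one_mem
  rwa [root_one, mul_one] at this

theorem M_succ {m : ℕ} {g : Equiv.Perm (List (Al k))} (h : M m g) : M (m+1) g := by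
  have := M_mul_dir h (P k).one_mem
  rwa [dir_one, mul_one] at this

theorem M_le {m n : ℕ} (hmn : m ≤ n) {g : Equiv.Perm (List (Al k))} (h : M m g) : M n g := by
  induction hmn with
  | refl => exact h
  | step _ ih => exact M_succ ih

theorem M_mul {m n : ℕ} {g g' : Equiv.Perm (List (Al k))} (h : M m g) (h' : M n g') :
    M (m+n) (g * g') := by
  induction h' with
  | base σ hσ => exact M_mul_root h hσ
  | step n g' σ τ hg' hσ hτ ih =>
    rw [← mul_assoc, ← mul_assoc]
    exact M.step _ _ σ τ ih hσ hτ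

theorem M_of_S {s : Equiv.Perm (List (Al k))} (hs : s ∈ S k) : M 1 s := by
  obtain ⟨σ, hσ, h | h⟩ := hs
  · rw [h]; exact M_succ (M.base σ hσ)
  · rw [h]
    have := M_mul_dir M_one hσ
    rwa [one_mul] at this

theorem M_inv {m : ℕ} {g : Equiv.Perm (List (Al k))} (h : M m g) : M m g⁻¹ := by
  induction h with
  | base σ hσ => rw [root_inv]; exact M.base _ ((P k).inv_mem hσ)
  | step m g σ τ hg hσ hτ ih =>
    have e : (g * dir σ * root τ)⁻¹ = (root τ⁻¹ * dir σ⁻¹) * g⁻¹ := by
      rw [mul_inv_rev, mul_inv_rev, root_inv, dir_inv, mul_assoc]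
    rw [e]
    have h1 : M 1 (root τ⁻¹ * dir σ⁻¹) :=
      M_mul_dir (M.base _ ((P k).inv_mem hτ)) ((P k).inv_mem hσ)
    have := M_mul h1 ih
    rwa [add_comm] at this

/-- The group. -/
def G (k : ℕ) : Subgroup (Equiv.Perm (List (Al k))) := Subgroup.closure (S k)

theorem mem_G_of_M {m : ℕ} {g : Equiv.Perm (List (Al k))} (h : M m g) : g ∈ G k := by
  induction h with
  | base σ hσ => exact Subgroup.subset_closure ⟨σ, hσ, Or.inl rfl⟩
  | step m g σ τ hg hσ hτ ih =>
    exact (G k).mul_mem ((G k).mul_mem ih (Subgroup.subset_closure ⟨σ, hσ, Or.inr rfl⟩))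
      (Subgroup.subset_closure ⟨τ, hτ, Or.inl rfl⟩)

theorem exists_M {g : Equiv.Perm (List (Al k))} (h : g ∈ G k) : ∃ m, M m g := by
  induction h using Subgroup.closure_induction with
  | mem s hs => exact ⟨1, M_of_S hs⟩
  | one => exact ⟨0, M_one⟩
  | mul a b _ _ iha ihb =>
    obtain ⟨m, hm⟩ := iha
    obtain ⟨n, hn⟩ := ihb
    exact ⟨m + n, M_mul hm hn⟩
  | inv a _ iha =>
    obtain ⟨m, hm⟩ := iha
    exact ⟨m, M_inv hm⟩

/-- sections of a directed automorphism -/
theorem dir_section {σ : Equiv.Perm (Al k)} (hσ : σ ∈ P k) (x : Al k) :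
    ∃ h : Equiv.Perm (List (Al k)), (h = dir σ ∨ ∃ τ ∈ P k, h = root τ) ∧
      ∀ w, dir σ (x :: w) = x :: h w := by
  by_cases h1 : isTop x
  · refine ⟨dir σ, Or.inl rfl, fun w => ?_⟩
    change dirF σ (x :: w) = x :: dirF σ w
    simp [dirF, h1]
  · by_cases h2 : isBot x
    · refine ⟨root σ, Or.inr ⟨σ, hσ, rfl⟩, fun w => ?_⟩
      change dirF σ (x :: w) = x :: rootF σ w
      simp [dirF, h1, h2]
    · refine ⟨1, Or.inr ⟨1, (P k).one_mem, root_one.symm⟩, fun w => ?_⟩
      change dirF σ (x :: w) = x :: w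
      simp [dirF, h1, h2]

/-- contraction of sections -/
theorem M_section (m : ℕ) : ∀ {g : Equiv.Perm (List (Al k))}, M (2*m) g → ∀ x : Al k,
    ∃ y h, cl y = cl x ∧ M m h ∧ ∀ w, g (x :: w) = y :: h w := by
  induction m with
  | zero =>
    intro g hg x
    cases hg with
    | base σ hσ =>
      exact ⟨σ x, 1, hσ x, M_one, fun w => rfl⟩
  | succ m ih =>
    intro g hg x
    have e : 2 * (m+1) = (2*m + 1) + 1 := by ring
    rw [e] at hg
    cases hg with
    | step _ g2 σ2 τ2 hg2 hσ2 hτ2 =>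
    cases hg2 with
    | step _ g1 σ1 τ1 hg1 hσ1 hτ1 =>
      obtain ⟨s2, hs2, e2⟩ := dir_section hσ2 (τ2 x)
      obtain ⟨s1, hs1, e1⟩ := dir_section hσ1 (τ1 (τ2 x))
      obtain ⟨y, h, hy, hh, eh⟩ := ih hg1 (τ1 (τ2 x))
      refine ⟨y, h * s1 * s2, ?_, ?_, ?_⟩
      · rw [hy, hτ1, hτ2]
      · rcases hs1 with rfl | ⟨a, ha, rfl⟩
        · rcases hs2 with rfl | ⟨b, hb, rfl⟩
          · rw [mul_assoc, ← dir_mul]
            exact M_mul_dir hh ((P k).mul_mem hσ1 hσ2)
          · exact M.step _ _ _ _ hh hσ1 hb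
        · rcases hs2 with rfl | ⟨b, hb, rfl⟩
          · exact M_mul_dir (M_mul_root hh ha) hσ2
          · exact M_succ (M_mul_root (M_mul_root hh ha) hb)
      · intro w
        simp only [Equiv.Perm.mul_apply]
        rw [root_apply_cons, e2, root_apply_cons, e1, eh]

theorem M_section_level (n : ℕ) : ∀ {g : Equiv.Perm (List (Al k))}, M (2^n) g →
    ∀ v : List (Al k), v.length = n →
    ∃ u h, u.map cl = v.map cl ∧ M 1 h ∧ ∀ w, g (v ++ w) = u ++ h w := by
  induction n with
  | zero =>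
    intro g hg v hv
    rw [List.length_eq_zero_iff] at hv
    subst hv
    exact ⟨[], g, rfl, by simpa using hg, fun w => rfl⟩
  | succ n ih =>
    intro g hg v hv
    cases v with
    | nil => simp at hv
    | cons x v =>
      rw [pow_succ'] at hg
      obtain ⟨y, h, hy, hh, e⟩ := M_section _ hg x
      obtain ⟨u, h', hu, hh', e'⟩ := ih hh v (by simpa using hv)
      refine ⟨y :: u, h', ?_, hh', fun w => ?_⟩
      · simp [hy, hu]
      · rw [List.cons_append, e, e']; rfl

theorem M_half {m : ℕ} {g : Equiv.Perm (List (Al k))} (h : M m g) : M (2*m) g :=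
  M_le (by omega) h

theorem selfSimilar_G : SelfSimilar (G k) := by
  intro g hg x
  obtain ⟨m, hm⟩ := exists_M hg
  obtain ⟨y, h, -, hh, e⟩ := M_section m (M_half hm) x
  exact ⟨y, h, mem_G_of_M hh, e⟩

theorem M1_finite : {g : Equiv.Perm (List (Al k)) | M 1 g}.Finite := by
  have : {g : Equiv.Perm (List (Al k)) | M 1 g} ⊆
      Set.range (fun q : Equiv.Perm (Al k) × Equiv.Perm (Al k) × Equiv.Perm (Al k) =>
        root q.1 * dir q.2.1 * root q.2.2) := by
    intro g hg
    cases hg with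
    | step _ g1 σ τ hg1 hσ hτ =>
    cases hg1 with
    | base ρ hρ => exact ⟨(ρ, σ, τ), rfl⟩
  exact (Set.finite_range _).subset this

theorem nil_of_M {m : ℕ} {g : Equiv.Perm (List (Al k))} (h : M m g) : g [] = [] :=
  apply_nil selfSimilar_G (mem_G_of_M h)

theorem contracting_G : Contracting (G k) := by
  refine ⟨{g | M 1 g}, M1_finite, fun g hg => mem_G_of_M hg, fun g hg => ?_⟩
  obtain ⟨m, hm⟩ := exists_M hg
  refine ⟨m, fun v hv => ?_⟩
  have h1 : m ≤ 2 ^ v.length := (hv.le).trans (Nat.lt_two_pow_self).le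
  obtain ⟨u, h, -, hh, e⟩ := M_section_level v.length (M_le h1 hm) v rfl
  refine ⟨h, hh, fun w => ?_⟩
  have e0 := e []
  rw [nil_of_M hh, List.append_nil, List.append_nil] at e0
  rw [e w, e0]

end Pool.Agent.Helper940.MixedTree
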