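import Mathlib
import Pool.Agent.Helper940.SelfSim
import Pool.Agent.Helper940.SelfSimBasic
import Pool.Agent.Helper940.MixedTree

set_option autoImplicit false

namespace Pool.Agent.Helper940.MixedTree

open Filter Topology Pool.Agent.Helper940.SelfSim

variable {k : ℕ}

/-- products of `m` generators -/
inductive Wd : ℕ → Equiv.Perm (List (Al k)) → Prop
  | one : Wd 0 1
  | mul (m : ℕ) (s g : Equiv.Perm (List (Al k))) : s ∈ S k → Wd m g → Wd (m+1) (s * g)

theorem Wd_mul {m n : ℕ} {g h : Equiv.Perm (List (Al k))} (hg : Wd m g) (hh : Wd n h) :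
    Wd (m + n) (g * h) := by
  induction hg with
  | one => simpa using hh
  | mul m s g hs _ ih =>
    rw [mul_assoc, add_right_comm]
    exact Wd.mul _ _ _ hs ih

theorem Wd_of_S {s : Equiv.Perm (List (Al k))} (hs : s ∈ S k) : Wd 1 s := by
  have := Wd.mul 0 s 1 hs Wd.one
  rwa [mul_one] at this

theorem Wd_mem {m : ℕ} {g : Equiv.Perm (List (Al k))} (h : Wd m g) : g ∈ G k := by
  induction h with
  | one => exact (G k).one_mem
  | mul m s g hs _ ih => exact (G k).mul_mem (Subgroup.subset_closure hs) ih

/-- the word of a given kind consisting of top letters followed by one bottom letter -/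
def port (k : ℕ) : List Bool → List (Al k)
  | [] => []
  | [b] => [bt k b]
  | b :: c :: τ => tp k b :: port k (c :: τ)

theorem port_cl : ∀ τ : List Bool, (port k τ).map cl = τ
  | [] => rfl
  | [b] => by simp [port, cl_bt]
  | b :: c :: τ => by simp [port, cl_tp, port_cl (c :: τ)]

theorem dir_port (σ : Equiv.Perm (Al k)) (x : Al k) (w : List (Al k)) :
    ∀ τ : List Bool, τ ≠ [] → dir σ (port k τ ++ x :: w) = port k τ ++ σ x :: w
  | [], h => absurd rfl h
  | [b], _ => by
    change dirF σ (bt k b :: x :: w) = bt k b :: σ x :: w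
    simp [dirF, not_isTop_bt, isBot_bt, rootF]
  | b :: c :: τ, _ => by
    have ih := dir_port σ x w (c :: τ) (by simp)
    change dirF σ (tp k b :: (port k (c :: τ) ++ x :: w)) = tp k b :: (port k (c :: τ) ++ σ x :: w)
    rw [dirF]
    simp only [isTop_tp, if_true]
    congr 1

theorem path (n : ℕ) : ∀ u v : List (Al k), u.length = n → u.map cl = v.map cl →
    ∃ g, Wd (2^n - 1) g ∧ ∀ w, g (u ++ w) = v ++ w := by
  induction n with
  | zero =>
    intro u v hu huv
    rw [List.length_eq_zero_iff] at hu
    subst hu
    have : v = [] := by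
      simpa using huv.symm
    subst this
    exact ⟨1, Wd.one, fun w => rfl⟩
  | succ n ih =>
    intro u v hu huv
    rcases List.eq_nil_or_concat u with rfl | ⟨u', x, rfl⟩
    · simp at hu
    rcases List.eq_nil_or_concat v with rfl | ⟨v', y, rfl⟩
    · simp at huv
    rw [List.concat_eq_append, List.concat_eq_append, List.map_append, List.map_append] at huv
    have huv' := List.append_inj' huv (by simp)
    have hxy : cl x = cl y := by simpa using huv'.2
    have hu'v' := huv'.1
    have hu' : u'.length = n := by simpa using hu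
    obtain ⟨σ, hσ, hσx⟩ := exists_P x y hxy
    rw [List.concat_eq_append, List.concat_eq_append]
    by_cases hn : n = 0
    · subst hn
      rw [List.length_eq_zero_iff] at hu'
      subst hu'
      have hv' : v' = [] := by simpa using hu'v'.symm
      subst hv'
      refine ⟨root σ, Wd_of_S ⟨σ, hσ, Or.inl rfl⟩, fun w => ?_⟩
      change rootF σ (x :: w) = y :: w
      rw [rootF, hσx]
    · obtain ⟨g1, hg1, e1⟩ := ih u' (port k (u'.map cl)) hu' (port_cl _).symm
      obtain ⟨g2, hg2, e2⟩ := ih (port k (u'.map cl)) v'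
        (by have := congrArg List.length (port_cl (k := k) (u'.map cl)); simpa [hu'] using this)
        ((port_cl _).trans hu'v')
      have hne : u'.map cl ≠ [] := by
        intro h
        have := congrArg List.length h
        simp [hu'] at this
        exact hn this
      have h2n : 1 ≤ 2^n := Nat.one_le_two_pow
      have ecount : (2^(n+1) - 1) = (2^n - 1) + (1 + (2^n - 1)) := by
        rw [pow_succ]; omega
      rw [ecount]
      refine ⟨g2 * (dir σ * g1), Wd_mul hg2 (Wd_mul (Wd_of_S ⟨σ, hσ, Or.inr rfl⟩) hg1),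
        fun w => ?_⟩
      simp only [Equiv.Perm.mul_apply, List.append_assoc, List.cons_append, List.nil_append]
      rw [e1, dir_port σ x w _ hne, e2, hσx]

theorem mem_ball_of_Wd {m : ℕ} {g : Equiv.Perm (List (Al k))} (h : Wd m g) {ξ : ℕ → Al k} :
    ∀ η, Maps g ξ η → η ∈ ball (S k) ξ m := by
  induction h with
  | one =>
    intro η h
    have : ξ = η := maps_unique (maps_one ξ) h
    subst this
    exact self_mem_ball _ _ _
  | mul m s g hs hg ih =>
    intro η h
    obtain ⟨ζ, hζ⟩ := exists_maps selfSimilar_G (Wd_mem hg) ξ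
    obtain ⟨θ, hθ⟩ := exists_maps selfSimilar_G (Subgroup.subset_closure hs : s ∈ G k) ζ
    have : η = θ := maps_unique h (maps_mul hζ hθ)
    subst this
    by_cases hne : ζ = η
    · subst hne
      exact ball_mono _ _ (Nat.le_succ m) (ih ζ hζ)
    · exact ball_adj _ _ _ (ih ζ hζ) (schreier_adj_of_maps hs hθ hne)

theorem eq_of_pre_ge {ζ η : ℕ → Al k} (n : ℕ) (h : ∀ m, n ≤ m → pre ζ m = pre η m) : ζ = η := by
  funext i
  have h0 := h (n + i + 1) (by omega)
  have h1 : i < (pre ζ (n+i+1)).length := by rw [pre_length]; omega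
  have h2 : i < (pre η (n+i+1)).length := by rw [pre_length]; omega
  rw [← pre_getElem ζ _ i h1, ← pre_getElem η _ i h2]
  simp only [h0]

theorem mem_ball_of_agree (ξ η : ℕ → Al k) (n : ℕ) (h1 : ∀ i, i < n → cl (η i) = cl (ξ i))
    (h2 : ∀ i, n ≤ i → η i = ξ i) : η ∈ ball (S k) ξ (2^n - 1) := by
  have hcl : (pre ξ n).map cl = (pre η n).map cl := by
    apply List.ext_getElem
    · simp [pre]
    · intro i hi hi'
      simp only [List.getElem_map, pre_getElem]
      rw [List.length_map, pre_length] at hi
      exact (h1 i hi).symm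
  obtain ⟨g, hg, e⟩ := path n (pre ξ n) (pre η n) (pre_length _ _) hcl
  obtain ⟨ζ, hζ⟩ := exists_maps selfSimilar_G (Wd_mem hg) ξ
  have : ζ = η := by
    apply eq_of_pre_ge n
    intro m hm
    obtain ⟨j, rfl⟩ : ∃ j, m = n + j := ⟨m - n, by omega⟩
    rw [← hζ (n+j), pre_add ξ, pre_add η, e]
    congr 2
    funext i
    exact (h2 (n+i) (by omega)).symm
  subst this
  exact mem_ball_of_Wd hg _ hζ

/-- number of letters of a given kind -/
def sz (k : ℕ) (b : Bool) : ℕ := if b then k + 2 else 2

theorem card_kind (b : Bool) : (Finset.univ.filter (fun x : Al k => cl x = b)).card = sz k b := by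
  cases b
  · have : (Finset.univ.filter (fun x : Al k => cl x = false)) =
        (Finset.univ : Finset (Fin 2)).map ⟨Sum.inl, Sum.inl_injective⟩ := by
      ext x
      rcases x with x | x <;> simp [cl]
    rw [this, Finset.card_map]
    simp [sz]
  · have : (Finset.univ.filter (fun x : Al k => cl x = true)) =
        (Finset.univ : Finset (Fin (k+2))).map ⟨Sum.inr, Sum.inr_injective⟩ := by
      ext x
      constructor
      · intro h
        have h' := (Finset.mem_filter.1 h).2
        rcases x with x | x
        · simp [cl] at h'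
        · simp
      · intro h
        refine Finset.mem_filter.2 ⟨Finset.mem_univ _, ?_⟩
        rcases x with x | x
        · simp at h
        · rfl
    rw [this, Finset.card_map]
    simp [sz]

/-- the number of words with the same kinds as the beginning of `ξ` -/
def NN (ξ : ℕ → Al k) (n : ℕ) : ℕ := ∏ i : Fin n, sz k (cl (ξ i))

/-- words of length `n` with the same kinds as the beginning of `ξ` -/
def box (ξ : ℕ → Al k) (n : ℕ) : Finset (Fin n → Al k) :=
  Fintype.piFinset (fun i : Fin n => Finset.univ.filter (fun x : Al k => cl x = cl (ξ i)))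

theorem card_box (ξ : ℕ → Al k) (n : ℕ) : (box ξ n).card = NN ξ n := by
  unfold box NN
  rw [Fintype.card_piFinset]
  exact Finset.prod_congr rfl (fun i _ => card_kind _)

theorem lower (ξ : ℕ → Al k) (n : ℕ) : NN ξ n ≤ growth (S k) ξ (2^n) := by
  classical
  rw [← card_box]
  let F : (Fin n → Al k) → (ℕ → Al k) := fun f i => if h : i < n then f ⟨i, h⟩ else ξ i
  have hinj : Function.Injective F := by
    intro f g hfg
    funext i
    have := congrFun hfg i.1
    simpa [F, i.2] using this
  have hsub : F '' (box ξ n : Set (Fin n → Al k)) ⊆ ball (S k) ξ (2^n) := by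
    rintro η ⟨f, hf, rfl⟩
    refine ball_mono _ _ (Nat.sub_le _ 1) (mem_ball_of_agree ξ (F f) n ?_ ?_)
    · intro i hi
      have hf' : ∀ j : Fin n, cl (f j) = cl (ξ j) := by
        simpa [box, Fintype.mem_piFinset] using hf
      simp only [F, hi, dif_pos]
      exact hf' ⟨i, hi⟩
    · intro i hi
      simp only [F, not_lt.2 hi]
      simp
  have := Set.ncard_le_ncard hsub (ball_finite S_finite ξ (2^n))
  rw [Set.ncard_image_of_injective _ hinj, Set.ncard_coe_finset] at this
  exact this

/-- the constant in the upper bound -/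
noncomputable def CC (k : ℕ) : ℕ := ({g : Equiv.Perm (List (Al k)) | M 1 g}).ncard

theorem upper (ξ : ℕ → Al k) (n : ℕ) : growth (S k) ξ (2^n) ≤ CC k * NN ξ n := by
  classical
  let sh : ℕ → Al k := fun i => ξ (n + i)
  have himg : ∀ h : Equiv.Perm (List (Al k)), ∃ ζ : ℕ → Al k,
      ∀ η, Maps h sh η → η = ζ := by
    intro h
    by_cases hex : ∃ η, Maps h sh η
    · obtain ⟨η, hη⟩ := hex
      exact ⟨η, fun η' hη' => maps_unique hη' hη⟩
    · exact ⟨sh, fun η' hη' => absurd ⟨η', hη'⟩ hex⟩
  choose img himg using himg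
  let F : Equiv.Perm (List (Al k)) × (Fin n → Al k) → (ℕ → Al k) :=
    fun q i => if h : i < n then q.2 ⟨i, h⟩ else img q.1 (i - n)
  have hsub : ball (S k) ξ (2^n) ⊆
      F '' ({g : Equiv.Perm (List (Al k)) | M 1 g} ×ˢ (box ξ n : Set (Fin n → Al k))) := by
    intro η hη
    obtain ⟨g, hg, hm⟩ := ball_subset_pow one_mem_S inv_mem_S ξ (2^n) (fun m g => M m g) M_one
      (fun m g s hg hs => by
        have := M_mul (M_of_S hs) hg
        rwa [add_comm] at this) η hη
    obtain ⟨u, h, hu, hh, e⟩ := M_section_level n hg (pre ξ n) (pre_length _ _)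
    have hlen : u.length = n := by
      have := congrArg List.length hu
      simpa [pre_length] using this
    have hpre : u = pre η n := by
      have e0 := e []
      rw [nil_of_M hh, List.append_nil, List.append_nil] at e0
      rw [← e0, hm n]
    have hmaps : Maps h sh (fun i => η (n + i)) := by
      intro m
      have e1 := e (pre sh m)
      rw [← pre_add, hm (n+m), pre_add, hpre] at e1
      exact (List.append_cancel_left e1).symm
    refine ⟨(h, fun i => η i), ⟨hh, ?_⟩, ?_⟩
    · simp only [box, Finset.mem_coe, Fintype.mem_piFinset, Finset.mem_filter, Finset.mem_univ,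
        true_and]
      intro i
      have h1 : (u.map cl)[i.1]? = ((pre ξ n).map cl)[i.1]? := by rw [hu]
      rw [hpre] at h1
      have hi1 : i.1 < ((pre η n).map cl).length := by simp [pre_length]
      have hi2 : i.1 < ((pre ξ n).map cl).length := by simp [pre_length]
      rw [List.getElem?_eq_getElem hi1, List.getElem?_eq_getElem hi2] at h1
      simpa [pre_getElem] using h1
    · funext i
      by_cases hi : i < n
      · simp [F, hi]
      · simp only [F, hi]
        have := himg h _ hmaps
        simp only [dite_false]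
        rw [← this]
        change η (n + (i - n)) = η i
        rw [Nat.add_sub_cancel' (not_lt.1 hi)]
  have hfin : ({g : Equiv.Perm (List (Al k)) | M 1 g} ×ˢ
      (box ξ n : Set (Fin n → Al k))).Finite :=
    M1_finite.prod (Finset.finite_toSet _)
  calc growth (S k) ξ (2^n) ≤ (F '' ({g : Equiv.Perm (List (Al k)) | M 1 g} ×ˢ
        (box ξ n : Set (Fin n → Al k)))).ncard :=
        Set.ncard_le_ncard hsub (hfin.image F)
    _ ≤ ({g : Equiv.Perm (List (Al k)) | M 1 g} ×ˢ (box ξ n : Set (Fin n → Al k))).ncard :=
        Set.ncard_image_le hfin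
    _ = CC k * NN ξ n := by
        rw [Set.ncard_prod, Set.ncard_coe_finset, card_box]
        rfl

theorem CC_pos : 1 ≤ CC k := by
  have : 0 < CC k := (Set.ncard_pos M1_finite).2 ⟨1, M_succ M_one⟩
  exact this

theorem NN_pos (ξ : ℕ → Al k) (n : ℕ) : 0 < NN ξ n := by
  unfold NN
  apply Finset.prod_pos
  intro i _
  unfold sz
  split_ifs <;> omega

end Pool.Agent.Helper940.MixedTree
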