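import Mathlib
import Pool.Agent.Helper940.SelfSim
import Pool.Agent.Helper940.SelfSimBasic
import Pool.Agent.Helper940.MixedTree
import Pool.Agent.Helper940.MixedTree2
import Pool.Agent.Helper940.GrowthLimit

set_option autoImplicit false

namespace Pool.Agent.Helper940.MixedTree

open Filter Topology Pool.Agent.Helper940.SelfSim Pool.Agent.Helper940.GrowthLimit

theorem orbit_infinite {k : ℕ} (ξ : ℕ → Al k) :
    {η | ∃ g ∈ G k, Maps g ξ η}.Infinite := by
  intro hfin
  have hsub : ∀ n, ball (S k) ξ n ⊆ {η | ∃ g ∈ G k, Maps g ξ η} := by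
    intro n η hη
    obtain ⟨g, hg, hm⟩ := ball_subset_pow one_mem_S inv_mem_S ξ n (fun _ g => g ∈ G k)
      (G k).one_mem (fun _ g s hg hs => (G k).mul_mem (Subgroup.subset_closure hs) hg) η hη
    exact ⟨g, hg, hm⟩
  have hb : ∀ n, growth (S k) ξ n ≤ ({η | ∃ g ∈ G k, Maps g ξ η}).ncard :=
    fun n => Set.ncard_le_ncard (hsub n) hfin
  have h2 : ∀ n, 2 ^ n ≤ NN ξ n := by
    intro n
    unfold NN
    calc 2 ^ n = ∏ _i : Fin n, 2 := by simp
      _ ≤ ∏ i : Fin n, sz k (cl (ξ i)) := by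
        apply Finset.prod_le_prod
        · intro i _; norm_num
        · intro i _; unfold sz; split_ifs <;> omega
  have := ((h2 _).trans (lower ξ _)).trans
    (hb (2 ^ ({η | ∃ g ∈ G k, Maps g ξ η}).ncard))
  have h3 := Nat.lt_two_pow_self (n := ({η | ∃ g ∈ G k, Maps g ξ η}).ncard)
  omega

theorem core (α : ℝ) (hα : 1 ≤ α) : ∃ (k : ℕ) (ξ : ℕ → Al k),
    Tendsto (fun m : ℕ => Real.log (growth (S k) ξ m) / Real.log m) atTop (𝓝 α) := by
  obtain ⟨k0, hk0⟩ := exists_nat_ge ((2 : ℝ) ^ α)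
  set k := k0 + 1 with hk
  have hl2 : 0 < Real.log 2 := Real.log_pos (by norm_num)
  have hD : (2 : ℝ) ^ α ≤ ((k + 2 : ℕ) : ℝ) := by
    refine hk0.trans ?_
    rw [hk]; push_cast; linarith
  have hD2 : (2 : ℝ) < ((k + 2 : ℕ) : ℝ) := by
    rw [hk]; push_cast
    have : (0 : ℝ) ≤ k0 := Nat.cast_nonneg k0
    linarith
  have hlogD : α * Real.log 2 ≤ Real.log ((k + 2 : ℕ) : ℝ) := by
    have := Real.log_le_log (by positivity) hD
    rwa [Real.log_rpow (by norm_num)] at this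
  have hpos : 0 < Real.log ((k + 2 : ℕ) : ℝ) - Real.log 2 := by
    have := Real.log_lt_log (by norm_num) hD2
    linarith
  set θ : ℝ := (α - 1) * Real.log 2 / (Real.log ((k + 2 : ℕ) : ℝ) - Real.log 2) with hθ
  have h0 : 0 ≤ θ := by
    apply div_nonneg _ hpos.le
    apply mul_nonneg (by linarith) hl2.le
  have h1 : θ ≤ 1 := by
    rw [hθ, div_le_one hpos]
    nlinarith
  refine ⟨k, fun i => bt k (seq θ i), ?_⟩
  set ξ : ℕ → Al k := fun i => bt k (seq θ i) with hξ
  have hNN : ∀ n, NN ξ n = ∏ i : Fin n, (if seq θ i then k + 2 else 2) := by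
    intro n
    unfold NN
    refine Finset.prod_congr rfl (fun i _ => ?_)
    rw [hξ, cl_bt]
    rfl
  refine tendsto_log_ratio (growth (S k) ξ) (NN ξ) (CC k) CC_pos
    (fun m n h => growth_mono S_finite ξ h) (NN_pos ξ) (lower ξ) (upper ξ) α ?_
  have := tendsto_log_prod (k+2) (by omega) θ h0 h1
  have e : Real.log 2 + θ * (Real.log ((k + 2 : ℕ) : ℝ) - Real.log 2) = α * Real.log 2 := by
    rw [hθ, div_mul_cancel₀ _ hpos.ne']
    ring
  rw [e] at this
  refine this.congr (fun n => ?_)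
  rw [hNN]

end Pool.Agent.Helper940.MixedTree
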