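import Pool.Agent.Helper940.GrigIrr

set_option autoImplicit false

namespace Pool.Agent.Helper940.NMax

open MonoidAlgebra

section general

variable (k : Type) [Field k] (Q : Type) [Group Q]

theorem one_left (g : Q) (x : MonoidAlgebra k Q) :
    single g⁻¹ (1 : k) * (single g 1 * x) = x := by
  rw [← mul_assoc, single_mul_single, inv_mul_cancel, one_mul, ← one_def, one_mul]

theorem one_right (g : Q) (x : MonoidAlgebra k Q) :
    single g (1 : k) * (single g⁻¹ 1 * x) = x := by
  rw [← mul_assoc, single_mul_single, mul_inv_cancel, one_mul, ← one_def, one_mul]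

/-- Left multiplication by a group element as an additive automorphism of the group algebra. -/
noncomputable def actA (g : Q) : MonoidAlgebra k Q ≃+ MonoidAlgebra k Q where
  toFun x := single g 1 * x
  invFun x := single g⁻¹ 1 * x
  left_inv := one_left k Q g
  right_inv := one_right k Q g
  map_add' := mul_add _

/-- The action of `Q` on the (multiplicative copy of the) additive group of `k[Q]`. -/
noncomputable def phi : Q →* MulAut (Multiplicative (MonoidAlgebra k Q)) where
  toFun g := AddEquiv.toMultiplicative (actA k Q g)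
  map_one' := by
    refine MulEquiv.ext fun x => ?_
    show Multiplicative.ofAdd (single (1 : Q) (1 : k) * x.toAdd) = x
    rw [← one_def, one_mul]
    rfl
  map_mul' g h := by
    refine MulEquiv.ext fun x => ?_
    show Multiplicative.ofAdd (single (g * h) (1 : k) * x.toAdd) =
      Multiplicative.ofAdd (single g (1 : k) * (single h (1 : k) * x.toAdd))
    rw [← mul_assoc, single_mul_single, one_mul]

theorem phi_apply (g : Q) (x : Multiplicative (MonoidAlgebra k Q)) :
    phi k Q g x = Multiplicative.ofAdd (single g (1 : k) * x.toAdd) := rfl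

/-- The wreath product of the additive group of `k` with `Q`. -/
abbrev W := Multiplicative (MonoidAlgebra k Q) ⋊[phi k Q] Q

instance finW [Finite k] [Finite Q] : Finite (W k Q) := by
  have : Module.Finite k (MonoidAlgebra k Q) := inferInstance
  have h1 : Finite (MonoidAlgebra k Q) := Module.finite_of_finite k
  have h2 : Finite (Multiplicative (MonoidAlgebra k Q)) := h1
  exact Finite.of_equiv _ (SemidirectProduct.equivProd (φ := phi k Q)).symm

/-- The copy of `k[Q]` in the wreath product. -/
noncomputable def il (x : MonoidAlgebra k Q) : W k Q :=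
  SemidirectProduct.inl (Multiplicative.ofAdd x)

/-- The copy of `Q` in the wreath product. -/
noncomputable def ir (g : Q) : W k Q := SemidirectProduct.inr g

theorem il_add (x y : MonoidAlgebra k Q) : il k Q (x + y) = il k Q x * il k Q y := by
  unfold il
  rw [ofAdd_add, map_mul]

theorem il_zero : il k Q 0 = 1 := by
  unfold il
  rw [ofAdd_zero, map_one]

theorem il_neg (x : MonoidAlgebra k Q) : il k Q (-x) = (il k Q x)⁻¹ := by
  unfold il
  rw [ofAdd_neg, map_inv]

theorem ir_mul (g h : Q) : ir k Q (g * h) = ir k Q g * ir k Q h := map_mul _ _ _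

theorem ir_inv (g : Q) : ir k Q (g⁻¹) = (ir k Q g)⁻¹ := map_inv _ _

theorem conj_il (g : Q) (x : MonoidAlgebra k Q) :
    ir k Q g * il k Q x * (ir k Q g)⁻¹ = il k Q (single g 1 * x) := by
  have h := SemidirectProduct.inl_aut (φ := phi k Q) g (Multiplicative.ofAdd x)
  rw [phi_apply] at h
  unfold ir il
  rw [← map_inv]
  exact h.symm

theorem decomp (w : W k Q) : w = il k Q w.left.toAdd * ir k Q w.right :=
  (SemidirectProduct.inl_left_mul_inr_right w).symm

end general

section map

variable (k : Type) [Field k] {Q Q' : Type} [Group Q] [Group Q']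

/-- Functoriality. -/
noncomputable def mapW (f : Q →* Q') : W k Q →* W k Q' :=
  SemidirectProduct.map
    (AddMonoidHom.toMultiplicative
      ((mapDomainRingHom k f : MonoidAlgebra k Q →+* MonoidAlgebra k Q') :
        MonoidAlgebra k Q →+ MonoidAlgebra k Q')) f (by
    intro g
    refine MonoidHom.ext fun x => ?_
    show Multiplicative.ofAdd (mapDomainRingHom k f (single g (1 : k) * Multiplicative.toAdd x)) =
      Multiplicative.ofAdd (single (f g) (1 : k) * mapDomainRingHom k f (Multiplicative.toAdd x))
    rw [map_mul]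
    congr 2
    simp [mapDomainRingHom])

theorem mapW_right (f : Q →* Q') (w : W k Q) : (mapW k f w).right = f w.right := rfl

theorem mapW_left (f : Q →* Q') (w : W k Q) :
    (mapW k f w).left.toAdd = mapDomainRingHom k f w.left.toAdd := rfl

end map


section fgp

variable (k : Type) [Field k] (Q : Type) [Group Q]

/-- The wreath product is finitely generated. -/
theorem fgW [Finite k] (hQ : Group.FG Q) : Group.FG (W k Q) := by
  obtain ⟨S, hS⟩ := hQ.out
  rw [Group.fg_iff]
  refine ⟨(Set.range fun c : k => il k Q (single 1 c)) ∪ ir k Q '' (S : Set Q), ?_,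
    (Set.finite_range _).union (S.finite_toSet.image _)⟩
  set C := Subgroup.closure ((Set.range fun c : k => il k Q (single 1 c)) ∪ ir k Q '' (S : Set Q))
    with hC
  have h1 : ∀ g : Q, ir k Q g ∈ C := by
    intro g
    have hg : g ∈ Subgroup.closure (S : Set Q) := by rw [hS]; trivial
    have h2 : ir k Q g ∈ (Subgroup.closure (S : Set Q)).map (SemidirectProduct.inr : Q →* W k Q) :=
      ⟨g, hg, rfl⟩
    rw [MonoidHom.map_closure] at h2
    exact Subgroup.closure_mono Set.subset_union_right h2
  have h2 : ∀ x : MonoidAlgebra k Q, il k Q x ∈ C := by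
    intro x
    induction x using MonoidAlgebra.induction_linear with
    | zero => rw [il_zero]; exact C.one_mem
    | add x y hx hy => rw [il_add]; exact C.mul_mem hx hy
    | single g c =>
      have : (single g c : MonoidAlgebra k Q) = single g 1 * single 1 c := by
        rw [single_mul_single, mul_one, one_mul]
      rw [this, ← conj_il]
      exact C.mul_mem (C.mul_mem (h1 g) (Subgroup.subset_closure (Or.inl ⟨c, rfl⟩)))
        (C.inv_mem (h1 g))
  rw [eq_top_iff]
  intro w _
  rw [decomp k Q w]
  exact C.mul_mem (h2 _) (h1 _)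

/-- The wreath product is a `p`-group. -/
theorem pW (p : ℕ) [CharP k p] (hQ : IsPGroup p Q) : IsPGroup p (W k Q) := by
  intro w
  obtain ⟨m, hm⟩ := hQ w.right
  refine ⟨m + 1, ?_⟩
  have h1 : (w ^ p ^ m).right = 1 := by
    have : (SemidirectProduct.rightHom (φ := phi k Q)) (w ^ p ^ m) = 1 := by
      rw [map_pow]
      exact hm
    exact this
  have h2 : w ^ p ^ m = il k Q (w ^ p ^ m).left.toAdd := by
    conv_lhs => rw [decomp k Q (w ^ p ^ m), h1]
    show _ * (SemidirectProduct.inr (1 : Q) : W k Q) = _
    rw [map_one, mul_one]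
  rw [pow_succ, pow_mul, h2]
  set x := (w ^ p ^ m).left.toAdd
  have h3 : ∀ n : ℕ, il k Q x ^ n = il k Q (n • x) := by
    intro n
    induction n with
    | zero => rw [pow_zero, zero_smul, il_zero]
    | succ n ih => rw [pow_succ, ih, succ_nsmul, il_add]
  rw [h3]
  have h4 : p • x = 0 := by
    rw [← Nat.cast_smul_eq_nsmul k, CharP.cast_eq_zero, zero_smul]
  rw [h4, il_zero]

/-- Avoiding finitely many nontrivial elements by a normal subgroup of finite index. -/
theorem avoid (hRF : ∀ g : Q, g ≠ 1 → ∃ N : Subgroup Q, N.Normal ∧ N.index ≠ 0 ∧ g ∉ N)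
    (s : Finset Q) (hs : (1 : Q) ∉ s) :
    ∃ N : Subgroup Q, N.Normal ∧ N.index ≠ 0 ∧ ∀ g ∈ s, g ∉ N := by
  classical
  induction s using Finset.induction_on with
  | empty => exact ⟨⊤, inferInstance, by simp, by simp⟩
  | insert a s ha ih =>
    obtain ⟨N, h1, h2, h3⟩ := ih (fun h => hs (Finset.mem_insert_of_mem h))
    obtain ⟨M, h4, h5, h6⟩ := hRF a (by
      rintro rfl
      exact hs (Finset.mem_insert_self _ _))
    refine ⟨N ⊓ M, Subgroup.normal_inf_normal N M, Subgroup.index_inf_ne_zero h2 h5, ?_⟩
    intro g hg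
    rcases Finset.mem_insert.1 hg with rfl | hg
    · exact fun h => h6 h.2
    · exact fun h => h3 g hg h.1

/-- The wreath product is residually finite. -/
theorem rfW [Finite k]
    (hRF : ∀ g : Q, g ≠ 1 → ∃ N : Subgroup Q, N.Normal ∧ N.index ≠ 0 ∧ g ∉ N) :
    ∀ w : W k Q, w ≠ 1 → ∃ N : Subgroup (W k Q), N.Normal ∧ N.index ≠ 0 ∧ w ∉ N := by
  classical
  intro w hw
  have key : ∀ N : Subgroup Q, ∀ _ : N.Normal, N.index ≠ 0 → mapW k (QuotientGroup.mk' N) w ≠ 1 →
      ∃ N : Subgroup (W k Q), N.Normal ∧ N.index ≠ 0 ∧ w ∉ N := by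
    intro N hN hi hne
    have hfi : N.FiniteIndex := ⟨hi⟩
    have hfin : Finite (Q ⧸ N) := inferInstance
    refine ⟨(mapW k (QuotientGroup.mk' N)).ker, inferInstance, ?_, hne⟩
    have : Finite (W k (Q ⧸ N)) := inferInstance
    have h2 : Finite (mapW k (QuotientGroup.mk' N)).range := inferInstance
    rw [Subgroup.index_ker]
    exact Nat.card_pos.ne'
  by_cases hr : w.right = 1
  · have hl : w.left.toAdd ≠ 0 := by
      intro h
      apply hw
      rw [decomp k Q w, h, hr, il_zero, one_mul]
      exact map_one _
    set x := w.left.toAdd with hx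
    obtain ⟨g₀, hg₀⟩ : ∃ g, x.coeff g ≠ 0 := by
      by_contra hcon
      push Not at hcon
      apply hl
      ext g
      exact hcon g
    obtain ⟨N, hN, hi, hav⟩ := avoid Q hRF ((x.coeff.support.image fun g => g₀⁻¹ * g).erase 1)
      (Finset.notMem_erase _ _)
    apply key N hN hi
    intro h
    have h1 : mapDomainRingHom k (QuotientGroup.mk' N) x = 0 := by
      rw [hx, ← mapW_left, h]
      rfl
    have h2 : (mapDomain (QuotientGroup.mk' N) x : MonoidAlgebra k (Q ⧸ N)).coeff
        (QuotientGroup.mk' N g₀) = x.coeff g₀ := by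
      show Finsupp.mapDomain (QuotientGroup.mk' N) x.coeff (QuotientGroup.mk' N g₀) = x.coeff g₀
      rw [Finsupp.mapDomain, Finsupp.sum, Finsupp.finsetSum_apply]
      rw [Finset.sum_eq_single g₀]
      · simp
      · intro g hg hne
        rw [Finsupp.single_apply, if_neg]
        intro heq
        have h3 : g₀⁻¹ * g ∈ N := by
          rw [← QuotientGroup.eq]
          exact heq.symm
        exact hav (g₀⁻¹ * g) (by
          rw [Finset.mem_erase]
          refine ⟨?_, Finset.mem_image_of_mem _ hg⟩
          intro h4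
          apply hne
          rw [inv_mul_eq_one] at h4
          exact h4.symm) h3
      · intro h
        rw [Finsupp.notMem_support_iff.1 h]
        simp
    apply hg₀
    rw [← h2]
    have h3 : (mapDomain (QuotientGroup.mk' N) x : MonoidAlgebra k (Q ⧸ N)) = 0 := h1
    rw [h3]
    rfl
  · obtain ⟨N, hN, hi, hav⟩ := hRF w.right hr
    apply key N hN hi
    intro h
    apply hav
    have : (mapW k (QuotientGroup.mk' N) w).right = 1 := by rw [h]; rfl
    rw [mapW_right] at this
    exact (QuotientGroup.eq_one_iff _).1 this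

end fgp

/-- Every proper subgroup of a finitely generated group lies in a maximal one. -/
theorem exists_coatom {G : Type} [Group G] (hG : Group.FG G) (H : Subgroup G) (hH : H ≠ ⊤) :
    ∃ M : Subgroup G, IsCoatom M ∧ H ≤ M := by
  obtain ⟨S, hS⟩ := hG.out
  have hc : IsCompactElement (⊤ : Subgroup G) := by
    rw [CompleteLattice.isCompactElement_iff_le_of_directed_sSup_le]
    intro s hne hdir htop
    have h1 : ∀ x ∈ S, ∃ K ∈ s, x ∈ K := by
      intro x _
      exact (Subgroup.mem_sSup_of_directedOn hne hdir).1 (htop trivial)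
    have h2 : ∀ T : Finset G, T ⊆ S → ∃ K ∈ s, (T : Set G) ⊆ K := by
      classical
      intro T
      induction T using Finset.induction_on with
      | empty =>
        intro _
        obtain ⟨K, hK⟩ := hne
        exact ⟨K, hK, by simp⟩
      | insert a T _ ih =>
        intro hT
        obtain ⟨K, hK, hTK⟩ := ih (fun x hx => hT (Finset.mem_insert_of_mem hx))
        obtain ⟨L, hL, haL⟩ := h1 a (hT (Finset.mem_insert_self _ _))
        obtain ⟨M, hM, h3, h4⟩ := hdir K hK L hL
        refine ⟨M, hM, ?_⟩
        rw [Finset.coe_insert, Set.insert_subset_iff]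
        exact ⟨h4 haL, hTK.trans h3⟩
    obtain ⟨K, hK, hSK⟩ := h2 S (Finset.Subset.refl _)
    refine ⟨K, hK, ?_⟩
    rw [← hS]
    exact (Subgroup.closure_le K).2 hSK
  have := CompleteLattice.coatomic_of_top_compact hc
  rcases eq_top_or_exists_le_coatom H with h | h
  · exact absurd h hH
  · exact h

section maximal

variable (k : Type) [Field k] (Q : Type) [Group Q]

/-- A finitely generated wreath product has a maximal subgroup that is not normal, as soon as
some element of augmentation `1` of the group algebra has no left inverse. -/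
theorem exists_nonnormal (hfg : Group.FG (W k Q)) (t : MonoidAlgebra k Q)
    (ht : MonoidAlgebra.lift k k Q (1 : Q →* k) t = 1) (hinv : ∀ y, y * t ≠ 1) :
    ∃ M : Subgroup (W k Q), IsCoatom M ∧ ¬ M.Normal := by
  let I : Ideal (MonoidAlgebra k Q) := Ideal.span {t}
  let H₀ : Subgroup (W k Q) :=
    { carrier := {w | w.left.toAdd ∈ I}
      one_mem' := I.zero_mem
      mul_mem' := by
        intro v w hv hw
        show v.left.toAdd + single v.right (1 : k) * w.left.toAdd ∈ I
        exact I.add_mem hv (I.mul_mem_left _ hw)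
      inv_mem' := by
        intro v hv
        show single (v.right⁻¹) (1 : k) * (-v.left.toAdd) ∈ I
        exact I.mul_mem_left _ (I.neg_mem hv) }
  have hH₀ : ∀ w : W k Q, w ∈ H₀ ↔ w.left.toAdd ∈ I := fun w => Iff.rfl
  have hne : H₀ ≠ ⊤ := by
    intro h
    have h1 : il k Q 1 ∈ H₀ := by rw [h]; trivial
    have h2 : (1 : MonoidAlgebra k Q) ∈ I := h1
    obtain ⟨y, hy⟩ := Submodule.mem_span_singleton.1 h2
    exact hinv y hy
  obtain ⟨M, hM, hle⟩ := exists_coatom hfg H₀ hne
  refine ⟨M, hM, fun hN => hM.1 ?_⟩
  have hir : ∀ g : Q, ir k Q g ∈ M := by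
    intro g
    apply hle
    rw [hH₀]
    exact I.zero_mem
  have h1 : ∀ (g : Q) (y : MonoidAlgebra k Q), il k Q (single g 1 * y - y) ∈ M := by
    intro g y
    rw [sub_eq_add_neg, il_add, il_neg, ← conj_il]
    have : ir k Q g * il k Q y * (ir k Q g)⁻¹ * (il k Q y)⁻¹ =
      ir k Q g * (il k Q y * (ir k Q g)⁻¹ * (il k Q y)⁻¹) := by group
    rw [this]
    exact M.mul_mem (hir g) (hN.conj_mem _ (M.inv_mem (hir g)) _)
  set ε := MonoidAlgebra.lift k k Q (1 : Q →* k) with hε
  have h2 : ∀ x : MonoidAlgebra k Q, il k Q (x - single 1 (ε x)) ∈ M := by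
    intro x
    induction x using MonoidAlgebra.induction_linear with
    | zero =>
      have : (0 : MonoidAlgebra k Q) - single 1 (ε 0) = 0 := by rw [map_zero]; simp
      rw [this, il_zero]
      exact M.one_mem
    | add x y hx hy =>
      have : x + y - single 1 (ε (x + y)) = (x - single 1 (ε x)) + (y - single 1 (ε y)) := by
        rw [map_add, single_add]
        abel
      rw [this, il_add]
      exact M.mul_mem hx hy
    | single g c =>
      have : (single g c : MonoidAlgebra k Q) - single 1 (ε (single g c)) =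
          single g 1 * single 1 c - single 1 c := by
        rw [hε, MonoidAlgebra.lift_single, single_mul_single]
        simp
      rw [this]
      exact h1 g _
  have h3 : ∀ c : k, il k Q (single 1 c) ∈ M := by
    intro c
    have h4 : il k Q (single 1 c * t) ∈ M := by
      apply hle
      rw [hH₀]
      exact I.mul_mem_left _ (Ideal.subset_span rfl)
    have h5 := h2 (single 1 c * t)
    have h6 : ε (single 1 c * t) = c := by
      rw [map_mul, ht, hε, MonoidAlgebra.lift_single]
      simp
    rw [h6, sub_eq_add_neg, il_add, il_neg] at h5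
    have h7 := M.mul_mem (M.inv_mem h5) h4
    have h8 : (il k Q (single 1 c * t) * (il k Q (single 1 c))⁻¹)⁻¹ * il k Q (single 1 c * t) =
      il k Q (single 1 c) := by group
    rwa [h8] at h7
  have h9 : ∀ x : MonoidAlgebra k Q, il k Q x ∈ M := by
    intro x
    have : x = (x - single 1 (ε x)) + single 1 (ε x) := by abel
    rw [this, il_add]
    exact M.mul_mem (h2 x) (h3 _)
  rw [eq_top_iff]
  intro w _
  rw [decomp k Q w]
  exact M.mul_mem (h9 _) (hir _)

end maximal


open GrigIrr in
/-- The Grigorchuk group is residually finite. -/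
theorem rfG (g : GrigIrr.G) (hg : g ≠ 1) :
    ∃ N : Subgroup GrigIrr.G, N.Normal ∧ N.index ≠ 0 ∧ g ∉ N := by
  obtain ⟨w, hw⟩ : ∃ w, (g : Equiv.Perm (List Bool)) w ≠ w := by
    by_contra hcon
    push Not at hcon
    apply hg
    apply Subtype.ext
    exact Equiv.ext hcon
  let n := w.length
  let f : GrigIrr.G →* Equiv.Perm {u : List Bool // u.length = n} :=
    { toFun := fun h => (h : Equiv.Perm (List Bool)).subtypePerm (fun x => by
        rw [len_G h.2])
      map_one' := by
        apply Equiv.ext
        intro x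
        rfl
      map_mul' := by
        intro a b
        apply Equiv.ext
        intro x
        rfl }
  have hfin : Finite {u : List Bool // u.length = n} := List.finite_length_eq Bool n
  refine ⟨f.ker, inferInstance, ?_, ?_⟩
  · rw [Subgroup.index_ker]
    exact Nat.card_pos.ne'
  · intro h
    apply hw
    have h1 := DFunLike.congr_fun (show f g = 1 from h) ⟨w, rfl⟩
    exact congrArg Subtype.val h1

theorem fgG : Group.FG GrigIrr.G := by
  rw [Group.fg_iff_subgroup_fg]
  exact (Subgroup.fg_iff _).2 ⟨{GrigIrr.a, GrigIrr.b, GrigIrr.c, GrigIrr.d}, rfl, by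
    simp⟩

/-- There is a finitely generated residually finite `2`-group with a maximal subgroup that is not
normal. -/
theorem main :
    ∃ (G : Type) (_ : Group G), Group.FG G ∧ IsPGroup 2 G ∧
      (∀ g : G, g ≠ 1 → ∃ N : Subgroup G, N.Normal ∧ N.index ≠ 0 ∧ g ∉ N) ∧
      ∃ M : Subgroup G, IsCoatom M ∧ ¬ M.Normal := by
  have hcard : Nat.card (GaloisField 2 2) = 4 := by
    rw [GaloisField.card 2 2 (by norm_num)]
    norm_num
  obtain ⟨x, hx0, hx1⟩ : ∃ x : GaloisField 2 2, x ≠ 0 ∧ x ≠ 1 := by
    by_contra hcon
    push Not at hcon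
    have hsub : (Set.univ : Set (GaloisField 2 2)) ⊆ {0, 1} := by
      intro x _
      by_cases h : x = 0
      · left; exact h
      · right; exact hcon x h
    have h1 := Set.ncard_le_ncard hsub (Set.toFinite _)
    rw [Set.ncard_univ, hcard] at h1
    have h2 : ({0, 1} : Set (GaloisField 2 2)).ncard ≤ 2 := by
      refine (Set.ncard_insert_le _ _).trans ?_
      rw [Set.ncard_singleton]
    omega
  have hfin : Finite (GaloisField 2 2) := inferInstance
  have two : (2 : GaloisField 2 2) = 0 := CharTwo.two_eq_zero
  have hfg := fgW (GaloisField 2 2) GrigIrr.G fgG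
  refine ⟨W (GaloisField 2 2) GrigIrr.G, inferInstance, hfg,
    pW (GaloisField 2 2) GrigIrr.G 2 GrigIrr.isPGroup,
    rfW (GaloisField 2 2) GrigIrr.G rfG,
    exists_nonnormal (GaloisField 2 2) GrigIrr.G hfg (GrigIrr.tt 1 0 1 x) ?_ ?_⟩
  · simp only [GrigIrr.tt, map_add, MonoidAlgebra.lift_single, MonoidHom.one_apply, smul_eq_mul,
      mul_one]
    linear_combination (1 + 1 + x) * two
  · exact GrigIrr.not_left_inv 1 0 1 x one_ne_zero
      (by rw [zero_add]; exact one_ne_zero) (by rw [zero_add]; exact hx0)
      (by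
        intro h
        apply hx1
        have : x = 1 + (1 + x) := by
          rw [← add_assoc, CharTwo.add_self_eq_zero, zero_add]
        rw [this, h, add_zero])

end Pool.Agent.Helper940.NMax
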