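import Mathlib

set_option autoImplicit false

/-!
Self-similar actions from virtual endomorphisms.
-/

namespace Pool.Agent.Helper940.VirtEnd

variable {G : Type} [Group G] (H : Subgroup G) (φ : H →* G)

/-- representative of a left coset -/
noncomputable def rep (x : G ⧸ H) : G := Quotient.out x

theorem rep_spec (x : G ⧸ H) : (QuotientGroup.mk (rep H x) : G ⧸ H) = x := QuotientGroup.out_eq' x

theorem coc_mem (g : G) (x : G ⧸ H) : (rep H (g • x))⁻¹ * (g * rep H x) ∈ H := by
  apply QuotientGroup.eq.1
  rw [rep_spec]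
  conv_lhs => rw [← rep_spec H x]
  rfl

/-- the cocycle -/
noncomputable def coc (g : G) (x : G ⧸ H) : G := φ ⟨_, coc_mem H g x⟩

theorem coc_mul (g g' : G) (x : G ⧸ H) : coc H φ (g * g') x = coc H φ g (g' • x) * coc H φ g' x := by
  unfold coc
  rw [← map_mul]
  congr 1
  apply Subtype.ext
  simp only [Subgroup.coe_mul]
  rw [mul_smul]
  group

theorem coc_one (x : G ⧸ H) : coc H φ 1 x = 1 := by
  have := coc_mul H φ 1 1 x
  rw [one_mul, one_smul] at this
  exact left_eq_mul.1 this

/-- the action on words -/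
noncomputable def act : G → List (G ⧸ H) → List (G ⧸ H)
  | _, [] => []
  | g, x :: w => (g • x) :: act (coc H φ g x) w

theorem act_one : ∀ w, act H φ 1 w = w
  | [] => rfl
  | x :: w => by
    rw [act, coc_one, act_one w, one_smul]

theorem act_mul : ∀ (g g' : G) (w : List (G ⧸ H)), act H φ (g * g') w = act H φ g (act H φ g' w)
  | _, _, [] => rfl
  | g, g', x :: w => by
    rw [act, act, act, coc_mul, act_mul _ _ w, mul_smul]

/-- the action as a homomorphism -/
noncomputable def actHom : G →* Equiv.Perm (List (G ⧸ H)) where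
  toFun g := ⟨act H φ g, act H φ g⁻¹, fun x => by rw [← act_mul, inv_mul_cancel, act_one],
    fun x => by rw [← act_mul, mul_inv_cancel, act_one]⟩
  map_one' := by ext1 x; exact act_one H φ x
  map_mul' g h := by ext1 x; exact act_mul H φ g h x

theorem actHom_cons (g : G) (x : G ⧸ H) (w : List (G ⧸ H)) :
    actHom H φ g (x :: w) = (g • x) :: actHom H φ (coc H φ g x) w := rfl

theorem ker_sections {g : G} (hg : actHom H φ g = 1) (x : G ⧸ H) :
    g • x = x ∧ actHom H φ (coc H φ g x) = 1 := by
  have h1 : ∀ w, (g • x) :: actHom H φ (coc H φ g x) w = x :: w := by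
    intro w
    rw [← actHom_cons, hg]; rfl
  constructor
  · exact (List.cons.inj (h1 [])).1
  · ext1 w
    exact (List.cons.inj (h1 w)).2

/-- The kernel is contained in `H` and is invariant under `φ`. -/
theorem ker_spec {g : G} (hg : actHom H φ g = 1) : ∃ h : g ∈ H, actHom H φ (φ ⟨g, h⟩) = 1 := by
  set r : G := rep H (QuotientGroup.mk (1 : G)) with hr
  have hconj : actHom H φ (r * g * r⁻¹) = 1 := by
    rw [map_mul, map_mul, hg, mul_one, ← map_mul, mul_inv_cancel, map_one]
  obtain ⟨h1, h2⟩ := ker_sections H φ hconj (QuotientGroup.mk (1 : G))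
  have e : (rep H ((r * g * r⁻¹) • (QuotientGroup.mk (1 : G) : G ⧸ H)))⁻¹ *
      ((r * g * r⁻¹) * rep H (QuotientGroup.mk (1 : G))) = g := by
    rw [h1, ← hr]; group
  have hmem : g ∈ H := by
    rw [← e]; exact coc_mem H _ _
  refine ⟨hmem, ?_⟩
  rw [← h2]
  congr 2
  apply Subtype.ext
  exact e.symm

end Pool.Agent.Helper940.VirtEnd
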