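import Mathlib
import Pool.Agent.Helper940.VirtEnd

set_option autoImplicit false

namespace Pool.Agent.Helper940.SL3

open Matrix Pool.Agent.Helper940.VirtEnd

abbrev S : Type := Matrix.SpecialLinearGroup (Fin 3) ℤ

theorem mul_entry (g h : S) (i j : Fin 3) :
    (g * h : S).1 i j = g.1 i 0 * h.1 0 j + g.1 i 1 * h.1 1 j + g.1 i 2 * h.1 2 j := by
  change (g.1 * h.1) i j = _
  rw [Matrix.mul_apply, Fin.sum_univ_three]

/-- matrices whose entries (0,2) and (1,2) are even -/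
def H : Subgroup S where
  carrier := {g | (2 : ℤ) ∣ g.1 0 2 ∧ (2 : ℤ) ∣ g.1 1 2}
  one_mem' := by
    constructor <;> simp
  mul_mem' := by
    rintro g h ⟨g0, g1⟩ ⟨h0, h1⟩
    constructor
    · rw [mul_entry]
      exact dvd_add (dvd_add (dvd_mul_of_dvd_right h0 _) (dvd_mul_of_dvd_right h1 _))
        (dvd_mul_of_dvd_left g0 _)
    · rw [mul_entry]
      exact dvd_add (dvd_add (dvd_mul_of_dvd_right h0 _) (dvd_mul_of_dvd_right h1 _))
        (dvd_mul_of_dvd_left g1 _)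
  inv_mem' := by
    rintro g ⟨g0, g1⟩
    have e : (g⁻¹).1 = adjugate g.1 := Matrix.SpecialLinearGroup.coe_inv g
    constructor
    · rw [e, adjugate_fin_three]
      simp only [Matrix.of_apply, Matrix.cons_val', Matrix.cons_val_zero, Matrix.cons_val]
      exact dvd_sub (dvd_mul_of_dvd_right g1 _) (dvd_mul_of_dvd_left g0 _)
    · rw [e, adjugate_fin_three]
      simp only [Matrix.of_apply, Matrix.cons_val', Matrix.cons_val_one, Matrix.cons_val]
      exact dvd_add (dvd_neg.2 (dvd_mul_of_dvd_right g1 _)) (dvd_mul_of_dvd_left g0 _)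

theorem mem_H {g : S} : g ∈ H ↔ (2 : ℤ) ∣ g.1 0 2 ∧ (2 : ℤ) ∣ g.1 1 2 := Iff.rfl

/-- conjugation by diag(1,1,2) -/
def cj (g : S) : Matrix (Fin 3) (Fin 3) ℤ :=
  !![g.1 0 0, g.1 0 1, g.1 0 2 / 2; g.1 1 0, g.1 1 1, g.1 1 2 / 2;
     2 * g.1 2 0, 2 * g.1 2 1, g.1 2 2]

theorem cj_det {g : S} (hg : g ∈ H) : (cj g).det = 1 := by
  obtain ⟨⟨c, hc⟩, ⟨d, hd⟩⟩ := hg
  have h := g.2
  rw [Matrix.det_fin_three] at h
  rw [Matrix.det_fin_three]
  unfold cj
  simp only [Matrix.of_apply, Matrix.cons_val', Matrix.cons_val_zero, Matrix.cons_val_one,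
    Matrix.cons_val, hc, hd]
  rw [hc, hd] at h
  rw [Int.mul_ediv_cancel_left c (by norm_num), Int.mul_ediv_cancel_left d (by norm_num)]
  linarith

def phi : H →* S where
  toFun g := ⟨cj g.1, cj_det g.2⟩
  map_one' := by
    apply Subtype.ext
    ext i j
    fin_cases i <;> fin_cases j <;> simp [cj]
  map_mul' g h := by
    apply Subtype.ext
    obtain ⟨g, ⟨c, hc⟩, ⟨d, hd⟩⟩ := g
    obtain ⟨h, ⟨c', hc'⟩, ⟨d', hd'⟩⟩ := h
    have e2 : ∀ x : ℤ, 2 * x / 2 = x := fun x => Int.mul_ediv_cancel_left x (by norm_num)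
    have e02 : ((g * h : S).1 0 2) / 2 = g.1 0 0 * c' + g.1 0 1 * d' + c * h.1 2 2 := by
      rw [mul_entry, hc', hd', hc, ← e2 (g.1 0 0 * c' + g.1 0 1 * d' + c * h.1 2 2)]
      congr 1; ring
    have e12 : ((g * h : S).1 1 2) / 2 = g.1 1 0 * c' + g.1 1 1 * d' + d * h.1 2 2 := by
      rw [mul_entry, hc', hd', hd, ← e2 (g.1 1 0 * c' + g.1 1 1 * d' + d * h.1 2 2)]
      congr 1; ring
    change cj (g * h) = cj g * cj h
    ext i j
    rw [Matrix.mul_apply, Fin.sum_univ_three]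
    unfold cj
    rw [e02, e12]
    fin_cases i <;> fin_cases j <;>
      simp [mul_entry, hc, hd, hc', hd'] <;> ring

theorem phi_02 (g : H) : (phi g).1 0 2 = g.1.1 0 2 / 2 := rfl
theorem phi_12 (g : H) : (phi g).1 1 2 = g.1.1 1 2 / 2 := rfl

theorem ker_dvd (n : ℕ) : ∀ g : S, actHom H phi g = 1 →
    (2 : ℤ)^n ∣ g.1 0 2 ∧ (2 : ℤ)^n ∣ g.1 1 2 := by
  induction n with
  | zero => intro g _; simp
  | succ n ih =>
    intro g hg
    obtain ⟨hmem, hφ⟩ := ker_spec H phi hg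
    obtain ⟨h0, h1⟩ := ih _ hφ
    rw [phi_02] at h0
    rw [phi_12] at h1
    obtain ⟨⟨c, hc⟩, ⟨d, hd⟩⟩ := hmem
    simp only [hc, hd, Int.mul_ediv_cancel_left _ (by norm_num : (2:ℤ) ≠ 0)] at h0 h1
    rw [hc, hd, pow_succ']
    exact ⟨mul_dvd_mul_left 2 h0, mul_dvd_mul_left 2 h1⟩

theorem eq_zero_of_pow_dvd (x : ℤ) (h : ∀ n : ℕ, (2 : ℤ)^n ∣ x) : x = 0 := by
  by_contra hx
  have h1 := Int.le_of_dvd (abs_pos.2 hx) ((dvd_abs _ _).2 (h x.natAbs))
  have h2 : (x.natAbs : ℤ) < 2 ^ x.natAbs := by exact_mod_cast Nat.lt_two_pow_self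
  rw [Int.abs_eq_natAbs] at h1
  omega

theorem ker_zero {g : S} (hg : actHom H phi g = 1) : g.1 0 2 = 0 ∧ g.1 1 2 = 0 :=
  ⟨eq_zero_of_pow_dvd _ (fun n => (ker_dvd n g hg).1),
    eq_zero_of_pow_dvd _ (fun n => (ker_dvd n g hg).2)⟩

theorem ker_conj {g p q : S} (hg : actHom H phi g = 1) (hpq : p * q = 1) :
    actHom H phi (p * g * q) = 1 := by
  rw [map_mul, map_mul, hg, mul_one, ← map_mul, hpq, map_one]

def p1 : S := ⟨!![0,1,0;0,0,1;1,0,0], by rw [Matrix.det_fin_three]; simp⟩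
def p2 : S := ⟨!![0,0,1;1,0,0;0,1,0], by rw [Matrix.det_fin_three]; simp⟩
def p3 : S := ⟨!![1,0,-1;0,1,-1;0,0,1], by rw [Matrix.det_fin_three]; simp⟩
def q3 : S := ⟨!![1,0,1;0,1,1;0,0,1], by rw [Matrix.det_fin_three]; simp⟩

theorem p1p2 : p1 * p2 = 1 := by
  apply Subtype.ext
  ext i j
  rw [mul_entry]
  fin_cases i <;> fin_cases j <;> simp [p1, p2]

theorem p2p1 : p2 * p1 = 1 := by
  apply Subtype.ext
  ext i j
  rw [mul_entry]
  fin_cases i <;> fin_cases j <;> simp [p1, p2]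

theorem p3q3 : p3 * q3 = 1 := by
  apply Subtype.ext
  ext i j
  rw [mul_entry]
  fin_cases i <;> fin_cases j <;> simp [p3, q3]

theorem injective_actHom : Function.Injective (actHom H phi) := by
  rw [injective_iff_map_eq_one]
  intro g hg
  obtain ⟨h02, h12⟩ := ker_zero hg
  have h1 := ker_zero (ker_conj hg p1p2)
  have h2 := ker_zero (ker_conj hg p2p1)
  have h3 := ker_zero (ker_conj hg p3q3)
  simp only [mul_entry] at h1 h2 h3
  simp [p1, p2] at h1
  simp [p1, p2] at h2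
  simp [p3, q3] at h3
  obtain ⟨h10, h20⟩ := h1
  obtain ⟨h21, h01⟩ := h2
  obtain ⟨e1, e2⟩ := h3
  rw [h01, h02, h20, h21] at e1
  rw [h10, h12, h20, h21] at e2
  have hd := g.2
  rw [Matrix.det_fin_three, h01, h02, h10, h12, h20, h21] at hd
  have e3 : g.1 0 0 = g.1 2 2 := by linarith
  have e4 : g.1 1 1 = g.1 2 2 := by linarith
  rw [e3, e4] at hd
  have e5 : g.1 2 2 = 1 := by
    have h6 : g.1 2 2 * (g.1 2 2 * g.1 2 2) = 1 := by linarith
    rcases Int.isUnit_iff.1 (IsUnit.of_mul_eq_one _ h6) with h | h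
    · exact h
    · rw [h] at h6; norm_num at h6
  apply Subtype.ext
  ext i j
  fin_cases i <;> fin_cases j <;>
    simp [h01, h02, h10, h12, h20, h21, e3, e4, e5]

/-- reduction modulo 2 -/
def red : S →* Matrix.SpecialLinearGroup (Fin 3) (ZMod 2) :=
  Matrix.SpecialLinearGroup.map (Int.castRingHom (ZMod 2))

theorem H_finiteIndex : H.FiniteIndex := by
  have hle : red.ker ≤ H := by
    intro g hg
    have h : red g = 1 := hg
    have h02 : ((red g).1 0 2 : ZMod 2) = 0 := by rw [h]; simp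
    have h12 : ((red g).1 1 2 : ZMod 2) = 0 := by rw [h]; simp
    have e02 : ((g.1 0 2 : ℤ) : ZMod 2) = 0 := h02
    have e12 : ((g.1 1 2 : ℤ) : ZMod 2) = 0 := h12
    exact ⟨(ZMod.intCast_zmod_eq_zero_iff_dvd _ 2).1 e02,
      (ZMod.intCast_zmod_eq_zero_iff_dvd _ 2).1 e12⟩
  have : red.ker.FiniteIndex := inferInstance
  exact Subgroup.finiteIndex_of_le hle

theorem H_ne_top : H ≠ ⊤ := by
  intro h
  have : q3 ∈ H := by rw [h]; trivial
  have h2 : (2 : ℤ) ∣ q3.1 0 2 := this.1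
  simp [q3] at h2

end Pool.Agent.Helper940.SL3
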