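import Mathlib
import Pool.Agent.Helper940.NonAmen

set_option autoImplicit false

namespace Pool.Agent.Helper940.TorsTree

open Pool.Agent.Helper940.NonAmen

/-- a homomorphism to permutations from an action -/
def homOfAct {G α : Type*} [Group G] (act : G → α → α) (h1 : ∀ x, act 1 x = x)
    (hmul : ∀ g h x, act (g * h) x = act g (act h x)) : G →* Equiv.Perm α where
  toFun g := ⟨act g, act g⁻¹, fun x => by rw [← hmul, inv_mul_cancel, h1],
    fun x => by rw [← hmul, mul_inv_cancel, h1]⟩
  map_one' := by ext x; exact h1 x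
  map_mul' g h := by ext x; exact hmul g h x

abbrev C : Type := Multiplicative (ZMod 2)

/-- the alphabet: two binary letters and two separators -/
abbrev Lt : Type := C ⊕ Bool

abbrev P : Type := Equiv.Perm (List Lt)

section wr

variable {D : Type} [Group D]

def wrF (φ : D →* P) (a : RegularWreathProduct D C) : List Lt → List Lt
  | [] => []
  | Sum.inl q :: w => Sum.inl (a.right * q) :: φ (a.left (a.right * q)) w
  | Sum.inr c :: w => Sum.inr c :: w

/-- the action of a wreath product on words -/
def wr (φ : D →* P) : RegularWreathProduct D C →* P :=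
  homOfAct (wrF φ)
    (by
      intro x
      match x with
      | [] => rfl
      | Sum.inl q :: w => simp [wrF]
      | Sum.inr c :: w => rfl)
    (by
      intro g h x
      match x with
      | [] => rfl
      | Sum.inl q :: w => simp [wrF, mul_assoc]
      | Sum.inr c :: w => rfl)

theorem wr_inl (φ : D →* P) (a : RegularWreathProduct D C) (q : C) (w : List Lt) :
    wr φ a (Sum.inl q :: w) = Sum.inl (a.right * q) :: φ (a.left (a.right * q)) w := rfl

theorem wr_inr (φ : D →* P) (a : RegularWreathProduct D C) (c : Bool) (w : List Lt) :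
    wr φ a (Sum.inr c :: w) = Sum.inr c :: w := rfl

theorem wr_nil (φ : D →* P) (a : RegularWreathProduct D C) : wr φ a [] = [] := rfl

theorem wr_injective (φ : D →* P) (hφ : Function.Injective φ) : Function.Injective (wr φ) := by
  rw [injective_iff_map_eq_one]
  intro a ha
  have hr : a.right = 1 := by
    have h0 := congrArg (fun g : P => g (Sum.inl 1 :: [])) ha
    simp only [wr_inl] at h0
    have h1 := (List.cons.inj h0).1
    rw [mul_one] at h1
    exact Sum.inl.inj h1
  ext q
  · have h1 : φ (a.left q) = 1 := by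
      ext1 w
      have := congrArg (fun g : P => g (Sum.inl q :: w)) ha
      simp only [wr_inl, hr, one_mul] at this
      simpa using this
    have h2 : a.left q = 1 := hφ (by rw [h1, map_one])
    rw [h2]; rfl
  · exact congrArg _ hr

end wr

/-- the action of the iterated wreath products -/
def Phi : (n : ℕ) → (IteratedWreathProduct C n →* P)
  | 0 => 1
  | n + 1 => wr (Phi n)

theorem Phi_injective : (n : ℕ) → Function.Injective (Phi n)
  | 0 => by
      simp only [IteratedWreathProduct_zero]
      apply Function.injective_of_subsingleton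
  | n + 1 => wr_injective _ (Phi_injective n)

theorem Phi_succ (n : ℕ) (a : IteratedWreathProduct C n) :
    ∃ a' : IteratedWreathProduct C (n+1), Phi (n+1) a' = Phi n a := by
  induction n with
  | zero =>
    refine ⟨1, ?_⟩
    rw [map_one]
    rfl
  | succ n ih =>
    choose f hf using ih
    let a0 : RegularWreathProduct (IteratedWreathProduct C n) C := a
    refine ⟨(⟨fun q => f (a0.left q), a0.right⟩ : RegularWreathProduct
      (IteratedWreathProduct C (n+1)) C), ?_⟩
    apply Equiv.ext
    intro x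
    match x with
    | [] => rfl
    | Sum.inl q :: w =>
      change Sum.inl (a0.right * q) :: (Phi (n+1)) (f (a0.left (a0.right * q))) w =
        Sum.inl (a0.right * q) :: (Phi n) (a0.left (a0.right * q)) w
      rw [hf]
    | Sum.inr c :: w => rfl

theorem Phi_le {m n : ℕ} (h : m ≤ n) (a : IteratedWreathProduct C m) :
    ∃ a' : IteratedWreathProduct C n, Phi n a' = Phi m a := by
  induction h with
  | refl => exact ⟨a, rfl⟩
  | step _ ih =>
    obtain ⟨a', ha'⟩ := ih
    obtain ⟨a'', ha''⟩ := Phi_succ _ a'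
    exact ⟨a'', ha''.trans ha'⟩

/-- the finitary binary tree automorphisms -/
def W : Subgroup P where
  carrier := {g | ∃ n, ∃ a : IteratedWreathProduct C n, Phi n a = g}
  one_mem' := ⟨0, 1, map_one _⟩
  mul_mem' := by
    rintro g h ⟨n, a, rfl⟩ ⟨m, b, rfl⟩
    obtain ⟨a', ha'⟩ := Phi_le (le_max_left n m) a
    obtain ⟨b', hb'⟩ := Phi_le (le_max_right n m) b
    exact ⟨max n m, a' * b', by rw [map_mul, ha', hb']⟩
  inv_mem' := by
    rintro g ⟨n, a, rfl⟩
    exact ⟨n, a⁻¹, map_inv _ _⟩

theorem mem_W {g : P} : g ∈ W ↔ ∃ n, ∃ a : IteratedWreathProduct C n, Phi n a = g := Iff.rfl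

theorem W_nil {g : P} (hg : g ∈ W) : g [] = [] := by
  obtain ⟨n, a, rfl⟩ := hg
  cases n with
  | zero => rfl
  | succ n => rfl

theorem W_inr {g : P} (hg : g ∈ W) (c : Bool) (w : List Lt) :
    g (Sum.inr c :: w) = Sum.inr c :: w := by
  obtain ⟨n, a, rfl⟩ := hg
  cases n with
  | zero => rfl
  | succ n => rfl

theorem W_inl {g : P} (hg : g ∈ W) (q : C) :
    ∃ q' : C, ∃ h ∈ W, ∀ w : List Lt, g (Sum.inl q :: w) = Sum.inl q' :: h w := by
  obtain ⟨n, a, rfl⟩ := hg
  cases n with
  | zero => exact ⟨q, 1, W.one_mem, fun w => rfl⟩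
  | succ n =>
    let a0 : RegularWreathProduct (IteratedWreathProduct C n) C := a
    exact ⟨a0.right * q, Phi n (a0.left (a0.right * q)), ⟨n, _, rfl⟩, fun w => rfl⟩

theorem W_tors {g : P} (hg : g ∈ W) : ∃ n : ℕ, 0 < n ∧ g ^ n = 1 := by
  obtain ⟨n, a, rfl⟩ := hg
  refine ⟨Nat.card (IteratedWreathProduct C n), Nat.card_pos, ?_⟩
  rw [← map_pow, pow_card_eq_one', map_one]

def UF : List Lt → (ℕ → P) → List Lt
  | [], _ => []
  | Sum.inl q :: w, _ => Sum.inl q :: w
  | Sum.inr false :: w, f => Sum.inr false :: UF w (fun i => f (i+1))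
  | Sum.inr true :: w, f => Sum.inr true :: f 0 w

theorem UF_one : ∀ w : List Lt, UF w 1 = w
  | [] => rfl
  | Sum.inl q :: w => rfl
  | Sum.inr false :: w => by
    rw [UF]
    have := UF_one w
    exact congrArg _ this
  | Sum.inr true :: w => rfl

theorem UF_mul : ∀ (w : List Lt) (f g : ℕ → P), UF w (f * g) = UF (UF w g) f
  | [], _, _ => rfl
  | Sum.inl q :: w, _, _ => rfl
  | Sum.inr false :: w, f, g => by
    rw [UF, UF, UF]
    have := UF_mul w (fun i => f (i+1)) (fun i => g (i+1))
    exact congrArg _ this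
  | Sum.inr true :: w, f, g => rfl

/-- a sequence of permutations acting behind the words `s^i e` -/
def U : (ℕ → P) →* P :=
  homOfAct (fun f w => UF w f) UF_one (fun f g w => UF_mul w f g)

theorem U_nil (f : ℕ → P) : U f [] = [] := rfl
theorem U_inl (f : ℕ → P) (q : C) (w : List Lt) : U f (Sum.inl q :: w) = Sum.inl q :: w := rfl
theorem U_s (f : ℕ → P) (w : List Lt) :
    U f (Sum.inr false :: w) = Sum.inr false :: U (fun i => f (i+1)) w := rfl
theorem U_e (f : ℕ → P) (w : List Lt) :
    U f (Sum.inr true :: w) = Sum.inr true :: f 0 w := rfl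

theorem U_inr (f : ℕ → P) (c : Bool) (w : List Lt) :
    ∃ w', U f (Sum.inr c :: w) = Sum.inr c :: w' := by
  cases c
  · exact ⟨_, U_s f w⟩
  · exact ⟨_, U_e f w⟩

theorem commute_W_U {g : P} (hg : g ∈ W) (f : ℕ → P) : Commute g (U f) := by
  apply Equiv.ext
  intro x
  rw [Equiv.Perm.mul_apply, Equiv.Perm.mul_apply]
  match x with
  | [] => rw [U_nil, W_nil hg, U_nil]
  | Sum.inl q :: w =>
    obtain ⟨q', h, -, e⟩ := W_inl hg q
    rw [U_inl, e, U_inl]
  | Sum.inr c :: w =>
    obtain ⟨w', hw'⟩ := U_inr f c w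
    rw [W_inr hg, hw', W_inr hg]

/-! ### the enumerated homomorphisms -/

theorem isPGroup_iter (n : ℕ) : IsPGroup 2 (IteratedWreathProduct C n) := by
  apply IsPGroup.of_card (n := ∑ i ∈ Finset.range n, Nat.card C ^ i)
  rw [IteratedWreathProduct.card]
  congr 1
  simp

/-- pairs of a level and a good homomorphism to the iterated wreath product -/
def R : Type := Σ n : ℕ, {ρ : F →* IteratedWreathProduct C n // Good ρ}

instance : Nonempty R := ⟨⟨0, 1, fun _ => rfl⟩⟩

instance : Countable R := by
  unfold R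
  have : ∀ n, Countable {ρ : F →* IteratedWreathProduct C n // Good ρ} := by
    intro n
    have h1 : Finite (F →* IteratedWreathProduct C n) :=
      Finite.of_equiv (Fin 2 → IteratedWreathProduct C n) FreeGroup.lift
    infer_instance
  infer_instance

noncomputable def enR : ℕ → R := (exists_surjective_nat R).choose
theorem enR_surj : Function.Surjective enR := (exists_surjective_nat R).choose_spec

noncomputable def rho (l : ℕ) : F →* P := (Phi (enR l).1).comp (enR l).2.1

theorem rho_mem_W (l : ℕ) (w : F) : rho l w ∈ W := ⟨(enR l).1, (enR l).2.1 w, rfl⟩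

theorem rho_good (l : ℕ) : ∀ i, rho l (en i) ^ (2^(i+2)) = 1 := by
  intro i
  unfold rho
  rw [MonoidHom.comp_apply, ← map_pow, (enR l).2.2 i, map_one]

theorem rho_of_mem (l : ℕ) {w : F} (hw : w ∈ Rhat) : rho l w = 1 := by
  unfold rho
  rw [MonoidHom.comp_apply, hw _ (isPGroup_iter _) _ (enR l).2.2, map_one]

theorem exists_embedding (Q : Type) [Group Q] [Finite Q] (hQ : IsPGroup 2 Q) :
    ∃ (n : ℕ) (j : Q →* IteratedWreathProduct C n), Function.Injective j := by
  have : Fact (Nat.Prime 2) := ⟨Nat.prime_two⟩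
  obtain ⟨n, hn⟩ := IsPGroup.iff_card.1 hQ
  let c : Q →* Equiv.Perm Q := MulAction.toPermHom Q Q
  have hc : Function.Injective c := MulAction.toPerm_injective
  have hp : IsPGroup 2 c.range := hQ.of_surjective c.rangeRestrict c.rangeRestrict_surjective
  obtain ⟨S, hS⟩ := hp.exists_le_sylow
  let eq := Sylow.mulEquivIteratedWreathProduct 2 n Q hn C (by simp) S
  refine ⟨n, eq.toMonoidHom.comp ((Subgroup.inclusion hS).comp c.rangeRestrict), ?_⟩
  intro a b hab
  apply hc
  have h1 := eq.injective hab
  have h2 := Subgroup.inclusion_injective hS h1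
  exact congrArg Subtype.val h2

theorem rho_of_notMem {w : F} (hw : w ∉ Rhat) : ∃ l, rho l w ≠ 1 := by
  rw [mem_Rhat] at hw
  push Not at hw
  obtain ⟨Q, _, _, hQ, ρ, hρ, hne⟩ := hw
  obtain ⟨n, j, hj⟩ := exists_embedding Q hQ
  obtain ⟨l, hl⟩ := enR_surj ⟨n, j.comp ρ, hρ.comp j⟩
  refine ⟨l, fun h => hne ?_⟩
  have h1 : ∀ r : R, r = ⟨n, j.comp ρ, hρ.comp j⟩ → (Phi r.1).comp r.2.1 = (Phi n).comp (j.comp ρ) := by
    rintro r rfl; rfl
  have h2 : rho l = (Phi n).comp (j.comp ρ) := h1 _ hl
  rw [h2, MonoidHom.comp_apply, MonoidHom.comp_apply] at h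
  apply hj
  apply Phi_injective n
  rw [h, map_one, map_one]

end Pool.Agent.Helper940.TorsTree
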