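import Mathlib
import Pool.Agent.Helper940.NonAmen
import Pool.Agent.Helper940.NonAmen3
import Pool.Agent.Helper940.NoMean
import Pool.Agent.Helper940.TorsTree

set_option autoImplicit false

namespace Pool.Agent.Helper940.TorsTree

open Pool.Agent.Helper940.NonAmen

/-- the element acting behind `s^i e s^l e` -/
noncomputable def kk (g : ℕ → F) (i l : ℕ) : P := if i ≤ l then rho l (g (l - i)) else 1

theorem kk_mem (g : ℕ → F) (i l : ℕ) : kk g i l ∈ W := by
  unfold kk
  split_ifs
  · exact rho_mem_W _ _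
  · exact W.one_mem

theorem kk_mul (g g' : ℕ → F) (i : ℕ) : kk (g * g') i = kk g i * kk g' i := by
  funext l
  simp only [kk, Pi.mul_apply]
  split_ifs
  · rw [map_mul]
  · simp

theorem kk_inv (g : ℕ → F) (i : ℕ) : kk g⁻¹ i = (kk g i)⁻¹ := by
  funext l
  simp only [kk, Pi.inv_apply]
  split_ifs
  · rw [map_inv]
  · simp

theorem kk_one (i : ℕ) : kk 1 i = 1 := by
  funext l
  simp only [kk, Pi.one_apply]
  split_ifs
  · rw [map_one]
  · simp

/-- the sequence acting behind `s^i e` -/
noncomputable def vv (h : ℕ → P) (g : ℕ → F) (i : ℕ) : P := h i * U (kk g i)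

/-- the general element -/
noncomputable def Psi (w : P) (h : ℕ → P) (g : ℕ → F) : P := w * U (vv h g)

/-- parameters are admissible -/
def Adm (w : P) (h : ℕ → P) (g : ℕ → F) : Prop :=
  w ∈ W ∧ (∀ i, h i ∈ W) ∧ {i | h i ≠ 1}.Finite ∧ {j | g j ≠ 1}.Finite

theorem Adm.one : Adm 1 1 1 := ⟨W.one_mem, fun _ => W.one_mem, by simp, by simp⟩

theorem Adm.mul {w w' : P} {h h' : ℕ → P} {g g' : ℕ → F} (a : Adm w h g) (a' : Adm w' h' g') :
    Adm (w * w') (h * h') (g * g') := by
  refine ⟨W.mul_mem a.1 a'.1, fun i => W.mul_mem (a.2.1 i) (a'.2.1 i), ?_, ?_⟩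
  · refine (a.2.2.1.union a'.2.2.1).subset (fun i hi => ?_)
    by_contra hcon
    simp only [Set.mem_union, Set.mem_ofPred_eq, not_or, not_not] at hcon
    apply hi
    rw [Pi.mul_apply, hcon.1, hcon.2, one_mul]
  · refine (a.2.2.2.union a'.2.2.2).subset (fun i hi => ?_)
    by_contra hcon
    simp only [Set.mem_union, Set.mem_ofPred_eq, not_or, not_not] at hcon
    apply hi
    rw [Pi.mul_apply, hcon.1, hcon.2, one_mul]

theorem Adm.inv {w : P} {h : ℕ → P} {g : ℕ → F} (a : Adm w h g) : Adm w⁻¹ h⁻¹ g⁻¹ := by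
  refine ⟨W.inv_mem a.1, fun i => W.inv_mem (a.2.1 i), ?_, ?_⟩
  · simpa using a.2.2.1
  · simpa using a.2.2.2

theorem vv_mul {h h' : ℕ → P} (g g' : ℕ → F) (hh' : ∀ i, h' i ∈ W) :
    vv (h * h') (g * g') = vv h g * vv h' g' := by
  funext i
  simp only [vv, Pi.mul_apply]
  rw [kk_mul, map_mul]
  have := (commute_W_U (hh' i) (kk g i)).eq
  calc h i * h' i * (U (kk g i) * U (kk g' i)) = h i * (h' i * U (kk g i)) * U (kk g' i) := by group
    _ = h i * (U (kk g i) * h' i) * U (kk g' i) := by rw [this]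
    _ = _ := by group

theorem Psi_mul {w w' : P} {h h' : ℕ → P} {g g' : ℕ → F} (a' : Adm w' h' g') :
    Psi (w * w') (h * h') (g * g') = Psi w h g * Psi w' h' g' := by
  unfold Psi
  rw [vv_mul g g' a'.2.1, map_mul]
  have := (commute_W_U a'.1 (vv h g)).eq
  calc w * w' * (U (vv h g) * U (vv h' g')) = w * (w' * U (vv h g)) * U (vv h' g') := by group
    _ = w * (U (vv h g) * w') * U (vv h' g') := by rw [this]
    _ = _ := by group

theorem vv_one : vv 1 1 = 1 := by
  funext i
  simp [vv, kk_one]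

theorem Psi_one : Psi 1 1 1 = 1 := by
  unfold Psi
  rw [vv_one, map_one, one_mul]

theorem Psi_inv {w : P} {h : ℕ → P} {g : ℕ → F} (a : Adm w h g) :
    Psi w⁻¹ h⁻¹ g⁻¹ = (Psi w h g)⁻¹ := by
  rw [eq_inv_iff_mul_eq_one, ← Psi_mul a]
  simp [Psi_one]

theorem Psi_pow {w : P} {h : ℕ → P} {g : ℕ → F} (a : Adm w h g) (n : ℕ) :
    Adm (w^n) (h^n) (g^n) ∧ Psi (w^n) (h^n) (g^n) = Psi w h g ^ n := by
  induction n with
  | zero => simpa using ⟨Adm.one, Psi_one⟩
  | succ n ih =>
    rw [pow_succ, pow_succ, pow_succ, pow_succ]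
    exact ⟨ih.1.mul a, by rw [Psi_mul a, ih.2]⟩

/-- The group. -/
def G : Subgroup P where
  carrier := {x | ∃ w h g, Adm w h g ∧ x = Psi w h g}
  one_mem' := ⟨1, 1, 1, Adm.one, Psi_one.symm⟩
  mul_mem' := by
    rintro x y ⟨w, h, g, a, rfl⟩ ⟨w', h', g', a', rfl⟩
    exact ⟨_, _, _, a.mul a', (Psi_mul a').symm⟩
  inv_mem' := by
    rintro x ⟨w, h, g, a, rfl⟩
    exact ⟨_, _, _, a.inv, (Psi_inv a).symm⟩

theorem mem_G_of_adm {w : P} {h : ℕ → P} {g : ℕ → F} (a : Adm w h g) : Psi w h g ∈ G :=
  ⟨w, h, g, a, rfl⟩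

theorem U_one' : U (fun _ => 1) = 1 := map_one U

/-- closure under sections -/
theorem G_sections {x : P} (hx : x ∈ G) (c : Lt) :
    ∃ y ∈ G, ∃ d : Lt, ∀ u : List Lt, x (c :: u) = d :: y u := by
  obtain ⟨w, h, g, a, rfl⟩ := hx
  rcases c with q | c
  · obtain ⟨q', v, hv, e⟩ := W_inl a.1 q
    refine ⟨Psi v 1 1, mem_G_of_adm ⟨hv, fun _ => W.one_mem, by simp, by simp⟩, Sum.inl q', ?_⟩
    intro u
    unfold Psi
    rw [Equiv.Perm.mul_apply, U_inl, e, vv_one, map_one, mul_one]
  · cases c
    · -- the letter s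
      refine ⟨Psi 1 (fun i => h (i+1)) (fun j => Nat.casesOn j 1 g), mem_G_of_adm
        ⟨W.one_mem, fun i => a.2.1 (i+1), ?_, ?_⟩, Sum.inr false, ?_⟩
      · exact (a.2.2.1.preimage (fun _ _ _ _ hab => Nat.succ_injective hab)).subset
          (fun i hi => hi)
      · refine ((a.2.2.2.image Nat.succ)).subset (fun j hj => ?_)
        cases j with
        | zero => exact absurd rfl hj
        | succ j => exact ⟨j, hj, rfl⟩
      · intro u
        unfold Psi
        rw [Equiv.Perm.mul_apply, U_s, W_inr a.1, one_mul]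
        have : (fun i => vv h g (i+1)) = vv (fun i => h (i+1)) (fun j => Nat.casesOn j 1 g) := by
          funext i
          simp only [vv]
          congr 2
          funext l
          simp only [kk]
          by_cases h1 : i + 1 ≤ l
          · rw [if_pos h1, if_pos (by omega)]
            have : l - i = (l - (i+1)) + 1 := by omega
            rw [this]
          · by_cases h2 : i ≤ l
            · rw [if_neg h1, if_pos h2]
              have : l - i = 0 := by omega
              rw [this]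
              simp
            · rw [if_neg h1, if_neg h2]
        rw [this]
    · -- the letter e
      refine ⟨Psi (h 0) (kk g 0) 1, mem_G_of_adm
        ⟨a.2.1 0, fun i => kk_mem g 0 i, ?_, by simp⟩, Sum.inr true, ?_⟩
      · refine a.2.2.2.subset (fun i hi => ?_)
        intro h1
        apply hi
        simp [kk, h1]
      · intro u
        unfold Psi
        rw [Equiv.Perm.mul_apply, U_e, W_inr a.1]
        have : vv (kk g 0) 1 = kk g 0 := by
          funext i
          simp [vv, kk_one]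
        rw [this]
        rfl

/-- every element has finite order -/
theorem G_torsion {x : P} (hx : x ∈ G) : ∃ n : ℕ, 0 < n ∧ x ^ n = 1 := by
  obtain ⟨w, h, g, a, rfl⟩ := hx
  obtain ⟨n1, hn1, e1⟩ := W_tors a.1
  -- exponent for h
  have hh : ∃ n2 : ℕ, 0 < n2 ∧ ∀ i, h i ^ n2 = 1 := by
    choose f hf0 hf using fun i => W_tors (a.2.1 i)
    refine ⟨∏ i ∈ a.2.2.1.toFinset, f i, Finset.prod_pos (fun i _ => hf0 i), fun i => ?_⟩
    by_cases hi : h i = 1
    · rw [hi, one_pow]
    · have hmem : i ∈ a.2.2.1.toFinset := by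
        rw [Set.Finite.mem_toFinset]; exact hi
      obtain ⟨c, hc⟩ := Finset.dvd_prod_of_mem f hmem
      rw [hc, pow_mul, hf, one_pow]
  have hg : ∃ n3 : ℕ, 0 < n3 ∧ ∀ j l, rho l (g j ^ n3) = 1 := by
    have h1 : ∀ j, ∃ m : ℕ, 0 < m ∧ ∀ l, rho l (g j ^ m) = 1 := by
      intro j
      obtain ⟨i, hi⟩ := en_surj (g j)
      refine ⟨2^(i+2), by positivity, fun l => ?_⟩
      rw [← hi, map_pow, rho_good]
    choose f hf0 hf using h1
    refine ⟨∏ j ∈ a.2.2.2.toFinset, f j, Finset.prod_pos (fun i _ => hf0 i), fun j l => ?_⟩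
    by_cases hj : g j = 1
    · rw [hj, one_pow, map_one]
    · have hmem : j ∈ a.2.2.2.toFinset := by
        rw [Set.Finite.mem_toFinset]; exact hj
      obtain ⟨c, hc⟩ := Finset.dvd_prod_of_mem f hmem
      rw [hc, pow_mul, map_pow, hf, one_pow]
  obtain ⟨n2, hn2, e2⟩ := hh
  obtain ⟨n3, hn3, e3⟩ := hg
  refine ⟨n1 * n2 * n3, by positivity, ?_⟩
  rw [← (Psi_pow a _).2]
  have hw : w ^ (n1 * n2 * n3) = 1 := by
    rw [mul_assoc, pow_mul, e1, one_pow]
  have hh' : h ^ (n1 * n2 * n3) = 1 := by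
    funext i
    rw [Pi.pow_apply, mul_comm n1 n2, mul_assoc, pow_mul, e2, one_pow]
    rfl
  have hk : ∀ i, kk (g ^ (n1 * n2 * n3)) i = 1 := by
    intro i
    funext l
    simp only [kk, Pi.pow_apply]
    split_ifs
    · rw [mul_comm (n1 * n2) n3, pow_mul, map_pow, e3, one_pow]
      rfl
    · rfl
  unfold Psi
  have : vv (h ^ (n1 * n2 * n3)) (g ^ (n1 * n2 * n3)) = 1 := by
    funext i
    simp only [vv]
    rw [hk, hh', map_one]
    rfl
  rw [this, hw, map_one, one_mul]

theorem single_finite (x : F) : {j | (Pi.mulSingle 0 x : ℕ → F) j ≠ 1}.Finite := by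
  refine (Set.finite_singleton 0).subset (fun j hj => ?_)
  by_contra hne
  have hne' : j ≠ 0 := hne
  apply hj
  simp [Pi.mulSingle, Function.update, hne']

/-- embedding of the free group quotient -/
noncomputable def theta : F →* G where
  toFun x := ⟨Psi 1 1 (Pi.mulSingle 0 x), mem_G_of_adm ⟨W.one_mem, fun _ => W.one_mem, by simp,
    single_finite x⟩⟩
  map_one' := by
    apply Subtype.ext
    simp [Psi_one]
  map_mul' x y := by
    apply Subtype.ext
    change Psi 1 1 (Pi.mulSingle 0 (x * y)) = Psi 1 1 (Pi.mulSingle 0 x) * Psi 1 1 (Pi.mulSingle 0 y)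
    rw [← Psi_mul]
    · simp [Pi.mulSingle_mul]
    · exact ⟨W.one_mem, fun _ => W.one_mem, by simp, single_finite y⟩

/-- the word `s^i` followed by `w` -/
theorem U_rep (f : ℕ → P) (i : ℕ) (w : List Lt) :
    U f (List.replicate i (Sum.inr false) ++ Sum.inr true :: w) =
      List.replicate i (Sum.inr false) ++ Sum.inr true :: f i w := by
  induction i generalizing f with
  | zero => exact U_e f w
  | succ i ih =>
    rw [List.replicate_succ, List.cons_append, U_s, ih]
    rfl

theorem theta_ker (x : F) : theta x = 1 ↔ x ∈ Rhat := by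
  constructor
  · intro h
    by_contra hx
    obtain ⟨l, hl⟩ := rho_of_notMem hx
    apply hl
    have h0 : Psi 1 1 (Pi.mulSingle 0 x) = 1 := congrArg Subtype.val h
    ext1 u
    have h1 := congrArg (fun p : P => p (List.replicate l (Sum.inr false) ++ Sum.inr true ::
      (List.replicate l (Sum.inr false) ++ Sum.inr true :: u))) h0
    simp only [Psi, one_mul, U_rep, Equiv.Perm.one_apply, vv, Pi.one_apply] at h1
    have h2 := List.append_cancel_left h1
    have h3 := (List.cons.inj h2).2
    have h4 := List.append_cancel_left h3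
    have h5 := (List.cons.inj h4).2
    simpa [kk] using h5
  · intro hx
    apply Subtype.ext
    change Psi 1 1 (Pi.mulSingle 0 x) = 1
    unfold Psi
    have : vv 1 (Pi.mulSingle 0 x) = 1 := by
      funext i
      simp only [vv]
      have hk : kk (Pi.mulSingle 0 x) i = 1 := by
        funext l
        simp only [kk]
        split_ifs with h
        · by_cases hz : l - i = 0
          · rw [hz, Pi.mulSingle_eq_same, rho_of_mem l hx]; rfl
          · rw [Pi.mulSingle_eq_of_ne hz, map_one]; rfl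
        · rfl
      rw [hk, map_one]
      rfl
    rw [this, map_one, one_mul]

/-- the embedding of the quotient group -/
noncomputable def iota : (F ⧸ Rhat) →* G :=
  QuotientGroup.lift Rhat theta (fun x hx => (theta_ker x).2 hx)

theorem iota_injective : Function.Injective iota := by
  rw [injective_iff_map_eq_one]
  intro a ha
  obtain ⟨x, rfl⟩ := QuotientGroup.mk_surjective a
  have : theta x = 1 := ha
  exact (QuotientGroup.eq_one_iff x).2 ((theta_ker x).1 this)

end Pool.Agent.Helper940.TorsTree
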